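import Pool.Agent.Zk10.R7

/-!
The tower for the subgroups of a finite `p`-group.
-/

set_option autoImplicit false
set_option linter.unusedVariables false
set_option linter.unusedSectionVars false

universe u

namespace Pool.Agent.Zk10.Ram

open Pool.Agent.W558 Pool.Agent.W435.WT.Gal nonZeroDivisors Polynomial Pool.Agent.Zk10

section grp

lemma equiv_zmod {p : ℕ} [Fact p.Prime] {Q : Type} [Group Q] (hQ : Nat.card Q = p) :
    Nonempty (Q ≃* Multiplicative (ZMod p)) := by
  subst hQ
  have h : IsCyclic Q := isCyclic_of_prime_card rfl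
  exact ⟨(zmodCyclicMulEquiv h).symm⟩

/-- Characters of subgroups of a finite `p`-group. -/
lemma exists_char (p : ℕ) [Fact p.Prime] {G : Type} [Group G] [Finite G] (hG : IsPGroup p G)
    (H : Subgroup G) (hH : H ≠ ⊤) : ∃ (H1 : Subgroup G) (χ : G → ZMod p), H < H1 ∧
      (∀ g ∈ H1, ∀ h ∈ H1, χ (g * h) = χ g + χ h) ∧ ∀ g ∈ H1, χ g = 0 ↔ g ∈ H := by
  classical
  have hp : p.Prime := Fact.out
  obtain ⟨m, hm⟩ := IsPGroup.iff_card.1 hG
  obtain ⟨n, hn⟩ := IsPGroup.iff_card.1 (hG.to_subgroup H)
  have hnm : n < m := by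
    have h1 : Nat.card H < Nat.card G := by
      refine lt_of_le_of_ne (Nat.card_le_card_of_injective _ H.subtype_injective) ?_
      intro h
      exact hH (Subgroup.eq_top_of_card_eq H h)
    rw [hm, hn] at h1
    exact (Nat.pow_lt_pow_iff_right hp.one_lt).1 h1
  obtain ⟨H1, hc1, hle⟩ := Sylow.exists_subgroup_card_pow_succ (n := n) (H := H)
    (by rw [hm]; exact pow_dvd_pow p hnm) hn
  have hidx : (H.subgroupOf H1).index = p := by
    have h1 := (H.subgroupOf H1).card_mul_index
    have h2 : Nat.card (H.subgroupOf H1) = p ^ n := by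
      rw [← hn]
      exact Nat.card_congr (Subgroup.subgroupOfEquivOfLe hle).toEquiv
    rw [h2, hc1, pow_succ] at h1
    exact Nat.eq_of_mul_eq_mul_left (pow_pos hp.pos n) h1
  have hnor : (H.subgroupOf H1).Normal := by
    apply Subgroup.normal_of_index_eq_minFac_card
    rw [hidx, hc1, hp.pow_minFac (Nat.succ_ne_zero n)]
  obtain ⟨f⟩ := equiv_zmod (p := p) (Q := H1 ⧸ H.subgroupOf H1) hidx
  let χ : G → ZMod p := fun g => if h : g ∈ H1 then
    Multiplicative.toAdd (f (QuotientGroup.mk' _ ⟨g, h⟩)) else 0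
  have hχ : ∀ g (h : g ∈ H1), χ g = Multiplicative.toAdd (f (QuotientGroup.mk' _ ⟨g, h⟩)) :=
    fun g h => dif_pos h
  refine ⟨H1, χ, lt_of_le_of_ne hle ?_, ?_, ?_⟩
  · rintro rfl
    rw [hc1] at hn
    have := Nat.pow_right_injective hp.two_le hn
    omega
  · intro g hg h hh
    rw [hχ _ hg, hχ _ hh, hχ _ (H1.mul_mem hg hh), ← toAdd_mul, ← map_mul, ← map_mul]
    rfl
  · intro g hg
    rw [hχ _ hg, toAdd_eq_zero, map_eq_one_iff f f.injective, QuotientGroup.mk'_apply,
      QuotientGroup.eq_one_iff]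
    exact Subgroup.mem_subgroupOf

end grp

section gal

variable {k M : Type u} [Field k] [Field M] [Algebra k M] {G : Type} [Group G] [Finite G]
  (τ : G →* (M ≃ₐ[k] M)) (hinj : Function.Injective τ)

lemma fixH_anti {H H' : Subgroup G} (h : H' ≤ H) : fixH τ H ≤ fixH τ H' :=
  fun _ hy g hg => hy g (h hg)

include hinj in
/-- Generators of the fixed fields. -/
lemma fix_adjoin {H H' : Subgroup G} (hle : H' ≤ H) {z : M}
    (hz : ∀ h ∈ H, τ h z = z → h ∈ H') (K1 : IntermediateField k M) (h1 : fixH τ H ≤ K1)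
    (h2 : z ∈ K1) : fixH τ H' ≤ K1 := by
  classical
  let _ : MulSemiringAction H M := MulSemiringAction.compHom M (τ.comp H.subtype)
  have hsm : ∀ (h : H) (x : M), h • x = τ h.1 x := fun h x => rfl
  have hF : FaithfulSMul H M := by
    constructor
    intro a b hab
    apply Subtype.ext
    apply hinj
    apply AlgEquiv.ext
    intro x
    exact hab x
  let L0 := FixedPoints.subfield H M
  have hL0 : ∀ x : M, x ∈ L0 → x ∈ fixH τ H := fun x hx g hg => hx ⟨g, hg⟩
  let F : IntermediateField L0 M := IntermediateField.adjoin L0 {z}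
  have hFK : ∀ x ∈ F, x ∈ K1 := by
    intro x hx
    induction hx using IntermediateField.adjoin_induction with
    | mem x hx =>
      rw [Set.mem_singleton_iff] at hx
      rw [hx]
      exact h2
    | algebraMap x => exact h1 (hL0 x x.2)
    | add x y _ _ h3 h4 => exact add_mem h3 h4
    | inv x _ h3 => exact inv_mem h3
    | mul x y _ _ h3 h4 => exact mul_mem h3 h4
  intro y hy
  apply hFK
  have hbot : y ∈ (⊥ : IntermediateField F M) := by
    rw [IsGalois.mem_bot_iff_fixed]
    intro s
    obtain ⟨h, hh⟩ := (FixedPoints.toAlgAut_bijective H M).surjective (s.restrictScalars L0)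
    have h3 : ∀ x : M, s x = τ h.1 x := by
      intro x
      have h4 := DFunLike.congr_fun hh x
      exact h4.symm
    have h5 : τ h.1 z = z := by
      rw [← h3]
      exact s.commutes (⟨z, IntermediateField.mem_adjoin_simple_self L0 z⟩ : F)
    rw [h3]
    exact hy _ (hz _ h.2 h5)
  obtain ⟨a, ha⟩ := IntermediateField.mem_bot.1 hbot
  rw [← ha]
  exact a.2

end gal

section tower

variable {k M : Type u} [Field k] [IsAlgClosed k] [Field M] [Algebra k M] {G : Type} [Group G]
  [Finite G] {n : ℕ} {E : Fin n → Type u}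
  [∀ i, Field (E i)] [∀ i, Algebra k (E i)] (e : ∀ i, E i →ₐ[k] M)
  (τ : G →* (M ≃ₐ[k] M)) (hinj : Function.Injective τ) (σ : ∀ i, G →* (E i ≃ₐ[k] E i))
  (hτ : ∀ g i x, τ g (e i x) = e i (σ i g x)) (p : ℕ) [Fact p.Prime] [CharP k p]
  [∀ i, CharP (E i) p]

/-- The inclusion of the fixed fields. -/
noncomputable def incH (τ : G →* (M ≃ₐ[k] M)) (H : Subgroup G) : fixH τ ⊤ →ₐ[k] fixH τ H :=
  IntermediateField.inclusion (fixH_anti τ le_top)

include hinj hτ in
/-- The towers for all subgroups. -/
theorem gkt_H (hG : IsPGroup p G) (hσinj : ∀ g, (∀ i, σ i g = 1) → g = 1)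
    (hfin : ∀ i, Finite (σ i).range) {T0 X : Type} {B : T0 → Subalgebra k (fixH τ ⊤)}
    (hBft : ∀ s, Algebra.FiniteType k (B s)) {b : T0 → ∀ i, E i} {b0 : T0 → Fin n → fixH τ ⊤}
    (hb0 : ∀ s i, (b0 s i : M) = e i (b s i)) {D : T0 → ∀ i, Subalgebra k (E i)}
    (hPD : ∀ s i (V : ValuationSubring (E i)), (∀ x ∈ D s i, x ∈ V) → V ≠ ⊤ →
      (∀ x ∈ D s i, ∃ c : k, V.valuation (x - algebraMap k (E i) c) < 1) →
      PD p (σ i).range (D s i) V (b s i))
    (hD : ∀ s i, ∀ x ∈ D s i, IsInt (fixH τ ⊤).val (B s) (e i x))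
    (hDn : ∀ s i, ∃ y ∈ D s i, ∀ c : k, y ≠ algebraMap k (E i) c)
    (hσD : ∀ s i g, ∀ x ∈ D s i, σ i g x ∈ D s i) {g : X → fixH τ ⊤}
    (hbase : GKT p k B b0 (AlgHom.id k _) g) (H : Subgroup G) :
    GKT p k B b0 (incH τ H) (fun a => incH τ H (g a)) := by
  classical
  have hcM : CharP M p := charP_of_injective_algebraMap (algebraMap k M).injective p
  have hcard : ∀ (m : ℕ) (H : Subgroup G), Nat.card G - Nat.card H ≤ m →
      GKT p k B b0 (incH τ H) (fun a => incH τ H (g a)) := by
    intro m
    induction m with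
    | zero =>
      intro H hH
      have h1 : Nat.card H ≤ Nat.card G :=
        Nat.card_le_card_of_injective _ H.subtype_injective
      have h2 : H = ⊤ := Subgroup.eq_top_of_card_eq H (by omega)
      subst h2
      exact hbase
    | succ m ih =>
      intro H hH
      by_cases hHt : H = ⊤
      · subst hHt
        exact hbase
      obtain ⟨H1, χ, hlt, hχ, hχ0⟩ := exists_char p hG H hHt
      have h1 : Nat.card H < Nat.card H1 := by
        refine lt_of_le_of_ne (Nat.card_le_card_of_injective _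
          (Subgroup.inclusion_injective hlt.le)) ?_
        intro h
        apply hlt.ne
        exact Subgroup.eq_of_le_of_card_ge hlt.le h.ge
      have hprev := ih H1 (by
        have h2 : Nat.card H1 ≤ Nat.card G :=
          Nat.card_le_card_of_injective _ H1.subtype_injective
        omega)
      -- the Artin-Schreier element
      let lam : (M ≃ₐ[k] M) → ZMod p := fun s =>
        if h : ∃ g ∈ H1, τ g = s then χ h.choose else 0
      have hlam : ∀ g ∈ H1, lam (τ g) = χ g := by
        intro g hg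
        have hex : ∃ g' ∈ H1, τ g' = τ g := ⟨g, hg, rfl⟩
        have h2 : lam (τ g) = χ hex.choose := dif_pos hex
        rw [h2]
        congr 1
        exact hinj hex.choose_spec.2
      have hfinm : Finite (H1.map τ) := Finite.of_surjective
        (fun h : H1 => (⟨τ h.1, h.1, h.2, rfl⟩ : H1.map τ)) (by
          rintro ⟨_, g, hg, rfl⟩
          exact ⟨⟨g, hg⟩, rfl⟩)
      obtain ⟨z, hz⟩ := h90 p (H1.map τ) lam (by
        rintro _ ⟨g, hg, rfl⟩ _ ⟨h, hh, rfl⟩
        rw [← map_mul, hlam _ (H1.mul_mem hg hh), hlam _ hg, hlam _ hh, hχ g hg h hh])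
      have hz' : ∀ g ∈ H1, τ g z = z + zc p M (χ g) := by
        intro g hg
        rw [hz _ ⟨g, hg, rfl⟩, hlam g hg]
      let L := fixH τ H1
      let K := fixH τ H
      have hLK : L ≤ K := fixH_anti τ hlt.le
      let _ : Algebra L K := (IntermediateField.inclusion hLK).toRingHom.toAlgebra
      have tLK : IsScalarTower k L K := IsScalarTower.of_algebraMap_eq fun c => rfl
      have hzK : z ∈ K := by
        intro g hg
        rw [hz' g (hlt.le hg), (hχ0 g (hlt.le hg)).2 hg, map_zero, add_zero]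
      have hFL : z ^ p - z ∈ L := by
        intro g hg
        rw [map_sub, map_pow, hz' g hg, add_pow_char, Pool.Agent.W435.WT.Gal.zc_pow]
        ring
      have hkil : ∀ s, KIL p (incH τ H1) (B s) (b0 s) (⟨z ^ p - z, hFL⟩ : L) := by
        intro s
        have := hBft s
        refine kil_H e τ σ hτ p H1 (incH τ H1) (fun g x => x.2 g trivial) (B s) (b := b s)
          (fun i => hb0 s i) hfin (hPD s) (hD s) (hDn s) (hσD s) χ hχ ?_ z hz' _ rfl
        intro g hg hg1
        rw [hσinj g hg1]
        exact (hχ0 1 H1.one_mem).2 H.one_mem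
      have h2 := gkt_stepL (K := K) p hprev (⟨z ^ p - z, hFL⟩ : L) hkil ⟨z, hzK⟩ rfl (by
        rw [eq_top_iff]
        intro y _
        let K1 : IntermediateField k M :=
          ((IntermediateField.adjoin L {(⟨z, hzK⟩ : K)}).restrictScalars k).map K.val
        have h3 : fixH τ H ≤ K1 := by
          refine fix_adjoin τ hinj hlt.le (z := z) ?_ K1 ?_ ?_
          · intro h hh hhz
            rw [hz' h hh] at hhz
            have h4 : zc p M (χ h) = 0 := by linear_combination hhz
            have h5 : χ h = 0 := zc_inj p M (by rw [h4, map_zero])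
            exact (hχ0 h hh).1 h5
          · intro x hx
            exact ⟨⟨x, hLK hx⟩, (IntermediateField.adjoin L {(⟨z, hzK⟩ : K)}).algebraMap_mem
              ⟨x, hx⟩, rfl⟩
          · exact ⟨⟨z, hzK⟩, IntermediateField.mem_adjoin_simple_self L _, rfl⟩
        obtain ⟨y', hy', hyy⟩ := h3 y.2
        have h4 : y' = y := Subtype.ext hyy
        rw [← h4]
        exact hy')
      exact h2
  exact hcard _ H le_rfl

end tower

end Pool.Agent.Zk10.Ram
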