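import Pool.Agent.Zk10.P1
import Pool.Agent.Zk10.R8
import Pool.Agent.H920R2.Cw5

/-!
Curves: the two charts, the reduced divisor.
-/

set_option autoImplicit false
set_option linter.unusedVariables false
set_option linter.unusedSectionVars false

universe u

namespace Pool.Agent.Zk10.Cur

open Pool.Agent.W558 Pool.Agent.H920R2 Pool.Agent.Zk10.Ram Polynomial IntermediateField

section two

variable {k L : Type u} [Field k] [PerfectField k] [Field L] [Algebra k L]
  [Algebra.EssFiniteType k L] {u : L}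

lemma smooth_CC (hu : SepEl k u) : Algebra.Smooth k (CC k u) := by
  have h3 := hu.finite
  have h4 := hu.2
  have h1 := (CC_dedekind k u).1
  have h2 := CC_finiteType k u
  exact smooth_dedekind (CC_notField k u hu.1)

/-- The model with the two charts. -/
theorem exists_two (hu : SepEl k u) : ∃ M : LM (⊥ : Subalgebra k L) ⊤ Bool Empty,
    M.A = fun t => cond t (CC k u⁻¹) (CC k u) := by
  have hu0 : u ≠ 0 := by
    rintro rfl
    exact hu.1 isAlgebraic_zero
  refine ⟨{ A := fun t => cond t (CC k u⁻¹) (CC k u), H := fun t => cond t u 1,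
            x := fun t i => i.elim, sm := ?_, base := fun t => bot_le, H0 := ?_,
            HR := fun t => trivial, rt := ?_, gl := ?_, dn := fun t f hf => ⟨0, trivial⟩,
            cv := ?_, xA := fun t i => i.elim, x0 := fun t i => i.elim,
            gi := fun t t' i => i.elim, snc := ?_ }, rfl⟩
  · rintro (_ | _)
    · exact smooth_CC hu
    · exact smooth_CC hu.inv
  · rintro (_ | _)
    · exact one_ne_zero
    · exact hu0
  · rintro (_ | _) (_ | _)
    · change (1 : L) / 1 ∈ CC k u
      rw [div_one]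
      exact Subalgebra.one_mem _
    · change u / 1 ∈ CC k u
      rw [div_one]
      exact u_mem_CC k u
    · change 1 / u ∈ CC k u⁻¹
      rw [one_div]
      exact u_mem_CC k u⁻¹
    · change u / u ∈ CC k u⁻¹
      rw [div_self hu0]
      exact Subalgebra.one_mem _
  · rintro (_ | _) (_ | _) f hf
    · exact ⟨0, by rw [pow_zero, one_mul]; exact hf⟩
    · obtain ⟨n, hn⟩ := CC_denom k u⁻¹ (inv_ne_zero hu0) f hf
      rw [inv_inv] at hn
      exact ⟨n, by change (u / 1) ^ n * f ∈ CC k u; rw [div_one]; exact hn⟩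
    · obtain ⟨n, hn⟩ := CC_denom k u hu0 f hf
      exact ⟨n, by change (1 / u) ^ n * f ∈ CC k u⁻¹; rw [one_div]; exact hn⟩
    · exact ⟨0, by rw [pow_zero, one_mul]; exact hf⟩
  · intro V hV
    have hk : ∀ c : k, algebraMap k L c ∈ V := fun c => hV _ ((⊥ : Subalgebra k L).algebraMap_mem c)
    rcases V.mem_or_inv_mem u with h | h
    · exact ⟨false, fun f hf => CC_le_val k u V hk h f hf⟩
    · exact ⟨true, fun f hf => CC_le_val k u⁻¹ V hk h f hf⟩
  · intro t κ _ _ φ i
    exact i.elim

end two

section resid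

variable {k E : Type u} [Field k] [IsAlgClosed k] [Field E] [Algebra k E] {D : Subalgebra k E}
  [IsDedekindDomain D] [IsFractionRing D E] [Algebra.FiniteType k D]

/-- The center of a valuation ring. -/
lemma exists_center {V : ValuationSubring E} (hDV : ∀ x ∈ D, x ∈ V) : ∃ P : Ideal D, P.IsPrime ∧
    (∀ x : D, x ∈ P ↔ V.valuation (x : E) < 1) ∧ (V ≠ ⊤ → P ≠ ⊥) := by
  let j : D →+* V :=
    { toFun := fun a => ⟨a, hDV a a.2⟩
      map_one' := rfl
      map_mul' := fun a b => rfl
      map_zero' := rfl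
      map_add' := fun a b => rfl }
  let P : Ideal D := (IsLocalRing.maximalIdeal V).comap j
  have hP : ∀ x : D, x ∈ P ↔ V.valuation (x : E) < 1 := by
    intro x
    change j x ∈ IsLocalRing.maximalIdeal V ↔ _
    rw [ValuationSubring.valuation_lt_one_iff]
    rfl
  have hPp : P.IsPrime := Ideal.IsPrime.comap j
  refine ⟨P, hPp, hP, fun hV h0 => hV ?_⟩
  rw [eq_top_iff]
  intro x _
  obtain ⟨a, b, hb, rfl⟩ := IsFractionRing.div_surjective (A := D) x
  have hb0 := nonZeroDivisors.ne_zero hb
  have h1 : V.valuation (b : E) = 1 := by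
    refine le_antisymm (v_le.2 (hDV b b.2)) ?_
    by_contra hcon
    have h2 : b ∈ P := (hP b).2 (not_le.1 hcon)
    rw [h0, Ideal.mem_bot] at h2
    exact hb0 h2
  change (a : E) / (b : E) ∈ V
  rw [div_eq_mul_inv]
  exact V.mul_mem _ _ (hDV a a.2) (v_inv_mem h1)

/-- The residue field is the ground field. -/
lemma res_of {V : ValuationSubring E} (hDV : ∀ x ∈ D, x ∈ V) (hV : V ≠ ⊤) :
    ∀ x ∈ D, ∃ c : k, V.valuation (x - algebraMap k E c) < 1 := by
  obtain ⟨P, hPp, hP, hP0⟩ := exists_center (k := k) hDV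
  have hPm : P.IsMaximal := hPp.isMaximal (hP0 hV)
  intro x hx
  obtain ⟨c, hc⟩ := exists_residue (S := D) (DM := D) le_rfl (fun x hx =>
    isIntegral_algebraMap (x := (⟨x, hx⟩ : D))) P ⟨x, hx⟩
  exact ⟨c, (hP _).1 hc⟩

/-- Simple zeros. -/
lemma snc_of {x : E} (hx : x ∈ D) (hx0 : x ≠ 0)
    (h : ∀ W : ValuationSubring E, (∀ a ∈ D, a ∈ W) → W.valuation x < 1 →
      ∀ y, W.valuation y < 1 → y * x⁻¹ ∈ W) : SNC D (fun _ : Unit => x) := by
  classical
  intro κ _ _ φ i hi hφ
  let P : Ideal D := RingHom.ker φ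
  have hPp : P.IsPrime := RingHom.ker_isPrime _
  have hxP : (⟨x, hx⟩ : D) ∈ P := hφ
  have hP0 : P ≠ ⊥ := by
    intro h0
    rw [h0, Ideal.mem_bot] at hxP
    exact hx0 (congrArg Subtype.val hxP)
  have hPm : P.IsMaximal := hPp.isMaximal hP0
  obtain ⟨W, hW1, hW2⟩ := Ideal.image_subset_nonunits_valuationSubring
    (A := D.toSubring) (P : Ideal D.toSubring) hPm.ne_top
  have hWD : ∀ a ∈ D, a ∈ W := fun a ha => hW1 ha
  have hWP : ∀ a : D, a ∈ P → W.valuation (a : E) < 1 := fun a ha =>
    (ValuationSubring.mem_nonunits_iff W).1 (hW2 ⟨a, ha, rfl⟩)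
  have hdiv := h W hWD (hWP _ hxP)
  have hx2 : (⟨x, hx⟩ : D) ∉ P ^ 2 := by
    intro h2
    have h3 : ∀ a ∈ P ^ 2, W.valuation ((a : E) * x⁻¹) < 1 := by
      intro a ha
      rw [pow_two] at ha
      induction ha using Submodule.mul_induction_on' with
      | mem_mul_mem m hm n hn =>
        have e : ((m * n : D) : E) * x⁻¹ = m * (n * x⁻¹) := by
          rw [Subalgebra.coe_mul, mul_assoc]
        rw [e]
        exact v_lt_mul (hWP m hm) (hdiv _ (hWP n hn))
      | add a ha b hb iha ihb =>
        rw [Subalgebra.coe_add, add_mul]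
        exact Valuation.map_add_lt _ iha ihb
    have h4 := h3 _ h2
    rw [mul_inv_cancel₀ hx0, map_one] at h4
    exact lt_irrefl _ h4
  -- the residues
  have hres : ∀ a : D, ∃ c : k, a - algebraMap k D c ∈ P := exists_residue (S := D) (DM := D)
    le_rfl (fun x hx => isIntegral_algebraMap (x := (⟨x, hx⟩ : D))) P
  choose c hc using hres
  have huniq : ∀ (a : D) (d : k), a - algebraMap k D d ∈ P → c a = d := by
    intro a d hd
    by_contra hne
    have h1 : algebraMap k D (c a - d) ∈ P := by
      have : algebraMap k D (c a - d) = (a - algebraMap k D d) - (a - algebraMap k D (c a)) := by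
        rw [map_sub]; ring
      rw [this]
      exact P.sub_mem hd (hc a)
    have h2 : IsUnit (algebraMap k D (c a - d)) := (IsUnit.mk0 _ (sub_ne_zero.2 hne)).map _
    exact hPp.ne_top (Ideal.eq_top_of_isUnit_mem _ h1 h2)
  have hcadd : ∀ a b, c (a + b) = c a + c b := fun a b => huniq _ _ (by
    have : a + b - algebraMap k D (c a + c b) =
      (a - algebraMap k D (c a)) + (b - algebraMap k D (c b)) := by rw [map_add]; ring
    rw [this]
    exact P.add_mem (hc a) (hc b))
  have hcmul : ∀ a b, c (a * b) = c a * c b := fun a b => huniq _ _ (by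
    have : a * b - algebraMap k D (c a * c b) =
      a * (b - algebraMap k D (c b)) + algebraMap k D (c b) * (a - algebraMap k D (c a)) := by
      rw [map_mul]; ring
    rw [this]
    exact P.add_mem (P.mul_mem_left _ (hc b)) (P.mul_mem_left _ (hc a)))
  have hcsmul : ∀ (r : k) a, c (r • a) = r * c a := fun r a => huniq _ _ (by
    have : r • a - algebraMap k D (r * c a) = algebraMap k D r * (a - algebraMap k D (c a)) := by
      rw [map_mul, Algebra.smul_def]; ring
    rw [this]
    exact P.mul_mem_left _ (hc a))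
  have hφc : ∀ a, φ a = algebraMap k κ (c a) := by
    intro a
    have h1 : φ (a - algebraMap k D (c a)) = 0 := hc a
    rw [map_sub, AlgHom.commutes, sub_eq_zero] at h1
    exact h1
  -- the functional
  let P2 : Submodule k D := (P ^ 2).restrictScalars k
  obtain ⟨f, hf, hfP⟩ : ∃ f : D →ₗ[k] k, f ⟨x, hx⟩ = 1 ∧ ∀ a ∈ P ^ 2, f a = 0 := by
    obtain ⟨f, hf1, hf2⟩ := Submodule.exists_le_ker_of_notMem (p := P2) (v := ⟨x, hx⟩) hx2
    refine ⟨(f ⟨x, hx⟩)⁻¹ • f, ?_, fun a ha => ?_⟩
    · rw [LinearMap.smul_apply, smul_eq_mul, inv_mul_cancel₀ hf1]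
    · have : f a = 0 := hf2 ha
      rw [LinearMap.smul_apply, this, smul_zero]
  have hx1 : ∀ j : Unit, j ≠ i → False := fun j hj => hj rfl
  refine ⟨{ D := { toFun := fun a => algebraMap k κ (f (a - algebraMap k D (c a)))
                   map_add' := ?_
                   map_smul' := ?_ }
            leib := ?_ }, ?_, fun j hj hji => absurd rfl hji⟩
  · intro a b
    rw [← map_add, ← map_add]
    congr 2
    rw [hcadd, map_add]
    ring
  · intro r a
    rw [RingHom.id_apply, Algebra.smul_def r (algebraMap k κ _), ← map_mul, ← smul_eq_mul,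
      ← map_smul]
    congr 2
    rw [hcsmul, map_mul, Algebra.smul_def, Algebra.smul_def]
    ring
  · intro a b
    change algebraMap k κ (f (a * b - algebraMap k D (c (a * b)))) =
      φ a * algebraMap k κ (f (b - algebraMap k D (c b))) +
        φ b * algebraMap k κ (f (a - algebraMap k D (c a)))
    rw [hφc, hφc, ← map_mul, ← map_mul, ← map_add]
    congr 1
    have e1 : c a * f (b - algebraMap k D (c b)) + c b * f (a - algebraMap k D (c a)) =
        f (c a • (b - algebraMap k D (c b)) + c b • (a - algebraMap k D (c a))) := by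
      rw [map_add, map_smul, map_smul, smul_eq_mul, smul_eq_mul]
    rw [e1]
    have e : a * b - algebraMap k D (c (a * b)) =
        (a - algebraMap k D (c a)) * (b - algebraMap k D (c b)) +
        (c a • (b - algebraMap k D (c b)) + c b • (a - algebraMap k D (c a))) := by
      rw [hcmul, map_mul, Algebra.smul_def, Algebra.smul_def]
      ring
    rw [e, map_add, hfP _ (by rw [pow_two]; exact Ideal.mul_mem_mul (hc a) (hc b)), zero_add]
  · change algebraMap k κ (f (⟨x, hi⟩ - algebraMap k D (c ⟨x, hi⟩))) = 1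
    have h1 : c ⟨x, hi⟩ = 0 := huniq _ _ (by rw [map_zero, sub_zero]; exact hxP)
    rw [h1, map_zero, sub_zero, hf, map_one]

end resid

section div

variable {k L : Type u} [Field k] [Field L] [Algebra k L] {T : Type}

/-- Adding a divisor to a model without divisors. -/
lemma add_div (M : LM (⊥ : Subalgebra k L) ⊤ T Empty) (x : T → L) (hx : ∀ t, x t ∈ M.A t)
    (hx0 : ∀ t, x t ≠ 0)
    (hgi : ∀ t t', ∃ n : ℕ, (M.H t' / M.H t) ^ n * (x t' / x t) ∈ M.A t)
    (hsnc : ∀ t, SNC (M.A t) (fun _ : Unit => x t)) :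
    ∃ M' : LM (⊥ : Subalgebra k L) ⊤ T Unit, M'.A = M.A ∧ M'.x = fun t _ => x t :=
  ⟨{ A := M.A, H := M.H, x := fun t _ => x t, sm := M.sm, base := M.base, H0 := M.H0,
     HR := M.HR, rt := M.rt, gl := M.gl, dn := M.dn, cv := M.cv, xA := fun t _ => hx t,
     x0 := fun t _ => hx0 t, gi := fun t t' _ => hgi t t', snc := hsnc }, rfl, rfl⟩

end div

end Pool.Agent.Zk10.Cur
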