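import Pool.Agent.Zk10.C1

/-!
Curves: the model with the reduced divisor of poles.
-/

set_option autoImplicit false
set_option linter.unusedVariables false
set_option linter.unusedSectionVars false

universe u

namespace Pool.Agent.Zk10.Cur

open Pool.Agent.W558 Pool.Agent.H920R2 Pool.Agent.Zk10.Ram Polynomial IntermediateField

section arch

variable {k E : Type u} [Field k] [IsAlgClosed k] [Field E] [Algebra k E] {D : Subalgebra k E}
  [IsDedekindDomain D] [IsFractionRing D E] [Algebra.FiniteType k D]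

/-- The valuations are archimedean. -/
lemma arch {V : ValuationSubring E} (hDV : ∀ x ∈ D, x ∈ V) {x w : E} (hx : V.valuation x < 1)
    (hw0 : w ≠ 0) (hw : V.valuation w < 1) :
    ∃ n : ℕ, n ≠ 0 ∧ V.valuation (x ^ n) ≤ V.valuation w := by
  have hV : V ≠ ⊤ := by
    rintro rfl
    rw [v_lt_iff] at hw
    rcases hw with h | h
    · exact hw0 h
    · exact h trivial
  by_cases hx0 : x = 0
  · refine ⟨1, one_ne_zero, ?_⟩
    rw [pow_one, hx0, map_zero]
    exact zero_le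
  have hk : ∀ c : k, algebraMap k E c ∈ V := fun c => hDV _ (D.algebraMap_mem c)
  obtain ⟨t, ht0, ht, hlt⟩ := exists_unif hDV hV (res_of hDV hV)
  have htV : t ∈ V := v_lt_mem ht
  have key : ∀ y : E, y ≠ 0 → V.valuation y < 1 → ∃ m : ℕ, m ≠ 0 ∧
      V.valuation y = V.valuation t ^ m := by
    intro y hy0 hy
    obtain ⟨n, c, z, hc, hz, e⟩ := hlt y hy0
    have h1 : V.valuation (algebraMap k E c + t * z) = 1 := v_add (v_k hk hc) (v_lt_mul ht hz)
    have h2 : V.valuation y = V.valuation t ^ n := by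
      rw [e, map_mul, h1, mul_one, map_zpow₀]
    have hn : 0 < n := by
      by_contra hcon
      obtain ⟨m, rfl⟩ : ∃ m : ℕ, n = -(m : ℤ) := ⟨n.natAbs, by omega⟩
      rw [h2, zpow_neg, zpow_natCast] at hy
      have h3 : V.valuation t ^ m ≤ 1 := pow_le_one₀ zero_le ht.le
      have h4 : 0 < V.valuation t ^ m := pow_pos (zero_lt_iff.2 ((Valuation.ne_zero_iff _).2 ht0)) _
      exact absurd hy (not_lt.2 ((one_le_inv₀ h4).2 h3))
    obtain ⟨m, rfl⟩ := Int.eq_ofNat_of_zero_le hn.le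
    exact ⟨m, by omega, by rw [h2, zpow_natCast]⟩
  obtain ⟨m, hm, hxm⟩ := key x hx0 hx
  obtain ⟨n, hn, hwn⟩ := key w hw0 hw
  refine ⟨n, hn, ?_⟩
  rw [map_pow, hxm, hwn, ← pow_mul]
  exact pow_le_pow_of_le_one zero_le ht.le (Nat.le_mul_of_pos_left _ (Nat.pos_of_ne_zero hm))

end arch

section cq

variable {k L : Type u} [Field k] [Field L] [Algebra k L]

/-- The function `x` is a local equation of the reduced divisor of poles of `u`. -/
def Cq (A : Subalgebra k L) (x u : L) : Prop :=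
  ∀ W : ValuationSubring L, (∀ a ∈ A, a ∈ W) →
    (x⁻¹ ∉ W ∧ ∀ y, W.valuation y < 1 → y * x⁻¹ ∈ W) ∨ (x⁻¹ ∈ W ∧ u ∈ W)

lemma Cq.mono {A A' : Subalgebra k L} {x u : L} (h : Cq A x u) (hle : A ≤ A') : Cq A' x u :=
  fun W hW => h W fun a ha => hW a (hle ha)

variable [IsAlgClosed k] [Algebra.EssFiniteType k L] {w : L}

/-- The charts at the poles. -/
lemma cq_chart (hw : SepEl k w) {I : Ideal (CC k w)}
    (hI : I = (Ideal.span {(⟨w, u_mem_CC k w⟩ : CC k w)}).radical) {y z : L} (hyD : y ∈ CC k w)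
    (hyI : (⟨y, hyD⟩ : CC k w) ∈ I) (hz : ∀ a ∈ I, (a : L) * z ∈ CC k w) (hyz : y * z ≠ 0) :
    Cq (adj (CC k w) (y * z)⁻¹) y w⁻¹ := by
  have h3 := hw.finite
  have h4 := hw.2
  have hDed := (CC_dedekind k w).1
  have hFr := (CC_dedekind k w).2.2
  have hft := CC_finiteType k w
  have hw0 : w ≠ 0 := by
    rintro rfl
    exact hw.1 isAlgebraic_zero
  intro W hW
  have hDW : ∀ x ∈ CC k w, x ∈ W := fun x hx => hW x (le_adj _ _ hx)
  have hinv : (y * z)⁻¹ ∈ W := hW _ (self_mem_adj _ _)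
  have hy0 : y ≠ 0 := left_ne_zero_of_mul hyz
  have hz0 : z ≠ 0 := right_ne_zero_of_mul hyz
  have hwI : (⟨w, u_mem_CC k w⟩ : CC k w) ∈ I := by
    rw [hI]
    exact Ideal.le_radical (Ideal.mem_span_singleton_self _)
  have hdiv : ∀ a ∈ I, (a : L) * y⁻¹ ∈ W := by
    intro a ha
    have e : (a : L) * y⁻¹ = (a * z) * (y * z)⁻¹ := by
      field_simp
    rw [e]
    exact W.mul_mem _ _ (hDW _ (hz a ha)) hinv
  by_cases hy : y⁻¹ ∈ W
  · right
    refine ⟨hy, ?_⟩
    by_contra hcon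
    have h1 : W.valuation w < 1 := v_lt_iff.2 (Or.inr hcon)
    rw [hI] at hyI
    obtain ⟨n, hn⟩ := hyI
    obtain ⟨d, hd⟩ := Ideal.mem_span_singleton'.1 hn
    have h2 : (d : L) * w = y ^ n := congrArg Subtype.val hd
    have h5 : W.valuation (y ^ n) < 1 := by
      rw [← h2, mul_comm]
      exact v_lt_mul h1 (hDW _ d.2)
    have h6 : (y ^ n)⁻¹ ∉ W := by
      rcases v_lt_iff.1 h5 with h | h
      · exact absurd h (pow_ne_zero _ hy0)
      · exact h
    apply h6
    rw [← inv_pow]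
    exact pow_mem hy n
  · left
    refine ⟨hy, fun y' hy' => ?_⟩
    have hyv : W.valuation y < 1 := v_lt_iff.2 (Or.inr hy)
    have hwv : W.valuation w < 1 := by
      have e : w = y * (w * y⁻¹) := by field_simp
      rw [e]
      exact v_lt_mul hyv (hdiv _ hwI)
    obtain ⟨s, hs, hs1, hsy⟩ := exists_loc hDW (v_lt_mem hy')
    have hs0 : s ≠ 0 := by
      rintro rfl
      rw [map_zero] at hs1
      exact zero_ne_one hs1
    have hav : W.valuation (s * y') < 1 := by rw [map_mul, hs1, one_mul]; exact hy'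
    obtain ⟨n, hn0, hn⟩ := arch hDW hav hw0 hwv
    have h7 : (s * y') ^ n * w⁻¹ ∈ W := by
      rw [← v_le, map_mul, map_inv₀]
      have h8 : 0 < W.valuation w := zero_lt_iff.2 ((Valuation.ne_zero_iff _).2 hw0)
      rw [← div_eq_mul_inv]
      exact (div_le_one₀ h8).2 hn
    obtain ⟨s', hs', hs1', hsy'⟩ := exists_loc hDW h7
    have hs0' : s' ≠ 0 := by
      rintro rfl
      rw [map_zero] at hs1'
      exact zero_ne_one hs1'
    have h9 : (⟨s' * (s * y'), (CC k w).mul_mem hs' hsy⟩ : CC k w) ∈ I := by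
      rw [hI]
      refine ⟨n, ?_⟩
      rw [Ideal.mem_span_singleton']
      refine ⟨⟨s' ^ (n - 1) * (s' * ((s * y') ^ n * w⁻¹)), (CC k w).mul_mem
        ((CC k w).pow_mem hs' _) hsy'⟩, ?_⟩
      apply Subtype.ext
      change s' ^ (n - 1) * (s' * ((s * y') ^ n * w⁻¹)) * w = (s' * (s * y')) ^ n
      obtain ⟨m, rfl⟩ := Nat.exists_eq_succ_of_ne_zero hn0
      rw [Nat.succ_sub_one, mul_pow s' (s * y'), Nat.succ_eq_add_one, pow_succ s' m]
      field_simp
    have h10 := hdiv _ h9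
    have e : y' * y⁻¹ = (s⁻¹ * s'⁻¹) * ((s' * (s * y')) * y⁻¹) := by
      field_simp
    rw [e]
    exact W.mul_mem _ _ (W.mul_mem _ _ (v_inv_mem hs1) (v_inv_mem hs1')) h10

end cq

section frac

variable {k L : Type u} [Field k] [Field L] [Algebra k L] {T I : Type}

lemma isFrac_of {A : Subalgebra k L} (h : ∀ x : L, ∃ a ∈ A, ∃ b ∈ A, b ≠ 0 ∧ x = a * b⁻¹) :
    IsFractionRing A L := by
  refine IsFractionRing.of_field A L fun z => ?_
  obtain ⟨a, ha, b, hb, hb0, hz⟩ := h z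
  exact ⟨⟨a, ha⟩, ⟨b, hb⟩, by rw [div_eq_mul_inv]; exact hz⟩

lemma of_isFrac {A : Subalgebra k L} [IsFractionRing A L] (x : L) :
    ∃ a ∈ A, ∃ b ∈ A, b ≠ 0 ∧ x = a * b⁻¹ := by
  obtain ⟨a, b, hb, rfl⟩ := IsFractionRing.div_surjective (A := A) x
  exact ⟨a, a.2, b, b.2, fun h0 => nonZeroDivisors.ne_zero hb (Subtype.ext h0),
    div_eq_mul_inv _ _⟩

lemma dedekind_adj {A : Subalgebra k L} [IsDedekindDomain A] {h : L} (hh : h ∈ A) (h0 : h ≠ 0) :
    IsDedekindDomain (adj A h⁻¹) := by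
  let _ : Algebra A (adj A h⁻¹) := (Subalgebra.inclusion (le_adj A h⁻¹)).toRingHom.toAlgebra
  have h1 : IsLocalization.Away (⟨h, hh⟩ : A) (adj A h⁻¹) := isLocalization_adj hh h0
  refine IsLocalization.isDedekindDomain A (M := Submonoid.powers (⟨h, hh⟩ : A)) ?_ _
  exact powers_le_nonZeroDivisors_of_noZeroDivisors fun h2 => h0 (congrArg Subtype.val h2)

end frac

end Pool.Agent.Zk10.Cur
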