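import Pool.Agent.Zk10.C2

/-!
Curves: the model with the reduced divisor of poles of a function.
-/

set_option autoImplicit false
set_option linter.unusedVariables false
set_option linter.unusedSectionVars false

universe u

namespace Pool.Agent.Zk10.Cur

open Pool.Agent.W558 Pool.Agent.H920R2 Pool.Agent.Zk10.Ram Polynomial IntermediateField

variable {k L : Type u} [Field k] [IsAlgClosed k] [Field L] [Algebra k L]
  [Algebra.EssFiniteType k L] {u : L}

/-- The model of the curve, with the reduced divisor of the poles of `u`. -/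
theorem exists_red (hu : SepEl k u) : ∃ (T : Type) (_ : Finite T)
    (M : LM (⊥ : Subalgebra k L) ⊤ T Unit), Frc M ∧ (∀ t, IsDedekindDomain (M.A t)) ∧
      ∀ t, Cq (M.A t) (M.x t ()) u := by
  classical
  have hu0 : u ≠ 0 := by
    rintro rfl
    exact hu.1 isAlgebraic_zero
  obtain ⟨M0, hM0⟩ := exists_two hu
  have hA0 : M0.A false = CC k u := congrFun hM0 false
  have hA1 : M0.A true = CC k u⁻¹ := congrFun hM0 true
  have hui := hu.inv
  have i1 := hui.finite
  have i2 := hui.2
  have hD1 := (CC_dedekind k u⁻¹).1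
  have hF1 := (CC_dedekind k u⁻¹).2.2
  have i3 := hu.finite
  have i4 := hu.2
  have hD0 := (CC_dedekind k u).1
  have hF0 := (CC_dedekind k u).2.2
  let w1 : CC k u⁻¹ := ⟨u⁻¹, u_mem_CC k u⁻¹⟩
  let I : Ideal (CC k u⁻¹) := (Ideal.span {w1}).radical
  have hwI : w1 ∈ I := Ideal.le_radical (Ideal.mem_span_singleton_self _)
  have hI0 : I ≠ ⊥ := by
    intro h0
    rw [h0, Ideal.mem_bot] at hwI
    exact inv_ne_zero hu0 (congrArg Subtype.val hwI)
  obtain ⟨ι, iι, y, z, hy, hz, hsum⟩ := inv_gen (CC k u⁻¹) I hI0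
  let J : Type := {b : ι // y b * z b ≠ 0}
  let h : Bool → J → L := fun t b => cond t (y b.1 * z b.1) 1
  have hyz : ∀ b, y b * z b ∈ CC k u⁻¹ := fun b => by
    obtain ⟨h1, h2⟩ := hy b
    exact hz b _ h2
  have hmem : ∀ t b, h t b ∈ M0.A t := by
    rintro (_ | _) b
    · exact (M0.A false).one_mem
    · rw [hA1]; exact hyz b.1
  have hne : ∀ t b, h t b ≠ 0 := by
    rintro (_ | _) b
    · exact one_ne_zero
    · exact b.2
  have hJ : Nonempty J := by
    by_contra hcon
    rw [not_nonempty_iff] at hcon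
    have : ∀ b, y b * z b = 0 := by
      intro b
      by_contra h0
      exact hcon.false ⟨b, h0⟩
    rw [Finset.sum_congr rfl fun b _ => this b, Finset.sum_const_zero] at hsum
    exact zero_ne_one hsum
  have hcov : ∀ t (V : ValuationSubring L), (∀ f ∈ M0.A t, f ∈ V) → ∃ b, (h t b)⁻¹ ∈ V := by
    rintro (_ | _) V hV
    · obtain ⟨b⟩ := hJ
      exact ⟨b, by change (1 : L)⁻¹ ∈ V; rw [inv_one]; exact V.one_mem⟩
    · by_contra hcon
      push Not at hcon
      have h1 : ∀ b, V.valuation (y b * z b) < 1 := by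
        intro b
        by_cases h0 : y b * z b = 0
        · rw [h0, map_zero]; exact zero_lt_one
        · exact v_lt_iff.2 (Or.inr (hcon ⟨b, h0⟩))
      have h2 : V.valuation (∑ b, y b * z b) < 1 := Valuation.map_sum_lt _ one_ne_zero fun b _ => h1 b
      rw [hsum, map_one] at h2
      exact lt_irrefl _ h2
  obtain ⟨M1, hM1, -, N, hN⟩ := exists_refine M0 h hmem hne hcov
  have hMA : ∀ p, M1.A p = adj (M0.A p.1) (h p.1 p.2)⁻¹ := fun p => congrFun hM1 p
  let x : Bool × J → L := fun p => cond p.1 (y p.2.1) 1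
  have hle : ∀ p, M0.A p.1 ≤ M1.A p := fun p => by rw [hMA]; exact le_adj _ _
  have hxA0 : ∀ p : Bool × J, x p ∈ M0.A p.1 := by
    rintro ⟨_ | _, b⟩
    · exact (M0.A false).one_mem
    · change y b.1 ∈ M0.A true
      rw [hA1]
      exact (hy b.1).1
  have hx0 : ∀ p, x p ≠ 0 := by
    rintro ⟨_ | _, b⟩
    · exact one_ne_zero
    · exact left_ne_zero_of_mul b.2
  -- the multiples of the elements of the ideal
  have hdiv : ∀ (b : J) (a : CC k u⁻¹), a ∈ I → (a : L) / y b.1 ∈ M1.A (true, b) := by
    intro b a ha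
    have hy0 := left_ne_zero_of_mul b.2
    have hz0 := right_ne_zero_of_mul b.2
    have e : (a : L) / y b.1 = (a * z b.1) * (h true b)⁻¹ := by
      change (a : L) / y b.1 = (a * z b.1) * (y b.1 * z b.1)⁻¹
      field_simp
    rw [e, hMA]
    refine (adj _ _).mul_mem (le_adj _ _ ?_) (self_mem_adj _ _)
    change (a : L) * z b.1 ∈ M0.A true
    rw [hA1]
    exact hz b.1 a ha
  have hDed : ∀ p, IsDedekindDomain (M1.A p) := by
    rintro ⟨_ | _, b⟩
    · rw [hMA]
      have h1 : IsDedekindDomain (M0.A false) := by rw [hA0]; exact hD0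
      exact dedekind_adj (hmem false b) (hne false b)
    · rw [hMA]
      have h1 : IsDedekindDomain (M0.A true) := by rw [hA1]; exact hD1
      exact dedekind_adj (hmem true b) (hne true b)
  have hFrc : ∀ p (x : L), ∃ a ∈ M1.A p, ∃ b ∈ M1.A p, b ≠ 0 ∧ x = a * b⁻¹ := by
    rintro ⟨_ | _, b⟩ x
    · obtain ⟨a, ha, c, hc, hc0, e⟩ := of_isFrac (A := CC k u) x
      rw [← hA0] at ha hc
      exact ⟨a, hle (false, b) ha, c, hle (false, b) hc, hc0, e⟩
    · obtain ⟨a, ha, c, hc, hc0, e⟩ := of_isFrac (A := CC k u⁻¹) x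
      rw [← hA1] at ha hc
      exact ⟨a, hle (true, b) ha, c, hle (true, b) hc, hc0, e⟩
  have hCq : ∀ p, Cq (M1.A p) (x p) u := by
    rintro ⟨_ | _, b⟩ W hW
    · right
      refine ⟨by change (1 : L)⁻¹ ∈ W; rw [inv_one]; exact W.one_mem, ?_⟩
      apply hW
      apply hle (false, b)
      change u ∈ M0.A false
      rw [hA0]
      exact u_mem_CC k u
    · have h1 := cq_chart hui (I := I) rfl (hy b.1).1 (hy b.1).2 (fun a ha => hz b.1 a ha) b.2
      rw [inv_inv] at h1
      refine h1 W fun a ha => hW a ?_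
      rw [hMA]
      change a ∈ adj (M0.A true) (y b.1 * z b.1)⁻¹
      rw [hA1]
      exact ha
  have hgi : ∀ t t' : Bool × J, ∃ n : ℕ, (M1.H t' / M1.H t) ^ n * (x t' / x t) ∈ M1.A t := by
    rintro ⟨_ | _, b⟩ ⟨t0', b'⟩
    · obtain ⟨n, hn⟩ := M1.gl (false, b) (t0', b') (x (t0', b')) (hle (t0', b') (hxA0 (t0', b')))
      refine ⟨n, ?_⟩
      change _ * (x (t0', b') / 1) ∈ _
      rw [div_one]
      exact hn
    · rcases t0' with _ | _
      · obtain ⟨n, hn⟩ := M1.gl (true, b) (false, b') u (hle (false, b') (by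
          change u ∈ M0.A false
          rw [hA0]
          exact u_mem_CC k u))
        refine ⟨n, ?_⟩
        change _ * (1 / y b.1) ∈ _
        have h1 := hdiv b w1 hwI
        have e : (M1.H (false, b') / M1.H (true, b)) ^ n * (1 / y b.1) =
            ((M1.H (false, b') / M1.H (true, b)) ^ n * u) * ((w1 : L) / y b.1) := by
          change _ = _ * (u⁻¹ / y b.1)
          field_simp
        rw [e]
        exact (M1.A (true, b)).mul_mem hn h1
      · refine ⟨0, ?_⟩
        rw [pow_zero, one_mul]
        exact hdiv b ⟨y b'.1, (hy b'.1).1⟩ (hy b'.1).2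
  have hsnc : ∀ t, SNC (M1.A t) (fun _ : Unit => x t) := by
    intro t
    have j1 := hDed t
    have j2 := isFrac_of (hFrc t)
    have j3 := M1.sm t
    have j4 : Algebra.FiniteType k (M1.A t) := inferInstance
    refine snc_of (hle t (hxA0 t)) (hx0 t) fun W hW hx => ?_
    rcases hCq t W hW with h1 | h1
    · exact h1.2
    · exfalso
      rcases v_lt_iff.1 hx with h2 | h2
      · exact hx0 t h2
      · exact h2 h1.1
  obtain ⟨M2, hM2, hx2⟩ := add_div M1 x (fun t => hle t (hxA0 t)) hx0 hgi hsnc
  refine ⟨Bool × J, inferInstance, M2, ?_, ?_, ?_⟩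
  · intro t x
    rw [hM2]
    exact hFrc t x
  · intro t
    rw [hM2]
    exact hDed t
  · intro t
    rw [hM2, hx2]
    exact hCq t

/-- The model of the curve, with the reduced divisor of the poles of `u`, such that the functions
`s ∈ S` are comparable with `1`. -/
theorem exists_curveM (hu : SepEl k u) (S : Finset L) : ∃ (T : Type) (_ : Finite T)
    (M : LM (⊥ : Subalgebra k L) ⊤ T Unit), Frc M ∧ (∀ t, IsDedekindDomain (M.A t)) ∧
      (∀ t, Cq (M.A t) (M.x t ()) u) ∧ ∀ s ∈ S, ∀ t, s ∈ M.A t ∨ s⁻¹ ∈ M.A t := by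
  classical
  induction S using Finset.induction_on with
  | empty =>
    obtain ⟨T, hT, M, h1, h2, h3⟩ := exists_red hu
    exact ⟨T, hT, M, h1, h2, h3, fun s hs => absurd hs (Finset.notMem_empty s)⟩
  | insert s S hs ih =>
    obtain ⟨T, hT, M, h1, h2, h3, h4⟩ := ih
    have hcmp : ∀ t, ∃ a ∈ M.A t, ∃ b ∈ M.A t, a + b = 1 ∧ a * s ∈ M.A t ∧ b * s⁻¹ ∈ M.A t := by
      intro t
      have j1 := h2 t
      have j2 := isFrac_of (h1 t)
      exact exists_cmp (M.A t) s
    choose a ha b hb hab has hbs using hcmp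
    let v : T → Bool → L := fun t c => cond c (a t) (b t)
    have hv : ∀ t c, v t c ∈ M.A t := by
      rintro t (_ | _)
      · exact hb t
      · exact ha t
    let h : T → Bool → L := fun t c => if v t c = 0 then 1 else v t c
    have hmem : ∀ t c, h t c ∈ M.A t := by
      intro t c
      change (if v t c = 0 then 1 else v t c) ∈ M.A t
      split_ifs
      · exact (M.A t).one_mem
      · exact hv t c
    have hne : ∀ t c, h t c ≠ 0 := by
      intro t c
      change (if v t c = 0 then 1 else v t c) ≠ 0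
      split_ifs with h0
      · exact one_ne_zero
      · exact h0
    have hcov : ∀ t (V : ValuationSubring L), (∀ f ∈ M.A t, f ∈ V) → ∃ c, (h t c)⁻¹ ∈ V := by
      intro t V hV
      by_contra hcon
      push Not at hcon
      have h5 : ∀ c, V.valuation (v t c) < 1 := by
        intro c
        by_cases h0 : v t c = 0
        · rw [h0, map_zero]; exact zero_lt_one
        · have h6 := hcon c
          have e : h t c = v t c := if_neg h0
          rw [e] at h6
          exact v_lt_iff.2 (Or.inr h6)
      have h6 : V.valuation (a t + b t) < 1 := Valuation.map_add_lt _ (h5 true) (h5 false)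
      rw [hab, map_one] at h6
      exact lt_irrefl _ h6
    obtain ⟨M', hM', hx', N, hN⟩ := exists_refine M h hmem hne hcov
    have hMA : ∀ p, M'.A p = adj (M.A p.1) (h p.1 p.2)⁻¹ := fun p => congrFun hM' p
    have hle : ∀ p, M.A p.1 ≤ M'.A p := fun p => by rw [hMA]; exact le_adj _ _
    refine ⟨T × Bool, inferInstance, M', ?_, ?_, ?_, ?_⟩
    · intro p x
      obtain ⟨α, hα, β, hβ, hβ0, e⟩ := h1 p.1 x
      exact ⟨α, hle p hα, β, hle p hβ, hβ0, e⟩
    · intro p
      rw [hMA]
      have j1 := h2 p.1
      exact dedekind_adj (hmem _ _) (hne _ _)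
    · intro p
      rw [hx']
      exact (h3 p.1).mono (hle p)
    · intro s' hs' p
      rcases Finset.mem_insert.1 hs' with rfl | hs'
      · obtain ⟨t, c⟩ := p
        have hinv : (h t c)⁻¹ ∈ M'.A (t, c) := by rw [hMA]; exact self_mem_adj _ _
        by_cases h0 : v t c = 0
        · rcases c with _ | _
          · left
            have hb0 : b t = 0 := h0
            have ha1 : a t = 1 := by rw [← hab t, hb0, add_zero]
            have h5 := has t
            rw [ha1, one_mul] at h5
            exact hle (t, false) h5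
          · right
            have ha0 : a t = 0 := h0
            have hb1 : b t = 1 := by rw [← hab t, ha0, zero_add]
            have h5 := hbs t
            rw [hb1, one_mul] at h5
            exact hle (t, true) h5
        · have e : h t c = v t c := if_neg h0
          rw [e] at hinv
          rcases c with _ | _
          · right
            have hb0 : b t ≠ 0 := h0
            have h5 := (M'.A (t, false)).mul_mem hinv (hle (t, false) (hbs t))
            change (b t)⁻¹ * (b t * s'⁻¹) ∈ _ at h5
            rwa [← mul_assoc, inv_mul_cancel₀ hb0, one_mul] at h5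
          · left
            have ha0 : a t ≠ 0 := h0
            have h5 := (M'.A (t, true)).mul_mem hinv (hle (t, true) (has t))
            change (a t)⁻¹ * (a t * s') ∈ _ at h5
            rwa [← mul_assoc, inv_mul_cancel₀ ha0, one_mul] at h5
      · rcases h4 s' hs' p.1 with h5 | h5
        · exact Or.inl (hle p h5)
        · exact Or.inr (hle p h5)

end Pool.Agent.Zk10.Cur
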