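import Pool.Agent.Zk10.C3

/-!
Curves with a finite group of automorphisms: a function on the quotient whose poles contain the
branch points.
-/

set_option autoImplicit false
set_option linter.unusedVariables false
set_option linter.unusedSectionVars false

universe u

namespace Pool.Agent.Zk10.Cur

open Pool.Agent.W558 Pool.Agent.H920R2 Pool.Agent.Zk10.Ram Polynomial IntermediateField

section fix

variable {k E : Type u} [Field k] [Field E] [Algebra k E] {Γ : Subgroup (E ≃ₐ[k] E)} [Finite Γ]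
  {F : IntermediateField k E} (hF : ∀ x, x ∈ F ↔ FX Γ x)

include hF in
/-- The field is finite and separable over the field of invariants. -/
lemma sep_fix : Algebra.IsSeparable F E ∧ FiniteDimensional F E := by
  have heq : F.toSubfield = FixedPoints.subfield Γ E := by
    ext x
    constructor
    · intro hx σ
      exact (hF x).1 hx σ σ.2
    · intro hx
      exact (hF x).2 fun σ hσ => hx ⟨σ, hσ⟩
  have h3 : Algebra.IsSeparable F.toSubfield E := by
    rw [heq]
    infer_instance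
  have h4 : FiniteDimensional F.toSubfield E := by
    rw [heq]
    infer_instance
  exact ⟨h3, h4⟩

include hF in
/-- An invariant separating element. -/
theorem exists_sepF [PerfectField k] [Algebra.EssFiniteType k E]
    (htr : Algebra.trdeg k E = 1) : ∃ x : F, SepEl k x ∧ SepEl k (x : E) := by
  obtain ⟨hsep, hfin⟩ := sep_fix hF
  have halg : Algebra.IsAlgebraic F E := Algebra.IsSeparable.isAlgebraic _ _
  have hess := essFiniteType_sub F
  obtain ⟨s, hs, hs2⟩ := exists_isTranscendenceBasis_and_isSeparable_of_perfectField k F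
  have hs3 := hs.algebraMap_comp (A := E)
  have hcard := hs3.cardinalMk_eq_trdeg
  rw [htr] at hcard
  have hc1 : Fintype.card s = 1 := by
    rw [Cardinal.mk_fintype] at hcard
    exact_mod_cast hcard
  rw [Fintype.card_coe, Finset.card_eq_one] at hc1
  obtain ⟨x, rfl⟩ := hc1
  have hx1 : Transcendental k (x : E) := hs3.1.transcendental ⟨x, Finset.mem_singleton_self x⟩
  have hx2 : Transcendental k x := hs.1.transcendental ⟨x, Finset.mem_singleton_self x⟩
  have hs2' : Algebra.IsSeparable k⟮x⟯ F := by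
    have h1 : Algebra.IsSeparable (adjoin k (({x} : Finset F) : Set F)) F := hs2
    rwa [Finset.coe_singleton] at h1
  refine ⟨x, ⟨hx2, hs2'⟩, hx1, ?_⟩
  let F1 : IntermediateField k F := k⟮x⟯
  have h2 : Algebra.IsSeparable F1 E := Algebra.IsSeparable.trans F1 F E
  have hle : ∀ c : F1, algebraMap F1 E c ∈ k⟮(x : E)⟯ := by
    rintro ⟨c, hc⟩
    change (c : E) ∈ k⟮(x : E)⟯
    have h3 : F1 ≤ (k⟮(x : E)⟯).comap F.val := by
      rw [adjoin_simple_le_iff]
      exact mem_adjoin_simple_self k (x : E)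
    exact h3 hc
  let _ : Algebra F1 k⟮(x : E)⟯ :=
    ((algebraMap F1 E).codRestrict (k⟮(x : E)⟯).toSubfield hle).toAlgebra
  have _ : IsScalarTower F1 k⟮(x : E)⟯ E := IsScalarTower.of_algebraMap_eq fun _ => rfl
  exact Algebra.isSeparable_tower_top_of_isSeparable F1 k⟮(x : E)⟯ E

include hF in
/-- A function on the quotient whose poles contain the branch points. -/
theorem exists_uF {p : ℕ} (hp : p.Prime) (hpk : (p : k) = 0) [PerfectField k]
    [Algebra.EssFiniteType k E] (htr : Algebra.trdeg k E = 1) :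
    ∃ u : F, SepEl k u ∧ SepEl k (u : E) ∧ ∀ V : ValuationSubring E,
      (∀ c : k, algebraMap k E c ∈ V) → (u : E) ∈ V →
      (∀ x ∈ V, ∃ c : k, V.valuation (x - algebraMap k E c) < 1) → ∀ σ ∈ dec V Γ, σ = 1 := by
  classical
  obtain ⟨x, hxF, hxE⟩ := exists_sepF hF htr
  have hΓ : Fintype Γ := Fintype.ofFinite Γ
  have hex : ∀ σ : Γ, ∃ G : k[X], G.Monic ∧ aeval (x : E) G ≠ 0 ∧ (σ ≠ 1 →
      ∃ (n : ℕ) (a c : Fin n → E), (∀ i, a i ∈ CC k (x : E)) ∧ (∀ i, c i ∈ CC k (x : E)) ∧
        aeval (x : E) G = ∑ i, c i * ((σ : E ≃ₐ[k] E) (a i) - a i)) := by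
    intro σ
    by_cases h1 : σ = 1
    · exact ⟨1, monic_one, by rw [map_one]; exact one_ne_zero, fun h => absurd h1 h⟩
    · have hne : ∃ z, (σ : E ≃ₐ[k] E) z ≠ z := by
        by_contra hcon
        push Not at hcon
        exact h1 (Subtype.ext (AlgEquiv.ext hcon))
      obtain ⟨G, hG, hg, h2⟩ := exists_G (σ : E ≃ₐ[k] E) hxE ((hF x).1 x.2 σ σ.2) hne
      exact ⟨G, hG, hg, fun _ => h2⟩
  choose G hG hg hGσ using hex
  let G0 : k[X] := ∏ σ, G σ
  have hG0 : G0.Monic := monic_prod_of_monic _ _ fun σ _ => hG σ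
  have hg0 : aeval (x : E) G0 ≠ 0 := by
    rw [map_prod]
    exact Finset.prod_ne_zero_iff.2 fun σ _ => hg σ
  have hgF : ((aeval x G0 : F) : E) = aeval (x : E) G0 := by
    have := Polynomial.aeval_algHom_apply F.val x G0
    exact this.symm
  have hg0F : aeval x G0 ≠ 0 := by
    intro h0
    apply hg0
    rw [← hgF, h0]
    rfl
  let u : F := x + (aeval x G0 ^ p)⁻¹
  have huE : (u : E) = (x : E) + (aeval (x : E) G0 ^ p)⁻¹ := by
    change (x : E) + (((aeval x G0 : F) : E) ^ p)⁻¹ = _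
    rw [hgF]
  refine ⟨u, sepEl_of hxF (isSeparable_x hp hpk G0 x hg0F hG0), ?_, ?_⟩
  · rw [huE]
    exact sepEl_of hxE (isSeparable_x hp hpk G0 (x : E) hg0 hG0)
  intro V hk hu hres σ hσ
  by_contra hne
  have hx1 : (x : E) ∈ CC k (u : E) := by
    rw [huE]
    exact x_mem_CC G0 (x : E) hg0 hG0
  have hVu : ∀ z ∈ CC k (u : E), z ∈ V := fun z hz => CC_le_val k (u : E) V hk hu z hz
  have hVx : ∀ z ∈ CC k (x : E), z ∈ V := fun z hz => hVu z (CC_mono hx1 hz)
  have hxV : (x : E) ∈ V := hVu _ hx1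
  have hpol : ∀ Q : k[X], aeval (x : E) Q ∈ V := by
    intro Q
    rw [aeval_eq_sum_range]
    refine sum_mem fun i _ => ?_
    rw [Algebra.smul_def]
    exact V.mul_mem _ _ (hk _) (pow_mem hxV _)
  -- the value of `G0` is a unit
  have hinv : (aeval (x : E) G0)⁻¹ ∈ V := by
    have h1 : (aeval (x : E) G0 ^ p)⁻¹ ∈ V := by
      have e : (aeval (x : E) G0 ^ p)⁻¹ = (u : E) - x := by rw [huE]; ring
      rw [e]
      exact sub_mem hu hxV
    have e : (aeval (x : E) G0)⁻¹ = (aeval (x : E) G0 ^ p)⁻¹ * aeval (x : E) G0 ^ (p - 1) := by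
      obtain ⟨m, rfl⟩ := Nat.exists_eq_succ_of_ne_zero hp.ne_zero
      rw [Nat.succ_sub_one, Nat.succ_eq_add_one, pow_succ]
      field_simp
    rw [e]
    exact V.mul_mem _ _ h1 (pow_mem (hpol G0) _)
  have hσV : ∀ a ∈ V, V.valuation (σ a - a) < 1 := by
    intro a ha
    obtain ⟨c, hc⟩ := hres a ha
    have h1 : V.valuation (σ (a - algebraMap k E c)) < 1 := by
      rcases v_lt_iff.1 hc with h0 | h0
      · rw [h0, map_zero, map_zero]; exact zero_lt_one
      · rw [v_lt_iff]
        right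
        intro h2
        apply h0
        rw [← map_inv₀] at h2
        have h3 := (dec V Γ).inv_mem hσ
        have h4 := h3.2 _ h2
        have e : (σ⁻¹ : E ≃ₐ[k] E) (σ (a - algebraMap k E c)⁻¹) = (a - algebraMap k E c)⁻¹ := by
          change (σ⁻¹ * σ) _ = _
          rw [inv_mul_cancel]
          rfl
        rwa [e] at h4
    have e : σ a - a = σ (a - algebraMap k E c) - (a - algebraMap k E c) := by
      rw [map_sub, AlgEquiv.commutes]
      ring
    rw [e]
    exact v_sub_lt h1 hc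
  have hσ1 : (⟨σ, hσ.1⟩ : Γ) ≠ 1 := fun h => hne (congrArg Subtype.val h)
  obtain ⟨n, a, c, ha, hc, e⟩ := hGσ ⟨σ, hσ.1⟩ hσ1
  have h5 : V.valuation (aeval (x : E) (G ⟨σ, hσ.1⟩)) < 1 := by
    rw [e]
    refine Valuation.map_sum_lt _ one_ne_zero fun i _ => ?_
    rw [mul_comm]
    exact v_lt_mul (hσV _ (hVx _ (ha i))) (hVx _ (hc i))
  have h6 : V.valuation (aeval (x : E) G0) < 1 := by
    have e2 : aeval (x : E) G0 = aeval (x : E) (G ⟨σ, hσ.1⟩) *
        aeval (x : E) (∏ τ ∈ Finset.univ.erase ⟨σ, hσ.1⟩, G τ) := by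
      rw [← map_mul, Finset.mul_prod_erase _ _ (Finset.mem_univ _)]
    rw [e2]
    exact v_lt_mul h5 (hpol _)
  rcases v_lt_iff.1 h6 with h7 | h7
  · exact hg0 h7
  · exact h7 hinv

end fix

end Pool.Agent.Zk10.Cur
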