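import Pool.Agent.Zk10.C4

/-!
Curves with a weakly ramified action of a finite `p`-group: the models of the quotients.
-/

set_option autoImplicit false
set_option linter.unusedVariables false
set_option linter.unusedSectionVars false

universe u

namespace Pool.Agent.Zk10.Cur

open Pool.Agent.W558 Pool.Agent.H920R2 Pool.Agent.Zk10.Ram Polynomial IntermediateField

section dd

variable {k E : Type u} [Field k] [Field E] [Algebra k E] {F : IntermediateField k E}

/-- The integral closure of a chart. -/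
def DD (A : Subalgebra k F) : Subalgebra k E := (integralClosure A E).restrictScalars k

lemma mem_DD {A : Subalgebra k F} {z : E} : z ∈ DD A ↔ IsIntegral A z := Iff.rfl

lemma coe_mem_DD {A : Subalgebra k F} {a : F} (ha : a ∈ A) : (a : E) ∈ DD A :=
  mem_DD.2 (isIntegral_algebraMap (R := A) (x := (⟨a, ha⟩ : A)))

variable {A : Subalgebra k F} [IsDedekindDomain A] [IsFractionRing A F] [FiniteDimensional F E]
  [Algebra.IsSeparable F E]

lemma DD_dedekind : IsDedekindDomain (DD A) ∧ IsFractionRing (DD A) E := by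
  have h1 : IsDedekindDomain (integralClosure A E) := integralClosure.isDedekindDomain A F E
  have h2 : IsFractionRing (integralClosure A E) E :=
    integralClosure.isFractionRing_of_finite_extension F E
  exact ⟨h1, h2⟩

lemma DD_finiteType [Algebra.FiniteType k A] : Algebra.FiniteType k (DD A) := by
  have h1 : Module.Finite A (integralClosure A E) :=
    IsIntegralClosure.finite A F E (integralClosure A E)
  have h3 : Algebra.FiniteType k (integralClosure A E) :=
    Algebra.FiniteType.trans (S := A) inferInstance inferInstance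
  exact h3

lemma DD_sigma (σ : E ≃ₐ[k] E) (hσ : ∀ x ∈ F, σ x = x) (z : E) (hz : z ∈ DD A) : σ z ∈ DD A := by
  obtain ⟨P, hP, hP0⟩ := hz
  refine ⟨P, hP, ?_⟩
  have h2 := congrArg (σ : E →+* E) hP0
  rw [Polynomial.hom_eval₂, map_zero] at h2
  have h3 : (σ : E →+* E).comp (algebraMap A E) = algebraMap A E :=
    RingHom.ext fun a => hσ _ (a : F).2
  rw [h3] at h2
  exact h2

end dd

section pack

variable {k E : Type u} [Field k] [IsAlgClosed k] [Field E] [Algebra k E]
  [Algebra.EssFiniteType k E] {Γ : Subgroup (E ≃ₐ[k] E)} [Finite Γ]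
  {F : IntermediateField k E} (hF : ∀ x, x ∈ F ↔ FX Γ x)

include hF in
/-- The model of the quotient of a curve by a weakly ramified group. -/
theorem curve_pack (p : ℕ) [Fact p.Prime] [CharP k p] [CharP E p]
    (htr : Algebra.trdeg k E = 1) (hpΓ : ∀ σ ∈ Γ, ∃ n : ℕ, σ ^ p ^ n = 1)
    (hW : ∀ V : ValuationSubring E, (∀ c : k, algebraMap k E c ∈ V) → V ≠ ⊤ →
      ∀ σ ∈ Γ, (∀ x ∈ V, σ x ∈ V) → (∀ (x : V) (h : σ x - x ∈ V),
        (⟨σ x - x, h⟩ : V) ∈ IsLocalRing.maximalIdeal V ^ 3) → σ = 1) (S : Finset F) :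
    ∃ (T : Type) (_ : Finite T) (M : LM (⊥ : Subalgebra k F) ⊤ T Unit)
      (D : T → Subalgebra k E), Frc M ∧ (∀ s ∈ S, ∀ t, s ∈ M.A t ∨ s⁻¹ ∈ M.A t) ∧
      (∀ t, ∀ x ∈ D t, ((algebraMap F E).comp (algebraMap (M.A t) F)).IsIntegralElem x) ∧
      (∀ t, ∃ y ∈ D t, ∀ c : k, y ≠ algebraMap k E c) ∧
      (∀ t, ∀ σ ∈ Γ, ∀ x ∈ D t, σ x ∈ D t) ∧
      ∀ t (V : ValuationSubring E), (∀ x ∈ D t, x ∈ V) → V ≠ ⊤ →
        PD p Γ (D t) V (((M.x t ())⁻¹ : F) : E) := by
  obtain ⟨hsep, hfin⟩ := sep_fix hF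
  have halg : Algebra.IsAlgebraic F E := Algebra.IsSeparable.isAlgebraic _ _
  have hess := essFiniteType_sub F
  have hp : p.Prime := Fact.out
  obtain ⟨u, huF, huE, hu⟩ := exists_uF hF hp (CharP.cast_eq_zero k p) htr
  obtain ⟨T, hT, M, hFrc, hDed, hCq, hS⟩ := exists_curveM huF S
  have hFr : ∀ t, IsFractionRing (M.A t) F := fun t => isFrac_of (hFrc t)
  have hft : ∀ t, Algebra.FiniteType k (M.A t) := fun t => by
    have := M.sm t
    infer_instance
  have hD1 : ∀ t, IsDedekindDomain (DD (M.A t)) := fun t => by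
    have h1 := hDed t
    have h2 := hFr t
    exact DD_dedekind.1
  have hD2 : ∀ t, IsFractionRing (DD (M.A t)) E := fun t => by
    have h1 := hDed t
    have h2 := hFr t
    exact DD_dedekind.2
  have hD3 : ∀ t, Algebra.FiniteType k (DD (M.A t)) := fun t => by
    have h1 := hDed t
    have h2 := hFr t
    have h3 := hft t
    exact DD_finiteType
  have hσF : ∀ σ ∈ Γ, ∀ x ∈ F, σ x = x := fun σ hσ x hx => (hF x).1 hx σ hσ
  refine ⟨T, hT, M, fun t => DD (M.A t), hFrc, hS, ?_, ?_, ?_, ?_⟩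
  · intro t x hx
    exact hx
  · intro t
    by_contra hcon
    push Not at hcon
    apply huE.1
    obtain ⟨a, ha, b, hb, hb0, e⟩ := of_isFrac (A := DD (M.A t)) (u : E)
    obtain ⟨c, rfl⟩ := hcon a ha
    obtain ⟨d, rfl⟩ := hcon b hb
    rw [e, ← map_inv₀, ← map_mul]
    exact isAlgebraic_algebraMap _
  · intro t σ hσ x hx
    exact DD_sigma σ (hσF σ hσ) x hx
  · intro t V hV hVt
    have h1 := hD1 t
    have h2 := hD2 t
    have h3 := hD3 t
    have hres := res_of hV hVt
    have hk : ∀ c : k, algebraMap k E c ∈ V := fun c => hV _ ((DD (M.A t)).algebraMap_mem c)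
    refine PD.of p hV hVt hres (fun σ hσ x hx => DD_sigma σ (hσF σ hσ) x hx) hpΓ
      (fun σ hσ h => hW V hk hVt σ hσ.1 hσ.2 h) ((hF _).1 ((M.x t ())⁻¹).2) ?_
    let W : ValuationSubring F := V.comap (algebraMap F E)
    have hWA : ∀ a ∈ M.A t, a ∈ W := fun a ha => hV _ (coe_mem_DD ha)
    rcases hCq t W hWA with ⟨h4, h5⟩ | ⟨h4, h5⟩
    · left
      refine ⟨h4, fun z hz hzv => ?_⟩
      have hzF : z ∈ F := (hF z).2 hz
      have h6 : W.valuation (⟨z, hzF⟩ : F) < 1 := v_comap_lt.2 hzv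
      exact h5 _ h6
    · right
      exact hu V hk h5 fun x hx => exists_res hV hres hx

end pack

end Pool.Agent.Zk10.Cur
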