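import Pool.Agent.Zk10.K9
import Pool.Agent.N98.Loc
import Pool.Agent.W409.WA.Ppr

/-!
Towers of Artin-Schreier extensions: the local version.
-/

set_option autoImplicit false
set_option linter.unusedVariables false
set_option linter.unusedSectionVars false

universe u

open Polynomial

namespace Pool.Agent.Zk10

open Pool.Agent.W558 Pool.Agent.W177.WD Pool.Agent.W174.WA Pool.Agent.W356.WT.Nas
open Pool.Agent.TH214 Pool.Agent.W498.Tor Pool.Agent.W906.WT.Iso

section loc

variable {k K : Type u} [Field k] [Field K] [Algebra k K] {R0 R : Subalgebra k K}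
  {T I J : Type} [Fintype I]

/-- Refinements are logarithmic modifications. -/
lemma ov_loc [DecidableEq I] (M : LM R0 R T I) (M' : LM R0 R (T × J) I) (d : T → J → K)
    (hmem : ∀ t j, d t j ∈ M.A t) (hne : ∀ t j, d t j ≠ 0)
    (hx : M'.x = fun p => M.x p.1) (hA : ∀ p, M'.A p = adj (M.A p.1) (d p.1 p.2)⁻¹) :
    Ov M M' Prod.fst (fun i' i => if i' = i then 1 else 0) := by
  have hle : ∀ p, M.A p.1 ≤ M'.A p := fun p => by
    rw [hA]
    exact le_adj _ _
  refine ⟨hle, ?_, ?_⟩
  · intro p i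
    rw [Finset.prod_eq_single i]
    · rw [if_pos rfl, zpow_one, hx]
    · intro j _ hj
      rw [if_neg hj, zpow_zero]
    · intro h; exact absurd (Finset.mem_univ _) h
  · intro p κ _ _ φ v
    obtain ⟨D, hD⟩ := Pool.Agent.W409.WA.Ppr.ext_loc' (hA p) (hle p) (hmem p.1 p.2)
      (hne p.1 p.2) φ v.D
    have hxp : ∀ i, M'.x p i = M.x p.1 i := fun i => by rw [hx]
    refine ⟨⟨D, v.e, ?_⟩, ?_, ?_⟩
    · intro i hi
      have h1 := hD (M.x p.1 i) (M.xA p.1 i) (by rw [← hxp]; exact hi)
      have h2 := v.hx i (M.xA p.1 i)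
      have h3 : (⟨M'.x p i, hi⟩ : M'.A p) = ⟨M.x p.1 i, by rw [← hxp]; exact hi⟩ :=
        Subtype.ext (hxp i)
      rw [h3, h1, h2]
      rfl
    · intro a ha
      exact hD a ha _
    · intro i
      rw [Finset.sum_eq_single i]
      · rw [if_pos rfl]; simp
      · intro j _ hj
        rw [if_neg hj]; simp
      · intro h; exact absurd (Finset.mem_univ _) h

end loc

section kil

variable {k L0 L K : Type u} [Field k] [Field L0] [Field L] [Field K] [Algebra k L0] [Algebra k L]
  [Algebra k K] [Algebra L K] [IsScalarTower k L K]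

/-- Locally over the integral closure of `S`, the element `F` of `L` is of the form
`a ^ p - a + g + ∑ c l * b l`, with `g` in the local ring. -/
def KIL (p : ℕ) (ρ : L0 →ₐ[k] L) (S : Subalgebra k L0) {ι : Type} [Fintype ι] (b : ι → L0)
    (F : L) : Prop :=
  ∃ (m : ℕ) (e α : Fin m → L), (∀ v, IsInt ρ S (e v)) ∧ (∀ v, IsInt ρ S (α v)) ∧
    ∑ v, α v * e v = 1 ∧ ∀ v, ∃ (a : L) (c : ι → k),
      IsInt ρ S (e v * (F - (a ^ p - a + ∑ l, algebraMap k L (c l) * ρ (b l))))

variable (p : ℕ) [Fact p.Prime] [PerfectField k] [CharP k p]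

/-- The core of the step. -/
theorem gkt_core {T0 ι0 G : Type} [Fintype ι0] {B : T0 → Subalgebra k L0} {b0 : T0 → ι0 → L0}
    {ρ : L0 →ₐ[k] L} {g : G → L} (F : L) {T I ι : Type} [Finite T] [Fintype I] [Fintype ι]
    (M : LM (⊥ : Subalgebra k L) ⊤ T I) {n : T → ι → I → ℤ} {h : T → ι → L} {Γ : G → I → ℤ}
    (σ : T → T0) (hK : KC M n h) (hFn : Fn M g Γ) (hFrc : Frc M)
    (hD : ∀ t, ∀ a ∈ B (σ t), ρ a ∈ M.A t)
    (hB : ∀ t l (c : k), KB p (M.A t) (bf M n h t) (algebraMap k L c * ρ (b0 (σ t) l)))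
    (hFB : ∀ t, KB p (M.A t) (bf M n h t) F) (z : K) (hz : z ^ p - z = algebraMap L K F)
    (hgen : IntermediateField.adjoin L {z} = ⊤) :
    GKT p k B b0 ((IsScalarTower.toAlgHom k L K).comp ρ) (fun b => algebraMap L K (g b)) := by
  classical
  have hp : p.Prime := Fact.out
  have hcL : CharP L p := charP_of_injective_algebraMap (algebraMap k L).injective p
  have hcK : CharP K p := charP_of_injective_algebraMap (algebraMap k K).injective p
  by_cases hzL : ∃ b : L, b ^ p - b = F
  · obtain ⟨b, hb⟩ := hzL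
    refine gkt_iso p ⟨T, I, ι, inferInstance, inferInstance, inferInstance, M, n, h, Γ, σ, hK,
      hFn, hFrc, hD, hB⟩ ?_
    have h1 : (z - algebraMap L K b) ^ p = z - algebraMap L K b := by
      rw [sub_pow_char]
      have h2 : algebraMap L K b ^ p - algebraMap L K b = z ^ p - z := by
        rw [← map_pow, ← map_sub, hb, hz]
      linear_combination -h2
    obtain ⟨c, hc⟩ := zc_of_pow p _ h1
    have h2 : z = algebraMap L K (b + zc p L c) := by
      rw [map_add, alg_zc]
      linear_combination hc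
    have h4 : IntermediateField.adjoin L {z} = ⊥ := by
      rw [IntermediateField.adjoin_simple_eq_bot_iff, h2]
      exact IntermediateField.algebraMap_mem _ _
    rw [h4] at hgen
    intro y
    have h5 : y ∈ (⊤ : IntermediateField L K) := trivial
    rw [← hgen] at h5
    exact IntermediateField.mem_bot.1 h5
  · push Not at hzL
    obtain ⟨T', I', iT', iI', M', π, n', h', Γ', N, a1, h1, hK', hN, hle, hbf, hG', hR', hL⟩ :=
      prep p M hFrc hK hFn F hFB
    -- the extension
    have hgen' : ∀ y : K, ∃ P : L[X], aeval z P = y := by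
      intro y
      have hint : IsIntegral L z := by
        refine ⟨X ^ p - (X + C F), ?_, ?_⟩
        · apply monic_X_pow_sub
          rw [degree_X_add_C]
          exact_mod_cast hp.one_lt
        · rw [← aeval_def, map_sub, map_add, map_pow, aeval_X, aeval_C, ← hz]
          ring
      have h8 : y ∈ Algebra.adjoin L {z} := by
        have h9 : y ∈ (IntermediateField.adjoin L {z}).toSubalgebra := by
          rw [hgen]; trivial
        rwa [IntermediateField.adjoin_simple_toSubalgebra_of_isAlgebraic hint.isAlgebraic] at h9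
      rw [Algebra.adjoin_singleton_eq_range_aeval] at h8
      exact h8
    have hall := wt_pack.{u}
    have hirr : Irreducible (X ^ p - X - C F : L[X]) := hall.irr p L F hzL
    have hFp : Prime (X ^ p - X - C F : L[X]) := hirr.prime
    have hz0 : aeval z (X ^ p - X - C F : L[X]) = 0 := by
      rw [map_sub, map_sub, map_pow, aeval_X, aeval_C, hz, sub_self]
    have hmon : (X ^ p - X - C F : L[X]).Monic := by
      have h1 : (X ^ p - X - C F : L[X]) = X ^ p - (X + C F) := by ring
      rw [h1]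
      apply monic_X_pow_sub
      rw [degree_X_add_C]
      exact_mod_cast hp.one_lt
    have hz' : ∀ P : L[X], aeval z P = 0 ↔ (X ^ p - X - C F : L[X]) ∣ P := by
      intro P
      have h1 : minpoly L z = X ^ p - X - C F :=
        (minpoly.eq_of_irreducible_of_monic hirr hz0 hmon).symm
      rw [← h1]
      exact (minpoly.dvd_iff).symm
    let NN := FractionRing L[X]
    let Z : NN := algebraMap L[X] NN X
    have hZ : ∀ P : L[X], aeval Z P = algebraMap L[X] NN P := by
      intro P
      have h1 : aeval Z = IsScalarTower.toAlgHom L L[X] NN := by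
        ext; simp [Z]
      rw [h1]; rfl
    have htr : Transcendental L Z := by
      rw [transcendental_iff]
      intro P hP
      rw [hZ] at hP
      exact (FaithfulSMul.algebraMap_eq_zero_iff L[X] NN).1 hP
    have hfr : ∀ x : NN, ∃ P P' : L[X], P' ≠ 0 ∧ x * aeval Z P' = aeval Z P := by
      intro x
      obtain ⟨P, P', hP, rfl⟩ := IsFractionRing.div_surjective (A := L[X]) x
      have h0 := nonZeroDivisors.ne_zero hP
      refine ⟨P, P', h0, ?_⟩
      rw [hZ, hZ, div_mul_cancel₀ _ (alg_ne_zero h0)]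
    have hQ : IsQA p Z F (FQ (k := k) hFp) := by
      intro x
      simp only [hZ]
      exact mem_FQ hFp
    obtain ⟨T1, I1, hT1, hI1, M1, y1, c1, μ1, Γ1, hP1, hL1, hF1⟩ :=
      hall.bun p k L NN T' I' G M' F N a1 h1 g Γ' hN hR' hG' hzL Z htr hfr (FQ (k := k) hFp) hQ
    obtain ⟨T2, I2, hT2, hI2, M2, y2, c2, μ2, Γ2, hP2, hL2, hF2, hfin⟩ :=
      hall.ppr p k L NN T' I' T1 I1 G M' F N a1 h1 M1 _ (FQ (k := k) hFp) y1 c1 μ1
        (fun b => algebraMap L NN (g b)) Γ1 hN hP1 hL1 hF1
    have eF : Z ^ p - Z - algebraMap L NN F = algebraMap L[X] NN (X ^ p - X - C F) := by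
      rw [← hZ, map_sub, map_sub, map_pow, aeval_X, aeval_C]
    rw [eF] at hP2
    obtain ⟨T3, I3, hT3, hI3, M3, π', Θ', ho, Γ3, μ', y', hy', hCL, hF3, hR3, hVL, hμ', hpol,
      heq⟩ := pcut3 wt_pas p k L NN K T' I' T2 I2 G M' F N a1 h1 M2 _ (FQ (k := k) hFp) y2 c2 μ2
        g Γ2 hN hP2 hL2 hF2 hfin (mem_FQ_of hFp) (alg_ne_zero hFp.ne_zero) (piZ hFp z hz')
        (piZ_eq_zero hFp z hz') (piZ_surj hFp z hz' hgen') (FQ_total hFp) (by
          intro l hl
          have h1 : algebraMap L NN l = algebraMap L[X] NN (C l) := by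
            rw [← hZ, aeval_C]
          have h2 : (⟨algebraMap L NN l, hl⟩ : FQ (k := k) hFp) =
              ⟨algebraMap L[X] NN (C l), mem_FQ_of hFp⟩ := Subtype.ext h1
          rw [h2, piZ_alg, aeval_C])
    obtain ⟨n3, h3, hK3, hB3⟩ := kc_next p M' hK' hN hL M3 ho hCL hy' hVL hμ'
      (fun t κ _ _ φ i => hpol t κ φ i) heq
    refine ⟨T3, I3, ι, hT3, hI3, inferInstance, M3, n3, h3, Γ3, fun t => σ (π (π' t)), hK3, hF3,
      hR3, ?_, ?_⟩
    · intro t a ha
      exact ho.le t _ (hle (π' t) (hD _ a ha))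
    · intro t l c
      have h4 := KB.map (A' := M3.A t) (b' := bf M3 n3 h3 t) p
        (fun a (ha : a ∈ M.A (π (π' t))) => ho.le t a (hle (π' t) ha)) (by
          intro l c
          rw [← hbf]
          exact hB3 t l c) (hB (π (π' t)) l c)
      rw [map_mul, ← IsScalarTower.algebraMap_apply] at h4
      exact h4

/-- One step of a tower, local version. -/
theorem gkt_stepL {T0 ι0 G : Type} [Fintype ι0] {B : T0 → Subalgebra k L0} {b0 : T0 → ι0 → L0}
    {ρ : L0 →ₐ[k] L} {g : G → L} (hM : GKT p k B b0 ρ g) (F : L)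
    (hF : ∀ s, KIL p ρ (B s) (b0 s) F) (z : K) (hz : z ^ p - z = algebraMap L K F)
    (hgen : IntermediateField.adjoin L {z} = ⊤) :
    GKT p k B b0 ((IsScalarTower.toAlgHom k L K).comp ρ) (fun b => algebraMap L K (g b)) := by
  classical
  obtain ⟨T, I, ι, hT, hI, hι, M, n, h, Γ, σ, hK, hFn, hFrc, hD, hB⟩ := hM
  obtain ⟨J, hJ, d, M1, -, hx, hmem, hne, hQ, hA⟩ := Pool.Agent.N98.exists_refine_local M
    (fun t f => ∃ (a : L) (c : ι0 → k),
      f * (F - (a ^ p - a + ∑ l, algebraMap k L (c l) * ρ (b0 (σ t) l))) ∈ M.A t) (by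
      intro t 𝔪 hm
      obtain ⟨m, e, α, he, hα, hsum, hv⟩ := hF (σ t)
      have := M.sm t
      have heA : ∀ v, e v ∈ M.A t := fun v => (he v).mem (hFrc t) (hD t)
      have hαA : ∀ v, α v ∈ M.A t := fun v => (hα v).mem (hFrc t) (hD t)
      have h1 : ∃ v, (⟨e v, heA v⟩ : (M.A t).toSubring) ∉ 𝔪 := by
        by_contra hcon
        push Not at hcon
        apply hm.ne_top
        rw [Ideal.eq_top_iff_one]
        have h2 : (1 : (M.A t).toSubring) = ∑ v, (⟨α v, hαA v⟩ : (M.A t).toSubring) *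
            ⟨e v, heA v⟩ := by
          apply Subtype.ext
          rw [AddSubmonoidClass.coe_finsetSum]
          exact hsum.symm
        rw [h2]
        exact 𝔪.sum_mem fun v _ => 𝔪.mul_mem_left _ (hcon v)
      obtain ⟨v, hv'⟩ := h1
      obtain ⟨a, c, hac⟩ := hv v
      exact ⟨⟨e v, heA v⟩, hv', a, c, hac.mem (hFrc t) (hD t)⟩)
  have hO := ov_loc M M1 d hmem hne hx hA
  refine gkt_core p F M1 (fun p => σ p.1) (hK.ov hO ?_) (hFn.ov hO) (hFrc.ov hO) ?_ ?_ ?_ z hz
    hgen
  · intro i' i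
    split_ifs
    · exact zero_le_one
    · exact le_rfl
  · intro t a ha
    exact hO.le t (hD t.1 a ha)
  · intro t l c
    have h1 := hB t.1 l c
    obtain ⟨a, g', hg', c', h2⟩ := h1
    refine ⟨a, g', hO.le t hg', c', ?_⟩
    simp only [bf_ov hO]
    exact h2
  · intro t
    obtain ⟨a, c, hac⟩ := hQ t.1 t.2
    have h1 : F - (a ^ p - a + ∑ l, algebraMap k L (c l) * ρ (b0 (σ t.1) l)) ∈ M1.A t := by
      have h2 : F - (a ^ p - a + ∑ l, algebraMap k L (c l) * ρ (b0 (σ t.1) l)) =
          (d t.1 t.2 * (F - (a ^ p - a + ∑ l, algebraMap k L (c l) * ρ (b0 (σ t.1) l)))) *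
          (d t.1 t.2)⁻¹ := by
        rw [mul_right_comm, mul_inv_cancel₀ (hne _ _), one_mul]
      rw [h2, hA]
      exact (adj _ _).mul_mem (le_adj _ _ hac) (self_mem_adj _ _)
    have h3 : F = a ^ p - a + (F - (a ^ p - a + ∑ l, algebraMap k L (c l) * ρ (b0 (σ t.1) l))) +
        ∑ l, algebraMap k L (c l) * ρ (b0 (σ t.1) l) := by ring
    rw [h3]
    refine KB.add p (KB.add p (KB.wp p a) (KB.of_mem p h1)) (KB.sum p _ _ fun l _ => ?_)
    obtain ⟨a', g', hg', c', h2⟩ := hB t.1 l (c l)
    refine ⟨a', g', hO.le t hg', c', ?_⟩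
    simp only [bf_ov hO]
    exact h2

end kil

end Pool.Agent.Zk10
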