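import Pool.Agent.Zk10.K1

/-!
Restriction of a model to the divisor of `F`, with the logarithmic form of the new function.
-/

set_option autoImplicit false
set_option linter.unusedVariables false
set_option linter.unusedSectionVars false

universe u

open Polynomial

namespace Pool.Agent.Zk10

open Pool.Agent.W558 Pool.Agent.W973.CUT Pool.Agent.W973.CUT2 Pool.Agent.W177.WD
open Pool.Agent.W174.WA Pool.Agent.W369.WT

section defs

variable {k L N : Type u} [Field k] [Field L] [Field N] [Algebra k L] [Algebra k N] [Algebra L N]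
  [IsScalarTower k L N] {T T' I I' : Type}

/-- At the poles of `x ^ μ * y` there are vertical logarithmic vectors which do not vanish on its
logarithmic form. -/
def VLift [Fintype I] [Fintype I'] {M : LM (⊥ : Subalgebra k L) ⊤ T I}
    {M' : LM (⊥ : Subalgebra k N) ⊤ T' I'} {π : T' → T} {Θ : I' → I → ℤ} (ho : Ovr M M' π Θ)
    (μ : I' → ℤ) {y : T' → N} (hy : ∀ t, y t ∈ M'.A t) : Prop :=
  ∀ t' (κ : Type u) [Field κ] [Algebra k κ] (φ' : M'.A t' →ₐ[k] κ),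
    (∃ i, μ i < 0 ∧ φ' ⟨M'.x t' i, M'.xA t' i⟩ = 0) →
    ∃ v' : LT φ' (M'.x t'),
      (∀ a (ha : a ∈ M.A (π t')), v'.D.D ⟨algebraMap L N a, ho.le t' a ha⟩ = 0) ∧
      (∀ i, ∑ i', (Θ i' i : κ) * v'.e i' = 0) ∧ om v' μ (hy t') ≠ 0

end defs

section lift

variable {k L N K : Type u} [Field k] [Field L] [Field N] [Field K] [Algebra k L] [Algebra k N]
  [Algebra L N] [IsScalarTower k L N] [Algebra k K] [Algebra L K] [IsScalarTower k L K]
  {T0 I0 T I : Type} [Fintype I0] [Fintype I] {Q : Subalgebra k N}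

/-- The vertical vectors, on a chart. -/
lemma vert_chart (p : ℕ) [Fact p.Prime] [CharP k p] (B : LM (⊥ : Subalgebra k L) ⊤ T0 I0)
    (M : LM (⊥ : Subalgebra k N) ⊤ T I) (F : N) (y : T → N) (π0 : T → T0)
    (Θ : I → I0 → ℤ) (h0 : T0 → L) (n0 : I0 → ℤ) (c μ : I → ℤ)
    (hPT : PAT p B M π0 Θ F Q y h0 n0 c μ) (π : Q →ₐ[k] K)
    (hcomp : ∀ l, algebraMap L N l ∈ Q → pq π (algebraMap L N l) = algebraMap L K l)
    (t : T) (f : N) (hfA : f ∈ M.A t) (hf0 : f ≠ 0) (hfπ : pq π f = 0)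
    (hker : LK π (M.A t) f)
    (hv3 : ∀ (κ : Type u) [Field κ] [Algebra k κ] (φ : M.A t →ₐ[k] κ),
        (∃ i, φ ⟨M.x t i, M.xA t i⟩ = 0 ∧ μ i < 0) →
        VW B M t (π0 t) (hPT.ov.le t) Θ φ ⟨f, hfA⟩ μ (hPT.yA t))
    (A' : Subalgebra k K) (x' : I → K) (hA' : A' = im π (M.A t) (hPT.AQ t))
    (hx' : x' = fun i => pq π (M.x t i))
    (le' : ∀ a ∈ B.A (π0 t), algebraMap L K a ∈ A') (hy' : pq π (y t) ∈ A')
    (κ : Type u) [Field κ] [Algebra k κ] (φ' : A' →ₐ[k] κ)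
    (hxA' : ∀ i, x' i ∈ A') (hpol : ∃ i, μ i < 0 ∧ φ' ⟨x' i, hxA' i⟩ = 0) :
    ∃ v' : LT φ' x',
      (∀ a (ha : a ∈ B.A (π0 t)), v'.D.D ⟨algebraMap L K a, le' a ha⟩ = 0) ∧
      (∀ i, ∑ i', (Θ i' i : κ) * v'.e i' = 0) ∧ om v' μ hy' ≠ 0 := by
  subst hA' hx'
  let φ : M.A t →ₐ[k] κ := φ'.comp (qm π (M.A t) (hPT.AQ t))
  have hφ : ∀ a (ha : a ∈ M.A t), φ ⟨a, ha⟩ = φ' ⟨pq π a, pq_mem π (hPT.AQ t) ha⟩ := by
    intro a ha
    change φ' (qm π (M.A t) (hPT.AQ t) ⟨a, ha⟩) = _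
    rw [qm_apply π (hPT.AQ t) ha]
  obtain ⟨i, hi, hi0⟩ := hpol
  obtain ⟨w, hw0, hw1, hw2, hw3⟩ := hv3 κ φ ⟨i, by
    rw [hφ _ (M.xA t i)]
    exact hi0, hi⟩
  obtain ⟨E, hE⟩ := desc2 π (hPT.AQ t) hfA hf0 hfπ hker φ' w.D hw0
  refine ⟨⟨E, w.e, ?_⟩, ?_, hw2, ?_⟩
  · intro i hi
    refine (hE _ (M.xA t i)).trans ?_
    rw [w.hx i (M.xA t i)]
    congr 1
    exact hφ _ _
  · intro a ha
    have e : (⟨algebraMap L K a, le' a ha⟩ : im π (M.A t) (hPT.AQ t)) =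
        ⟨pq π (algebraMap L N a), pq_mem π (hPT.AQ t) (hPT.ov.le t a ha)⟩ :=
      Subtype.ext (hcomp a (hPT.AQ t (hPT.ov.le t a ha))).symm
    change E.D ⟨algebraMap L K a, le' a ha⟩ = _
    rw [e, hE _ (hPT.ov.le t a ha)]
    exact hw1 a ha
  · have e1 : E.D ⟨pq π (y t), hy'⟩ = w.D.D ⟨y t, hPT.yA t⟩ := hE _ (hPT.yA t)
    have e2 : φ' ⟨pq π (y t), hy'⟩ = φ ⟨y t, hPT.yA t⟩ := (hφ _ (hPT.yA t)).symm
    unfold om at hw3 ⊢
    change E.D ⟨pq π (y t), hy'⟩ + φ' ⟨pq π (y t), hy'⟩ * ∑ i, (μ i : κ) * w.e i ≠ 0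
    rw [e1, e2]
    exact hw3

end lift

section pcut

theorem pcut3 (hpas : WT_pas.{u}) (p : ℕ) [Fact p.Prime] (k L N K : Type u) [Field k]
    [PerfectField k]
    [CharP k p] [Field L] [Field N] [Field K] [Algebra k L] [Algebra k N] [Algebra L N]
    [IsScalarTower k L N] [Algebra k K] [Algebra L K] [IsScalarTower k L K]
    (T0 I0 T I G : Type) [Fintype I0] [Finite T] [Fintype I]
    (B : LM (⊥ : Subalgebra k L) ⊤ T0 I0) (f' : L) (n0 : I0 → ℤ) (a0 h0 : T0 → L)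
    (M : LM (⊥ : Subalgebra k N) ⊤ T I) (F : N) (Q : Subalgebra k N) (y : T → N) (c μ : I → ℤ)
    (g : G → L) (Γ : G → I → ℤ) (hN : NAS p B f' n0 a0 h0) (hPX : PAX p B M F Q y h0 n0 c μ)
    (hLq : Lq M Q) (hFn : Fn M (fun b => algebraMap L N (g b)) Γ) (hF2 : Fin2 M y c)
    (hFQ : F ∈ Q) (hF0 : F ≠ 0) (π : Q →ₐ[k] K)
    (hπ : ∀ q : Q, π q = 0 ↔ ∃ r ∈ Q, (q : N) = F * r)
    (hsurj : Function.Surjective π) (hQ : ∀ x : N, x ∈ Q ∨ x⁻¹ ∈ Q)
    (hcomp0 : ∀ (l : L) (hl : algebraMap L N l ∈ Q),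
      π ⟨algebraMap L N l, hl⟩ = algebraMap L K l) :
    ∃ (T' I' : Type) (_ : Finite T') (_ : Fintype I') (M' : LM (⊥ : Subalgebra k K) ⊤ T' I')
      (π' : T' → T0) (Θ' : I' → I0 → ℤ) (ho : Ovr B M' π' Θ') (Γ' : G → I' → ℤ) (μ' : I' → ℤ)
      (y' : T' → K) (hy' : ∀ t, y' t ∈ M'.A t),
      CLift ho n0 h0 hN.hA ∧ Fn M' (fun b => algebraMap L K (g b)) Γ' ∧ Frc M' ∧
      VLift ho μ' hy' ∧ (∀ i, μ' i ≤ 0) ∧
      (∀ t (κ : Type u) [Field κ] [Algebra k κ] (φ : M'.A t →ₐ[k] κ) i,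
        φ ⟨M'.x t i, M'.xA t i⟩ = 0 → μ' i < 0 → ∃ i0, n0 i0 < 0 ∧ 0 < Θ' i i0) ∧
      ∀ t, ((∏ i, M'.x t i ^ μ' i) * y' t) ^ p - (∏ i, M'.x t i ^ μ' i) * y' t =
        algebraMap L K ((∏ i, B.x (π' t) i ^ n0 i) * h0 (π' t)) := by
  classical
  have hloc : S2_loc.{u} := loc_main
  have hT := nonempty_T M
  obtain ⟨h, r, hPS0⟩ := hpas p k L N T0 I0 T I B f' n0 a0 h0 M F Q y c μ hN hPX
  obtain ⟨π0, Θ, hPT⟩ := hPX
  have hh : h = fun t => algebraMap L N (h0 (π0 t)) := by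
    funext t
    have h1 := hPS0.eq t
    have h2 := hPT.eq t
    have hp1 : ∏ i, M.x t i ^ ((p : ℤ) * μ i) ≠ 0 :=
      Finset.prod_ne_zero_iff.2 fun i _ => zpow_ne_zero _ (M.x0 t i)
    have hp2 : ∏ i, M.x t i ^ c i ≠ 0 :=
      Finset.prod_ne_zero_iff.2 fun i _ => zpow_ne_zero _ (M.x0 t i)
    rw [h2] at h1
    have h3 := mul_left_cancel₀ hp1 h1
    exact (mul_left_cancel₀ hp2 (sub_right_injective h3)).symm
  subst hh
  have hcomp : ∀ l, algebraMap L N l ∈ Q → pq π (algebraMap L N l) = algebraMap L K l := by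
    intro l hl
    rw [pq_of π hl]
    exact hcomp0 l hl
  have hAQ := hPT.AQ
  choose f hfA u hu0 huQ huQ' hFu hv hv2 hv3 hv4 using
    chart3 p B M F Q y r π0 Θ h0 n0 c μ hPS0 hPT hF2
  have hf0 : ∀ t, f t ≠ 0 := by
    intro t h0
    apply hF0
    rw [hFu t, h0, mul_zero]
  have hFπ : pq π F = 0 := by
    rw [pq_of π hFQ, hπ]
    exact ⟨1, Q.one_mem, (mul_one F).symm⟩
  have hfπ : ∀ t, pq π (f t) = 0 := by
    intro t
    have h1 : f t = (u t)⁻¹ * F := by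
      rw [hFu t, ← mul_assoc, inv_mul_cancel₀ (hu0 t), one_mul]
    rw [h1, pq_mul π (huQ' t) hFQ, hFπ, mul_zero]
  have hker0 : ∀ a ∈ Q, pq π a = 0 → ∃ r ∈ Q, a = F * r := by
    intro a ha h0
    rw [pq_of π ha, hπ] at h0
    exact h0
  have hmin : ∀ t, RingHom.ker (qm π (M.A t) (hAQ t)) ∈
      (Ideal.span {(⟨f t, hfA t⟩ : M.A t)}).minimalPrimes := by
    intro t
    refine ⟨⟨RingHom.ker_isPrime _, ?_⟩, ?_⟩
    · rw [Ideal.span_singleton_le_iff_mem, RingHom.mem_ker, qm_apply π (hAQ t) (hfA t)]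
      exact Subtype.ext (hfπ t)
    · rintro P'' ⟨hp'', hle''⟩ hPle ⟨a, ha⟩ haker
      have ha0 : pq π a = 0 := by
        rw [RingHom.mem_ker, qm_apply π (hAQ t) ha] at haker
        exact congrArg Subtype.val haker
      obtain ⟨r, hr, har⟩ := hker0 a (hAQ t ha) ha0
      obtain ⟨α, hα, β, hβ, hβ0, hβQ, hαβ⟩ := hLq t (u t * r) (Q.mul_mem (huQ t) hr)
      have h3 : (⟨β, hβ⟩ : M.A t) * ⟨a, ha⟩ = ⟨f t, hfA t⟩ * ⟨α, hα⟩ := by
        apply Subtype.ext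
        change β * a = f t * α
        rw [har, ← hαβ, hFu t]
        ring
      have h4 : (⟨β, hβ⟩ : M.A t) * ⟨a, ha⟩ ∈ P'' := by
        rw [h3]
        exact P''.mul_mem_right _ (hle'' (Ideal.mem_span_singleton_self _))
      rcases hp''.mem_or_mem h4 with h5 | h5
      · exfalso
        have h6 := hPle h5
        rw [RingHom.mem_ker, qm_apply π (hAQ t) hβ] at h6
        exact pq_ne π hβ0 (hAQ t hβ) hβQ (congrArg Subtype.val h6)
      · exact h5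
  have hv0 : ∀ t (κ : Type u) [Field κ] [Algebra k κ] (φ : M.A t →ₐ[k] κ),
      φ ⟨f t, hfA t⟩ = 0 → ∃ D : TV φ, D.D ⟨f t, hfA t⟩ ≠ 0 := by
    intro t κ _ _ φ hφ
    obtain ⟨δ, h1, -⟩ := hv t κ φ (hfA t) hφ
    exact ⟨δ, h1⟩
  have hker : ∀ t, LK π (M.A t) (f t) := by
    intro t m' hm' hPm'
    have hsm := M.sm t
    have hsq : Algebra.Smooth k (M.A t ⧸ Ideal.span {(⟨f t, hfA t⟩ : M.A t)}) :=
      smooth_quot _ (hv0 t)
    obtain ⟨e, he, h1⟩ := local_ker hloc (k := k) (⟨f t, hfA t⟩ : M.A t)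
      (RingHom.ker (qm π (M.A t) (hAQ t))) m' (hmin t) hm' (by
        rintro ⟨a, ha⟩ haker
        rw [RingHom.mem_ker, qm_apply π (hAQ t) ha] at haker
        exact hPm' a ha (congrArg Subtype.val haker))
    refine ⟨e, he, fun a ha h0 => ?_⟩
    obtain ⟨b', hb'⟩ := h1 ⟨a, ha⟩ (by
      rw [RingHom.mem_ker, qm_apply π (hAQ t) ha]
      exact Subtype.ext h0)
    have h2 : (e : N) * a = f t * b' := congrArg Subtype.val hb'
    rw [h2, mul_div_cancel_left₀ _ (hf0 t)]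
    exact b'.2
  have hsm' : ∀ t, Algebra.Smooth k (im π (M.A t) (hAQ t)) := by
    intro t
    have := M.sm t
    exact smooth_im2 π hloc (hAQ t) (hfA t) (hfπ t) (hmin t) (hv0 t)
  have hK' : ∀ x : N, (∃ a b : Q, π b ≠ 0 ∧ x * b = a) ∨ (∃ a b : Q, π b ≠ 0 ∧ x⁻¹ * b = a) := by
    intro x
    rcases hQ x with h1 | h1
    · left
      exact ⟨⟨x, h1⟩, 1, by rw [map_one]; exact one_ne_zero, by simp⟩
    · right
      exact ⟨⟨x⁻¹, h1⟩, 1, by rw [map_one]; exact one_ne_zero, by simp⟩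
  obtain ⟨M', hA', hx'⟩ := exists_model2 π hK' M hAQ hPT.xQ f hfA hf0 hfπ hker hsm'
    (fun t => snc_option M t (f t) (hfA t) (hv t))
  have hA't : ∀ t, M'.A t = im π (M.A t) (hAQ t) := fun t => congrFun hA' t
  have hx't : ∀ t, M'.x t = fun i => pq π (M.x t i) := fun t => congrFun hx' t
  have hgQ : ∀ b, algebraMap L N (g b) ∈ Q := by
    intro b
    obtain ⟨t⟩ := hT
    obtain ⟨w, h0, h1, h2, h3⟩ := hFn b t
    change algebraMap L N (g b) = _ at h3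
    rw [h3]
    exact Q.mul_mem (hAQ t h1) (Q.prod_mem fun i _ =>
      zpow_mem_of (hAQ t (M.xA t i)) (Or.inr (hPT.xQ t i)))
  have hxz : ∀ t i (m : ℤ), M.x t i ^ m ∈ Q := fun t i m =>
    zpow_mem_of (hAQ t (M.xA t i)) (Or.inr (hPT.xQ t i))
  have ho : Ovr B M' π0 Θ := by
    refine ⟨?_, ?_, hPT.ov.Θ0⟩
    · intro t a ha
      have h1 := hPT.ov.le t a ha
      rw [hA't, ← hcomp a (hAQ t h1)]
      exact pq_mem π (hAQ t) h1
    · intro t i0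
      have h1 := hPT.ov.le t _ (B.xA (π0 t) i0)
      rw [← hcomp _ (hAQ t h1), hPT.ov.x t i0, hx't]
      have h4 : ∀ i, M.x t i ^ Θ i i0 ∈ Q := fun i =>
        zpow_mem_of (hAQ t (M.xA t i)) (Or.inr (hPT.xQ t i))
      rw [pq_prod π _ _ fun i _ => h4 i]
      refine Finset.prod_congr rfl fun i _ => ?_
      exact pq_zpow π (M.x0 t i) (hAQ t (M.xA t i)) (hPT.xQ t i) _
  have hy' : ∀ t, pq π (y t) ∈ M'.A t := by
    intro t
    rw [hA't]
    exact pq_mem π (hAQ t) (hPT.yA t)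
  refine ⟨T, I, inferInstance, inferInstance, M', π0, Θ, ho, Γ, μ, fun t => pq π (y t), hy', ?_,
    ?_, ?_, ?_, hPT.m0, ?_, ?_⟩
  · intro t κ _ _ φ' v0 hpole
    exact lift_chart p B M F y π0 Θ h0 n0 c μ hPS0.hA hPT π hcomp t (f t) (hfA t) (hf0 t) (hfπ t)
      (hker t) (fun κ _ _ φ hφ v h1 h2 => hv2 t κ φ (hfA t) hφ v h1 h2) (M'.A t) (M'.x t)
      (hA't t) (hx't t) (ho.le t) κ φ' v0 hpole
  · intro a t
    obtain ⟨w, h0, h1, h2, h3⟩ := hFn a t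
    change algebraMap L N (g a) = _ at h3
    rw [hA', hx']
    refine ⟨pq π w, pq_ne π h0 (hAQ t h1) (hAQ t h2), pq_mem π (hAQ t) h1, ?_, ?_⟩
    · rw [← pq_inv π h0 (hAQ t h1) (hAQ t h2)]
      exact pq_mem π (hAQ t) h2
    · have h4 : ∀ i, M.x t i ^ Γ a i ∈ Q := fun i =>
        zpow_mem_of (hAQ t (M.xA t i)) (Or.inr (hPT.xQ t i))
      change algebraMap L K (g a) = _
      rw [← hcomp _ (hgQ a), h3, pq_mul π (hAQ t h1) (Q.prod_mem fun i _ => h4 i),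
        pq_prod π _ _ fun i _ => h4 i]
      congr 1
      refine Finset.prod_congr rfl fun i _ => ?_
      exact pq_zpow π (M.x0 t i) (hAQ t (M.xA t i)) (hPT.xQ t i) _
  · intro t x
    obtain ⟨q, rfl⟩ := hsurj x
    obtain ⟨α, hα, β, hβ, hβ0, hβQ, hαβ⟩ := hLq t q q.2
    rw [hA']
    have h1 : pq π β ≠ 0 := pq_ne π hβ0 (hAQ t hβ) hβQ
    refine ⟨pq π α, pq_mem π (hAQ t) hα, pq π β, pq_mem π (hAQ t) hβ, h1, ?_⟩
    rw [eq_mul_inv_iff_mul_eq₀ h1, ← pq_coe π q, ← pq_mul π q.2 (hAQ t hβ), hαβ]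
  · intro t κ _ _ φ' hpol
    exact vert_chart p B M F y π0 Θ h0 n0 c μ hPT π hcomp t (f t) (hfA t) (hf0 t) (hfπ t)
      (hker t) (fun κ _ _ φ h1 => hv3 t κ φ (hfA t) h1) (M'.A t) (M'.x t)
      (hA't t) (hx't t) (ho.le t) (hy' t) κ φ' (M'.xA t) hpol
  · -- poles
    intro t κ _ _ φ' i hi hμ
    have hsub : ∀ a (ha : a ∈ M.A t), pq π a ∈ M'.A t := by
      intro a ha
      rw [hA't]
      exact pq_mem π (hAQ t) ha
    -- transport of `φ'` to `M.A t`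
    have key : ∀ (A1 : Subalgebra k K) (x1 : I → K) (hA1 : A1 = im π (M.A t) (hAQ t))
        (hx1 : x1 = fun i => pq π (M.x t i)) (ψ : A1 →ₐ[k] κ) (hxA1 : ∀ i, x1 i ∈ A1),
        ψ ⟨x1 i, hxA1 i⟩ = 0 → ∃ i0, n0 i0 < 0 ∧ 0 < Θ i i0 := by
      intro A1 x1 hA1 hx1 ψ hxA1 hψ
      subst hA1 hx1
      let φ : M.A t →ₐ[k] κ := ψ.comp (qm π (M.A t) (hAQ t))
      have hφ : ∀ a (ha : a ∈ M.A t), φ ⟨a, ha⟩ = ψ ⟨pq π a, pq_mem π (hAQ t) ha⟩ := by
        intro a ha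
        change ψ (qm π (M.A t) (hAQ t) ⟨a, ha⟩) = _
        rw [qm_apply π (hAQ t) ha]
      refine hv4 t κ φ (hfA t) ?_ i ?_ hμ
      · rw [hφ]
        have : (⟨pq π (f t), pq_mem π (hAQ t) (hfA t)⟩ : im π (M.A t) (hAQ t)) = 0 :=
          Subtype.ext (hfπ t)
        rw [this, map_zero]
      · rw [hφ _ (M.xA t i)]
        exact hψ
    exact key (M'.A t) (M'.x t) (hA't t) (hx't t) φ' (M'.xA t) hi
  · -- the equation
    intro t
    have hyQ : y t ∈ Q := hAQ t (hPT.yA t)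
    have hmQ : ∏ i, M.x t i ^ μ i ∈ Q := Q.prod_mem fun i _ => hxz t i _
    have hm0 : ∀ m : I → ℤ, ∏ i, M.x t i ^ m i ≠ 0 := fun m =>
      Finset.prod_ne_zero_iff.2 fun i _ => zpow_ne_zero _ (M.x0 t i)
    set V := (∏ i, M.x t i ^ μ i) * y t with hV
    have hVQ : V ∈ Q := Q.mul_mem hmQ hyQ
    have hpV : pq π V = (∏ i, M'.x t i ^ μ i) * pq π (y t) := by
      rw [hV, pq_mul π hmQ hyQ, pq_prod π _ _ fun i _ => hxz t i _, hx't]
      congr 1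
      refine Finset.prod_congr rfl fun i _ => ?_
      exact pq_zpow π (M.x0 t i) (hAQ t (M.xA t i)) (hPT.xQ t i) _
    have hpow : ∀ a ∈ Q, ∀ m : ℕ, pq π (a ^ m) = pq π a ^ m := by
      intro a ha m
      induction m with
      | zero =>
        rw [pow_zero, pow_zero, pq_of π Q.one_mem]
        exact map_one π
      | succ m ih => rw [pow_succ, pow_succ, pq_mul π (Q.pow_mem ha m) ha, ih]
    have hBx : algebraMap L N (∏ i, B.x (π0 t) i ^ n0 i) =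
        ∏ i, M.x t i ^ ((p : ℤ) * μ i + c i) := by
      rw [map_prod]
      simp only [map_zpow₀, hPT.ov.x t, ← Finset.prod_zpow, ← zpow_mul]
      rw [Finset.prod_comm]
      refine Finset.prod_congr rfl fun i _ => ?_
      have h1 : (p : ℤ) * μ i + c i = ∑ i0, Θ i i0 * n0 i0 := by
        rw [hPT.ce i]; ring
      rw [h1]
      clear h1
      generalize (Finset.univ : Finset I0) = s
      induction s using Finset.induction_on with
      | empty => simp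
      | insert a s ha ih =>
        rw [Finset.prod_insert ha, Finset.sum_insert ha, zpow_add₀ (M.x0 t i), ih]
    have heq : V ^ p - V - algebraMap L N ((∏ i, B.x (π0 t) i ^ n0 i) * h0 (π0 t)) = F := by
      rw [hPT.eq t, map_mul, hBx, hV]
      have e1 : ∏ i, M.x t i ^ ((p : ℤ) * μ i) = (∏ i, M.x t i ^ μ i) ^ p := by
        rw [← Finset.prod_pow]
        refine Finset.prod_congr rfl fun i _ => ?_
        rw [mul_comm (p : ℤ), zpow_mul, zpow_natCast]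
      have e2 : ∏ i, M.x t i ^ ((p : ℤ) * μ i + c i) =
          (∏ i, M.x t i ^ μ i) ^ p * ∏ i, M.x t i ^ c i := by
        rw [← e1, ← Finset.prod_mul_distrib]
        exact Finset.prod_congr rfl fun i _ => zpow_add₀ (M.x0 t i) _ _
      have e3 : (∏ i, M.x t i ^ μ i) = (∏ i, M.x t i ^ μ i) ^ p *
          ∏ i, M.x t i ^ (-((p : ℤ) - 1) * μ i) := by
        rw [← e1, ← Finset.prod_mul_distrib]
        refine Finset.prod_congr rfl fun i _ => ?_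
        rw [← zpow_add₀ (M.x0 t i)]
        congr 1
        ring
      rw [e1, e2]
      conv_lhs =>
        enter [1, 2]
        rw [e3]
      ring
    have hlQ : algebraMap L N ((∏ i, B.x (π0 t) i ^ n0 i) * h0 (π0 t)) ∈ Q := by
      rw [map_mul, hBx]
      exact Q.mul_mem (Q.prod_mem fun i _ => hxz t i _) (hAQ t (hPS0.hA t))
    have h1 : pq π (V ^ p - V - algebraMap L N ((∏ i, B.x (π0 t) i ^ n0 i) * h0 (π0 t))) = 0 := by
      rw [heq]; exact hFπ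
    have hsub : ∀ a ∈ Q, ∀ b ∈ Q, pq π (a - b) = pq π a - pq π b := by
      intro a ha b hb
      rw [pq_of π (Q.sub_mem ha hb), pq_of π ha, pq_of π hb, ← map_sub]
      rfl
    rw [hsub _ (Q.sub_mem (Q.pow_mem hVQ p) hVQ) _ hlQ, hsub _ (Q.pow_mem hVQ p) _ hVQ,
      hpow V hVQ, hcomp _ hlQ, hpV] at h1
    exact sub_eq_zero.1 h1

end pcut

end Pool.Agent.Zk10
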