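import Pool.Agent.Zk10.K2
import Pool.Agent.TH214.Dom2
import Pool.Agent.W356.WT.Nas

/-!
Families of local functions with joint normal form, with coefficients in the ground field.
-/

set_option autoImplicit false
set_option linter.unusedVariables false
set_option linter.unusedSectionVars false

universe u

open Polynomial

namespace Pool.Agent.Zk10

open Pool.Agent.W558 Pool.Agent.W177.WD Pool.Agent.W174.WA Pool.Agent.W356.WT.Nas
open Pool.Agent.TH214

section lt

variable {k K : Type u} [Field k] [Field K] [Algebra k K] {A : Subalgebra k K} {κ : Type u}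
  [Field κ] [Algebra k κ] {φ : A →ₐ[k] κ} {I : Type} {x : I → K}

/-- Linear combinations of logarithmic tangent vectors. -/
def ltc (c d : κ) (v w : LT φ x) : LT φ x where
  D := TV.comb c d v.D w.D
  e := fun i => c * v.e i + d * w.e i
  hx := by
    intro i h
    rw [TV.comb_D, v.hx i h, w.hx i h]
    ring

lemma om_ltc [Fintype I] (c d : κ) (v w : LT φ x) (n : I → ℤ) {h : K} (hh : h ∈ A) :
    om (ltc c d v w) n hh = c * om v n hh + d * om w n hh := by
  have h1 : ∑ i, (n i : κ) * (c * v.e i + d * w.e i) =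
      c * ∑ i, (n i : κ) * v.e i + d * ∑ i, (n i : κ) * w.e i := by
    rw [Finset.mul_sum, Finset.mul_sum, ← Finset.sum_add_distrib]
    exact Finset.sum_congr rfl fun i _ => by ring
  unfold om
  change c * v.D.D ⟨h, hh⟩ + d * w.D.D ⟨h, hh⟩ + φ ⟨h, hh⟩ *
    ∑ i, (n i : κ) * (c * v.e i + d * w.e i) = _
  rw [h1]
  ring

end lt

section defs

variable {k K : Type u} [Field k] [Field K] [Algebra k K] {R0 R : Subalgebra k K} {T I : Type}

/-- The point `φ` lies on the poles of the monomial `x ^ n`. -/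
def Pol (M : LM R0 R T I) (n : I → ℤ) {t : T} {κ : Type u} [Field κ] [Algebra k κ]
    (φ : M.A t →ₐ[k] κ) : Prop :=
  ∃ i, n i < 0 ∧ φ ⟨M.x t i, M.xA t i⟩ = 0

/-- The local functions `x ^ (n t l) * h t l` have a joint normal form. -/
structure KC [Fintype I] {ι : Type} (M : LM R0 R T I) (n : T → ι → I → ℤ) (h : T → ι → K) :
    Prop where
  n0 : ∀ t l i, n t l i ≤ 0
  hA : ∀ t l, h t l ∈ M.A t
  ln : ∀ t (κ : Type u) [Field κ] [Algebra k κ] (φ : M.A t →ₐ[k] κ) (l : ι), Pol M (n t l) φ →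
    ∃ v : LT φ (M.x t), om v (n t l) (hA t l) ≠ 0 ∧
      ∀ l', l' ≠ l → Pol M (n t l') φ → om v (n t l') (hA t l') = 0

/-- The local function. -/
noncomputable def bf [Fintype I] (M : LM R0 R T I) {ι : Type} (n : T → ι → I → ℤ)
    (h : T → ι → K) (t : T) (l : ι) : K := (∏ i, M.x t i ^ n t l i) * h t l

/-- The functions `a ^ p - a + g + ∑ c l * b l`. -/
def KB (p : ℕ) (A : Subalgebra k K) {ι : Type} [Fintype ι] (b : ι → K) (F : K) : Prop :=
  ∃ a : K, ∃ g ∈ A, ∃ c : ι → k, F = a ^ p - a + g + ∑ l, algebraMap k K (c l) * b l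

/-- On the chart `t` the function `x ^ N * h'` is, up to regular functions, a linear
combination of the local functions. -/
def Lnk [Fintype I] {ι : Type} [Fintype ι] (M : LM R0 R T I) (n : T → ι → I → ℤ)
    (h : T → ι → K) (hA : ∀ t l, h t l ∈ M.A t) (t : T) (N : I → ℤ) {h' : K}
    (hA' : h' ∈ M.A t) : Prop :=
  ∃ (c : ι → k) (g : K), g ∈ M.A t ∧
    (∏ i, M.x t i ^ N i) * h' = g + ∑ l, algebraMap k K (c l) * bf M n h t l ∧
    ((∀ i, N i = 0 ∨ (M.x t i)⁻¹ ∈ M.A t) ∨ ∃ l0, c l0 ≠ 0 ∧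
      (∀ i, N i = n t l0 i ∨ (M.x t i)⁻¹ ∈ M.A t) ∧
      ∀ (κ : Type u) [Field κ] [Algebra k κ] (φ : M.A t →ₐ[k] κ), Pol M N φ →
        ∃ d : ι → κ, d l0 ≠ 0 ∧ (∀ l, ¬ Pol M (n t l) φ → d l = 0) ∧
          ∀ v : LT φ (M.x t), om v N hA' = ∑ l, d l * om v (n t l) (hA t l))

lemma not_pol_inv (M : LM R0 R T I) {t : T} {κ : Type u} [Field κ] [Algebra k κ]
    (φ : M.A t →ₐ[k] κ) {i : I} (hi : φ ⟨M.x t i, M.xA t i⟩ = 0) : (M.x t i)⁻¹ ∉ M.A t :=
  not_inv (φ := φ) (M.x0 t i) (M.xA t i) hi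

/-- Cleanness of `x ^ N * h'`. -/
lemma Lnk.ln [Fintype I] {ι : Type} [Fintype ι] {M : LM R0 R T I} {n : T → ι → I → ℤ}
    {h : T → ι → K} (hK : KC M n h) {t : T} {N : I → ℤ} {h' : K} {hA' : h' ∈ M.A t}
    (hL : Lnk M n h hK.hA t N hA') (κ : Type u) [Field κ] [Algebra k κ] (φ : M.A t →ₐ[k] κ)
    (hP : Pol M N φ) : ∃ v : LT φ (M.x t), om v N hA' ≠ 0 := by
  obtain ⟨c, g, hg, heq, h1⟩ := hL
  obtain ⟨i, hi, hi0⟩ := hP
  have hinv := not_pol_inv M φ hi0
  rcases h1 with h1 | ⟨l0, hc, hN, h2⟩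
  · rcases h1 i with h3 | h3
    · omega
    · exact absurd h3 hinv
  · obtain ⟨d, hd0, hd, hom⟩ := h2 κ φ ⟨i, hi, hi0⟩
    have hni : N i = n t l0 i := (hN i).resolve_right hinv
    obtain ⟨v, hv, hv'⟩ := hK.ln t κ φ l0 ⟨i, by omega, hi0⟩
    refine ⟨v, ?_⟩
    rw [hom v, Finset.sum_eq_single l0]
    · exact mul_ne_zero hd0 hv
    · intro l _ hl
      by_cases hp : Pol M (n t l) φ
      · rw [hv' l hl hp, mul_zero]
      · rw [hd l hp, zero_mul]
    · intro h; exact absurd (Finset.mem_univ _) h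

end defs

section ov

variable {k K : Type u} [Field k] [Field K] [Algebra k K] {R0 R R0' R' : Subalgebra k K}
  {T I T' I' : Type} [Fintype I] [Fintype I'] {M : LM R0 R T I} {M' : LM R0' R' T' I'}
  {π : T' → T} {Θ : I' → I → ℤ}

lemma KC.ov (hOv : Ov M M' π Θ) (hΘ : ∀ i' i, 0 ≤ Θ i' i) {ι : Type} {n : T → ι → I → ℤ}
    {h : T → ι → K} (hK : KC M n h) :
    KC M' (fun t l => tr Θ (n (π t) l)) (fun t => h (π t)) where
  n0 := by
    intro t j i'
    refine Finset.sum_nonpos fun i _ => ?_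
    exact mul_nonpos_of_nonneg_of_nonpos (hΘ i' i) (hK.n0 _ j i)
  hA := fun t' j => hOv.le t' (hK.hA (π t') j)
  ln := by
    intro t' κ _ _ φ' j hj
    obtain ⟨v, hv1, hv2⟩ := hK.ln (π t') κ (φ'.comp (Subalgebra.inclusion (hOv.le t'))) j
      (pole_ov hOv hΘ (hK.n0 _ j) φ' hj)
    obtain ⟨v', h1, h2⟩ := hOv.lt t' κ φ' v
    refine ⟨v', ?_, ?_⟩
    · rw [om_tr hOv v v' h1 h2 (n _ j) (hK.hA _ j)]
      exact hv1
    · intro l hl hp
      rw [om_tr hOv v v' h1 h2 (n _ l) (hK.hA _ l)]
      exact hv2 l hl (pole_ov hOv hΘ (hK.n0 _ l) φ' hp)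

lemma bf_ov (hOv : Ov M M' π Θ) {ι : Type} {n : T → ι → I → ℤ} {h : T → ι → K} (t : T')
    (l : ι) : bf M' (fun t l => tr Θ (n (π t) l)) (fun t => h (π t)) t l = bf M n h (π t) l := by
  unfold bf
  rw [prod_ov hOv]
  rfl

end ov

section piv

/-- A minimal element. -/
lemma exists_min_of_total {ι : Type} (r : ι → ι → Prop) (ht : ∀ a b, r a b ∨ r b a)
    (htr : ∀ a b c, r a b → r b c → r a c) (S : Finset ι) (hS : S.Nonempty) :
    ∃ a ∈ S, ∀ b ∈ S, r a b := by
  classical
  induction hS using Finset.Nonempty.cons_induction with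
  | singleton a => exact ⟨a, by simp, by simpa using (ht a a)⟩
  | cons a s ha hs ih =>
    obtain ⟨b, hb, hb'⟩ := ih
    rcases ht a b with h1 | h1
    · refine ⟨a, by simp, ?_⟩
      intro c hc
      rw [Finset.mem_cons] at hc
      rcases hc with rfl | hc
      · simpa using ht c c
      · exact htr _ _ _ h1 (hb' c hc)
    · refine ⟨b, by simp [hb], ?_⟩
      intro c hc
      rw [Finset.mem_cons] at hc
      rcases hc with rfl | hc
      · exact h1
      · exact hb' c hc

variable {k K : Type u} [Field k] [Field K] [Algebra k K] {R0 R : Subalgebra k K} {T I : Type}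
  [Fintype I] {ι : Type} [Fintype ι] {M : LM R0 R T I} {n : T → ι → I → ℤ} {h : T → ι → K}

/-- The normal form of an element of `KB` on a chart. -/
lemma pivot (p : ℕ) (hK : KC M n h) (t : T)
    (hcmp : ∀ l l', (∀ i, n t l i ≤ n t l' i ∨ (M.x t i)⁻¹ ∈ M.A t) ∨
      (∀ i, n t l' i ≤ n t l i ∨ (M.x t i)⁻¹ ∈ M.A t)) (F : K)
    (hF : KB p (M.A t) (bf M n h t) F) :
    ∃ (N : I → ℤ) (a h' : K), (∀ i, N i ≤ 0) ∧ F = a ^ p - a + (∏ i, M.x t i ^ N i) * h' ∧
      ∃ hA' : h' ∈ M.A t, Lnk M n h hK.hA t N hA' := by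
  classical
  obtain ⟨a, g, hg, c, hFe⟩ := hF
  by_cases hc : ∀ l, c l = 0
  · refine ⟨0, a, g, fun i => le_rfl, ?_, hg, 0, g, hg, ?_, Or.inl fun i => Or.inl rfl⟩
    · rw [hFe]
      simp [hc]
    · simp
  · push Not at hc
    obtain ⟨l1, hl1⟩ := hc
    obtain ⟨l0, hl0, hmin⟩ := exists_min_of_total
      (fun l l' => ∀ i, n t l i ≤ n t l' i ∨ (M.x t i)⁻¹ ∈ M.A t) hcmp
      (by
        intro a b c h1 h2 i
        rcases h1 i with h3 | h3
        · rcases h2 i with h4 | h4
          · exact Or.inl (h3.trans h4)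
          · exact Or.inr h4
        · exact Or.inr h3) (Finset.univ.filter fun l => c l ≠ 0) ⟨l1, by simp [hl1]⟩
    rw [Finset.mem_filter] at hl0
    have hc0 : c l0 ≠ 0 := hl0.2
    have hmin' : ∀ l, c l ≠ 0 → ∀ i, 0 ≤ n t l i - n t l0 i ∨ (M.x t i)⁻¹ ∈ M.A t := by
      intro l hl i
      rcases hmin l (by simp [hl]) i with h1 | h1
      · left; omega
      · exact Or.inr h1
    set N : I → ℤ := n t l0 with hN
    have hN0 : ∀ i, N i ≤ 0 := hK.n0 t l0
    have hx0 := M.x0 t
    have hmA : ∀ l, c l ≠ 0 → ∏ i, M.x t i ^ (n t l i - N i) ∈ M.A t := fun l hl =>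
      (M.A t).prod_mem fun i _ => zpow_mem_of (M.xA t i) (hmin' l hl i)
    have hgA : ∏ i, M.x t i ^ (-N i) ∈ M.A t :=
      (M.A t).prod_mem fun i _ => zpow_mem_of (M.xA t i) (Or.inl (by
        have := hN0 i; omega))
    let tm : ι → K := fun l => if c l = 0 then 0 else
      algebraMap k K (c l) * ((∏ i, M.x t i ^ (n t l i - N i)) * h t l)
    let h' : K := (∏ i, M.x t i ^ (-N i)) * g + ∑ l, tm l
    have htm : ∀ l, tm l ∈ M.A t := by
      intro l
      change (if c l = 0 then 0 else _) ∈ M.A t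
      split_ifs with h1
      · exact (M.A t).zero_mem
      · exact (M.A t).mul_mem ((M.A t).algebraMap_mem _) ((M.A t).mul_mem (hmA l h1) (hK.hA t l))
    have hA' : h' ∈ M.A t := (M.A t).add_mem ((M.A t).mul_mem hgA hg)
      ((M.A t).sum_mem fun l _ => htm l)
    have hx1 : (∏ i, M.x t i ^ N i) * ∏ i, M.x t i ^ (-N i) = 1 := by
      rw [← Finset.prod_mul_distrib]
      refine Finset.prod_eq_one fun i _ => ?_
      rw [← zpow_add₀ (hx0 i), add_neg_cancel, zpow_zero]
    have hx2 : ∀ l, (∏ i, M.x t i ^ N i) * ∏ i, M.x t i ^ (n t l i - N i) =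
        ∏ i, M.x t i ^ n t l i := by
      intro l
      rw [← Finset.prod_mul_distrib]
      refine Finset.prod_congr rfl fun i _ => ?_
      rw [← zpow_add₀ (hx0 i)]
      congr 1
      ring
    have heq : (∏ i, M.x t i ^ N i) * h' = g + ∑ l, algebraMap k K (c l) * bf M n h t l := by
      change (∏ i, M.x t i ^ N i) * ((∏ i, M.x t i ^ (-N i)) * g + ∑ l, tm l) = _
      rw [mul_add, ← mul_assoc, hx1, one_mul, Finset.mul_sum]
      congr 1
      refine Finset.sum_congr rfl fun l _ => ?_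
      change _ * (if c l = 0 then 0 else _) = _
      split_ifs with h1
      · rw [h1, map_zero, mul_zero, zero_mul]
      · unfold bf
        rw [← hx2 l]
        ring
    refine ⟨N, a, h', fun i => hK.n0 t l0 i, ?_, hA', c, g, hg, heq, Or.inr ⟨l0, hc0,
      fun i => Or.inl rfl, ?_⟩⟩
    · rw [hFe, heq]
      ring
    · intro κ _ _ φ hP
      obtain ⟨j, hj, hj0⟩ := hP
      have hjinv := not_pol_inv M φ hj0
      -- the values of the quotients
      let d : ι → κ := fun l => if hl : c l = 0 then 0 else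
        algebraMap k κ (c l) * φ ⟨∏ i, M.x t i ^ (n t l i - N i), hmA l hl⟩
      have hφg : φ ⟨∏ i, M.x t i ^ (-N i), hgA⟩ = 0 := by
        have h1 : ZE φ (∏ i, M.x t i ^ (-N i)) :=
          ZE.prod _ (fun i => zpow_mem_of (M.xA t i) (Or.inl (by
            have := hN0 i; omega))) j (ZE.zpow (hx0 j) (M.xA t j) _ (by omega) hj0)
        exact h1.2
      refine ⟨d, ?_, ?_, ?_⟩
      · change (if hl : c l0 = 0 then 0 else _) ≠ 0
        rw [dif_neg hc0]
        have h1 : (⟨∏ i, M.x t i ^ (n t l0 i - N i), hmA l0 hc0⟩ : M.A t) = 1 := by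
          apply Subtype.ext
          change ∏ i, M.x t i ^ (n t l0 i - N i) = 1
          refine Finset.prod_eq_one fun i _ => ?_
          rw [hN, sub_self, zpow_zero]
        rw [h1, map_one, mul_one]
        exact (_root_.map_ne_zero _).2 hc0
      · intro l hl
        change (if hl : c l = 0 then 0 else _) = 0
        split_ifs with h1
        · rfl
        · have h2 : n t l j = 0 := by
            by_contra h3
            apply hl
            exact ⟨j, lt_of_le_of_ne (hK.n0 t l j) h3, hj0⟩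
          have h4 : ZE φ (∏ i, M.x t i ^ (n t l i - N i)) :=
            ZE.prod _ (fun i => zpow_mem_of (M.xA t i) (hmin' l h1 i)) j
              (ZE.zpow (hx0 j) (M.xA t j) _ (by omega) hj0)
          rw [h4.2, mul_zero]
      · intro v
        have hLx : ∀ i, LG v.D (M.x t i) (v.e i) := fun i => ⟨M.xA t i, v.hx i _⟩
        set s : κ := ∑ i, (N i : κ) * v.e i with hs
        -- the first term
        have h1 : HD v.D ((∏ i, M.x t i ^ (-N i)) * g) 0 0 := by
          have L1 : LG v.D (∏ i, M.x t i ^ (-N i)) (∑ i, ((-N i : ℤ) : κ) * v.e i) :=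
            LG.prod _ _ _ fun i _ => (hLx i).zpow (hx0 i) _ (Or.inl (by
              have := hN0 i; omega))
          have L2 := (HD.of_LG L1 hgA).mul (⟨hg, rfl, rfl⟩ : HD v.D g _ _)
          rw [hφg] at L2
          simpa using L2
        -- the other terms
        have h2 : ∀ l ∈ (Finset.univ : Finset ι), HD v.D (tm l)
            (d l * om v (n t l) (hK.hA t l) - (d l * φ ⟨h t l, hK.hA t l⟩) * s)
            (d l * φ ⟨h t l, hK.hA t l⟩) := by
          intro l _
          by_cases hl : c l = 0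
          · have e1 : tm l = 0 := if_pos hl
            have e2 : d l = 0 := dif_pos hl
            rw [e1, e2]
            refine ⟨(M.A t).zero_mem, ?_, ?_⟩
            · have : (⟨0, (M.A t).zero_mem⟩ : M.A t) = 0 := rfl
              rw [this, map_zero]
              ring
            · have : (⟨0, (M.A t).zero_mem⟩ : M.A t) = 0 := rfl
              rw [this, map_zero, zero_mul]
          · have e1 : tm l = algebraMap k K (c l) *
              ((∏ i, M.x t i ^ (n t l i - N i)) * h t l) := if_neg hl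
            have e2 : d l = algebraMap k κ (c l) *
              φ ⟨∏ i, M.x t i ^ (n t l i - N i), hmA l hl⟩ := dif_neg hl
            rw [e1]
            have L1 : LG v.D (∏ i, M.x t i ^ (n t l i - N i))
                (∑ i, ((n t l i - N i : ℤ) : κ) * v.e i) :=
              LG.prod _ _ _ fun i _ => (hLx i).zpow (hx0 i) _ (hmin' l hl i)
            have L2 := (HD.of_LG L1 (hmA l hl)).mul
              (⟨hK.hA t l, rfl, rfl⟩ : HD v.D (h t l) _ _)
            have L0 : HD v.D (algebraMap k K (c l)) 0 (algebraMap k κ (c l)) := by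
              refine ⟨(M.A t).algebraMap_mem _, ?_, ?_⟩
              · exact v.D.D_algebraMap (c l)
              · exact φ.commutes (c l)
            have L3 := L0.mul L2
            convert L3 using 1
            · rw [e2]
              unfold om
              rw [hs]
              have e3 : ∑ i, ((n t l i - N i : ℤ) : κ) * v.e i =
                  ∑ i, (n t l i : κ) * v.e i - ∑ i, (N i : κ) * v.e i := by
                rw [← Finset.sum_sub_distrib]
                refine Finset.sum_congr rfl fun i _ => ?_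
                push_cast
                ring
              rw [e3]
              ring
            · rw [e2]
              ring
        have h3 := HD.sum (D := v.D) Finset.univ tm _ _ h2
        obtain ⟨hm1, hd1, hv1⟩ := h1
        obtain ⟨hm3, hd3, hv3⟩ := h3
        have e0 : (⟨h', hA'⟩ : M.A t) = ⟨(∏ i, M.x t i ^ (-N i)) * g, hm1⟩ +
            ⟨∑ l, tm l, hm3⟩ := rfl
        unfold om
        rw [e0, map_add, map_add, hd1, hd3, hv1, hv3, ← hs, Finset.sum_sub_distrib, zero_add,
          zero_add, ← Finset.sum_mul]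
        unfold om
        ring

end piv

end Pool.Agent.Zk10
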