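import Pool.Agent.Zk10.K3

/-!
Uniqueness of the order of the poles of the Artin-Schreier normal form along the components of the
boundary.
-/

set_option autoImplicit false
set_option linter.unusedVariables false
set_option linter.unusedSectionVars false

universe u

open Polynomial

namespace Pool.Agent.Zk10

open Pool.Agent.W558 Pool.Agent.W177.WD Pool.Agent.W174.WA Pool.Agent.W356.WT.Nas
open Pool.Agent.TH214 Pool.Agent.W973.CUT Pool.Agent.W973.CUT2

section ext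

variable {k K : Type u} [Field k] [Field K] [Algebra k K] {A : Subalgebra k K} {κ : Type u}
  [Field κ] [Algebra k κ]

/-- Extension of a point to a localization. -/
lemma exists_ext (φ : A →ₐ[k] κ) {h : K} (hh : h ∈ A) (h0 : h ≠ 0) (hφ : φ ⟨h, hh⟩ ≠ 0) :
    ∃ φ' : adj A h⁻¹ →ₐ[k] κ, ∀ a : A, φ' ⟨a, le_adj A _ a.2⟩ = φ a := by
  let _ : Algebra A (adj A h⁻¹) := (Subalgebra.inclusion (le_adj A h⁻¹)).toRingHom.toAlgebra
  have : IsScalarTower k A (adj A h⁻¹) := IsScalarTower.of_algebraMap_eq fun r => rfl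
  have hloc : IsLocalization.Away (⟨h, hh⟩ : A) (adj A h⁻¹) := isLocalization_adj hh h0
  have hu : IsUnit ((φ : A →+* κ) ⟨h, hh⟩) := isUnit_iff_ne_zero.2 hφ
  let ψ : adj A h⁻¹ →+* κ := IsLocalization.Away.lift (⟨h, hh⟩ : A) hu
  have hψ : ∀ a : A, ψ (algebraMap A (adj A h⁻¹) a) = φ a := fun a =>
    IsLocalization.Away.lift_eq _ hu a
  refine ⟨{ ψ with
      commutes' := by
        intro r
        change ψ (algebraMap k _ r) = _
        rw [IsScalarTower.algebraMap_apply k A (adj A h⁻¹), hψ]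
        exact φ.commutes r }, fun a => hψ a⟩

/-- A point with given kernel. -/
lemma exists_point (P : Ideal A) [P.IsPrime] : ∃ (κ : Type u) (_ : Field κ) (_ : Algebra k κ)
    (φ : A →ₐ[k] κ), ∀ a, φ a = 0 ↔ a ∈ P := by
  refine ⟨FractionRing (A ⧸ P), inferInstance, inferInstance,
    (IsScalarTower.toAlgHom k (A ⧸ P) (FractionRing (A ⧸ P))).comp (Ideal.Quotient.mkₐ k P), ?_⟩
  intro a
  rw [← Ideal.Quotient.eq_zero_iff_mem]
  change algebraMap (A ⧸ P) (FractionRing (A ⧸ P)) (Ideal.Quotient.mk P a) = 0 ↔ _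
  exact map_eq_zero_iff _ (IsFractionRing.injective (A ⧸ P) (FractionRing (A ⧸ P)))

end ext

section core

variable {k K : Type u} [Field k] [Field K] [Algebra k K]

/-- The main argument. -/
theorem pole_core (p : ℕ) [Fact p.Prime] [CharP k p] (A : Subalgebra k K) [Algebra.Smooth k A]
    (hfr : ∀ y : K, ∃ a ∈ A, ∃ b ∈ A, b ≠ 0 ∧ y = a * b⁻¹) {I : Type} [Fintype I]
    [DecidableEq I] (x : I → K) (hx : ∀ i, x i ∈ A) (hx0 : ∀ i, x i ≠ 0) (hS : SNC A x) (r : K)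
    (hr : r ∈ A) (hr0 : r ≠ 0) (N : I → ℤ) (h : K) (hh : h ∈ A)
    (hln : ∀ (κ : Type u) [Field κ] [Algebra k κ] (φ : A →ₐ[k] κ),
      (∃ i, N i < 0 ∧ φ ⟨x i, hx i⟩ = 0) → ∃ v : LT φ x, om v N hh ≠ 0) (i : I) (v' : ℤ)
    (hv : N i < v') (hv' : v' ≤ 0) (E w' : K)
    (hw' : w' ∈ adj A (r * ∏ j ∈ Finset.univ.erase i, x j)⁻¹)
    (hE : E ^ p - E = (∏ j, x j ^ N j) * h - x i ^ v' * w') :
    ∃ n : ℕ, r ^ n * (x i)⁻¹ ∈ A := by
  classical
  have hp : p.Prime := Fact.out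
  by_contra hcon
  push Not at hcon
  let xi : A := ⟨x i, hx i⟩
  -- the prime
  have hrad : (⟨r, hr⟩ : A) ∉ (Ideal.span {xi}).radical := by
    rintro ⟨n, hn⟩
    rw [Ideal.mem_span_singleton] at hn
    obtain ⟨b, hb⟩ := hn
    apply hcon n
    have h1 : r ^ n = x i * b := congrArg Subtype.val hb
    rw [h1, mul_comm (x i), mul_assoc, mul_inv_cancel₀ (hx0 i), mul_one]
    exact b.2
  rw [← Ideal.sInf_minimalPrimes, Ideal.mem_sInf] at hrad
  push Not at hrad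
  obtain ⟨P, hPmin, hrP⟩ := hrad
  have hPp : P.IsPrime := hPmin.1.1
  have hxP : xi ∈ P := hPmin.1.2 (Ideal.mem_span_singleton_self xi)
  obtain ⟨κ, _, _, φ, hφ⟩ := exists_point P
  have hsm : Algebra.Smooth k (A ⧸ Ideal.span {xi}) := by
    refine smooth_quot xi ?_
    intro κ _ _ φ hφ
    obtain ⟨D, hD, -⟩ := hS κ φ i (hx i) hφ
    exact ⟨D, by rw [hD]; exact one_ne_zero⟩
  obtain ⟨e, he, heP⟩ := local_ker loc_main (k := k) xi P P hPmin hPp le_rfl
  have hxi : φ xi = 0 := (hφ _).2 hxP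
  have hxj : ∀ j, j ≠ i → φ ⟨x j, hx j⟩ ≠ 0 := by
    intro j hj h0
    obtain ⟨b, hb⟩ := heP _ ((hφ _).1 h0)
    obtain ⟨D, hD, hD'⟩ := hS κ φ j (hx j) h0
    have h1 := congrArg D.D hb
    rw [D.leib, D.leib, h0, hD, hxi, hD' i (hx i) hj.symm hxi] at h1
    apply he
    rw [← hφ]
    simpa using h1
  -- the localization
  set P0 : K := ∏ j ∈ Finset.univ.erase i, x j with hP0
  have hP0A : P0 ∈ A := A.prod_mem fun j _ => hx j
  have hP00 : P0 ≠ 0 := Finset.prod_ne_zero_iff.2 fun j _ => hx0 j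
  set h0 : K := r * P0 with hh0
  have hh0A : h0 ∈ A := A.mul_mem hr hP0A
  have hh00 : h0 ≠ 0 := mul_ne_zero hr0 hP00
  have hφh0 : φ ⟨h0, hh0A⟩ ≠ 0 := by
    have h1 : (⟨h0, hh0A⟩ : A) = ⟨r, hr⟩ * ∏ j ∈ Finset.univ.erase i, ⟨x j, hx j⟩ := by
      apply Subtype.ext
      change r * P0 = r * (A.val (∏ j ∈ Finset.univ.erase i, ⟨x j, hx j⟩))
      rw [map_prod]
      rfl
    rw [h1, map_mul, map_prod]
    refine mul_ne_zero (fun h2 => hrP ((hφ _).1 h2)) (Finset.prod_ne_zero_iff.2 fun j hj => ?_)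
    exact hxj j (Finset.ne_of_mem_erase hj)
  set B := adj A h0⁻¹ with hB
  have hle : A ≤ B := le_adj _ _
  have hinv : h0⁻¹ ∈ B := self_mem_adj _ _
  obtain ⟨ψ, hψ⟩ := exists_ext φ hh0A hh00 hφh0
  have hψ' : ∀ (a : K) (ha : a ∈ A) (ha' : a ∈ B), ψ ⟨a, ha'⟩ = φ ⟨a, ha⟩ := fun a ha _ =>
    hψ ⟨a, ha⟩
  have hxinv : ∀ j, j ≠ i → (x j)⁻¹ ∈ B := by
    intro j hj
    have h1 : (x j)⁻¹ = r * (∏ l ∈ (Finset.univ.erase i).erase j, x l) * h0⁻¹ := by
      have h2 : h0 = x j * (r * ∏ l ∈ (Finset.univ.erase i).erase j, x l) := by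
        rw [hh0, hP0, ← Finset.mul_prod_erase _ _ (Finset.mem_erase.2 ⟨hj, Finset.mem_univ j⟩)]
        ring
      have h3 : r * (∏ l ∈ (Finset.univ.erase i).erase j, x l) ≠ 0 :=
        mul_ne_zero hr0 (Finset.prod_ne_zero_iff.2 fun l _ => hx0 l)
      rw [h2, mul_inv, mul_left_comm, mul_inv_cancel₀ h3, mul_one]
    rw [h1]
    exact B.mul_mem (hle (A.mul_mem hr (A.prod_mem fun l _ => hx l))) hinv
  -- elements with value zero are divisible by `x i` after multiplication with `e`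
  have hdiv : ∀ (z : K) (hz : z ∈ B), ψ ⟨z, hz⟩ = 0 → ∃ z' ∈ B, (e : K) * z = x i * z' := by
    intro z hz hz0
    obtain ⟨n, hn⟩ := (mem_adj_inv hh0A hh00).1 hz
    have h1 : φ ⟨z * h0 ^ n, hn⟩ = 0 := by
      rw [← hψ' _ hn (hle hn)]
      have h2 : (⟨z * h0 ^ n, hle hn⟩ : B) = ⟨z, hz⟩ * ⟨h0 ^ n, hle (A.pow_mem hh0A n)⟩ := rfl
      rw [h2, map_mul, hz0, zero_mul]
    obtain ⟨b, hb⟩ := heP _ ((hφ _).1 h1)
    have h3 : (e : K) * (z * h0 ^ n) = x i * b := congrArg Subtype.val hb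
    refine ⟨b * h0⁻¹ ^ n, B.mul_mem (hle b.2) (B.pow_mem hinv n), ?_⟩
    have h4 : h0 ^ n * h0⁻¹ ^ n = 1 := by rw [← mul_pow, mul_inv_cancel₀ hh00, one_pow]
    calc (e : K) * z = (e : K) * (z * h0 ^ n) * h0⁻¹ ^ n := by
          rw [mul_assoc, mul_assoc, h4, mul_one]
      _ = x i * (b * h0⁻¹ ^ n) := by rw [h3, mul_assoc]
  have heψ : ψ ⟨e, hle e.2⟩ ≠ 0 := by
    rw [hψ' _ e.2]
    exact fun h1 => he ((hφ _).1 h1)
  -- normality
  have hsmB : Algebra.Smooth k B := smooth_adj_inv hh0A hh00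
  have hIC : IsIntegrallyClosed B := wd_norm k B
  have hfB : IsFractionRing B K := by
    refine IsFractionRing.of_field B K fun z => ?_
    obtain ⟨a, ha, b, hb, hb0, hz⟩ := hfr z
    exact ⟨⟨a, hle ha⟩, ⟨b, hle hb⟩, by
      rw [div_eq_mul_inv]; exact hz⟩
  -- the tangent vector
  have hNi : N i < 0 := lt_of_lt_of_le hv hv'
  obtain ⟨v, hvne⟩ := hln κ φ ⟨i, hNi, hxi⟩
  obtain ⟨δ, hδ⟩ := TV.ext_loc hh0A hh00 ψ φ hψ v.D
  have hδ' : ∀ (a : K) (ha : a ∈ A) (ha' : a ∈ B), δ.D ⟨a, ha'⟩ = v.D.D ⟨a, ha⟩ :=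
    fun a ha ha' => hδ a ha ha'
  -- the unit
  let u : K := ∏ j ∈ Finset.univ.erase i, x j ^ N j
  have hLx : ∀ j, LG δ (x j) (v.e j) := by
    intro j
    refine ⟨hle (hx j), ?_⟩
    rw [hδ' _ (hx j), hψ' _ (hx j), v.hx j]
  have hLu : LG δ u (∑ j ∈ Finset.univ.erase i, (N j : κ) * v.e j) :=
    LG.prod _ _ _ fun j hj => (hLx j).zpow (hx0 j) _ (Or.inr (hxinv j (Finset.ne_of_mem_erase hj)))
  have huB : u ∈ B := hLu.mem
  have hu0 : u ≠ 0 := Finset.prod_ne_zero_iff.2 fun j _ => zpow_ne_zero _ (hx0 j)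
  have huinv : u⁻¹ ∈ B := by
    have h1 : u⁻¹ = ∏ j ∈ Finset.univ.erase i, x j ^ (-N j) := by
      rw [← Finset.prod_inv_distrib]
      exact Finset.prod_congr rfl fun j _ => (zpow_neg _ _).symm
    rw [h1]
    exact B.prod_mem fun j hj =>
      zpow_mem_of (hle (hx j)) (Or.inr (hxinv j (Finset.ne_of_mem_erase hj)))
  have hψu : ψ ⟨u, huB⟩ ≠ 0 := (UN.of_inv (φ := ψ) hu0 huB huinv).2
  have hmon : ∏ j, x j ^ N j = x i ^ N i * u :=
    (Finset.mul_prod_erase Finset.univ (fun j => x j ^ N j) (Finset.mem_univ i)).symm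
  set w : K := u * h with hw
  have hwB : w ∈ B := B.mul_mem huB (hle hh)
  set c : K := w - x i ^ (v' - N i) * w' with hc
  have hxv : x i ^ (v' - N i) ∈ B :=
    zpow_mem_of (hle (hx i)) (Or.inl (by omega))
  have hcB : c ∈ B := B.sub_mem hwB (B.mul_mem hxv hw')
  have hE1 : E ^ p - E = x i ^ N i * c := by
    rw [hE, hmon, hc, mul_sub, ← mul_assoc (x i ^ N i) (x i ^ (v' - N i)), ← zpow_add₀ (hx0 i)]
    have : N i + (v' - N i) = v' := by ring
    rw [this, hw]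
    ring
  -- the value of the form
  have hpk : (p : κ) = 0 := cast_zero (k := k) p κ
  have hδxi : δ.D ⟨x i, hle (hx i)⟩ = 0 := by
    rw [hδ' _ (hx i), v.hx i, hxi, zero_mul]
  have hψxi : ψ ⟨x i, hle (hx i)⟩ = 0 := by rw [hψ' _ (hx i)]; exact hxi
  have hxz : ∀ (b : K) (hb : b ∈ B), ψ ⟨x i * b, B.mul_mem (hle (hx i)) hb⟩ = 0 ∧
      δ.D ⟨x i * b, B.mul_mem (hle (hx i)) hb⟩ = 0 := by
    intro b hb
    have h1 : (⟨x i * b, B.mul_mem (hle (hx i)) hb⟩ : B) = ⟨x i, hle (hx i)⟩ * ⟨b, hb⟩ := rfl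
    rw [h1, map_mul, δ.leib, hψxi, hδxi]
    simp
  have homw : ψ ⟨u, huB⟩ * om v N hh = δ.D ⟨w, hwB⟩ + (N i : κ) * v.e i * ψ ⟨w, hwB⟩ := by
    have h1 : (⟨w, hwB⟩ : B) = ⟨u, huB⟩ * ⟨h, hle hh⟩ := rfl
    rw [h1, map_mul ψ, δ.leib, hδ' _ hh, hψ' _ hh, hLu.eq huB]
    unfold om
    rw [← Finset.add_sum_erase Finset.univ (fun j => (N j : κ) * v.e j) (Finset.mem_univ i)]
    ring
  suffices hfin : ∃ (ε : K) (hε : ε ∈ B), ψ ⟨ε, hε⟩ ≠ 0 ∧ (∃ (z : K) (hz : z ∈ B) (b : K)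
      (hb : b ∈ B), ε * w = z ^ p + x i * b ∧ ((p : ℤ) ∣ N i ∨ ψ ⟨z, hz⟩ = 0) ∧
      δ.D ⟨ε, hε⟩ * ψ ⟨w, hwB⟩ = 0) by
    obtain ⟨ε, hε, hεne, z, hz, b, hb, heq, hor, hδε⟩ := hfin
    have e1 : (⟨ε, hε⟩ * ⟨w, hwB⟩ : B) = ⟨z, hz⟩ ^ p + ⟨x i * b, B.mul_mem (hle (hx i)) hb⟩ :=
      Subtype.ext heq
    have e2 := congrArg ψ e1
    have e3 := congrArg δ.D e1
    rw [map_mul, map_add, map_pow, (hxz b hb).1, add_zero] at e2
    rw [δ.leib, map_add, (hxz b hb).2, add_zero, D_pow, hpk, zero_mul, mul_comm (ψ _) (δ.D ⟨ε, hε⟩),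
      hδε, add_zero] at e3
    have h1 : δ.D ⟨w, hwB⟩ = 0 := (mul_eq_zero.1 e3).resolve_left hεne
    have h2 : (N i : κ) * v.e i * ψ ⟨w, hwB⟩ = 0 := by
      rcases hor with ⟨m, hm⟩ | hor
      · rw [hm]
        push_cast
        rw [hpk]
        ring
      · rw [hor, zero_pow hp.ne_zero] at e2
        rw [(mul_eq_zero.1 e2).resolve_left hεne, mul_zero]
    rw [h1, h2, add_zero] at homw
    exact hvne ((mul_eq_zero.1 homw).resolve_left hψu)
  -- the root
  obtain ⟨V, hV⟩ : ∃ V : ℕ, N i = -(V : ℤ) := ⟨(-N i).toNat, by omega⟩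
  have hV1 : 1 ≤ V := by omega
  let m : ℕ := (V + p - 1) / p
  have hm1 : V ≤ m * p := by
    have h1 := Nat.div_add_mod (V + p - 1) p
    have h2 := Nat.mod_lt (V + p - 1) hp.pos
    have h3 : m * p = p * ((V + p - 1) / p) := mul_comm _ _
    omega
  have hm2 : m * p < V + p := by
    have h1 := Nat.div_mul_le_self (V + p - 1) p
    have h3 : m * p = (V + p - 1) / p * p := rfl
    have := hp.pos
    omega
  have hm3 : 1 ≤ m := by
    rw [Nat.one_le_iff_ne_zero]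
    intro h2
    rw [h2, zero_mul] at hm1
    omega
  have hm4 : m ≤ V := by
    by_contra h1
    have h2 : V + 1 ≤ m := not_le.1 h1
    have h3 : (V + 1) * p ≤ m * p := Nat.mul_le_mul_right p h2
    have h4 : V * 1 ≤ V * p := Nat.mul_le_mul_left V hp.one_lt.le
    have h5 : (V + 1) * p = V * p + p := by ring
    omega
  obtain ⟨s, hs⟩ : ∃ s : ℕ, m * p = V + s := ⟨m * p - V, by omega⟩
  set z : K := x i ^ m * E with hz
  have hxi0 := hx0 i
  have hmulx : x i ^ (V : ℕ) * (E ^ p - E) = c := by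
    rw [hE1, hV, zpow_neg, zpow_natCast, ← mul_assoc, mul_inv_cancel₀ (pow_ne_zero _ hxi0), one_mul]
  have hzeq : z ^ p - x i ^ (m * (p - 1)) * z = x i ^ s * c := by
    have h1 : z ^ p = x i ^ (m * p) * E ^ p := by rw [hz, mul_pow, ← pow_mul]
    have h2 : x i ^ (m * (p - 1)) * z = x i ^ (m * p) * E := by
      rw [hz, ← mul_assoc, ← pow_add]
      congr 2
      have h3 : p = (p - 1) + 1 := by have := hp.pos; omega
      conv_rhs => rw [h3]
      ring
    rw [h1, h2, ← mul_sub, hs, pow_add, mul_comm (x i ^ V), mul_assoc, hmulx]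
  have hzB : z ∈ B := by
    have hint : IsIntegral B z := by
      have hb1 : x i ^ (m * (p - 1)) ∈ B := B.pow_mem (hle (hx i)) _
      have hb2 : x i ^ s * c ∈ B := B.mul_mem (B.pow_mem (hle (hx i)) _) hcB
      refine ⟨X ^ p - (C ⟨_, hb1⟩ * X + C ⟨_, hb2⟩), ?_, ?_⟩
      · apply monic_X_pow_sub
        refine lt_of_le_of_lt (degree_linear_le) ?_
        exact_mod_cast hp.one_lt
      · rw [← aeval_def, map_sub, map_add, map_mul, map_pow, aeval_X, aeval_C, aeval_C]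
        change z ^ p - (x i ^ (m * (p - 1)) * z + x i ^ s * c) = 0
        rw [← hzeq]
        ring
    obtain ⟨y, hy⟩ := IsIntegrallyClosed.isIntegral_iff.1 hint
    rw [← hy]
    exact y.2
  obtain ⟨d, hd⟩ : ∃ d : ℕ, v' - N i = 1 + (d : ℤ) := ⟨(v' - N i - 1).toNat, by omega⟩
  have hxd : x i ^ (v' - N i) = x i * x i ^ d := by
    rw [hd, zpow_add₀ hxi0, zpow_one, zpow_natCast]
  have hwc : w = c + x i * (x i ^ d * w') := by
    rw [hc, hxd]
    ring
  have hdw : x i ^ d * w' ∈ B := B.mul_mem (B.pow_mem (hle (hx i)) d) hw'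
  rcases Nat.eq_zero_or_pos s with hs0 | hs0
  · -- `p` divides the order
    refine ⟨1, B.one_mem, ?_, z, hzB, x i ^ d * w' - x i ^ (m * (p - 1) - 1) * z,
      B.sub_mem hdw (B.mul_mem (B.pow_mem (hle (hx i)) _) hzB), ?_, Or.inl ⟨-(m : ℤ), ?_⟩, ?_⟩
    · have h1 : (⟨1, B.one_mem⟩ : B) = 1 := rfl
      rw [h1, map_one]
      exact one_ne_zero
    · rw [hs0, pow_zero, one_mul] at hzeq
      have h1 : x i ^ (m * (p - 1)) = x i * x i ^ (m * (p - 1) - 1) := by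
        rw [← pow_succ']
        congr 1
        have h2 : 1 ≤ m * (p - 1) := Nat.one_le_iff_ne_zero.2 (Nat.mul_ne_zero (by omega)
          (by have := hp.two_le; omega))
        omega
      rw [one_mul, hwc, ← hzeq, h1]
      ring
    · rw [hV]
      have h1 : ((m * p : ℕ) : ℤ) = ((V + s : ℕ) : ℤ) := by rw [hs]
      push_cast at h1
      rw [hs0] at h1
      push_cast at h1
      linarith
    · have h1 : (⟨1, B.one_mem⟩ : B) = 1 := rfl
      rw [h1, δ.D_one, zero_mul]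
  · -- `p` does not divide the order
    have hz0 : ψ ⟨z, hzB⟩ = 0 := by
      have e1 : (⟨z, hzB⟩ : B) ^ p = ⟨x i * (x i ^ (m * (p - 1) - 1) * z + x i ^ (s - 1) * c),
          B.mul_mem (hle (hx i)) (B.add_mem (B.mul_mem (B.pow_mem (hle (hx i)) _) hzB)
            (B.mul_mem (B.pow_mem (hle (hx i)) _) hcB))⟩ := by
        apply Subtype.ext
        change z ^ p = x i * (x i ^ (m * (p - 1) - 1) * z + x i ^ (s - 1) * c)
        have h1 : x i ^ (m * (p - 1)) = x i * x i ^ (m * (p - 1) - 1) := by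
          rw [← pow_succ']
          congr 1
          have h2 : 1 ≤ m * (p - 1) := Nat.one_le_iff_ne_zero.2 (Nat.mul_ne_zero (by omega)
            (by have := hp.two_le; omega))
          omega
        have h2 : x i ^ s = x i * x i ^ (s - 1) := by
          rw [← pow_succ']
          congr 1
          omega
        rw [h1, h2] at hzeq
        linear_combination hzeq
      have e2 := congrArg ψ e1
      rw [map_pow, (hxz _ (B.add_mem (B.mul_mem (B.pow_mem (hle (hx i)) _) hzB)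
            (B.mul_mem (B.pow_mem (hle (hx i)) _) hcB))).1] at e2
      exact eq_zero_of_pow_eq_zero e2
    obtain ⟨z', hz'B, hz'⟩ := hdiv z hzB hz0
    -- `e ^ p * c` is divisible by `x i`
    have heB : (e : K) ∈ B := hle e.2
    have hxVp : V + 1 ≤ m * p := by omega
    obtain ⟨s1, hs1⟩ : ∃ s1 : ℕ, V + p = m * p + (s1 + 1) := ⟨V + p - m * p - 1, by omega⟩
    have hec : (e : K) ^ p * c = x i * (x i ^ s1 * z' ^ p) -
        x i * (x i ^ (V - m) * ((e : K) ^ (p - 1) * z')) := by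
      have h1 : (x i ^ m * ((e : K) * E)) = x i * z' := by rw [← hz', hz]; ring
      have h2 : x i ^ (m * p) * ((e : K) ^ p * E ^ p) = x i ^ p * z' ^ p := by
        have := congrArg (fun y => y ^ p) h1
        simp only [mul_pow, ← pow_mul] at this
        exact this
      have h3 : x i ^ V * ((e : K) ^ p * E ^ p) = x i * (x i ^ s1 * z' ^ p) := by
        have h4 : x i ^ (m * p) ≠ 0 := pow_ne_zero _ hxi0
        apply mul_left_cancel₀ h4
        calc x i ^ (m * p) * (x i ^ V * ((e : K) ^ p * E ^ p)) =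
            x i ^ V * (x i ^ (m * p) * ((e : K) ^ p * E ^ p)) := by ring
          _ = x i ^ (V + p) * z' ^ p := by rw [h2, pow_add]; ring
          _ = x i ^ (m * p) * (x i * (x i ^ s1 * z' ^ p)) := by
              rw [hs1, pow_add, pow_succ]; ring
      have h5 : x i ^ V * ((e : K) ^ p * E) = x i * (x i ^ (V - m) * ((e : K) ^ (p - 1) * z')) := by
        have h6 : x i ^ V = x i ^ (V - m) * x i ^ m := by
          rw [← pow_add]; congr 1; omega
        have h7 : (e : K) ^ p = (e : K) ^ (p - 1) * e := by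
          rw [← pow_succ]; congr 1; have := hp.pos; omega
        calc x i ^ V * ((e : K) ^ p * E) = x i ^ (V - m) * (e : K) ^ (p - 1) *
              (x i ^ m * ((e : K) * E)) := by rw [h6, h7]; ring
          _ = _ := by rw [h1]; ring
      rw [← h3, ← h5, ← hmulx]
      ring
    have heP' : (e : K) ^ p ∈ B := B.pow_mem heB p
    refine ⟨(e : K) ^ p, heP', ?_, 0, B.zero_mem, x i ^ s1 * z' ^ p -
      x i ^ (V - m) * ((e : K) ^ (p - 1) * z') + (e : K) ^ p * (x i ^ d * w'),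
      B.add_mem (B.sub_mem (B.mul_mem (B.pow_mem (hle (hx i)) _) (B.pow_mem hz'B _))
        (B.mul_mem (B.pow_mem (hle (hx i)) _) (B.mul_mem (B.pow_mem heB _) hz'B)))
        (B.mul_mem heP' hdw), ?_, Or.inr ?_, ?_⟩
    · have h1 : (⟨(e : K) ^ p, heP'⟩ : B) = ⟨e, heB⟩ ^ p := rfl
      rw [h1, map_pow]
      exact pow_ne_zero _ heψ
    · rw [zero_pow hp.ne_zero, zero_add, hwc, mul_add, hec]
      ring
    · have h1 : (⟨0, B.zero_mem⟩ : B) = 0 := rfl
      rw [h1, map_zero]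
    · have h1 : (⟨(e : K) ^ p, heP'⟩ : B) = ⟨e, heB⟩ ^ p := rfl
      rw [h1, D_pow, hpk, zero_mul, zero_mul]

end core

end Pool.Agent.Zk10
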