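import Pool.Agent.Zk10.K4

/-!
The exponents of the Artin-Schreier normal form can be made independent of the chart, by splitting
the components of the boundary.
-/

set_option autoImplicit false
set_option linter.unusedVariables false
set_option linter.unusedSectionVars false

universe u

open Polynomial

namespace Pool.Agent.Zk10

open Pool.Agent.W558 Pool.Agent.W177.WD Pool.Agent.W174.WA Pool.Agent.W356.WT.Nas
open Pool.Agent.TH214 Pool.Agent.W973.CUT Pool.Agent.W973.CUT2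

section uniq

variable {k K : Type u} [Field k] [Field K] [Algebra k K] {R0 R : Subalgebra k K} {T I : Type}
  [Fintype I]

/-- Smaller exponents on the first chart. -/
theorem pole_lt (p : ℕ) [Fact p.Prime] [CharP k p] (M : LM R0 R T I) (hfr : Frc M) (F : K)
    (N : T → I → ℤ) (a h : T → K) (hN0 : ∀ t i, N t i ≤ 0) (hA : ∀ t, h t ∈ M.A t)
    (heq : ∀ t, F = a t ^ p - a t + (∏ i, M.x t i ^ N t i) * h t)
    (hln : ∀ t (κ : Type u) [Field κ] [Algebra k κ] (φ : M.A t →ₐ[k] κ), Pol M (N t) φ →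
      ∃ v : LT φ (M.x t), om v (N t) (hA t) ≠ 0) (t t' : T) (i : I) (hlt : N t i < N t' i) :
    ∃ n : ℕ, (M.H t' / M.H t) ^ n * (M.x t i)⁻¹ ∈ M.A t := by
  classical
  have hcK : CharP K p := charP_of_injective_algebraMap (algebraMap k K).injective p
  have := M.sm t
  set r := M.H t' / M.H t with hr
  have hr0 : r ≠ 0 := div_ne_zero (M.H0 _) (M.H0 _)
  have hrA : r ∈ M.A t := M.rt t t'
  set P0 : K := ∏ j ∈ Finset.univ.erase i, M.x t j with hP0
  have hP00 : P0 ≠ 0 := Finset.prod_ne_zero_iff.2 fun j _ => M.x0 t j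
  have hP0A : P0 ∈ M.A t := (M.A t).prod_mem fun j _ => M.xA t j
  set h0 : K := r * P0 with hh0
  have hh00 : h0 ≠ 0 := mul_ne_zero hr0 hP00
  set B := adj (M.A t) h0⁻¹ with hB
  have hle : M.A t ≤ B := le_adj _ _
  have hinv : h0⁻¹ ∈ B := self_mem_adj _ _
  have hrinv : r⁻¹ ∈ B := by
    have h1 : r⁻¹ = P0 * h0⁻¹ := by
      rw [hh0, mul_inv, mul_left_comm, mul_inv_cancel₀ hP00, mul_one]
    rw [h1]
    exact B.mul_mem (hle hP0A) hinv
  have hrcan : ∀ (n : ℕ) (f : K), r ^ n * f ∈ M.A t → f ∈ B := by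
    intro n f hf
    have h1 : f = (r ^ n * f) * r⁻¹ ^ n := by
      rw [mul_right_comm, ← mul_pow, mul_inv_cancel₀ hr0, one_pow, one_mul]
    rw [h1]
    exact B.mul_mem (hle hf) (B.pow_mem hrinv n)
  have hle' : M.A t' ≤ B := by
    intro f hf
    obtain ⟨n, hn⟩ := M.gl t t' f hf
    exact hrcan n f hn
  have hq : ∀ j, M.x t' j / M.x t j ∈ B := by
    intro j
    obtain ⟨n, hn⟩ := M.gi t t' j
    exact hrcan n _ hn
  have hq' : ∀ j, M.x t j / M.x t' j ∈ B := by
    intro j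
    obtain ⟨n, hn⟩ := M.gi t' t j
    have h1 : M.x t j / M.x t' j = (M.H t / M.H t') ^ n * (M.x t j / M.x t' j) * r ^ n := by
      have h2 : (M.H t / M.H t') ^ n * r ^ n = 1 := by
        rw [← mul_pow, hr, div_mul_div_cancel₀ (M.H0 t'), div_self (M.H0 t), one_pow]
      rw [mul_right_comm, h2, one_mul]
    rw [h1]
    exact B.mul_mem (hle' hn) (B.pow_mem (hle hrA) n)
  have hxinv : ∀ j, j ≠ i → (M.x t j)⁻¹ ∈ B := by
    intro j hj
    have h1 : (M.x t j)⁻¹ = r * (∏ l ∈ (Finset.univ.erase i).erase j, M.x t l) * h0⁻¹ := by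
      have h2 : h0 = M.x t j * (r * ∏ l ∈ (Finset.univ.erase i).erase j, M.x t l) := by
        rw [hh0, hP0, ← Finset.mul_prod_erase _ _ (Finset.mem_erase.2 ⟨hj, Finset.mem_univ j⟩)]
        ring
      have h3 : r * (∏ l ∈ (Finset.univ.erase i).erase j, M.x t l) ≠ 0 :=
        mul_ne_zero hr0 (Finset.prod_ne_zero_iff.2 fun l _ => M.x0 t l)
      rw [h2, mul_inv, mul_left_comm, mul_inv_cancel₀ h3, mul_one]
    rw [h1]
    exact B.mul_mem (hle ((M.A t).mul_mem hrA ((M.A t).prod_mem fun l _ => M.xA t l))) hinv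
  have hxinv' : ∀ j, j ≠ i → (M.x t' j)⁻¹ ∈ B := by
    intro j hj
    have h1 : (M.x t' j)⁻¹ = (M.x t j)⁻¹ * (M.x t j / M.x t' j) := by
      have := M.x0 t j
      have := M.x0 t' j
      field_simp
    rw [h1]
    exact B.mul_mem (hxinv j hj) (hq' j)
  let w' : K := (M.x t' i / M.x t i) ^ N t' i *
    ((∏ j ∈ Finset.univ.erase i, M.x t' j ^ N t' j) * h t')
  have hw' : w' ∈ B := by
    refine B.mul_mem (zpow_mem_of (hq i) (Or.inr ?_)) (B.mul_mem (B.prod_mem fun j hj => ?_)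
      (hle' (hA t')))
    · rw [inv_div]
      exact hq' i
    · exact zpow_mem_of (hle' (M.xA t' j)) (Or.inr (hxinv' j (Finset.ne_of_mem_erase hj)))
  refine pole_core p (M.A t) (hfr t) (M.x t) (M.xA t) (M.x0 t) (M.snc t) r hrA hr0 (N t) (h t)
    (hA t) (fun κ _ _ φ hφ => hln t κ φ hφ) i (N t' i) hlt (hN0 t' i) (a t' - a t) w' hw' ?_
  have h1 : M.x t i ^ N t' i * w' = (∏ j, M.x t' j ^ N t' j) * h t' := by
    rw [← Finset.mul_prod_erase Finset.univ (fun j => M.x t' j ^ N t' j) (Finset.mem_univ i)]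
    change M.x t i ^ N t' i * ((M.x t' i / M.x t i) ^ N t' i *
      ((∏ j ∈ Finset.univ.erase i, M.x t' j ^ N t' j) * h t')) = _
    rw [← mul_assoc, ← mul_zpow, mul_div_cancel₀ _ (M.x0 t i), mul_assoc]
  rw [h1, sub_pow_char]
  have h2 := heq t
  have h3 := heq t'
  rw [h2] at h3
  linear_combination -h3

/-- The exponents on two charts are equal if the component meets the intersection. -/
theorem pole_unique (p : ℕ) [Fact p.Prime] [CharP k p] (M : LM R0 R T I) (hfr : Frc M) (F : K)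
    (N : T → I → ℤ) (a h : T → K) (hN0 : ∀ t i, N t i ≤ 0) (hA : ∀ t, h t ∈ M.A t)
    (heq : ∀ t, F = a t ^ p - a t + (∏ i, M.x t i ^ N t i) * h t)
    (hln : ∀ t (κ : Type u) [Field κ] [Algebra k κ] (φ : M.A t →ₐ[k] κ), Pol M (N t) φ →
      ∃ v : LT φ (M.x t), om v (N t) (hA t) ≠ 0) (t t' : T) (i : I) (hne : N t i ≠ N t' i) :
    ∃ n : ℕ, (M.H t' / M.H t) ^ n * (M.x t i)⁻¹ ∈ M.A t := by
  rcases lt_or_gt_of_ne hne with h1 | h1
  · exact pole_lt p M hfr F N a h hN0 hA heq hln t t' i h1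
  · obtain ⟨n, hn⟩ := pole_lt p M hfr F N a h hN0 hA heq hln t' t i h1
    obtain ⟨m, hm⟩ := M.gl t t' _ hn
    obtain ⟨l, hl⟩ := M.gi t t' i
    refine ⟨l + m + n, ?_⟩
    have h2 : (M.H t' / M.H t) ^ (l + m + n) * (M.x t i)⁻¹ =
        ((M.H t' / M.H t) ^ l * (M.x t' i / M.x t i)) *
        ((M.H t' / M.H t) ^ m * ((M.H t / M.H t') ^ n * (M.x t' i)⁻¹)) *
          (M.H t' / M.H t) ^ (n + n) := by
      have h3 : (M.H t / M.H t') ^ n * (M.H t' / M.H t) ^ n = 1 := by
        rw [← mul_pow, div_mul_div_cancel₀ (M.H0 t'), div_self (M.H0 t), one_pow]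
      have h4 : M.x t' i / M.x t i * (M.x t' i)⁻¹ = (M.x t i)⁻¹ := by
        have := M.x0 t i
        have := M.x0 t' i
        field_simp
      calc (M.H t' / M.H t) ^ (l + m + n) * (M.x t i)⁻¹ = (M.H t' / M.H t) ^ (l + m + n) *
            (M.x t' i / M.x t i * (M.x t' i)⁻¹) *
              ((M.H t / M.H t') ^ n * (M.H t' / M.H t) ^ n) := by rw [h3, h4, mul_one]
        _ = _ := by ring
    rw [h2]
    exact (M.A t).mul_mem ((M.A t).mul_mem hl hm) ((M.A t).pow_mem (M.rt t t') _)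

end uniq

section split

variable {k K : Type u} [Field k] [Field K] [Algebra k K] {R0 R : Subalgebra k K} {T I : Type}

open Classical in
/-- The splitting of the components by the values of `N`. -/
noncomputable def spX (M : LM R0 R T I) {V : Type} (val : V → ℤ) (N : T → I → ℤ) (t : T)
    (q : I × V) : K := if N t q.1 = val q.2 then M.x t q.1 else 1

variable (M : LM R0 R T I) {V : Type} (val : V → ℤ) (hval : Function.Injective val)
    (N : T → I → ℤ)
    (hN : ∀ t t' i, N t i ≠ N t' i → ∃ n : ℕ, (M.H t' / M.H t) ^ n * (M.x t i)⁻¹ ∈ M.A t)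

lemma spX_mem (t : T) (q : I × V) : spX M val N t q ∈ M.A t := by
  unfold spX
  split_ifs
  · exact M.xA t q.1
  · exact (M.A t).one_mem

/-- The model with split components. -/
noncomputable def spLM : LM R0 R T (I × V) where
  A := M.A
  H := M.H
  x := spX M val N
  sm := M.sm
  base := M.base
  H0 := M.H0
  HR := M.HR
  rt := M.rt
  gl := M.gl
  dn := M.dn
  cv := M.cv
  xA := spX_mem M val N
  x0 := by
    intro t q
    unfold spX
    split_ifs
    · exact M.x0 t q.1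
    · exact one_ne_zero
  gi := by
    intro t t' q
    unfold spX
    split_ifs with h2 h3 h3
    · exact M.gi t t' q.1
    · obtain ⟨n, hn⟩ := M.gl t t' _ (M.xA t' q.1)
      exact ⟨n, by rw [div_one]; exact hn⟩
    · obtain ⟨n, hn⟩ := hN t t' q.1 (fun h4 => h2 (h4 ▸ h3))
      exact ⟨n, by rw [one_div]; exact hn⟩
    · exact ⟨0, by rw [pow_zero, one_mul, div_one]; exact (M.A t).one_mem⟩
  snc := by
    intro t κ _ _ φ q hq hφ
    have h2 : N t q.1 = val q.2 := by
      by_contra h3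
      have h4 : (⟨spX M val N t q, hq⟩ : M.A t) = 1 := Subtype.ext (if_neg h3)
      rw [h4, map_one] at hφ
      exact one_ne_zero hφ
    have h3 : spX M val N t q = M.x t q.1 := if_pos h2
    have h3' : (⟨spX M val N t q, hq⟩ : M.A t) = ⟨M.x t q.1, M.xA t q.1⟩ := Subtype.ext h3
    rw [h3'] at hφ
    obtain ⟨D, hD, hD'⟩ := M.snc t κ φ q.1 (M.xA t q.1) hφ
    refine ⟨D, by rw [h3']; exact hD, ?_⟩
    intro q' hq' hne hφ'
    have h4 : N t q'.1 = val q'.2 := by
      by_contra h5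
      have h6 : (⟨spX M val N t q', hq'⟩ : M.A t) = 1 := Subtype.ext (if_neg h5)
      rw [h6, map_one] at hφ'
      exact one_ne_zero hφ'
    have h5' : (⟨spX M val N t q', hq'⟩ : M.A t) = ⟨M.x t q'.1, M.xA t q'.1⟩ :=
      Subtype.ext (if_pos h4)
    rw [h5'] at hφ' ⊢
    refine hD' q'.1 (M.xA t q'.1) ?_ hφ'
    intro h6
    apply hne
    refine Prod.ext h6 (hval ?_)
    rw [← h4, ← h2, h6]

end split

end Pool.Agent.Zk10
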