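import Pool.Agent.Zk10.K5

/-!
Transport of the normal forms to the model with split components, and the normal form of a function
with exponents which do not depend on the chart.
-/

set_option autoImplicit false
set_option linter.unusedVariables false
set_option linter.unusedSectionVars false

universe u

open Polynomial

namespace Pool.Agent.Zk10

open Pool.Agent.W558 Pool.Agent.W177.WD Pool.Agent.W174.WA Pool.Agent.W356.WT.Nas
open Pool.Agent.TH214

section split

variable {k K : Type u} [Field k] [Field K] [Algebra k K] {R0 R : Subalgebra k K} {T I V : Type}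
  [Fintype I] [Fintype V] (M : LM R0 R T I) (val : V → ℤ) (hval : Function.Injective val)
  (N : T → I → ℤ)
  (hN : ∀ t t' i, N t i ≠ N t' i → ∃ n : ℕ, (M.H t' / M.H t) ^ n * (M.x t i)⁻¹ ∈ M.A t)
  (hcov : ∀ t i, ∃ v, N t i = val v)

include hval hcov in
/-- Sums over the split components. -/
lemma sum_sp {A : Type*} [AddCommMonoid A] (t : T) (F : I × V → A) (G : I → A)
    (h1 : ∀ i v, N t i = val v → F (i, v) = G i) (h2 : ∀ i v, N t i ≠ val v → F (i, v) = 0) :
    ∑ q, F q = ∑ i, G i := by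
  classical
  rw [Fintype.sum_prod_type]
  refine Finset.sum_congr rfl fun i _ => ?_
  obtain ⟨v, hv⟩ := hcov t i
  rw [Finset.sum_eq_single v, h1 i v hv]
  · intro v' _ hv'
    refine h2 i v' fun h3 => hv' (hval ?_)
    rw [← h3, hv]
  · intro h; exact absurd (Finset.mem_univ _) h

include hval hcov in
lemma prod_sp (t : T) (f : I × V → ℤ) (g : I → ℤ) (hfg : ∀ i v, N t i = val v → f (i, v) = g i) :
    ∏ q, spX M val N t q ^ f q = ∏ i, M.x t i ^ g i := by
  classical
  rw [Fintype.prod_prod_type]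
  refine Finset.prod_congr rfl fun i _ => ?_
  obtain ⟨v, hv⟩ := hcov t i
  rw [Finset.prod_eq_single v, hfg i v hv]
  · unfold spX
    rw [if_pos hv]
  · intro v' _ hv'
    unfold spX
    rw [if_neg, one_zpow]
    exact fun h3 => hv' (hval (by rw [← h3, hv]))
  · intro h; exact absurd (Finset.mem_univ _) h

section pt

variable {t : T} {κ : Type u} [Field κ] [Algebra k κ] {φ : M.A t →ₐ[k] κ}

open Classical in
/-- Logarithmic vectors on the split model. -/
noncomputable def ltsp (v : LT φ (M.x t)) : LT φ (spX M val N t) where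
  D := v.D
  e := fun q => if N t q.1 = val q.2 then v.e q.1 else 0
  hx := by
    intro q hq
    by_cases h : N t q.1 = val q.2
    · have h1 : (⟨spX M val N t q, hq⟩ : M.A t) = ⟨M.x t q.1, M.xA t q.1⟩ :=
        Subtype.ext (if_pos h)
      rw [h1, if_pos h]
      exact v.hx q.1 _
    · have h1 : (⟨spX M val N t q, hq⟩ : M.A t) = 1 := Subtype.ext (if_neg h)
      rw [h1, if_neg h, v.D.D_one, mul_zero]

include hval hcov in
lemma om_ltsp (v : LT φ (M.x t)) (f : I × V → ℤ) (g : I → ℤ)
    (hfg : ∀ i v, N t i = val v → f (i, v) = g i) {h : K} (hh : h ∈ M.A t) :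
    om (ltsp M val N v) f hh = om v g hh := by
  classical
  unfold om
  congr 2
  refine sum_sp val hval N hcov t _ _ ?_ ?_
  · intro i w hw
    change (f (i, w) : κ) * (if N t i = val w then v.e i else 0) = _
    rw [if_pos hw, hfg i w hw]
  · intro i w hw
    change (f (i, w) : κ) * (if N t i = val w then v.e i else 0) = _
    rw [if_neg hw, mul_zero]

omit [Fintype I] [Fintype V] in
lemma e_sp (v : LT φ (spX M val N t)) (i : I) (w : V) (h : N t i ≠ val w) : v.e (i, w) = 0 := by
  have h1 : (⟨spX M val N t (i, w), spX_mem M val N t (i, w)⟩ : M.A t) = 1 :=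
    Subtype.ext (if_neg h)
  have h2 := v.hx (i, w) (spX_mem M val N t (i, w))
  rw [h1, v.D.D_one, map_one, one_mul] at h2
  exact h2.symm

include hval hcov in
lemma exists_unsp (v : LT φ (spX M val N t)) : ∃ v' : LT φ (M.x t), v'.D = v.D ∧
    ∀ (f : I × V → ℤ) (g : I → ℤ) (hfg : ∀ i w, N t i = val w → f (i, w) = g i) {h : K}
      (hh : h ∈ M.A t), om v f hh = om v' g hh := by
  classical
  choose w hw using hcov t
  refine ⟨⟨v.D, fun i => v.e (i, w i), ?_⟩, rfl, ?_⟩
  · intro i hi
    have h1 : (⟨M.x t i, hi⟩ : M.A t) = ⟨spX M val N t (i, w i), spX_mem M val N t (i, w i)⟩ :=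
      Subtype.ext (if_pos (hw i)).symm
    rw [h1]
    exact v.hx _ _
  · intro f g hfg h hh
    unfold om
    congr 2
    refine sum_sp val hval N hcov t _ _ ?_ ?_
    · intro i w' hw'
      have h1 : w' = w i := hval (by rw [← hw', hw])
      change (f (i, w') : κ) * v.e (i, w') = (g i : κ) * v.e (i, w i)
      rw [h1, hfg i (w i) (hw i)]
    · intro i w' hw'
      change (f (i, w') : κ) * v.e (i, w') = 0
      rw [e_sp M val N v i w' hw', mul_zero]

end pt

include hval hcov in
lemma pol_sp (t : T) {κ : Type u} [Field κ] [Algebra k κ] (φ : M.A t →ₐ[k] κ) (f : I × V → ℤ)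
    (g : I → ℤ) (hfg : ∀ i v, N t i = val v → f (i, v) = g i) :
    Pol (spLM M val hval N hN) f (t := t) φ ↔ Pol M g φ := by
  constructor
  · rintro ⟨⟨i, w⟩, h1, h2⟩
    have h3 : N t i = val w := by
      by_contra h4
      have h5 : (⟨spX M val N t (i, w), spX_mem M val N t (i, w)⟩ : M.A t) = 1 :=
        Subtype.ext (if_neg h4)
      have h2' : φ ⟨spX M val N t (i, w), spX_mem M val N t (i, w)⟩ = 0 := h2
      rw [h5, map_one] at h2'
      exact one_ne_zero h2'
    refine ⟨i, ?_, ?_⟩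
    · rw [← hfg i w h3]
      exact h1
    · have h5 : (⟨spX M val N t (i, w), spX_mem M val N t (i, w)⟩ : M.A t) =
          ⟨M.x t i, M.xA t i⟩ := Subtype.ext (if_pos h3)
      have h2' : φ ⟨spX M val N t (i, w), spX_mem M val N t (i, w)⟩ = 0 := h2
      rw [h5] at h2'
      exact h2'
  · rintro ⟨i, h1, h2⟩
    obtain ⟨w, hw⟩ := hcov t i
    refine ⟨(i, w), ?_, ?_⟩
    · rw [hfg i w hw]
      exact h1
    · have h5 : (⟨spX M val N t (i, w), spX_mem M val N t (i, w)⟩ : M.A t) =
          ⟨M.x t i, M.xA t i⟩ := Subtype.ext (if_pos hw)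
      change φ ⟨spX M val N t (i, w), spX_mem M val N t (i, w)⟩ = 0
      rw [h5]
      exact h2

include hcov in
lemma KC.sp {ι : Type} {n : T → ι → I → ℤ} {h : T → ι → K} (hK : KC M n h) :
    KC (spLM M val hval N hN) (fun t l q => n t l q.1) h where
  n0 := fun t l q => hK.n0 t l q.1
  hA := hK.hA
  ln := by
    intro t κ _ _ φ l hP
    obtain ⟨v, hv, hv'⟩ := hK.ln t κ φ l
      ((pol_sp M val hval N hN hcov t φ _ (n t l) (fun _ _ _ => rfl)).1 hP)
    refine ⟨ltsp M val N v, ?_, ?_⟩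
    · have h1 := om_ltsp M val hval N hcov v (fun q => n t l q.1) (n t l) (fun _ _ _ => rfl)
        (hK.hA t l)
      exact fun h2 => hv (h1.symm.trans h2)
    · intro l' hl' hP'
      have h1 := om_ltsp M val hval N hcov v (fun q => n t l' q.1) (n t l') (fun _ _ _ => rfl)
        (hK.hA t l')
      exact h1.trans (hv' l' hl'
        ((pol_sp M val hval N hN hcov t φ _ (n t l') (fun _ _ _ => rfl)).1 hP'))

include hcov in
lemma bf_sp {ι : Type} {n : T → ι → I → ℤ} {h : T → ι → K} (t : T) (l : ι) :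
    bf (spLM M val hval N hN) (fun t l q => n t l q.1) h t l = bf M n h t l := by
  unfold bf
  congr 1
  exact prod_sp M val hval N hcov t _ _ fun _ _ _ => rfl

include hcov in
lemma Lnk.sp {ι : Type} [Fintype ι] {n : T → ι → I → ℤ} {h : T → ι → K} (hK : KC M n h) (t : T)
    {h' : K} (hA' : h' ∈ M.A t) (hL : Lnk M n h hK.hA t (N t) hA') :
    Lnk (spLM M val hval N hN) (fun t l q => n t l q.1) h
      (hK.sp M val hval N hN hcov).hA t (fun q => val q.2) hA' := by
  classical
  obtain ⟨c, g, hg, heq, hor⟩ := hL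
  have hinv : ∀ q : I × V, (M.x t q.1)⁻¹ ∈ M.A t →
      ((spLM M val hval N hN).x t q)⁻¹ ∈ (spLM M val hval N hN).A t := by
    intro q hq
    change (spX M val N t q)⁻¹ ∈ M.A t
    unfold spX
    split_ifs
    · exact hq
    · rw [inv_one]
      exact (M.A t).one_mem
  have hinv1 : ∀ q : I × V, N t q.1 ≠ val q.2 →
      ((spLM M val hval N hN).x t q)⁻¹ ∈ (spLM M val hval N hN).A t := by
    intro q hq
    change (spX M val N t q)⁻¹ ∈ M.A t
    unfold spX
    rw [if_neg hq, inv_one]
    exact (M.A t).one_mem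
  refine ⟨c, g, hg, ?_, ?_⟩
  · have h1 : ∏ q, (spLM M val hval N hN).x t q ^ val q.2 = ∏ i, M.x t i ^ N t i :=
      prod_sp M val hval N hcov t (fun q => val q.2) (N t) fun i v hv => hv.symm
    rw [h1, heq]
    congr 1
    refine Finset.sum_congr rfl fun l _ => ?_
    rw [bf_sp M val hval N hN hcov]
  · rcases hor with h1 | ⟨l0, hc0, hNi, hom⟩
    · left
      intro q
      by_cases h2 : N t q.1 = val q.2
      · rcases h1 q.1 with h3 | h3
        · left
          exact h2.symm.trans h3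
        · exact Or.inr (hinv q h3)
      · exact Or.inr (hinv1 q h2)
    · right
      refine ⟨l0, hc0, ?_, ?_⟩
      · intro q
        by_cases h2 : N t q.1 = val q.2
        · rcases hNi q.1 with h3 | h3
          · left
            exact h2.symm.trans h3
          · exact Or.inr (hinv q h3)
        · exact Or.inr (hinv1 q h2)
      · intro κ _ _ φ hP
        obtain ⟨d, hd0, hd, hv⟩ := hom κ φ
          ((pol_sp M val hval N hN hcov t φ _ (N t) (fun _ _ h => h.symm)).1 hP)
        refine ⟨d, hd0, ?_, ?_⟩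
        · intro l hl
          exact hd l fun h2 => hl
            ((pol_sp M val hval N hN hcov t φ _ (n t l) (fun _ _ _ => rfl)).2 h2)
        · intro v
          obtain ⟨v', -, hv'⟩ := exists_unsp M val hval N hcov v
          have h2 : om v (fun q : I × V => val q.2) hA' = om v' (N t) hA' :=
            hv' (fun q => val q.2) (N t) (fun _ _ h => h.symm) hA'
          refine (h2.trans (hv v')).trans ?_
          refine Finset.sum_congr rfl fun l _ => ?_
          congr 1
          exact (hv' (fun q => n t l q.1) (n t l) (fun _ _ _ => rfl) (hK.hA t l)).symm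

include hcov in
lemma fn_sp {G : Type} {g : G → K} {Γ : G → I → ℤ} (hF : Fn M g Γ) :
    Fn (spLM M val hval N hN) g (fun b q => Γ b q.1) := by
  intro b t
  obtain ⟨w, w0, wA, wA', hw⟩ := hF b t
  refine ⟨w, w0, wA, wA', ?_⟩
  rw [hw]
  congr 1
  exact (prod_sp M val hval N hcov t (fun q => Γ b q.1) (Γ b) fun _ _ _ => rfl).symm

end split

section prep

variable {k K : Type u} [Field k] [Field K] [Algebra k K] {T I : Type}
  [Finite T] [Fintype I]

/-- Preparation of the model. -/
theorem prep (p : ℕ) [Fact p.Prime] [CharP k p] (M : LM (⊥ : Subalgebra k K) ⊤ T I)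
    (hfr : Frc M) {ι G : Type} [Fintype ι] {n : T → ι → I → ℤ} {h : T → ι → K} (hK : KC M n h)
    {g : G → K} {Γ : G → I → ℤ} (hG : Fn M g Γ) (F : K)
    (hF : ∀ t, KB p (M.A t) (bf M n h t) F) :
    ∃ (T' I' : Type) (_ : Finite T') (_ : Fintype I') (M' : LM (⊥ : Subalgebra k K) ⊤ T' I')
      (π : T' → T) (n' : T' → ι → I' → ℤ) (h' : T' → ι → K) (Γ' : G → I' → ℤ) (N : I' → ℤ)
      (a1 h1 : T' → K) (hK' : KC M' n' h') (hN : NAS p M' F N a1 h1),
      (∀ t, M.A (π t) ≤ M'.A t) ∧ (∀ t l, bf M' n' h' t l = bf M n h (π t) l) ∧ Fn M' g Γ' ∧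
      Frc M' ∧ ∀ t, Lnk M' n' h' hK'.hA t N (hN.hA t) := by
  classical
  obtain ⟨T1, I1, iT1, iI1, M1, π, Θ, hOv, hΘ, hC⟩ :=
    wa_ovp k K ⊥ ⊤ T I (T × ι) M (fun q => n q.1 q.2)
  have hK1 := hK.ov hOv hΘ
  set n1 : T1 → ι → I1 → ℤ := fun t l => tr Θ (n (π t) l) with hn1
  set h1 : T1 → ι → K := fun t => h (π t) with hh1
  have hcmp : ∀ t l l', (∀ i, n1 t l i ≤ n1 t l' i ∨ (M1.x t i)⁻¹ ∈ M1.A t) ∨
      (∀ i, n1 t l' i ≤ n1 t l i ∨ (M1.x t i)⁻¹ ∈ M1.A t) := fun t l l' =>
    hC (π t, l) (π t, l') t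
  have hF1 : ∀ t, KB p (M1.A t) (bf M1 n1 h1 t) F := by
    intro t
    obtain ⟨a, g, hg, c, hF⟩ := hF (π t)
    refine ⟨a, g, hOv.le t hg, c, ?_⟩
    rw [hF]
    congr 1
    refine Finset.sum_congr rfl fun l _ => ?_
    rw [hn1, hh1, bf_ov hOv]
  choose N a h' hN0 hFe hA' hL using fun t => pivot p hK1 t (hcmp t) F (hF1 t)
  have hfr1 : Frc M1 := hfr.ov hOv
  have hln1 : ∀ t (κ : Type u) [Field κ] [Algebra k κ] (φ : M1.A t →ₐ[k] κ), Pol M1 (N t) φ →
      ∃ v : LT φ (M1.x t), om v (N t) (hA' t) ≠ 0 := fun t κ _ _ φ hP =>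
    (hL t).ln hK1 κ φ hP
  have hNe := pole_unique p M1 hfr1 F N a h' hN0 hA' hFe hln1
  have iT1' : Fintype T1 := Fintype.ofFinite T1
  let S : Finset ℤ := Finset.univ.image fun q : T1 × I1 => N q.1 q.2
  let V : Type := {z : ℤ // z ∈ S}
  let val : V → ℤ := Subtype.val
  have hval : Function.Injective val := Subtype.val_injective
  have hcov : ∀ t i, ∃ v, N t i = val v := fun t i =>
    ⟨⟨N t i, Finset.mem_image.2 ⟨(t, i), Finset.mem_univ _, rfl⟩⟩, rfl⟩
  have hK2 := hK1.sp M1 val hval N hNe hcov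
  have hNAS : NAS p (spLM M1 val hval N hNe) F (fun q => val q.2) a h' := by
    refine ⟨?_, hA', ?_, ?_⟩
    · rintro ⟨i, v, hv⟩
      obtain ⟨⟨t, j⟩, -, hq⟩ := Finset.mem_image.1 hv
      change v ≤ 0
      rw [← hq]
      exact hN0 t j
    · intro t
      rw [hFe t]
      congr 2
      exact (prod_sp M1 val hval N hcov t (fun q => val q.2) (N t) fun _ _ h => h.symm).symm
    · intro t κ _ _ φ hP
      obtain ⟨v, hv⟩ := hln1 t κ φ
        ((pol_sp M1 val hval N hNe hcov t φ _ (N t) (fun _ _ h => h.symm)).1 hP)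
      refine ⟨ltsp M1 val N v, ?_⟩
      intro h0
      apply hv
      exact (om_ltsp M1 val hval N hcov v (fun q => val q.2) (N t) (fun _ _ h => h.symm)
        (hA' t)).symm.trans h0
  refine ⟨T1, I1 × V, inferInstance, inferInstance, spLM M1 val hval N hNe, π,
    fun t l q => n1 t l q.1, h1, _, fun q => val q.2, a, h', hK2, hNAS, hOv.le, ?_,
    fn_sp M1 val hval N hNe hcov (hG.ov hOv), hfr1, ?_⟩
  · intro t l
    rw [bf_sp M1 val hval N hNe hcov, hn1, hh1, bf_ov hOv]
  · intro t
    exact Lnk.sp M1 val hval N hNe hcov hK1 t (hA' t) (hL t)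

end prep

end Pool.Agent.Zk10
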