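import Pool.Agent.Zk10.K6
import Pool.Agent.W32.WT.Nxt

/-!
The families of local functions after one Artin-Schreier extension.
-/

set_option autoImplicit false
set_option linter.unusedVariables false
set_option linter.unusedSectionVars false

universe u

open Polynomial

namespace Pool.Agent.Zk10

open Pool.Agent.W558 Pool.Agent.W177.WD Pool.Agent.W174.WA Pool.Agent.W356.WT.Nas
open Pool.Agent.TH214 Pool.Agent.W32.WT

section kb

variable {k K : Type u} [Field k] [Field K] [Algebra k K] (p : ℕ) [Fact p.Prime] [CharP k p]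
  {A : Subalgebra k K} {ι : Type} [Fintype ι] {b : ι → K}

lemma KB.add {F F' : K} (h : KB p A b F) (h' : KB p A b F') : KB p A b (F + F') := by
  have hcK : CharP K p := charP_of_injective_algebraMap (algebraMap k K).injective p
  obtain ⟨a, g, hg, c, rfl⟩ := h
  obtain ⟨a', g', hg', c', rfl⟩ := h'
  refine ⟨a + a', g + g', A.add_mem hg hg', fun l => c l + c' l, ?_⟩
  rw [add_pow_char]
  simp only [map_add, add_mul, Finset.sum_add_distrib]
  ring

lemma KB.of_mem {g : K} (hg : g ∈ A) : KB p A b g := by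
  refine ⟨0, g, hg, 0, ?_⟩
  simp [zero_pow (Fact.out : p.Prime).ne_zero]

lemma KB.wp (a : K) : KB p A b (a ^ p - a) := by
  refine ⟨a, 0, A.zero_mem, 0, ?_⟩
  simp

lemma KB.smul (c : k) (l : ι) : KB p A b (algebraMap k K c * b l) := by
  classical
  refine ⟨0, 0, A.zero_mem, Pi.single l c, ?_⟩
  rw [Finset.sum_eq_single l]
  · simp [zero_pow (Fact.out : p.Prime).ne_zero]
  · intro l' _ hl'
    rw [Pi.single_eq_of_ne hl', map_zero, zero_mul]
  · intro h; exact absurd (Finset.mem_univ _) h

lemma KB.sum {J : Type} (s : Finset J) (F : J → K) (h : ∀ j ∈ s, KB p A b (F j)) :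
    KB p A b (∑ j ∈ s, F j) := by
  classical
  induction s using Finset.induction_on with
  | empty => rw [Finset.sum_empty]; exact KB.of_mem p A.zero_mem
  | insert a s ha ih =>
    rw [Finset.sum_insert ha]
    exact KB.add p (h a (Finset.mem_insert_self a s))
      (ih fun j hj => h j (Finset.mem_insert_of_mem hj))

/-- Multiples of `V ^ p - V`. -/
lemma KB.wpc [PerfectField k] (κ : k) (V : K) (hV : ∀ c : k, KB p A b (algebraMap k K c * V)) :
    KB p A b (algebraMap k K κ * (V ^ p - V)) := by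
  have hcK : CharP K p := charP_of_injective_algebraMap (algebraMap k K).injective p
  have hex : ExpChar k p := ExpChar.prime Fact.out
  have : PerfectRing k p := PerfectField.toPerfectRing p
  obtain ⟨σ, hσ⟩ := (PerfectRing.bijective_frobenius (R := k) (p := p)).2 κ
  have hσ' : σ ^ p = κ := hσ
  have h1 : algebraMap k K κ * (V ^ p - V) =
      ((algebraMap k K σ * V) ^ p - algebraMap k K σ * V) + algebraMap k K (σ - κ) * V := by
    rw [mul_pow, ← map_pow, hσ', map_sub]
    ring
  rw [h1]
  exact KB.add p (KB.wp p _) (hV _)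

end kb

section trans

variable {k L K : Type u} [Field k] [Field L] [Field K] [Algebra k L] [Algebra k K] [Algebra L K]
  [IsScalarTower k L K] (p : ℕ) [Fact p.Prime] [CharP k p]
  {A : Subalgebra k L} {A' : Subalgebra k K} {ι ι' : Type} [Fintype ι] [Fintype ι'] {b : ι → L}
  {b' : ι' → K}

/-- Transport of `KB`. -/
lemma KB.map (hA : ∀ a ∈ A, algebraMap L K a ∈ A')
    (hb : ∀ l (c : k), KB p A' b' (algebraMap k K c * algebraMap L K (b l))) {F : L}
    (hF : KB p A b F) : KB p A' b' (algebraMap L K F) := by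
  obtain ⟨a, g, hg, c, rfl⟩ := hF
  rw [map_add, map_add, map_sub, map_pow, map_sum]
  refine KB.add p (KB.add p (KB.wp p _) (KB.of_mem p (hA g hg))) (KB.sum p _ _ fun l _ => ?_)
  rw [map_mul, ← IsScalarTower.algebraMap_apply]
  exact hb l (c l)

end trans

section next

variable {k L K : Type u} [Field k] [Field L] [Field K] [Algebra k L] [Algebra k K] [Algebra L K]
  [IsScalarTower k L K] (p : ℕ) [Fact p.Prime] [CharP k p] [PerfectField k]
  {T I T1 I1 ι : Type} [Fintype I] [Fintype I1] [Fintype ι]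

/-- The next family. -/
theorem kc_next (M : LM (⊥ : Subalgebra k L) ⊤ T I) {n : T → ι → I → ℤ} {h : T → ι → L}
    (hK : KC M n h) {F : L} {N : I → ℤ} {a0 h0 : T → L} (hN : NAS p M F N a0 h0)
    (hL : ∀ t, Lnk M n h hK.hA t N (hN.hA t)) (M1 : LM (⊥ : Subalgebra k K) ⊤ T1 I1)
    {π : T1 → T} {Θ : I1 → I → ℤ} (ho : Ovr M M1 π Θ) (hCL : CLift ho N h0 hN.hA)
    {μ : I1 → ℤ} {y : T1 → K} (hy : ∀ t, y t ∈ M1.A t) (hVL : VLift ho μ hy)
    (hμ : ∀ i, μ i ≤ 0)
    (hpol : ∀ t (κ : Type u) [Field κ] [Algebra k κ] (φ : M1.A t →ₐ[k] κ) i,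
      φ ⟨M1.x t i, M1.xA t i⟩ = 0 → μ i < 0 → ∃ i0, N i0 < 0 ∧ 0 < Θ i i0)
    (heq : ∀ t, ((∏ i, M1.x t i ^ μ i) * y t) ^ p - (∏ i, M1.x t i ^ μ i) * y t =
      algebraMap L K ((∏ i, M.x (π t) i ^ N i) * h0 (π t))) :
    ∃ (n1 : T1 → ι → I1 → ℤ) (h1 : T1 → ι → K), KC M1 n1 h1 ∧
      ∀ t l (c : k), KB p (M1.A t) (bf M1 n1 h1 t)
        (algebraMap k K c * algebraMap L K (bf M n h (π t) l)) := by
  classical
  choose c g hg hW hor using hL
  -- the pivots
  let PV : T → ι → Prop := fun t l0 => c t l0 ≠ 0 ∧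
      (∀ i, N i = n t l0 i ∨ (M.x t i)⁻¹ ∈ M.A t) ∧
      ∀ (κ : Type u) [Field κ] [Algebra k κ] (φ : M.A t →ₐ[k] κ), Pol M N φ →
        ∃ d : ι → κ, d l0 ≠ 0 ∧ (∀ l, ¬ Pol M (n t l) φ → d l = 0) ∧
          ∀ v : LT φ (M.x t), om v N (hN.hA t) = ∑ l, d l * om v (n t l) (hK.hA t l)
  let pv : T → Option ι := fun t => if h : ∃ l0, PV t l0 then some (Classical.choose h) else none
  have hpv : ∀ t l0, pv t = some l0 → PV t l0 := by
    intro t l0 h1
    by_cases h2 : ∃ l0, PV t l0
    · have h3 : pv t = some (Classical.choose h2) := dif_pos h2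
      rw [h3] at h1
      have h4 : Classical.choose h2 = l0 := Option.some.inj h1
      rw [← h4]
      exact Classical.choose_spec h2
    · have h3 : pv t = none := dif_neg h2
      rw [h3] at h1
      exact absurd h1 (by simp)
  have hpv0 : ∀ t, pv t = none → ∀ i, N i = 0 ∨ (M.x t i)⁻¹ ∈ M.A t := by
    intro t h1
    rcases hor t with h2 | h2
    · exact h2
    · exfalso
      have h3 : pv t = some (Classical.choose h2) := dif_pos h2
      rw [h3] at h1
      exact absurd h1 (by simp)
  have hnp : ∀ t, pv t = none → ∀ (κ : Type u) [Field κ] [Algebra k κ] (φ : M.A t →ₐ[k] κ),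
      ¬ Pol M N φ := by
    rintro t h1 κ _ _ φ ⟨i, hi, hi0⟩
    rcases hpv0 t h1 i with h2 | h2
    · omega
    · exact not_pol_inv M φ hi0 h2
  let n1 : T1 → ι → I1 → ℤ := fun t l => if pv (π t) = some l then μ else
    fun i1 => ∑ i, Θ i1 i * n (π t) l i
  let h1 : T1 → ι → K := fun t l => if pv (π t) = some l then y t else
    algebraMap L K (h (π t) l)
  have hn1a : ∀ t l, pv (π t) = some l → n1 t l = μ := fun t l h => if_pos h
  have hn1b : ∀ t l, pv (π t) ≠ some l → n1 t l = fun i1 => ∑ i, Θ i1 i * n (π t) l i :=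
    fun t l h => if_neg h
  have hh1a : ∀ t l, pv (π t) = some l → h1 t l = y t := fun t l h => if_pos h
  have hh1b : ∀ t l, pv (π t) ≠ some l → h1 t l = algebraMap L K (h (π t) l) :=
    fun t l h => if_neg h
  have hA1 : ∀ t l, h1 t l ∈ M1.A t := by
    intro t l
    by_cases h2 : pv (π t) = some l
    · rw [hh1a t l h2]
      exact hy t
    · rw [hh1b t l h2]
      exact ho.le t _ (hK.hA _ l)
  -- values of the forms
  have homa : ∀ t l (κ : Type u) [Field κ] [Algebra k κ] (φ : M1.A t →ₐ[k] κ)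
      (v : LT φ (M1.x t)), pv (π t) = some l → om v (n1 t l) (hA1 t l) = om v μ (hy t) := by
    intro t l κ _ _ φ v h2
    unfold om
    rw [hn1a t l h2]
    have h3 : (⟨h1 t l, hA1 t l⟩ : M1.A t) = ⟨y t, hy t⟩ := Subtype.ext (hh1a t l h2)
    rw [h3]
  have homb : ∀ t l (κ : Type u) [Field κ] [Algebra k κ] (φ : M1.A t →ₐ[k] κ)
      (v : LT φ (M1.x t)), pv (π t) ≠ some l → om v (n1 t l) (hA1 t l) =
        om v (fun i1 => ∑ i, Θ i1 i * n (π t) l i) (ho.le t _ (hK.hA (π t) l)) := by
    intro t l κ _ _ φ v h2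
    unfold om
    rw [hn1b t l h2]
    have h3 : (⟨h1 t l, hA1 t l⟩ : M1.A t) = ⟨_, ho.le t _ (hK.hA (π t) l)⟩ :=
      Subtype.ext (hh1b t l h2)
    rw [h3]
  -- poles
  have hpb : ∀ t l (κ : Type u) [Field κ] [Algebra k κ] (φ : M1.A t →ₐ[k] κ),
      pv (π t) ≠ some l → Pol M1 (n1 t l) φ →
        Pol M (n (π t) l) (t := π t) (φ.comp (ci (ho.le t))) := by
    rintro t l κ _ _ φ h2 ⟨i1, hi1, hφ⟩
    rw [hn1b t l h2] at hi1
    obtain ⟨i, _, hi⟩ := Finset.exists_lt_of_sum_lt (s := Finset.univ)
      (f := fun i => Θ i1 i * n (π t) l i) (g := fun _ => (0 : ℤ)) (by simpa using hi1)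
    have h3 : n (π t) l i < 0 := by
      rcases lt_or_eq_of_le (hK.n0 (π t) l i) with h4 | h4
      · exact h4
      · rw [h4, mul_zero] at hi
        exact absurd hi (lt_irrefl _)
    have h5 : 0 < Θ i1 i := by
      rcases lt_or_eq_of_le (ho.Θ0 i1 i) with h4 | h4
      · exact h4
      · rw [← h4, zero_mul] at hi
        exact absurd hi (lt_irrefl _)
    exact ⟨i, h3, zero_pull ho t φ i1 i h5 hφ⟩
  have hpa : ∀ t l (κ : Type u) [Field κ] [Algebra k κ] (φ : M1.A t →ₐ[k] κ),
      pv (π t) = some l → Pol M1 (n1 t l) φ → Pol M N (t := π t) (φ.comp (ci (ho.le t))) := by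
    rintro t l κ _ _ φ h2 ⟨i1, hi1, hφ⟩
    rw [hn1a t l h2] at hi1
    obtain ⟨i0, h3, h4⟩ := hpol t κ φ i1 hφ hi1
    exact ⟨i0, h3, zero_pull ho t φ i1 i0 h4 hφ⟩
  have hpN : ∀ t l0 (κ : Type u) [Field κ] [Algebra k κ] (φ : M.A t →ₐ[k] κ),
      PV t l0 → Pol M N φ → Pol M (n t l0) φ := by
    rintro t l0 κ _ _ φ ⟨-, h2, -⟩ ⟨i, hi, hφ⟩
    refine ⟨i, ?_, hφ⟩
    rw [← (h2 i).resolve_right (not_pol_inv M φ hφ)]
    exact hi
  refine ⟨n1, h1, ⟨?_, hA1, ?_⟩, ?_⟩
  · intro t l i
    by_cases h2 : pv (π t) = some l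
    · rw [hn1a t l h2]
      exact hμ i
    · rw [hn1b t l h2]
      exact Finset.sum_nonpos fun j _ =>
        mul_nonpos_of_nonneg_of_nonpos (ho.Θ0 i j) (hK.n0 _ l j)
  · intro t κ _ _ φ l hP
    set φ0 := φ.comp (ci (ho.le t)) with hφ0
    by_cases h2 : pv (π t) = some l
    · -- the new function
      obtain ⟨i1, hi1, hφ⟩ := hP
      rw [hn1a t l h2] at hi1
      obtain ⟨v, hv1, hv2, hv3⟩ := hVL t κ φ ⟨i1, hi1, hφ⟩
      refine ⟨v, ?_, ?_⟩
      · rw [homa t l κ φ v h2]
        exact hv3
      · intro l' hl' _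
        have h3 : pv (π t) ≠ some l' := by
          rw [h2]
          intro h4
          exact hl' (Option.some.inj h4).symm
        rw [homb t l' κ φ v h3]
        let v0 : LT φ0 (M.x (π t)) := ⟨TV.zero φ0, fun _ => 0, fun i hi => by
          rw [TV.zero_D, mul_zero]⟩
        have h4 := om_pull ho t (v := v0) (v' := v) (fun a ha => hv1 a ha) (fun i => hv2 i)
          (n (π t) l') (hK.hA (π t) l')
        rw [h4]
        unfold om
        change (TV.zero φ0).D _ + φ0 _ * ∑ i, _ * (0 : κ) = 0
        simp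
    · -- the old functions
      have hPl := hpb t l κ φ h2 hP
      obtain ⟨v, hv, hv'⟩ := hK.ln (π t) κ φ0 l hPl
      -- the corrected vector
      have hv1 : ∃ v1 : LT φ0 (M.x (π t)), om v1 (n (π t) l) (hK.hA _ l) ≠ 0 ∧
          (∀ l', l' ≠ l → pv (π t) ≠ some l' → Pol M (n (π t) l') φ0 →
            om v1 (n (π t) l') (hK.hA _ l') = 0) ∧
          (Pol M N (t := π t) φ0 → om v1 N (hN.hA (π t)) = 0) := by
        by_cases hPN : Pol M N (t := π t) φ0
        · cases hpvt : pv (π t) with
          | none => exact absurd hPN (hnp _ hpvt κ φ0)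
          | some l0 =>
            have hPV := hpv _ _ hpvt
            have hl0 : l0 ≠ l := fun h3 => h2 (by rw [hpvt, h3])
            have hPl0 := hpN _ _ κ φ0 hPV hPN
            obtain ⟨w, hw, hw'⟩ := hK.ln (π t) κ φ0 l0 hPl0
            obtain ⟨d, hd0, hd, hom⟩ := hPV.2.2 κ φ0 hPN
            have hwN : om w N (hN.hA (π t)) = d l0 * om w (n (π t) l0) (hK.hA _ l0) := by
              rw [hom w, Finset.sum_eq_single l0]
              · intro l' _ hl'
                by_cases h3 : Pol M (n (π t) l') φ0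
                · rw [hw' l' hl' h3, mul_zero]
                · rw [hd l' h3, zero_mul]
              · intro h3; exact absurd (Finset.mem_univ _) h3
            have hwN0 : om w N (hN.hA (π t)) ≠ 0 := by
              rw [hwN]
              exact mul_ne_zero hd0 hw
            refine ⟨ltc 1 (-(om v N (hN.hA (π t)) / om w N (hN.hA (π t)))) v w, ?_, ?_, ?_⟩
            · rw [om_ltc, hw' l hl0.symm hPl, mul_zero, add_zero, one_mul]
              exact hv
            · intro l' hl' hl0' hP'
              have h3 : l' ≠ l0 := fun h4 => hl0' (by rw [h4])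
              rw [om_ltc, hv' l' hl' hP', hw' l' h3 hP', mul_zero, mul_zero, add_zero]
            · intro _
              rw [om_ltc]
              field_simp
              ring
        · exact ⟨v, hv, fun l' hl' _ hP' => hv' l' hl' hP', fun h3 => absurd h3 hPN⟩
      obtain ⟨v1, hv1a, hv1b, hv1c⟩ := hv1
      obtain ⟨v', hw1, hw2⟩ := hCL t κ φ v1 (fun hPN => hv1c hPN)
      have hvl : ∀ l', om v' (fun i1 => ∑ i, Θ i1 i * n (π t) l' i)
          (ho.le t _ (hK.hA (π t) l')) = om v1 (n (π t) l') (hK.hA _ l') := fun l' =>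
        om_pull ho t (v := v1) (v' := v') (fun a ha => hw1 a ha) (fun i => hw2 i)
          (n (π t) l') (hK.hA (π t) l')
      -- the correction at the poles of the new function
      by_cases hPV : ∃ l0, pv (π t) = some l0 ∧ Pol M1 (n1 t l0) φ
      · obtain ⟨l0, hl0, i1, hi1, hφ⟩ := hPV
        rw [hn1a t l0 hl0] at hi1
        have hl0l : l0 ≠ l := fun h3 => h2 (by rw [hl0, h3])
        obtain ⟨w, hw1', hw2', hw3'⟩ := hVL t κ φ ⟨i1, hi1, hφ⟩
        have hwl : ∀ l', om w (fun i1 => ∑ i, Θ i1 i * n (π t) l' i)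
            (ho.le t _ (hK.hA (π t) l')) = 0 := by
          intro l'
          let v0 : LT φ0 (M.x (π t)) := ⟨TV.zero φ0, fun _ => 0, fun i hi => by
            rw [TV.zero_D, mul_zero]⟩
          have h4 := om_pull ho t (v := v0) (v' := w) (fun a ha => hw1' a ha)
            (fun i => hw2' i) (n (π t) l') (hK.hA (π t) l')
          rw [h4]
          unfold om
          change (TV.zero φ0).D _ + φ0 _ * ∑ i, _ * (0 : κ) = 0
          simp
        refine ⟨ltc 1 (-(om v' μ (hy t) / om w μ (hy t))) v' w, ?_, ?_⟩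
        · rw [homb t l κ φ _ h2, om_ltc, hwl, hvl, mul_zero, add_zero, one_mul]
          exact hv1a
        · intro l' hl' hP'
          by_cases h3 : pv (π t) = some l'
          · rw [homa t l' κ φ _ h3, om_ltc]
            field_simp
            ring
          · rw [homb t l' κ φ _ h3, om_ltc, hwl, hvl, mul_zero, add_zero, one_mul]
            exact hv1b l' hl' h3 (hpb t l' κ φ h3 hP')
      · refine ⟨v', ?_, ?_⟩
        · rw [homb t l κ φ _ h2, hvl]
          exact hv1a
        · intro l' hl' hP'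
          by_cases h3 : pv (π t) = some l'
          · exact absurd ⟨l', h3, hP'⟩ hPV
          · rw [homb t l' κ φ _ h3, hvl]
            exact hv1b l' hl' h3 (hpb t l' κ φ h3 hP')
  · -- the old functions in terms of the new ones
    intro t
    have hbb : ∀ l, pv (π t) ≠ some l → bf M1 n1 h1 t l = algebraMap L K (bf M n h (π t) l) := by
      intro l h2
      unfold bf
      rw [hn1b t l h2, hh1b t l h2, map_mul, mon_pull ho]
    have hold : ∀ l, pv (π t) ≠ some l → ∀ c : k, KB p (M1.A t) (bf M1 n1 h1 t)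
        (algebraMap k K c * algebraMap L K (bf M n h (π t) l)) := by
      intro l h2 c
      rw [← hbb l h2]
      exact KB.smul p c l
    intro l e
    by_cases h2 : pv (π t) = some l
    · have hPV := hpv _ _ h2
      have hc0 := hPV.1
      set V : K := (∏ i, M1.x t i ^ μ i) * y t with hV
      have hbV : bf M1 n1 h1 t l = V := by
        unfold bf
        rw [hn1a t l h2, hh1a t l h2]
      have hVc : ∀ c : k, KB p (M1.A t) (bf M1 n1 h1 t) (algebraMap k K c * V) := by
        intro c
        rw [← hbV]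
        exact KB.smul p c l
      have h3 : algebraMap L K (g (π t)) + ∑ l', algebraMap k K (c (π t) l') *
          algebraMap L K (bf M n h (π t) l') = V ^ p - V := by
        rw [heq t, hW (π t), map_add, map_sum]
        congr 1
        refine Finset.sum_congr rfl fun l' _ => ?_
        rw [map_mul, ← IsScalarTower.algebraMap_apply]
      rw [← Finset.add_sum_erase _ _ (Finset.mem_univ l)] at h3
      have h4 : algebraMap k K e * algebraMap L K (bf M n h (π t) l) =
          algebraMap k K (e / c (π t) l) * (V ^ p - V) +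
          (algebraMap k K (-(e / c (π t) l)) * algebraMap L K (g (π t)) +
          ∑ l' ∈ Finset.univ.erase l, algebraMap k K (-(e / c (π t) l) * c (π t) l') *
            algebraMap L K (bf M n h (π t) l')) := by
        have h5 : algebraMap k K e = algebraMap k K (e / c (π t) l) *
            algebraMap k K (c (π t) l) := by
          rw [← map_mul, div_mul_cancel₀ _ hc0]
        have h6 : ∑ l' ∈ Finset.univ.erase l, algebraMap k K (-(e / c (π t) l) * c (π t) l') *
            algebraMap L K (bf M n h (π t) l') = -algebraMap k K (e / c (π t) l) *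
            ∑ l' ∈ Finset.univ.erase l, algebraMap k K (c (π t) l') *
              algebraMap L K (bf M n h (π t) l') := by
          rw [Finset.mul_sum]
          refine Finset.sum_congr rfl fun l' _ => ?_
          rw [map_mul, map_neg]
          ring
        rw [h5, h6, ← h3, map_neg]
        ring
      rw [h4]
      refine KB.add p (KB.wpc p _ V hVc) (KB.add p (KB.of_mem p ?_) (KB.sum p _ _ ?_))
      · exact (M1.A t).mul_mem ((M1.A t).algebraMap_mem _) (ho.le t _ (hg (π t)))
      · intro l' hl'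
        refine hold l' ?_ _
        rw [h2]
        intro h7
        exact (Finset.ne_of_mem_erase hl') (Option.some.inj h7).symm
    · exact hold l h2 e

end next

end Pool.Agent.Zk10
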