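import Pool.Agent.Zk10.K7

/-!
Towers of Artin-Schreier extensions over families of local functions with coefficients in the
ground field.
-/

set_option autoImplicit false
set_option linter.unusedVariables false
set_option linter.unusedSectionVars false

universe u

open Polynomial

namespace Pool.Agent.Zk10

open Pool.Agent.W558 Pool.Agent.W177.WD Pool.Agent.W174.WA Pool.Agent.W356.WT.Nas
open Pool.Agent.TH214 Pool.Agent.W498.Tor Pool.Agent.W906.WT.Iso

section int

variable {k L0 L K : Type u} [Field k] [Field L0] [Field L] [Field K] [Algebra k L0] [Algebra k L]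
  [Algebra k K] [Algebra L K] [IsScalarTower k L K]

/-- The element `g` is integral over the image of `S`. -/
def IsInt (ρ : L0 →ₐ[k] L) (S : Subalgebra k L0) (g : L) : Prop :=
  ((ρ : L0 →+* L).comp (algebraMap S L0)).IsIntegralElem g

/-- Elements which are integral over a subalgebra of a chart are contained in the chart. -/
lemma IsInt.mem {ρ : L0 →ₐ[k] L} {S : Subalgebra k L0} {g : L} (h : IsInt ρ S g)
    {A : Subalgebra k L} [Algebra.Smooth k A]
    (hfr : ∀ y : L, ∃ a ∈ A, ∃ b ∈ A, b ≠ 0 ∧ y = a * b⁻¹) (hS : ∀ a ∈ S, ρ a ∈ A) : g ∈ A := by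
  have hIC : IsIntegrallyClosed A := wd_norm k A
  have hfB : IsFractionRing A L := by
    refine IsFractionRing.of_field A L fun z => ?_
    obtain ⟨a, ha, b, hb, hb0, hz⟩ := hfr z
    exact ⟨⟨a, ha⟩, ⟨b, hb⟩, by rw [div_eq_mul_inv]; exact hz⟩
  obtain ⟨P, hP, hP0⟩ := h
  let f : S →+* A :=
    { toFun := fun a => ⟨ρ a, hS a a.2⟩
      map_one' := Subtype.ext (map_one ρ)
      map_mul' := fun a b => Subtype.ext (map_mul ρ _ _)
      map_zero' := Subtype.ext (map_zero ρ)
      map_add' := fun a b => Subtype.ext (map_add ρ _ _) }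
  have hint : IsIntegral A g := by
    refine ⟨P.map f, hP.map f, ?_⟩
    rw [eval₂_map]
    exact hP0
  obtain ⟨y, hy⟩ := IsIntegrallyClosed.isIntegral_iff.1 hint
  rw [← hy]
  exact y.2

lemma isInt_map {ρ : L0 →ₐ[k] L} {S : Subalgebra k L0} {g : L} :
    IsInt ((IsScalarTower.toAlgHom k L K).comp ρ) S (algebraMap L K g) ↔ IsInt ρ S g := by
  have h1 : ∀ P : S[X], eval₂ (((((IsScalarTower.toAlgHom k L K).comp ρ : L0 →ₐ[k] K) :
      L0 →+* K)).comp (algebraMap S L0)) (algebraMap L K g) P =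
        algebraMap L K (eval₂ ((ρ : L0 →+* L).comp (algebraMap S L0)) g P) := by
    intro P
    rw [hom_eval₂]
    rfl
  constructor
  · rintro ⟨P, hP, hP0⟩
    refine ⟨P, hP, ?_⟩
    rw [h1] at hP0
    exact (_root_.map_eq_zero _).1 hP0
  · rintro ⟨P, hP, hP0⟩
    refine ⟨P, hP, ?_⟩
    rw [h1, hP0, map_zero]

end int

section gk

variable {k L0 L K : Type u} [Field k] [Field L0] [Field L] [Field K] [Algebra k L0] [Algebra k L]
  [Algebra k K] [Algebra L K] [IsScalarTower k L K]

/-- The element `F` of `L` is of the form `a ^ p - a + g + ∑ c l * b l`, with `g` integral over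
`S`. -/
def KI (p : ℕ) (ρ : L0 →ₐ[k] L) (S : Subalgebra k L0) {ι : Type} [Fintype ι] (b : ι → L0) (F : L) :
    Prop :=
  ∃ a g : L, IsInt ρ S g ∧ ∃ c : ι → k, F = a ^ p - a + g + ∑ l, algebraMap k L (c l) * ρ (b l)

/-- The field `L` has a model over the base, with a family of local functions with a joint normal
form such that the multiples of the given functions are linear combinations of them. -/
def GKT (p : ℕ) (k : Type u) {L0 L : Type u} [Field k] [Field L0] [Field L] [Algebra k L0]
    [Algebra k L] {T0 ι0 : Type} (B : T0 → Subalgebra k L0) (b0 : T0 → ι0 → L0)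
    (ρ : L0 →ₐ[k] L) {G : Type} (g : G → L) : Prop :=
  ∃ (T I ι : Type) (_ : Finite T) (_ : Fintype I) (_ : Fintype ι)
    (M : LM (⊥ : Subalgebra k L) ⊤ T I) (n : T → ι → I → ℤ) (h : T → ι → L) (Γ : G → I → ℤ)
    (σ : T → T0), KC M n h ∧ Fn M g Γ ∧ Frc M ∧ (∀ t, ∀ a ∈ B (σ t), ρ a ∈ M.A t) ∧
      ∀ t l (c : k), KB p (M.A t) (bf M n h t) (algebraMap k L c * ρ (b0 (σ t) l))

variable (p : ℕ) [Fact p.Prime] [PerfectField k] [CharP k p]

omit [PerfectField k] in
/-- Transport along an isomorphism. -/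
theorem gkt_iso {T0 ι0 G : Type} {B : T0 → Subalgebra k L0} {b0 : T0 → ι0 → L0}
    {ρ : L0 →ₐ[k] L} {g : G → L} (hM : GKT p k B b0 ρ g)
    (hsurj : Function.Surjective (algebraMap L K)) :
    GKT p k B b0 ((IsScalarTower.toAlgHom k L K).comp ρ) (fun b => algebraMap L K (g b)) := by
  classical
  obtain ⟨T, I, ι, hT, hI, hι, M, n, h, Γ, σ, hK, hFn, hFrc, hD, hB⟩ := hM
  have hinj : Function.Injective (em k L K) := em_inj
  have hmon : ∀ t (m : I → ℤ), ∏ i, (mapLM (K := K) M).x t i ^ m i =
      em k L K (∏ i, M.x t i ^ m i) := by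
    intro t m
    rw [map_prod]
    refine Finset.prod_congr rfl fun i _ => ?_
    rw [map_zpow₀]
    rfl
  refine ⟨T, I, ι, hT, hI, hι, mapLM (K := K) M, n, fun t l => algebraMap L K (h t l), Γ, σ,
    ⟨hK.n0, fun t l => ⟨h t l, hK.hA t l, rfl⟩, ?_⟩, ?_, ?_, ?_, ?_⟩
  · intro t κ _ _ φ l hP
    obtain ⟨v, hv, hv'⟩ := hK.ln t κ (φ.comp (eqv (K := K) (M.A t)).toAlgHom) l hP
    obtain ⟨v', he, hD⟩ := exists_lt M t φ v
    have hom : ∀ l (h1 : algebraMap L K (h t l) ∈ (mapLM (K := K) M).A t),
        om v' (n t l) h1 = om v (n t l) (hK.hA t l) := by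
      intro l h1
      unfold om
      have h2 := hD (h t l) (hK.hA t l) h1
      change v'.D.D ⟨em k L K (h t l), h1⟩ + φ ⟨em k L K (h t l), h1⟩ * _ = _
      rw [h2, he]
      congr 1
    refine ⟨v', ?_, ?_⟩
    · exact fun h0 => hv ((hom l _).symm.trans h0)
    · intro l' hl' hP'
      exact (hom l' _).trans (hv' l' hl' hP')
  · intro b t
    obtain ⟨w, hw0, hw, hw', h1⟩ := hFn b t
    refine ⟨em k L K w, (map_ne_zero_iff _ hinj).2 hw0, ⟨w, hw, rfl⟩,
      ⟨w⁻¹, hw', map_inv₀ (em k L K) w⟩, ?_⟩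
    rw [hmon]
    change em k L K (g b) = _
    rw [h1, map_mul]
  · intro t x
    obtain ⟨l, rfl⟩ := hsurj x
    obtain ⟨c, hc, d, hd, hd0, h1⟩ := hFrc t l
    refine ⟨em k L K c, ⟨c, hc, rfl⟩, em k L K d, ⟨d, hd, rfl⟩,
      (map_ne_zero_iff _ hinj).2 hd0, ?_⟩
    change em k L K l = _
    rw [h1, map_mul, map_inv₀]
  · intro t a ha
    exact ⟨ρ a, hD t a ha, rfl⟩
  · intro t l c
    have hbf : ∀ l, bf (mapLM (K := K) M) n (fun t l => algebraMap L K (h t l)) t l =
        algebraMap L K (bf M n h t l) := by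
      intro l
      unfold bf
      rw [hmon, map_mul]
      rfl
    have h1 := KB.map (A' := (mapLM (K := K) M).A t) (b' := bf (mapLM (K := K) M) n
      (fun t l => algebraMap L K (h t l)) t) p (fun a ha => ⟨a, ha, rfl⟩) (by
        intro l c
        rw [← hbf]
        exact KB.smul p c l) (hB t l c)
    rw [map_mul, ← IsScalarTower.algebraMap_apply] at h1
    exact h1

/-- One step of a tower. -/
theorem gkt_step {T0 ι0 G : Type} [Fintype ι0] {B : T0 → Subalgebra k L0} {b0 : T0 → ι0 → L0}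
    {ρ : L0 →ₐ[k] L} {g : G → L} (hM : GKT p k B b0 ρ g) (F : L)
    (hF : ∀ s, KI p ρ (B s) (b0 s) F) (z : K) (hz : z ^ p - z = algebraMap L K F)
    (hgen : IntermediateField.adjoin L {z} = ⊤) :
    GKT p k B b0 ((IsScalarTower.toAlgHom k L K).comp ρ) (fun b => algebraMap L K (g b)) := by
  classical
  have hp : p.Prime := Fact.out
  have hcL : CharP L p := charP_of_injective_algebraMap (algebraMap k L).injective p
  have hcK : CharP K p := charP_of_injective_algebraMap (algebraMap k K).injective p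
  by_cases hzL : ∃ b : L, b ^ p - b = F
  · obtain ⟨b, hb⟩ := hzL
    refine gkt_iso p hM ?_
    have h1 : (z - algebraMap L K b) ^ p = z - algebraMap L K b := by
      rw [sub_pow_char]
      have h2 : algebraMap L K b ^ p - algebraMap L K b = z ^ p - z := by
        rw [← map_pow, ← map_sub, hb, hz]
      linear_combination -h2
    obtain ⟨c, hc⟩ := zc_of_pow p _ h1
    have h2 : z = algebraMap L K (b + zc p L c) := by
      rw [map_add, alg_zc]
      linear_combination hc
    have h4 : IntermediateField.adjoin L {z} = ⊥ := by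
      rw [IntermediateField.adjoin_simple_eq_bot_iff, h2]
      exact IntermediateField.algebraMap_mem _ _
    rw [h4] at hgen
    intro y
    have h5 : y ∈ (⊤ : IntermediateField L K) := trivial
    rw [← hgen] at h5
    exact IntermediateField.mem_bot.1 h5
  · push Not at hzL
    obtain ⟨T, I, ι, hT, hI, hι, M, n, h, Γ, σ, hK, hFn, hFrc, hD, hB⟩ := hM
    -- the function on the charts
    have hFB : ∀ t, KB p (M.A t) (bf M n h t) F := by
      intro t
      obtain ⟨a, g', hg', c, hFe⟩ := hF (σ t)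
      have := M.sm t
      have hgA : g' ∈ M.A t := hg'.mem (hFrc t) (hD t)
      rw [hFe]
      exact KB.add p (KB.add p (KB.wp p a) (KB.of_mem p hgA)) (KB.sum p _ _ fun l _ => hB t l _)
    obtain ⟨T', I', iT', iI', M', π, n', h', Γ', N, a1, h1, hK', hN, hle, hbf, hG', hR', hL⟩ :=
      prep p M hFrc hK hFn F hFB
    -- the extension
    have hgen' : ∀ y : K, ∃ P : L[X], aeval z P = y := by
      intro y
      have hint : IsIntegral L z := by
        refine ⟨X ^ p - (X + C F), ?_, ?_⟩
        · apply monic_X_pow_sub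
          rw [degree_X_add_C]
          exact_mod_cast hp.one_lt
        · rw [← aeval_def, map_sub, map_add, map_pow, aeval_X, aeval_C, ← hz]
          ring
      have h8 : y ∈ Algebra.adjoin L {z} := by
        have h9 : y ∈ (IntermediateField.adjoin L {z}).toSubalgebra := by
          rw [hgen]; trivial
        rwa [IntermediateField.adjoin_simple_toSubalgebra_of_isAlgebraic hint.isAlgebraic] at h9
      rw [Algebra.adjoin_singleton_eq_range_aeval] at h8
      exact h8
    have hall := wt_pack.{u}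
    have hirr : Irreducible (X ^ p - X - C F : L[X]) := hall.irr p L F hzL
    have hFp : Prime (X ^ p - X - C F : L[X]) := hirr.prime
    have hz0 : aeval z (X ^ p - X - C F : L[X]) = 0 := by
      rw [map_sub, map_sub, map_pow, aeval_X, aeval_C, hz, sub_self]
    have hmon : (X ^ p - X - C F : L[X]).Monic := by
      have h1 : (X ^ p - X - C F : L[X]) = X ^ p - (X + C F) := by ring
      rw [h1]
      apply monic_X_pow_sub
      rw [degree_X_add_C]
      exact_mod_cast hp.one_lt
    have hz' : ∀ P : L[X], aeval z P = 0 ↔ (X ^ p - X - C F : L[X]) ∣ P := by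
      intro P
      have h1 : minpoly L z = X ^ p - X - C F :=
        (minpoly.eq_of_irreducible_of_monic hirr hz0 hmon).symm
      rw [← h1]
      exact (minpoly.dvd_iff).symm
    let NN := FractionRing L[X]
    let Z : NN := algebraMap L[X] NN X
    have hZ : ∀ P : L[X], aeval Z P = algebraMap L[X] NN P := by
      intro P
      have h1 : aeval Z = IsScalarTower.toAlgHom L L[X] NN := by
        ext; simp [Z]
      rw [h1]; rfl
    have htr : Transcendental L Z := by
      rw [transcendental_iff]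
      intro P hP
      rw [hZ] at hP
      exact (FaithfulSMul.algebraMap_eq_zero_iff L[X] NN).1 hP
    have hfr : ∀ x : NN, ∃ P P' : L[X], P' ≠ 0 ∧ x * aeval Z P' = aeval Z P := by
      intro x
      obtain ⟨P, P', hP, rfl⟩ := IsFractionRing.div_surjective (A := L[X]) x
      have h0 := nonZeroDivisors.ne_zero hP
      refine ⟨P, P', h0, ?_⟩
      rw [hZ, hZ, div_mul_cancel₀ _ (alg_ne_zero h0)]
    have hQ : IsQA p Z F (FQ (k := k) hFp) := by
      intro x
      simp only [hZ]
      exact mem_FQ hFp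
    obtain ⟨T1, I1, hT1, hI1, M1, y1, c1, μ1, Γ1, hP1, hL1, hF1⟩ :=
      hall.bun p k L NN T' I' G M' F N a1 h1 g Γ' hN hR' hG' hzL Z htr hfr (FQ (k := k) hFp) hQ
    obtain ⟨T2, I2, hT2, hI2, M2, y2, c2, μ2, Γ2, hP2, hL2, hF2, hfin⟩ :=
      hall.ppr p k L NN T' I' T1 I1 G M' F N a1 h1 M1 _ (FQ (k := k) hFp) y1 c1 μ1
        (fun b => algebraMap L NN (g b)) Γ1 hN hP1 hL1 hF1
    have eF : Z ^ p - Z - algebraMap L NN F = algebraMap L[X] NN (X ^ p - X - C F) := by
      rw [← hZ, map_sub, map_sub, map_pow, aeval_X, aeval_C]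
    rw [eF] at hP2
    obtain ⟨T3, I3, hT3, hI3, M3, π', Θ', ho, Γ3, μ', y', hy', hCL, hF3, hR3, hVL, hμ', hpol,
      heq⟩ := pcut3 wt_pas p k L NN K T' I' T2 I2 G M' F N a1 h1 M2 _ (FQ (k := k) hFp) y2 c2 μ2
        g Γ2 hN hP2 hL2 hF2 hfin (mem_FQ_of hFp) (alg_ne_zero hFp.ne_zero) (piZ hFp z hz')
        (piZ_eq_zero hFp z hz') (piZ_surj hFp z hz' hgen') (FQ_total hFp) (by
          intro l hl
          have h1 : algebraMap L NN l = algebraMap L[X] NN (C l) := by
            rw [← hZ, aeval_C]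
          have h2 : (⟨algebraMap L NN l, hl⟩ : FQ (k := k) hFp) =
              ⟨algebraMap L[X] NN (C l), mem_FQ_of hFp⟩ := Subtype.ext h1
          rw [h2, piZ_alg, aeval_C])
    obtain ⟨n3, h3, hK3, hB3⟩ := kc_next p M' hK' hN hL M3 ho hCL hy' hVL hμ'
      (fun t κ _ _ φ i => hpol t κ φ i) heq
    refine ⟨T3, I3, ι, hT3, hI3, hι, M3, n3, h3, Γ3, fun t => σ (π (π' t)), hK3, hF3, hR3, ?_, ?_⟩
    · intro t a ha
      exact ho.le t _ (hle (π' t) (hD _ a ha))
    · intro t l c
      have h4 := KB.map (A' := M3.A t) (b' := bf M3 n3 h3 t) p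
        (fun a (ha : a ∈ M.A (π (π' t))) => ho.le t a (hle (π' t) ha)) (by
          intro l c
          rw [← hbf]
          exact hB3 t l c) (hB (π (π' t)) l c)
      rw [map_mul, ← IsScalarTower.algebraMap_apply] at h4
      exact h4

end gk

end Pool.Agent.Zk10
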