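import Pool.Agent.Zk10.K8

/-!
Towers, and the resolutions of the varieties over charts of the base.
-/

set_option autoImplicit false
set_option linter.unusedVariables false
set_option linter.unusedSectionVars false

universe u

open Polynomial

namespace Pool.Agent.Zk10

open Pool.Agent.W558 Pool.Agent.W177.WD Pool.Agent.W174.WA Pool.Agent.W356.WT.Nas
open Pool.Agent.TH214

section tower

variable {k L0 : Type u} [Field k] [Field L0] [Algebra k L0] (p : ℕ) [Fact p.Prime]
  [PerfectField k] [CharP k p]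

/-- The element `F` is of the form `a ^ p - a + g + ∑ c l * b l`, with `a`, `g` in `E` and `g`
integral over `S`. -/
def KE (p : ℕ) {L K : Type u} [Field L] [Field K] [Algebra k K] [Algebra L K] (ρ : L0 →ₐ[k] K)
    (S : Subalgebra k L0) {ι : Type} [Fintype ι] (b : ι → L0) (E : IntermediateField L K)
    (F : K) : Prop :=
  ∃ a ∈ E, ∃ g ∈ E, IsInt ρ S g ∧ ∃ c : ι → k,
    F = a ^ p - a + g + ∑ l, algebraMap k K (c l) * ρ (b l)

/-- Towers. -/
theorem gkt_tower {T0 ι0 G : Type} [Fintype ι0] [Nonempty T0] {B : T0 → Subalgebra k L0}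
    {b0 : T0 → ι0 → L0} : ∀ (r : ℕ) (L K : Type u) [Field L] [Field K] [Algebra k L]
    [Algebra k K] [Algebra L K] [IsScalarTower k L K] (ρ : L0 →ₐ[k] L) (ρ' : L0 →ₐ[k] K)
    (hρ : ∀ x, ρ' x = algebraMap L K (ρ x)) (g : G → L),
    GKT p k B b0 ρ g → ∀ (w : Fin r → K),
    (∀ j s, KE p ρ' (B s) (b0 s) (IntermediateField.adjoin L (w '' Set.Iio j))
      (w j ^ p - w j)) →
    IntermediateField.adjoin L (Set.range w) = ⊤ →
    GKT p k B b0 ρ' (fun b => algebraMap L K (g b)) := by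
  classical
  have hp : p.Prime := Fact.out
  intro r
  induction r with
  | zero =>
    intro L K _ _ _ _ _ _ ρ ρ' hρ g hM w hw hgen
    have e : ρ' = (IsScalarTower.toAlgHom k L K).comp ρ := AlgHom.ext hρ
    rw [e]
    refine gkt_iso p hM ?_
    rw [Set.range_eq_empty, IntermediateField.adjoin_empty] at hgen
    intro y
    have h5 : y ∈ (⊤ : IntermediateField L K) := trivial
    rw [← hgen] at h5
    exact IntermediateField.mem_bot.1 h5
  | succ r ih =>
    intro L K _ _ _ _ _ _ ρ ρ' hρ g hM w hw hgen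
    let L1 := IntermediateField.adjoin L {w 0}
    have tL1 : IsScalarTower k L1 K := IsScalarTower.of_algebraMap_eq fun c => rfl
    let z : L1 := ⟨w 0, IntermediateField.mem_adjoin_simple_self L (w 0)⟩
    have h0 : IntermediateField.adjoin L (w '' Set.Iio (0 : Fin (r + 1))) = ⊥ := by
      have h1 : w '' Set.Iio (0 : Fin (r + 1)) = ∅ := by
        rw [Set.image_eq_empty]
        ext i
        simp
      rw [h1, IntermediateField.adjoin_empty]
    have hF : ∀ s, ∃ F : L, w 0 ^ p - w 0 = algebraMap L K F ∧ KI p ρ (B s) (b0 s) F := by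
      intro s
      obtain ⟨a, ha, g', hg', hint, c, hFe⟩ := hw 0 s
      rw [h0] at ha hg'
      obtain ⟨a', rfl⟩ := IntermediateField.mem_bot.1 ha
      obtain ⟨g'', rfl⟩ := IntermediateField.mem_bot.1 hg'
      refine ⟨a' ^ p - a' + g'' + ∑ l, algebraMap k L (c l) * ρ (b0 s l), ?_, a', g'', ?_, c,
        rfl⟩
      · rw [hFe, map_add, map_add, map_sub, map_pow, map_sum]
        congr 1
        refine Finset.sum_congr rfl fun l _ => ?_
        rw [map_mul, ← IsScalarTower.algebraMap_apply, hρ]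
      · have e : ρ' = (IsScalarTower.toAlgHom k L K).comp ρ := AlgHom.ext hρ
        rw [e] at hint
        exact isInt_map.1 hint
    choose F hF1 hF2 using hF
    obtain ⟨s0⟩ : Nonempty T0 := inferInstance
    have hFF : ∀ s, F s = F s0 := by
      intro s
      apply (algebraMap L K).injective
      rw [← hF1, ← hF1]
    have hM1 : GKT p k B b0 ((IsScalarTower.toAlgHom k L L1).comp ρ)
        (fun b => algebraMap L L1 (g b)) := by
      refine gkt_step p hM (F s0) (fun s => hFF s ▸ hF2 s) z ?_ ?_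
      · apply Subtype.ext
        exact hF1 s0
      · apply IntermediateField.lift_injective L1
        rw [IntermediateField.lift_adjoin_simple, IntermediateField.lift_top]
    have h2 := ih L1 K ((IsScalarTower.toAlgHom k L L1).comp ρ) ρ' (fun x => hρ x)
      (fun b => algebraMap L L1 (g b)) hM1 (fun j => w j.succ) (by
        intro j s
        have hle : ∀ y ∈ IntermediateField.adjoin L (w '' Set.Iio j.succ),
            y ∈ IntermediateField.adjoin L1 ((fun j : Fin r => w j.succ) '' Set.Iio j) := by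
          have h3 : IntermediateField.adjoin L (w '' Set.Iio j.succ) ≤
              (IntermediateField.adjoin L1
                ((fun j : Fin r => w j.succ) '' Set.Iio j)).restrictScalars L := by
            rw [IntermediateField.adjoin_le_iff]
            rintro _ ⟨i, hi, rfl⟩
            rw [SetLike.mem_coe, IntermediateField.mem_restrictScalars]
            revert hi
            refine Fin.cases ?_ (fun i => ?_) i
            · intro _
              exact IntermediateField.algebraMap_mem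
                (IntermediateField.adjoin L1 ((fun j : Fin r => w j.succ) '' Set.Iio j)) z
            · intro hi
              exact IntermediateField.subset_adjoin L1 _ ⟨i, Fin.succ_lt_succ_iff.1 hi, rfl⟩
          exact fun y hy => h3 hy
        obtain ⟨a, ha, g', hg', hint, c, hFe⟩ := hw j.succ s
        exact ⟨a, hle a ha, g', hle g' hg', hint, c, hFe⟩) (by
        rw [← IntermediateField.restrictScalars_eq_top_iff (K := L),
          IntermediateField.adjoin_adjoin_left, ← hgen]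
        congr 1
        ext y
        constructor
        · rintro (hy | ⟨j, rfl⟩)
          · exact ⟨0, hy.symm⟩
          · exact ⟨j.succ, rfl⟩
        · rintro ⟨j, rfl⟩
          refine Fin.cases ?_ (fun j => ?_) j
          · exact Or.inl rfl
          · exact Or.inr ⟨j, rfl⟩)
    exact h2

/-- The base of a tower. -/
theorem gkt_base {L : Type u} [Field L] [Algebra k L] {T I ι G : Type} [Finite T] [Fintype I]
    [Fintype ι] (M : LM (⊥ : Subalgebra k L) ⊤ T I) {n : T → ι → I → ℤ} {h : T → ι → L}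
    (hK : KC M n h) {g : G → L} {Γ : G → I → ℤ} (hG : Fn M g Γ) (hR : Frc M) :
    GKT p k M.A (bf M n h) (AlgHom.id k L) g :=
  ⟨T, I, ι, inferInstance, inferInstance, inferInstance, M, n, h, Γ, id, hK, hG, hR,
    fun t a ha => ha, fun t l c => KB.smul p c l⟩

end tower

section gen

variable (p : ℕ) [Fact p.Prime] (k L K : Type u) [Field k] [PerfectField k] [CharP k p] [Field L]
  [Field K] [Algebra k L] [Algebra k K] [Algebra L K] [IsScalarTower k L K]

/-- Models of towers, lying over the given model. -/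
theorem model_of_KT {T0 I0 ι G : Type} [Finite T0] [Fintype I0] [Fintype ι]
    (M : LM (⊥ : Subalgebra k L) ⊤ T0 I0) {n : T0 → ι → I0 → ℤ} {h : T0 → ι → L}
    (hN : KC M n h) {g : G → L} {Γ : G → I0 → ℤ} (hG : Fn M g Γ) (hR : Frc M)
    {r : ℕ} (w : Fin r → K)
    (hw : ∀ j t, KE p (IsScalarTower.toAlgHom k L K) (M.A t) (bf M n h t)
      (IntermediateField.adjoin L (w '' Set.Iio j)) (w j ^ p - w j))
    (hgen : IntermediateField.adjoin L (Set.range w) = ⊤) :
    ∃ (T I : Type) (_ : Finite T) (_ : Fintype I) (M' : LM (⊥ : Subalgebra k K) ⊤ T I)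
      (Γ' : G → I → ℤ), Fn M' (fun b => algebraMap L K (g b)) Γ' ∧ Frc M' ∧
        Dm M.A (algebraMap L K) M' := by
  have hT0 : Nonempty T0 := by
    obtain ⟨t, -⟩ := M.cv ⊤ (fun a _ => trivial)
    exact ⟨t⟩
  obtain ⟨T, I, ι', hT, hI, hι, M', n', h', Γ', σ, -, hF, hR', hD, -⟩ :=
    gkt_tower p r L K (AlgHom.id k L) (IsScalarTower.toAlgHom k L K) (fun x => rfl) g
      (gkt_base p M hN hG hR) w hw hgen
  exact ⟨T, I, hT, hI, M', Γ', hF, hR', fun t => ⟨σ t, hD t⟩⟩

/-- Smooth charts over the varieties. -/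
theorem LM_of_model {T0 I0 G : Type} [Finite T0] [Finite G]
    (M : LM (⊥ : Subalgebra k L) ⊤ T0 I0) {g : G → L}
    {T I : Type} [Finite T] [Fintype I] (M' : LM (⊥ : Subalgebra k K) ⊤ T I) {Γ' : G → I → ℤ}
    (hF' : Fn M' (fun b => algebraMap L K (g b)) Γ') (hR' : Frc M')
    (hD' : Dm M.A (algebraMap L K) M')
    (A : Type u) [CommRing A] [IsDomain A] [Algebra k A] [Algebra A K]
    [IsScalarTower k A K] [IsFractionRing A K] (J : Finset T0)
    (hJ : ∀ j ∈ J, ∀ x ∈ M.A j, ∃ a : A, algebraMap A K a = algebraMap L K x) (s : G → A)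
    (hs : ∀ b, algebraMap A K (s b) = algebraMap L K (g b))
    (hA : ∀ a : A, IsIntegral (Algebra.adjoin k (Set.range s ∪
      {a : A | ∃ j ∈ J, ∃ x ∈ M.A j, algebraMap A K a = algebraMap L K x})) a) :
    ∃ (T I : Type) (_ : Finite T) (_ : Fintype I),
      Nonempty (LM (IsScalarTower.toAlgHom k A K).range (IsScalarTower.toAlgHom k A K).range
        T I) := by
  classical
  have : Fintype G := Fintype.ofFinite G
  let g1 : G → K := fun b => algebraMap L K (g b)
  -- principalize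
  let g' : Option G → K := fun o => o.elim 1 g1
  let Γ0 : Option G → I → ℤ := fun o => o.elim 0 Γ'
  have hF0 : Fn M' g' Γ0 := by
    rintro (_ | b) t
    · refine ⟨1, one_ne_zero, (M'.A t).one_mem, by rw [inv_one]; exact (M'.A t).one_mem, ?_⟩
      simp [g', Γ0]
    · exact hF' b t
  obtain ⟨T1, I1, iT1, iI1, M1, π, Θ, hE, hC⟩ := wd_ovp k K ⊥ ⊤ T I (Option G) M' Γ0
  let Γ1 : Option G → I1 → ℤ := fun a i' => ∑ i, Θ i' i * Γ0 a i
  have hF1 : Fn M1 g' Γ1 := Pool.Agent.W462.WD.Res.fn_ov hE hF0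
  have hT1 : Nonempty T1 := by
    obtain ⟨t, -⟩ := M1.cv ⊤ (fun a _ => trivial)
    exact ⟨t⟩
  have hg0 : ∀ b, g1 b ≠ 0 := by
    intro b
    obtain ⟨t⟩ := hT1
    obtain ⟨w, hw0, -, -, h1⟩ := hF1 (some b) t
    have h1' : g1 b = w * ∏ i, M1.x t i ^ Γ1 (some b) i := h1
    rw [h1']
    exact mul_ne_zero hw0 (Finset.prod_ne_zero_iff.2 fun i _ => zpow_ne_zero _ (M1.x0 t i))
  have hcmp : ∀ t b, g1 b ∈ M1.A t ∨ (g1 b)⁻¹ ∈ M1.A t := by
    intro t b
    rcases hC none (some b) t with h1 | h1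
    · left
      have h2 := div_mem_of_le M1 t g' Γ1 hF1 (a := none) (b := some b) h1
      have h3 : g' (some b) / g' none = g1 b := by simp [g']
      rwa [h3] at h2
    · right
      have h2 := div_mem_of_le M1 t g' Γ1 hF1 (a := some b) (b := none) h1
      have h3 : g' none / g' (some b) = (g1 b)⁻¹ := by simp [g']
      rwa [h3] at h2
  choose σ hσ using fun t => hD' (π t)
  have hσ1 : ∀ t, ∀ a ∈ M.A (σ t), algebraMap L K a ∈ M1.A t := fun t a ha =>
    hE.le t (hσ t a ha)
  let S : T1 → Finset G := fun t => Finset.univ.filter fun b => g1 b ∉ M1.A t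
  have hS : ∀ t b, b ∈ S t ↔ g1 b ∉ M1.A t := by
    intro t b
    simp [S]
  let q : T1 → T0 → K := fun t j => algebraMap L K (M.H j / M.H (σ t))
  have hq0 : ∀ t j, q t j ≠ 0 := fun t j =>
    (_root_.map_ne_zero _).2 (div_ne_zero (M.H0 j) (M.H0 _))
  have hqA : ∀ t j, q t j ∈ M1.A t := fun t j => hσ1 t _ (M.rt _ _)
  let r1 : T1 → K := fun t => (∏ j ∈ J, q t j) * ∏ b ∈ S t, (g1 b)⁻¹
  let ρ : A →ₐ[k] K := IsScalarTower.toAlgHom k A K
  have hρ : Function.Injective ρ := IsFractionRing.injective A K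
  have hgR : ∀ b, g1 b ∈ ρ.range := fun b => ⟨s b, hs b⟩
  have hJR : ∀ j ∈ J, ∀ x ∈ M.A j, algebraMap L K x ∈ ρ.range := by
    intro j hj x hx
    obtain ⟨a, ha⟩ := hJ j hj x hx
    exact ⟨a, ha⟩
  have hqR : ∀ t, ∀ j ∈ J, (q t j)⁻¹ ∈ ρ.range := by
    intro t j hj
    have h1 : (q t j)⁻¹ = algebraMap L K (M.H (σ t) / M.H j) := by
      change (algebraMap L K (M.H j / M.H (σ t)))⁻¹ = _
      rw [← map_inv₀, inv_div]
    rw [h1]
    exact hJR j hj _ (M.rt _ _)
  have hr1mem : ∀ t, r1 t ∈ M1.A t := by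
    intro t
    refine (M1.A t).mul_mem ((M1.A t).prod_mem fun j _ => hqA t j)
      ((M1.A t).prod_mem fun b hb => ?_)
    exact (hcmp t b).resolve_left ((hS t b).1 hb)
  have hr10 : ∀ t, r1 t ≠ 0 := fun t =>
    mul_ne_zero (Finset.prod_ne_zero_iff.2 fun j _ => hq0 t j)
      (Finset.prod_ne_zero_iff.2 fun b _ => inv_ne_zero (hg0 b))
  have hr1R : ∀ t, (r1 t)⁻¹ ∈ ρ.range := by
    intro t
    change ((∏ j ∈ J, q t j) * ∏ b ∈ S t, (g1 b)⁻¹)⁻¹ ∈ ρ.range
    rw [mul_inv, ← Finset.prod_inv_distrib, ← Finset.prod_inv_distrib]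
    refine ρ.range.mul_mem (ρ.range.prod_mem fun j hj => hqR t j hj)
      (ρ.range.prod_mem fun b _ => ?_)
    rw [inv_inv]
    exact hgR b
  -- the generators
  have hdiv : ∀ t (c d : K), r1 t = c * d → c ≠ 0 → d ∈ M1.A t → d ≠ 0 →
      c⁻¹ ∈ adj (M1.A t) (r1 t)⁻¹ := by
    intro t c d h1 h2 h3 h4
    have h5 : c⁻¹ = d * (r1 t)⁻¹ := by
      rw [h1, mul_inv, mul_left_comm, mul_inv_cancel₀ h4, mul_one]
    rw [h5]
    exact (adj (M1.A t) (r1 t)⁻¹).mul_mem (le_adj _ _ h3) (self_mem_adj _ _)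
  have hgX : ∀ t b, g1 b ∈ adj (M1.A t) (r1 t)⁻¹ := by
    intro t b
    by_cases h : g1 b ∈ M1.A t
    · exact le_adj _ _ h
    · have h1 : b ∈ S t := (hS t b).2 h
      have h2 := hdiv t (g1 b)⁻¹ ((∏ j ∈ J, q t j) * ∏ b' ∈ (S t).erase b, (g1 b')⁻¹) (by
        change (∏ j ∈ J, q t j) * ∏ b ∈ S t, (g1 b)⁻¹ = _
        rw [← Finset.mul_prod_erase _ _ h1]
        ring) (inv_ne_zero (hg0 b)) (by
          refine (M1.A t).mul_mem ((M1.A t).prod_mem fun j _ => hqA t j)
            ((M1.A t).prod_mem fun b' hb' => ?_)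
          exact (hcmp t b').resolve_left ((hS t b').1 (Finset.mem_of_mem_erase hb')))
        (mul_ne_zero (Finset.prod_ne_zero_iff.2 fun j _ => hq0 t j)
          (Finset.prod_ne_zero_iff.2 fun b _ => inv_ne_zero (hg0 b)))
      rwa [inv_inv] at h2
  have hJX : ∀ t, ∀ j ∈ J, ∀ x ∈ M.A j, algebraMap L K x ∈ adj (M1.A t) (r1 t)⁻¹ := by
    intro t j hj x hx
    obtain ⟨N, hN⟩ := M.gl (σ t) j x hx
    have h1 : algebraMap L K ((M.H j / M.H (σ t)) ^ N * x) ∈ M1.A t := hσ1 t _ hN
    have h2 := hdiv t (q t j) ((∏ j' ∈ J.erase j, q t j') * ∏ b ∈ S t, (g1 b)⁻¹) (by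
      change (∏ j ∈ J, q t j) * ∏ b ∈ S t, (g1 b)⁻¹ = _
      rw [← Finset.mul_prod_erase _ _ hj]
      ring) (hq0 t j) (by
        refine (M1.A t).mul_mem ((M1.A t).prod_mem fun j _ => hqA t j)
          ((M1.A t).prod_mem fun b' hb' => ?_)
        exact (hcmp t b').resolve_left ((hS t b').1 hb'))
      (mul_ne_zero (Finset.prod_ne_zero_iff.2 fun j _ => hq0 t j)
        (Finset.prod_ne_zero_iff.2 fun b _ => inv_ne_zero (hg0 b)))
    have h3 : algebraMap L K x = algebraMap L K ((M.H j / M.H (σ t)) ^ N * x) *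
        ((q t j)⁻¹) ^ N := by
      rw [map_mul, map_pow]
      change _ = (q t j) ^ N * _ * _
      rw [mul_right_comm, ← mul_pow, mul_inv_cancel₀ (hq0 t j), one_pow, one_mul]
    rw [h3]
    exact (adj (M1.A t) (r1 t)⁻¹).mul_mem (le_adj _ _ h1)
      ((adj (M1.A t) (r1 t)⁻¹).pow_mem h2 N)
  let X0 : Set A := Set.range s ∪
      {a : A | ∃ j ∈ J, ∃ x ∈ M.A j, algebraMap A K a = algebraMap L K x}
  have hint : ∀ y ∈ ρ.range, IsIntegral (Algebra.adjoin k (ρ '' X0)) y := by
    rintro _ ⟨a, rfl⟩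
    have h1 : Algebra.adjoin k (ρ '' X0) = (Algebra.adjoin k X0).map ρ := by
      rw [AlgHom.map_adjoin]
    rw [h1]
    obtain ⟨B, hB, hB'⟩ := hA a
    let φ : Algebra.adjoin k X0 →+* (Algebra.adjoin k X0).map ρ :=
      { toFun := fun y => ⟨ρ y, ⟨y, y.2, rfl⟩⟩
        map_one' := Subtype.ext (map_one ρ)
        map_mul' := fun y y' => Subtype.ext (map_mul ρ _ _)
        map_zero' := Subtype.ext (map_zero ρ)
        map_add' := fun y y' => Subtype.ext (map_add ρ _ _) }
    refine ⟨B.map φ, hB.map φ, ?_⟩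
    rw [eval₂_map]
    have h2 : ((algebraMap ((Algebra.adjoin k X0).map ρ) K).comp φ) =
        ρ.toRingHom.comp (algebraMap (Algebra.adjoin k X0) A) := RingHom.ext fun y => rfl
    rw [h2]
    have h3 := congrArg ρ.toRingHom hB'
    rw [hom_eval₂, map_zero] at h3
    exact h3
  have hfr : ∀ y : K, ∃ a ∈ ρ.range, ∃ b ∈ ρ.range, b ≠ 0 ∧ y = a * b⁻¹ := by
    intro y
    obtain ⟨a, b, hb, rfl⟩ := IsFractionRing.div_surjective (A := A) y
    exact ⟨_, ⟨a, rfl⟩, _, ⟨b, rfl⟩, by
      have := nonZeroDivisors.ne_zero hb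
      exact (FaithfulSMul.algebraMap_eq_zero_iff A K).not.2 this, div_eq_mul_inv _ _⟩
  obtain ⟨M2⟩ := res_gen M1 (hR'.ov hE) ρ.range (ρ '' X0) hint hfr r1 hr1mem hr10 hr1R (by
    rintro t _ ⟨a, (⟨b, rfl⟩ | ⟨j, hj, x, hx, hax⟩), rfl⟩
    · have h1 : ρ (s b) = g1 b := hs b
      rw [h1]
      exact hgX t b
    · have h1 : ρ a = algebraMap L K x := hax
      rw [h1]
      exact hJX t j hj x hx)
  exact ⟨T1, I1, iT1, iI1, ⟨M2⟩⟩

end gen

end Pool.Agent.Zk10
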