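import Mathlib

/-!
Weakly ramified actions on discretely valued fields: leading terms.
-/

set_option autoImplicit false
set_option linter.unusedVariables false
set_option linter.unusedSectionVars false

universe u

namespace Pool.Agent.Zk10.Ram

section basic

variable {k E : Type u} [Field k] [Field E] [Algebra k E] {V : ValuationSubring E}

lemma v_le {x : E} : V.valuation x ≤ 1 ↔ x ∈ V := V.valuation_le_one_iff x

lemma v_k (hk : ∀ c : k, algebraMap k E c ∈ V) {c : k} (hc : c ≠ 0) :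
    V.valuation (algebraMap k E c) = 1 := by
  apply le_antisymm (v_le.2 (hk c))
  have h1 : V.valuation (algebraMap k E c⁻¹) ≤ 1 := v_le.2 (hk _)
  have h2 : V.valuation (algebraMap k E c⁻¹) * V.valuation (algebraMap k E c) = 1 := by
    rw [← map_mul, ← map_mul, inv_mul_cancel₀ hc, map_one, map_one]
  calc (1 : V.ValueGroup) = V.valuation (algebraMap k E c⁻¹) * V.valuation (algebraMap k E c) :=
        h2.symm
    _ ≤ 1 * V.valuation (algebraMap k E c) := mul_le_mul_left h1 _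
    _ = _ := one_mul _

lemma v_add {a b : E} (ha : V.valuation a = 1) (hb : V.valuation b < 1) :
    V.valuation (a + b) = 1 := by
  rw [Valuation.map_add_eq_of_lt_left _ (by rw [ha]; exact hb), ha]

lemma v_lt_mul {a b : E} (ha : V.valuation a < 1) (hb : b ∈ V) : V.valuation (a * b) < 1 := by
  rw [map_mul]
  calc V.valuation a * V.valuation b ≤ V.valuation a * 1 := mul_le_mul_right (v_le.2 hb) _
    _ = V.valuation a := mul_one _
    _ < 1 := ha

lemma v_inv_mem {a : E} (ha : V.valuation a = 1) : a⁻¹ ∈ V := by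
  rw [← v_le, map_inv₀, ha, inv_one]

lemma v_lt_mem {a : E} (ha : V.valuation a < 1) : a ∈ V := v_le.1 ha.le

lemma v_sub_lt {a b : E} (ha : V.valuation a < 1) (hb : V.valuation b < 1) :
    V.valuation (a - b) < 1 := by
  rw [sub_eq_add_neg]
  exact Valuation.map_add_lt _ ha (by rwa [Valuation.map_neg])

/-- Powers of `1 + ε * τ`. -/
lemma one_add_pow {ε τ : E} (hε : ε ∈ V) (hτ : τ ∈ V) (n : ℕ) :
    ∃ w ∈ V, (1 + ε * τ) ^ n = 1 + n * ε * τ + τ ^ 2 * w := by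
  induction n with
  | zero => exact ⟨0, V.zero_mem, by simp⟩
  | succ n ih =>
    obtain ⟨w, hw, h⟩ := ih
    refine ⟨w + n * ε ^ 2 + ε * τ * w, ?_, ?_⟩
    · exact V.add_mem _ _ (V.add_mem _ _ hw (V.mul_mem _ _ (natCast_mem V n) (pow_mem hε 2)))
        (V.mul_mem _ _ (V.mul_mem _ _ hε hτ) hw)
    · rw [pow_succ, h]
      push_cast
      ring

lemma one_add_zpow {ε τ : E} (hε : ε ∈ V) (hτ : V.valuation τ < 1) (n : ℤ) :
    ∃ w ∈ V, (1 + ε * τ) ^ n = 1 + n * ε * τ + τ ^ 2 * w := by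
  have hτV := v_lt_mem hτ
  have ha : V.valuation (1 + ε * τ) = 1 :=
    v_add (map_one _) (by rw [mul_comm]; exact v_lt_mul hτ hε)
  have ha0 : (1 + ε * τ) ≠ 0 := by
    intro h
    rw [h, map_zero] at ha
    exact zero_ne_one ha
  obtain ⟨m, rfl | rfl⟩ := n.eq_nat_or_neg
  · obtain ⟨w, hw, h⟩ := one_add_pow hε hτV m
    exact ⟨w, hw, by rw [zpow_natCast, h]; push_cast; ring⟩
  · obtain ⟨w, hw, h⟩ := one_add_pow hε hτV m
    have hai : ((1 + ε * τ) ^ m)⁻¹ ∈ V := by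
      apply v_inv_mem
      rw [map_pow, ha, one_pow]
    refine ⟨((1 + ε * τ) ^ m)⁻¹ * ((m : E) ^ 2 * ε ^ 2 - w + m * ε * τ * w), ?_, ?_⟩
    · refine V.mul_mem _ _ hai (V.add_mem _ _ (V.sub_mem ?_ hw) ?_)
      · exact V.mul_mem _ _ (pow_mem (natCast_mem V m) 2) (pow_mem hε 2)
      · exact V.mul_mem _ _ (V.mul_mem _ _ (V.mul_mem _ _ (natCast_mem V m) hε) hτV) hw
    · rw [zpow_neg, zpow_natCast]
      have h1 : (1 + ε * τ) ^ m ≠ 0 := pow_ne_zero m ha0
      have h2 : τ ^ 2 * ((m : E) ^ 2 * ε ^ 2 - w + m * ε * τ * w) =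
          1 - (1 - m * ε * τ) * (1 + ε * τ) ^ m := by
        rw [h]
        ring
      have h3 : τ ^ 2 * (((1 + ε * τ) ^ m)⁻¹ * ((m : E) ^ 2 * ε ^ 2 - w + m * ε * τ * w)) =
          ((1 + ε * τ) ^ m)⁻¹ * (1 - (1 - m * ε * τ) * (1 + ε * τ) ^ m) := by
        rw [← h2]; ring
      rw [h3, mul_sub, mul_one, mul_left_comm, inv_mul_cancel₀ h1, mul_one]
      push_cast
      ring

end basic

section lp

variable {k E : Type u} [Field k] [Field E] [Algebra k E] (V : ValuationSubring E)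

/-- The elements fixed by a subgroup. -/
def FX (N : Subgroup (E ≃ₐ[k] E)) (x : E) : Prop := ∀ σ ∈ N, σ x = x

variable {N : Subgroup (E ≃ₐ[k] E)}

lemma FX.add {x y : E} (hx : FX N x) (hy : FX N y) : FX N (x + y) := fun σ h => by
  rw [map_add, hx σ h, hy σ h]

lemma FX.sub {x y : E} (hx : FX N x) (hy : FX N y) : FX N (x - y) := fun σ h => by
  rw [map_sub, hx σ h, hy σ h]

lemma FX.mul {x y : E} (hx : FX N x) (hy : FX N y) : FX N (x * y) := fun σ h => by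
  rw [map_mul, hx σ h, hy σ h]

lemma FX.inv {x : E} (hx : FX N x) : FX N x⁻¹ := fun σ h => by
  rw [map_inv₀, hx σ h]

lemma FX.pow {x : E} (hx : FX N x) (n : ℕ) : FX N (x ^ n) := fun σ h => by
  rw [map_pow, hx σ h]

lemma FX.zpow {x : E} (hx : FX N x) (n : ℤ) : FX N (x ^ n) := fun σ h => by
  rw [map_zpow₀, hx σ h]

lemma FX.alg (c : k) : FX N (algebraMap k E c) := fun σ h => σ.commutes c

/-- The elements of the fixed field of `N` have leading terms `c * u ^ n`. -/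
structure LP (N : Subgroup (E ≃ₐ[k] E)) (u : E) : Prop where
  uF : FX N u
  uV : 1 < V.valuation u
  lt : ∀ x, FX N x → x ≠ 0 → ∃ (n : ℤ) (c : k) (z : E), c ≠ 0 ∧ z ∈ V ∧
    x = u ^ n * (algebraMap k E c + u⁻¹ * z)

variable {V}

lemma LP.u0 {u : E} (h : LP V N u) : u ≠ 0 := by
  rintro rfl
  have := h.uV
  rw [map_zero] at this
  exact absurd this (not_lt.2 zero_le)

lemma LP.inv_lt {u : E} (h : LP V N u) : V.valuation u⁻¹ < 1 := by
  rw [map_inv₀]
  exact inv_lt_one_of_one_lt₀ h.uV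

lemma LP.v_eq (hk : ∀ c : k, algebraMap k E c ∈ V) {u : E} (h : LP V N u) {c : k} (hc : c ≠ 0)
    {z : E} (hz : z ∈ V) : V.valuation (algebraMap k E c + u⁻¹ * z) = 1 :=
  v_add (v_k hk hc) (v_lt_mul h.inv_lt hz)

lemma LP.zF {u : E} (h : LP V N u) {x : E} (hx : FX N x) {n : ℤ} {c : k} {z : E}
    (e : x = u ^ n * (algebraMap k E c + u⁻¹ * z)) : FX N z := by
  have hu := h.u0
  have h1 : z = u * (x * u ^ (-n) - algebraMap k E c) := by
    rw [e, mul_right_comm, ← zpow_add₀ hu, add_neg_cancel, zpow_zero, one_mul,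
      add_sub_cancel_left, ← mul_assoc, mul_inv_cancel₀ hu, one_mul]
  rw [h1]
  exact h.uF.mul ((hx.mul (h.uF.zpow _)).sub (FX.alg c))

/-- Elements of the valuation ring. -/
lemma LP.res {u : E} (hk : ∀ c : k, algebraMap k E c ∈ V) (h : LP V N u) {x : E} (hx : FX N x)
    (hxV : x ∈ V) : ∃ (c : k) (z : E), z ∈ V ∧ FX N z ∧ x = algebraMap k E c + u⁻¹ * z := by
  have hu := h.u0
  by_cases h0 : x = 0
  · exact ⟨0, 0, V.zero_mem, fun σ _ => map_zero σ, by rw [h0, map_zero]; ring⟩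
  obtain ⟨n, c, z, hc, hz, e⟩ := h.lt x hx h0
  have hzF := h.zF hx e
  have h1 : V.valuation x = V.valuation u ^ n := by
    rw [e, map_mul, map_zpow₀, h.v_eq hk hc hz, mul_one]
  have hn : n ≤ 0 := by
    by_contra hcon
    push Not at hcon
    have h2 := v_le.2 hxV
    rw [h1] at h2
    exact absurd (one_lt_zpow₀ h.uV hcon) (not_lt.2 h2)
  rcases hn.eq_or_lt with rfl | hn
  · exact ⟨c, z, hz, hzF, by rw [e, zpow_zero, one_mul]⟩
  · refine ⟨0, u ^ (n + 1) * (algebraMap k E c + u⁻¹ * z), ?_, ?_, ?_⟩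
    · rw [← v_le, map_mul, map_zpow₀, h.v_eq hk hc hz, mul_one]
      exact zpow_le_one_of_nonpos₀ h.uV.le (by omega)
    · exact (h.uF.zpow _).mul ((FX.alg c).add (h.uF.inv.mul hzF))
    · have h2 : u⁻¹ * u ^ (n + 1) = u ^ n := by
        rw [zpow_add_one₀ hu, mul_comm, mul_assoc, mul_inv_cancel₀ hu, mul_one]
      rw [map_zero, zero_add, ← mul_assoc, h2]
      exact e

/-- The leading term of `h y - y`. -/
lemma LP.ltd {u : E} (hk : ∀ c : k, algebraMap k E c ∈ V) (h : LP V N u) (σ : E ≃ₐ[k] E)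
    (hσ : ∀ x ∈ V, σ x ∈ V) (hε : σ u - u ∈ V) {n : ℤ} {c : k} {z : E} (hz : z ∈ V)
    (hzF : FX N z) : ∃ z' ∈ V, σ (u ^ n * (algebraMap k E c + u⁻¹ * z)) -
      u ^ n * (algebraMap k E c + u⁻¹ * z) =
      u ^ (n - 1) * (algebraMap k E c * n * (σ u - u) + u⁻¹ * z') := by
  have hu := h.u0
  set ε := σ u - u with hεd
  set τ := u⁻¹ with hτ
  have hτl : V.valuation τ < 1 := h.inv_lt
  have hτV : τ ∈ V := v_lt_mem hτl
  have ha : V.valuation (1 + ε * τ) = 1 :=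
    v_add (map_one _) (by rw [mul_comm]; exact v_lt_mul hτl hε)
  set a := 1 + ε * τ with had
  have ha0 : a ≠ 0 := by
    intro h
    rw [h, map_zero] at ha
    exact zero_ne_one ha
  have haV : a⁻¹ ∈ V := v_inv_mem ha
  have hσu : σ u = u * a := by
    rw [had, mul_add, mul_one, hτ, mul_comm ε, ← mul_assoc, mul_inv_cancel₀ hu, one_mul, hεd]
    ring
  have hστ : σ τ = τ * a⁻¹ := by
    rw [hτ, map_inv₀, hσu, mul_inv]
  obtain ⟨c1, z1, hz1, hz1F, e1⟩ := h.res hk hzF hz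
  have hσz : σ z = z + τ * (a⁻¹ * σ z1 - z1) := by
    rw [e1, map_add, map_mul, AlgEquiv.commutes]
    change _ + σ τ * _ = _
    rw [hστ]
    ring
  obtain ⟨w, hw, hpw⟩ := one_add_zpow hε hτl n
  rw [← had] at hpw
  set z2 := a⁻¹ * σ z1 - z1 with hz2
  have hz2V : z2 ∈ V := V.sub_mem (V.mul_mem _ _ haV (hσ _ hz1)) hz1
  have hai : a⁻¹ = 1 - ε * τ * a⁻¹ := by
    have : a * a⁻¹ = 1 := mul_inv_cancel₀ ha0
    rw [had] at this ⊢
    linear_combination this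
  set z3 := -(ε * a⁻¹ * z) + a⁻¹ * z2 with hz3
  have hz3V : z3 ∈ V := V.add_mem _ _ (V.neg_mem _ (V.mul_mem _ _ (V.mul_mem _ _ hε haV) hz))
    (V.mul_mem _ _ haV hz2V)
  have h5 : algebraMap k E c + τ * a⁻¹ * (z + τ * z2) =
      algebraMap k E c + τ * z + τ ^ 2 * z3 := by
    have : τ * a⁻¹ * z = τ * z - ε * τ ^ 2 * a⁻¹ * z := by
      conv_lhs => rw [hai]
      ring
    rw [hz3]
    linear_combination this
  refine ⟨z3 + w * algebraMap k E c + n * ε * z + τ * (w * z + n * ε * z3) + τ ^ 2 * w * z3,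
    ?_, ?_⟩
  · have hn : (n : E) ∈ V := intCast_mem V n
    refine V.add_mem _ _ (V.add_mem _ _ (V.add_mem _ _ (V.add_mem _ _ hz3V
      (V.mul_mem _ _ hw (hk c))) (V.mul_mem _ _ (V.mul_mem _ _ hn hε) hz))
      (V.mul_mem _ _ hτV (V.add_mem _ _ (V.mul_mem _ _ hw hz)
        (V.mul_mem _ _ (V.mul_mem _ _ hn hε) hz3V))))
      (V.mul_mem _ _ (V.mul_mem _ _ (pow_mem hτV 2) hw) hz3V)
  · rw [map_mul, map_zpow₀, map_add, map_mul, AlgEquiv.commutes, hστ, hσu, mul_zpow, hσz, h5,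
      hpw, zpow_sub_one₀ hu, ← hτ]
    ring

lemma v_sigma {I : Subgroup (E ≃ₐ[k] E)} (hIV : ∀ σ ∈ I, ∀ x ∈ V, σ x ∈ V) {σ : E ≃ₐ[k] E}
    (hσ : σ ∈ I) {x : E} (hx : V.valuation x < 1) : V.valuation (σ x) < 1 := by
  have h1 : V.valuation (σ x) ≤ 1 := v_le.2 (hIV σ hσ x (v_lt_mem hx))
  refine lt_of_le_of_ne h1 fun h2 => ?_
  have h3 : (σ x)⁻¹ ∈ V := v_inv_mem h2
  have h4 := hIV σ⁻¹ (I.inv_mem hσ) _ h3
  have h5 : σ⁻¹ (σ x)⁻¹ = x⁻¹ := by
    rw [map_inv₀]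
    congr 1
    exact σ.symm_apply_apply x
  rw [h5] at h4
  have h6 := v_le.2 h4
  rw [map_inv₀] at h6
  have hx0 : x ≠ 0 := by
    rintro rfl
    rw [map_zero, map_zero] at h2
    exact zero_ne_one h2
  have h7 : V.valuation x ≠ 0 := (Valuation.ne_zero_iff _).2 hx0
  exact absurd ((one_lt_inv₀ (zero_lt_iff.2 h7)).2 hx) (not_lt.2 h6)

/-- The group acts trivially on the residue field. -/
lemma LP.triv {u : E} (hk : ∀ c : k, algebraMap k E c ∈ V) (h : LP V N u)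
    {I : Subgroup (E ≃ₐ[k] E)} (hIV : ∀ σ ∈ I, ∀ x ∈ V, σ x ∈ V) {σ : E ≃ₐ[k] E}
    (hσ : σ ∈ I) {x : E} (hx : FX N x) (hxV : x ∈ V) : V.valuation (σ x - x) < 1 := by
  obtain ⟨c, z, hz, hzF, e⟩ := h.res hk hx hxV
  rw [e, map_add, AlgEquiv.commutes, add_sub_add_left_eq_sub]
  exact v_sub_lt (v_sigma hIV hσ (v_lt_mul h.inv_lt hz)) (v_lt_mul h.inv_lt hz)

end lp

end Pool.Agent.Zk10.Ram
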