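import Pool.Agent.Zk10.R1
import Pool.Agent.W435.WT.Gal

/-!
Weakly ramified actions on discretely valued fields: the step.
-/

set_option autoImplicit false
set_option linter.unusedVariables false
set_option linter.unusedSectionVars false

universe u

namespace Pool.Agent.Zk10.Ram

open Pool.Agent.W558 Pool.Agent.W435.WT.Gal

section step

variable {k E : Type u} [Field k] [Field E] [Algebra k E] {V : ValuationSubring E}
  {N : Subgroup (E ≃ₐ[k] E)}

lemma LP.v_mul (hk : ∀ c : k, algebraMap k E c ∈ V) {u : E} (h : LP V N u) {n : ℤ} {c : k}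
    (hc : c ≠ 0) {z : E} (hz : z ∈ V) :
    V.valuation (u ^ n * (algebraMap k E c + u⁻¹ * z)) = V.valuation u ^ n := by
  rw [map_mul, map_zpow₀, h.v_eq hk hc hz, mul_one]

lemma zpow_le_iff {u : E} (hu : 1 < V.valuation u) {m n : ℤ} :
    V.valuation u ^ m ≤ V.valuation u ^ n ↔ m ≤ n :=
  zpow_le_zpow_iff_right₀ hu

/-- `n` is divisible by `p`. -/
lemma LP.dvd (p : ℕ) [Fact p.Prime] [CharP k p] (hk : ∀ c : k, algebraMap k E c ∈ V) {u : E}
    (h : LP V N u) (σ : E ≃ₐ[k] E) (hσ : ∀ x ∈ V, σ x ∈ V) (hε : V.valuation (σ u - u) = 1)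
    {n : ℤ} {c : k} (hc : c ≠ 0) {z : E} (hz : z ∈ V) (hzF : FX N z)
    (hfix : V.valuation (σ (u ^ n * (algebraMap k E c + u⁻¹ * z)) -
      u ^ n * (algebraMap k E c + u⁻¹ * z)) < V.valuation u ^ (n - 1)) : (p : ℤ) ∣ n := by
  by_contra hn
  obtain ⟨z', hz', h1⟩ := h.ltd hk σ hσ (v_le.1 hε.le) hz hzF (n := n) (c := c)
  have hnk : (n : k) ≠ 0 := by
    intro h0
    exact hn ((CharP.intCast_eq_zero_iff k p n).1 h0)
  have h2 : V.valuation (algebraMap k E c * n * (σ u - u) + u⁻¹ * z') = 1 := by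
    refine v_add ?_ (v_lt_mul h.inv_lt hz')
    have h3 : (n : E) = algebraMap k E (n : k) := (map_intCast _ _).symm
    rw [map_mul, map_mul, hε, v_k hk hc, h3, v_k hk hnk, mul_one, mul_one]
  rw [h1, map_mul, map_zpow₀, h2, mul_one] at hfix
  exact lt_irrefl _ hfix

/-- The norm of `u`. -/
lemma LP.norm {u : E} (h : LP V N u) {h1 : E ≃ₐ[k] E}
    (hc : ∀ σ ∈ N, σ * h1 = h1 * σ) (hε : ∀ i : ℕ, (h1 ^ i) u - u ∈ V) (p : ℕ)
    (hp : h1 ^ p ∈ N) : ∃ (U z : E), FX N U ∧ h1 U = U ∧ z ∈ V ∧ U = u ^ p * (1 + z * u⁻¹) := by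
  have hu := h.u0
  let U := ∏ i ∈ Finset.range p, (h1 ^ i) u
  have hcomm : ∀ (i : ℕ), ∀ σ ∈ N, σ ((h1 ^ i) u) = (h1 ^ i) u := by
    intro i σ hσ
    have h2 : σ * h1 ^ i = h1 ^ i * σ := by
      induction i with
      | zero => simp
      | succ i ih => rw [pow_succ, ← mul_assoc, ih, mul_assoc, hc σ hσ, mul_assoc]
    have h3 : σ ((h1 ^ i) u) = (σ * h1 ^ i) u := rfl
    rw [h3, h2]
    change (h1 ^ i) (σ u) = _
    rw [h.uF σ hσ]
  have hz : ∀ m : ℕ, ∃ z ∈ V, ∏ i ∈ Finset.range m, (h1 ^ i) u = u ^ m * (1 + z * u⁻¹) := by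
    intro m
    induction m with
    | zero => exact ⟨0, V.zero_mem, by simp⟩
    | succ m ih =>
      obtain ⟨z, hz, h2⟩ := ih
      have hti := v_lt_mem h.inv_lt
      refine ⟨z + ((h1 ^ m) u - u) + z * u⁻¹ * ((h1 ^ m) u - u), ?_, ?_⟩
      · exact V.add_mem _ _ (V.add_mem _ _ hz (hε m)) (V.mul_mem _ _ (V.mul_mem _ _ hz hti) (hε m))
      · rw [Finset.prod_range_succ, h2, pow_succ]
        have h3 : (h1 ^ m) u = u * (1 + ((h1 ^ m) u - u) * u⁻¹) := by
          rw [mul_add, mul_one, mul_comm _ u⁻¹, ← mul_assoc, mul_inv_cancel₀ hu, one_mul]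
          ring
        generalize ((h1 ^ m) u - u) = ε at h3 ⊢
        rw [h3]
        ring
  obtain ⟨z, hzV, hze⟩ := hz p
  refine ⟨U, z, ?_, ?_, hzV, hze⟩
  · intro σ hσ
    rw [map_prod]
    exact Finset.prod_congr rfl fun i _ => hcomm i σ hσ
  · have h2 : h1 U = ∏ i ∈ Finset.range p, (h1 ^ (i + 1)) u := by
      rw [map_prod]
      refine Finset.prod_congr rfl fun i _ => ?_
      rw [pow_succ']
      rfl
    have h3 := Finset.prod_range_succ (fun i => (h1 ^ i) u) p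
    have h4 := Finset.prod_range_succ' (fun i => (h1 ^ i) u) p
    rw [h3] at h4
    have h5 : (h1 ^ p) u = u := h.uF _ hp
    have h6 : (h1 ^ 0) u = u := by rw [pow_zero]; rfl
    rw [h5, h6] at h4
    rw [h2]
    exact (mul_right_cancel₀ hu h4).symm

/-- The reduction of the pole. -/
lemma LP.red (p : ℕ) [Fact p.Prime] [CharP k p] (hk : ∀ c : k, algebraMap k E c ∈ V) {u : E}
    (h : LP V N u) {h1 : E ≃ₐ[k] E} {U zU : E} (hUF : FX N U) (hU : h1 U = U) (hzU : zU ∈ V)
    (hUe : U = u ^ p * (1 + zU * u⁻¹)) (m : ℕ) : ∀ (w : E), FX N w → h1 w = w + 1 →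
    (∃ (n : ℤ) (c : k) (z : E), n ≤ m ∧ c ≠ 0 ∧ z ∈ V ∧
      w = u ^ n * (algebraMap k E c + u⁻¹ * z)) →
    ∃ (w' : E) (n : ℤ) (c : k) (z : E), FX N w' ∧ h1 w' = w' + 1 ∧ c ≠ 0 ∧ z ∈ V ∧
      w' = u ^ n * (algebraMap k E c + u⁻¹ * z) ∧ ¬ (0 < n ∧ (p : ℤ) ∣ n) := by
  have hu := h.u0
  have hp : p.Prime := Fact.out
  induction m with
  | zero =>
    rintro w hw hw1 ⟨n, c, z, hn, hc, hz, e⟩
    exact ⟨w, n, c, z, hw, hw1, hc, hz, e, by push_cast at hn; omega⟩
  | succ m ih =>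
    rintro w hw hw1 ⟨n, c, z, hn, hc, hz, e⟩
    by_cases hnm : n ≤ m
    · exact ih w hw hw1 ⟨n, c, z, hnm, hc, hz, e⟩
    have hn1 : n = m + 1 := by push_cast at hn; omega
    by_cases hd : (p : ℤ) ∣ n
    swap
    · exact ⟨w, n, c, z, hw, hw1, hc, hz, e, fun h => hd h.2⟩
    obtain ⟨q, hq⟩ := hd
    have hq0 : 0 < q := by
      have h2 : 0 < (p : ℤ) * q := by rw [← hq]; omega
      have h3 : (0 : ℤ) < p := by exact_mod_cast hp.pos
      exact pos_of_mul_pos_right h2 h3.le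
    obtain ⟨r, rfl⟩ := Int.eq_ofNat_of_zero_le hq0.le
    obtain ⟨w2, hw2, hpw⟩ := one_add_pow hzU (v_lt_mem h.inv_lt) r
    let w1 := w - algebraMap k E c * U ^ r
    have hw1F : FX N w1 := hw.sub ((FX.alg c).mul (hUF.pow r))
    have hw11 : h1 w1 = w1 + 1 := by
      change h1 (w - algebraMap k E c * U ^ r) = w - algebraMap k E c * U ^ r + 1
      rw [map_sub, map_mul, map_pow, hU, AlgEquiv.commutes, hw1]
      ring
    have hw10 : w1 ≠ 0 := by
      intro h0
      rw [h0, map_zero, zero_add] at hw11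
      exact zero_ne_one hw11
    have hz3 : z - algebraMap k E c * (r * zU + u⁻¹ * w2) ∈ V :=
      V.sub_mem hz (V.mul_mem _ _ (hk c) (V.add_mem _ _ (V.mul_mem _ _ (natCast_mem V r) hzU)
        (V.mul_mem _ _ (v_lt_mem h.inv_lt) hw2)))
    have hw1e : w1 = u ^ (n - 1) * (z - algebraMap k E c * (r * zU + u⁻¹ * w2)) := by
      change w - algebraMap k E c * U ^ r = _
      have h3 : U ^ r = u ^ n * (1 + r * zU * u⁻¹ + u⁻¹ ^ 2 * w2) := by
        rw [hUe, mul_pow, hpw, ← pow_mul, hq]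
        congr 1
        rw [← zpow_natCast]
        push_cast
        rfl
      rw [h3, e, zpow_sub_one₀ hu]
      ring
    obtain ⟨n', c', z', hc', hz', e'⟩ := h.lt w1 hw1F hw10
    refine ih w1 hw1F hw11 ⟨n', c', z', ?_, hc', hz', e'⟩
    have h4 : V.valuation w1 ≤ V.valuation u ^ (n - 1) := by
      rw [hw1e, map_mul, map_zpow₀]
      calc V.valuation u ^ (n - 1) * _ ≤ V.valuation u ^ (n - 1) * 1 :=
            mul_le_mul_right (v_le.2 hz3) _
        _ = _ := mul_one _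
    rw [e', h.v_mul hk hc' hz', zpow_le_iff h.uV] at h4
    omega

variable {I : Subgroup (E ≃ₐ[k] E)}

/-- The data of a step. -/
structure WR (V : ValuationSubring E) (I N : Subgroup (E ≃ₐ[k] E)) (u : E) : Prop where
  lp : LP V N u
  ε : ∀ σ ∈ I, σ u - u ∈ V
  mem : ∀ σ ∈ I, V.valuation (σ u - u) < 1 → σ ∈ N

/-- The step. -/
theorem WR.step (p : ℕ) [Fact p.Prime] [CharP k p] (hk : ∀ c : k, algebraMap k E c ∈ V)
    (hIV : ∀ σ ∈ I, ∀ x ∈ V, σ x ∈ V) (hcomm : ∀ σ ∈ I, ∀ τ ∈ I, σ * τ = τ * σ)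
    (hNI : N ≤ I) {u : E} (h : WR V I N u) {h1 : E ≃ₐ[k] E} (h1I : h1 ∈ I) (h1N : h1 ∉ N)
    (hp1 : h1 ^ p ∈ N) (hw : ∃ w : E, FX N w ∧ h1 w = w + 1) :
    ∃ w : E, FX N w ∧ h1 w = w + 1 ∧ WR V I (N ⊔ Subgroup.zpowers h1) (w ^ p - w) := by
  have hp : p.Prime := Fact.out
  have hcE : CharP E p := charP_of_injective_algebraMap (algebraMap k E).injective p
  have hlp := h.lp
  have hu := hlp.u0
  have hσp : ∀ i : ℕ, h1 ^ i ∈ I := fun i => I.pow_mem h1I i
  have hε1 : V.valuation (h1 u - u) = 1 := by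
    refine le_antisymm (v_le.2 (h.ε h1 h1I)) ?_
    by_contra hcon
    exact h1N (h.mem h1 h1I (not_le.1 hcon))
  obtain ⟨U, zU, hUF, hU, hzU, hUe⟩ := hlp.norm (h1 := h1)
    (fun σ hσ => hcomm σ (hNI hσ) h1 h1I) (fun i => h.ε _ (hσp i)) p hp1
  obtain ⟨w0, hw0F, hw0⟩ := hw
  have hw00 : w0 ≠ 0 := by
    intro h0
    rw [h0, map_zero, zero_add] at hw0
    exact zero_ne_one hw0
  obtain ⟨n0, c0, z0, hc0, hz0, e0⟩ := hlp.lt w0 hw0F hw00
  obtain ⟨w, n, c, z, hwF, hw1, hc, hz, e, hn⟩ := hlp.red p hk hUF hU hzU hUe n0.toNat w0 hw0F hw0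
    ⟨n0, c0, z0, by omega, hc0, hz0, e0⟩
  have hzF := hlp.zF hwF e
  have hvw : V.valuation w = V.valuation u ^ n := by rw [e, hlp.v_mul hk hc hz]
  -- the exponent is 1
  have hnpos : 0 < n := by
    by_contra hcon
    push Not at hcon
    have h2 : w ∈ V := by
      rw [← v_le, hvw]
      exact zpow_le_one_of_nonpos₀ hlp.uV.le hcon
    have h3 := hlp.triv hk hIV h1I hwF h2
    rw [hw1, add_sub_cancel_left, map_one] at h3
    exact lt_irrefl _ h3
  have hn1 : n = 1 := by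
    by_contra hne
    apply hn
    refine ⟨hnpos, ?_⟩
    refine hlp.dvd p hk h1 (hIV h1 h1I) hε1 hc hz hzF ?_
    rw [← e, hw1, add_sub_cancel_left, map_one]
    exact one_lt_zpow₀ hlp.uV (by omega)
  subst hn1
  rw [zpow_one] at hvw
  have hw2 : w = algebraMap k E c * u + z := by
    rw [e, zpow_one, mul_add, ← mul_assoc, mul_inv_cancel₀ hu, one_mul, mul_comm]
  set u' := w ^ p - w with hu'
  have hvu' : V.valuation u' = V.valuation u ^ p := by
    have h2 : u' = w ^ p + (-w) := by rw [hu']; ring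
    rw [h2, Valuation.map_add_eq_of_lt_left, map_pow, hvw]
    rw [Valuation.map_neg, map_pow, hvw]
    calc V.valuation u = V.valuation u ^ 1 := (pow_one _).symm
      _ < V.valuation u ^ p := pow_lt_pow_right₀ hlp.uV hp.one_lt
  have hu'1 : 1 < V.valuation u' := by
    rw [hvu']
    exact one_lt_pow₀ hlp.uV hp.ne_zero
  have hu'0 : u' ≠ 0 := by
    intro h0
    rw [h0, map_zero] at hu'1
    exact absurd hu'1 (not_lt.2 zero_le)
  have hu'N : FX N u' := (hwF.pow p).sub hwF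
  have hu'h : h1 u' = u' := by
    rw [hu', map_sub, map_pow, hw1, add_pow_char, one_pow]
    ring
  -- the fixed field of the join
  have hFX : ∀ x, FX (N ⊔ Subgroup.zpowers h1) x ↔ FX N x ∧ h1 x = x := by
    intro x
    constructor
    · intro hx
      exact ⟨fun σ hσ => hx σ (Subgroup.mem_sup_left hσ),
        hx h1 (Subgroup.mem_sup_right (Subgroup.mem_zpowers h1))⟩
    · rintro ⟨hx1, hx2⟩ σ hσ
      have h2 : N ⊔ Subgroup.zpowers h1 ≤ MulAction.stabilizer (E ≃ₐ[k] E) x := by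
        rw [sup_le_iff, Subgroup.zpowers_le]
        exact ⟨fun τ hτ => hx1 τ hτ, hx2⟩
      exact h2 hσ
  -- the values
  have hval : ∀ x, FX N x → h1 x = x → x ≠ 0 → ∃ m : ℤ, V.valuation x = V.valuation u' ^ m := by
    intro x hx hx1 hx0
    obtain ⟨n', c', z', hc', hz', e'⟩ := hlp.lt x hx hx0
    have h2 : (p : ℤ) ∣ n' := by
      refine hlp.dvd p hk h1 (hIV h1 h1I) hε1 hc' hz' (hlp.zF hx e') ?_
      rw [← e', hx1, sub_self, map_zero]
      exact zpow_pos (lt_trans zero_lt_one hlp.uV) _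
    obtain ⟨m, rfl⟩ := h2
    refine ⟨m, ?_⟩
    rw [e', hlp.v_mul hk hc' hz', hvu', zpow_mul, zpow_natCast]
  refine ⟨w, hwF, hw1, ⟨(hFX _).2 ⟨hu'N, hu'h⟩, hu'1, ?_⟩, ?_, ?_⟩
  · intro y hy hy0
    obtain ⟨hyN, hyh⟩ := (hFX y).1 hy
    obtain ⟨m, hm⟩ := hval y hyN hyh hy0
    set y' := y * (u' ^ m)⁻¹ with hy'
    have hy'N : FX N y' := hyN.mul (hu'N.zpow m).inv
    have hy'h : h1 y' = y' := by
      rw [hy', map_mul, map_inv₀, map_zpow₀, hu'h, hyh]
    have hvy' : V.valuation y' = 1 := by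
      rw [hy', map_mul, map_inv₀, map_zpow₀, hm, mul_inv_cancel₀]
      exact zpow_ne_zero _ (lt_trans zero_lt_one hu'1).ne'
    obtain ⟨a, z5, hz5, hz5F, e5⟩ := hlp.res hk hy'N (v_le.1 hvy'.le)
    have hlt5 : V.valuation (u⁻¹ * z5) < 1 := v_lt_mul hlp.inv_lt hz5
    have ha : a ≠ 0 := by
      rintro rfl
      rw [e5, map_zero, zero_add] at hvy'
      rw [hvy'] at hlt5
      exact lt_irrefl _ hlt5
    have h6 : u' * (u⁻¹ * z5) ∈ V := by
      by_cases h0 : u⁻¹ * z5 = 0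
      · rw [h0, mul_zero]; exact V.zero_mem
      · have h7 : u⁻¹ * z5 = y' - algebraMap k E a := by rw [e5]; ring
        have h8 : FX N (u⁻¹ * z5) := by rw [h7]; exact hy'N.sub (FX.alg a)
        have h9 : h1 (u⁻¹ * z5) = u⁻¹ * z5 := by
          rw [h7, map_sub, AlgEquiv.commutes, hy'h]
        obtain ⟨m', hm'⟩ := hval _ h8 h9 h0
        have h10 : m' < 0 := by
          by_contra hcon
          push Not at hcon
          rw [hm'] at hlt5
          exact absurd hlt5 (not_lt.2 (one_le_zpow₀ hu'1.le hcon))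
        rw [← v_le, map_mul, hm', ← zpow_one_add₀ (lt_trans zero_lt_one hu'1).ne']
        exact zpow_le_one_of_nonpos₀ hu'1.le (by omega)
    refine ⟨m, a, u' * (u⁻¹ * z5), ha, h6, ?_⟩
    rw [← mul_assoc u'⁻¹, inv_mul_cancel₀ hu'0, one_mul, ← e5, hy', mul_comm y, ← mul_assoc,
      mul_inv_cancel₀ (zpow_ne_zero _ hu'0), one_mul]
  · intro σ hσ
    have h2 : σ u' - u' = (σ w - w) ^ p - (σ w - w) := by
      rw [hu', map_sub, map_pow, sub_pow_char]
      ring
    have h3 : σ w - w ∈ V := by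
      rw [hw2, map_add, map_mul, AlgEquiv.commutes]
      have h4 : algebraMap k E c * σ u + σ z - (algebraMap k E c * u + z) =
          algebraMap k E c * (σ u - u) + (σ z - z) := by ring
      rw [h4]
      exact V.add_mem _ _ (V.mul_mem _ _ (hk c) (h.ε σ hσ)) (V.sub_mem (hIV σ hσ _ hz) hz)
    rw [h2]
    exact V.sub_mem (pow_mem h3 p) h3
  · intro σ hσ hlt
    have h2 : σ u' - u' = (σ w - w) ^ p - (σ w - w) := by
      rw [hu', map_sub, map_pow, sub_pow_char]
      ring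
    have hdiff : ∀ g ∈ I, g w - w = algebraMap k E c * (g u - u) + (g z - z) := by
      intro g hg
      rw [hw2, map_add, map_mul, AlgEquiv.commutes]
      ring
    have h3 : σ w - w ∈ V := by
      rw [hdiff σ hσ]
      exact V.add_mem _ _ (V.mul_mem _ _ (hk c) (h.ε σ hσ)) (V.sub_mem (hIV σ hσ _ hz) hz)
    have hδF : FX N (σ w - w) := by
      refine FX.sub ?_ hwF
      intro τ hτ
      have h4 : τ (σ w) = (τ * σ) w := rfl
      rw [h4, hcomm τ (hNI hτ) σ hσ]
      change σ (τ w) = σ w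
      rw [hwF τ hτ]
    obtain ⟨d, z', hz', hz'F, e'⟩ := hlp.res hk hδF h3
    have hlt' : V.valuation (u⁻¹ * z') < 1 := v_lt_mul hlp.inv_lt hz'
    have hd : d ^ p - d = 0 := by
      by_contra hne
      have h4 : (σ w - w) ^ p - (σ w - w) = algebraMap k E (d ^ p - d) +
          ((u⁻¹ * z') ^ p - u⁻¹ * z') := by
        rw [e', add_pow_char, map_sub, map_pow]
        ring
      have h5 : V.valuation ((u⁻¹ * z') ^ p - u⁻¹ * z') < 1 := by
        refine v_sub_lt ?_ hlt'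
        rw [map_pow]
        exact pow_lt_one₀ zero_le hlt' hp.ne_zero
      have h6 := v_add (v_k hk hne) h5
      rw [← h4, ← h2] at h6
      rw [h6] at hlt
      exact lt_irrefl _ hlt
    obtain ⟨γ, hγ⟩ := exists_zc p (x := d) (by linear_combination hd)
    -- the correction
    have hpow : ∀ j : ℕ, (h1 ^ j) w = w + j := by
      intro j
      induction j with
      | zero => simp
      | succ j ih =>
        rw [pow_succ]
        change (h1 ^ j) (h1 w) = _
        rw [hw1, map_add, ih, map_one]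
        push_cast
        ring
    let j := γ.val
    have hdj : d = (j : k) := by
      have h4 : (γ : ZMod p) = (j : ZMod p) := (ZMod.natCast_zmod_val γ).symm
      rw [← hγ, h4, map_natCast]
    set g0 := (h1 ^ j)⁻¹ with hg0
    have hg0I : g0 ∈ I := I.inv_mem (hσp j)
    have hg0w : g0 w = w - j := by
      have h4 : (h1 ^ j) (w - j) = w := by
        rw [map_sub, hpow, map_natCast]
        ring
      have h5 : g0 ((h1 ^ j) (w - j)) = w - j := (h1 ^ j).symm_apply_apply _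
      rwa [h4] at h5
    set g := g0 * σ with hg
    have hgI : g ∈ I := I.mul_mem hg0I hσ
    have hgw : V.valuation (g w - w) < 1 := by
      have h4 : g w = w - j + g0 (σ w - w) := by
        have h5 : σ w = w + (σ w - w) := by ring
        change g0 (σ w) = _
        rw [h5, map_add, hg0w]
        simp
      have h6 : g w - w = (g0 (σ w - w) - (σ w - w)) + u⁻¹ * z' := by
        rw [h4]
        have h7 : algebraMap k E d = (j : E) := by rw [hdj, map_natCast]
        rw [e', h7, map_add, map_natCast]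
        ring
      rw [h6]
      exact Valuation.map_add_lt _ (hlp.triv hk hIV hg0I hδF h3) hlt'
    have hgu : V.valuation (g u - u) < 1 := by
      have h4 := hdiff g hgI
      have h5 : algebraMap k E c * (g u - u) = (g w - w) - (g z - z) := by
        rw [h4]; ring
      have h6 : V.valuation (algebraMap k E c * (g u - u)) < 1 := by
        rw [h5]
        exact v_sub_lt hgw (hlp.triv hk hIV hgI hzF hz)
      rwa [map_mul, v_k hk hc, one_mul] at h6
    have hgN := h.mem g hgI hgu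
    have h7 : σ = h1 ^ j * g := by
      rw [hg, hg0, ← mul_assoc, mul_inv_cancel, one_mul]
    rw [h7]
    exact Subgroup.mul_mem _ (Subgroup.mem_sup_right (Subgroup.pow_mem _
      (Subgroup.mem_zpowers h1) j)) (Subgroup.mem_sup_left hgN)

end step

end Pool.Agent.Zk10.Ram
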