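import Pool.Agent.Zk10.R2

/-!
Weakly ramified actions on discretely valued fields: Artin-Schreier generators.
-/

set_option autoImplicit false
set_option linter.unusedVariables false
set_option linter.unusedSectionVars false

universe u

namespace Pool.Agent.Zk10.Ram

open Pool.Agent.W558 Pool.Agent.W435.WT.Gal

section h90

variable {k E : Type u} [Field k] [Field E] [Algebra k E] (p : ℕ) [Fact p.Prime] [CharP E p]

lemma zc_fix (σ : E ≃ₐ[k] E) (c : ZMod p) : σ (zc p E c) = zc p E c :=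
  RingHom.congr_fun (RingHom.ext_zmod ((σ : E →+* E).comp (zc p E)) (zc p E)) c

/-- The elements of a finite group of automorphisms are linearly independent. -/
lemma exists_trace (I : Subgroup (E ≃ₐ[k] E)) [Fintype I] : ∃ θ : E, ∑ σ : I, σ.1 θ ≠ 0 := by
  by_contra hcon
  push Not at hcon
  have h1 := linearIndependent_monoidHom E E
  let f : I → (E →* E) := fun σ => ((σ.1 : E →+* E) : E →* E)
  have hf : Function.Injective f := by
    intro σ τ h
    apply Subtype.ext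
    apply AlgEquiv.ext
    intro x
    exact DFunLike.congr_fun h x
  have h2 := h1.comp f hf
  rw [Fintype.linearIndependent_iff] at h2
  have h3 := h2 (fun _ => 1) (by
    funext θ
    rw [Finset.sum_apply]
    simp only [Function.comp, Pi.smul_apply, one_smul, Pi.zero_apply]
    exact hcon θ) 1
  exact one_ne_zero h3

/-- Additive Hilbert 90. -/
theorem h90 (I : Subgroup (E ≃ₐ[k] E)) [Finite I] (lam : (E ≃ₐ[k] E) → ZMod p)
    (hl : ∀ σ ∈ I, ∀ τ ∈ I, lam (σ * τ) = lam σ + lam τ) :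
    ∃ w : E, ∀ σ ∈ I, σ w = w + zc p E (lam σ) := by
  have : Fintype I := Fintype.ofFinite I
  obtain ⟨θ, hθ⟩ := exists_trace (k := k) I
  set T := ∑ σ : I, σ.1 θ with hT
  have hTf : ∀ g ∈ I, g T = T := by
    intro g hg
    rw [hT, map_sum]
    exact Fintype.sum_equiv (Equiv.mulLeft (⟨g, hg⟩ : I)) _ _ fun σ => rfl
  refine ⟨-(T⁻¹ * ∑ σ : I, zc p E (lam σ.1) * σ.1 θ), ?_⟩
  intro g hg
  have h1 : g (∑ σ : I, zc p E (lam σ.1) * σ.1 θ) =
      ∑ σ : I, zc p E (lam σ.1) * σ.1 θ - zc p E (lam g) * T := by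
    have h2 : g (∑ σ : I, zc p E (lam σ.1) * σ.1 θ) =
        ∑ σ : I, zc p E (lam σ.1) * (g * σ.1) θ := by
      rw [map_sum]
      refine Finset.sum_congr rfl fun σ _ => ?_
      rw [map_mul, zc_fix]
      rfl
    have h3 : ∑ σ : I, zc p E (lam σ.1) * (g * σ.1) θ =
        ∑ σ : I, (zc p E (lam σ.1) - zc p E (lam g)) * σ.1 θ := by
      refine Fintype.sum_equiv (Equiv.mulLeft (⟨g, hg⟩ : I)) _ _ fun σ => ?_
      change _ = (zc p E (lam (g * σ.1)) - zc p E (lam g)) * (g * σ.1) θ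
      rw [hl g hg σ.1 σ.2, map_add]
      ring
    rw [h2, h3, hT, Finset.mul_sum, ← Finset.sum_sub_distrib]
    exact Finset.sum_congr rfl fun σ _ => by ring
  rw [map_neg, map_mul, map_inv₀, hTf g hg, h1, mul_sub, mul_comm (zc p E (lam g)) T,
    ← mul_assoc, inv_mul_cancel₀ hθ]
  ring

end h90

section theta

variable {k E : Type u} [Field k] [Field E] [Algebra k E] {V : ValuationSubring E}
  {I : Subgroup (E ≃ₐ[k] E)} (p : ℕ) [Fact p.Prime] [CharP k p]

lemma res_unique (hk : ∀ c : k, algebraMap k E c ∈ V) {c d : k} {x : E}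
    (hc : V.valuation (x - algebraMap k E c) < 1) (hd : V.valuation (x - algebraMap k E d) < 1) :
    c = d := by
  by_contra hne
  have h1 : V.valuation (algebraMap k E (c - d)) < 1 := by
    have h2 : algebraMap k E (c - d) = (x - algebraMap k E d) - (x - algebraMap k E c) := by
      rw [map_sub]; ring
    rw [h2]
    exact v_sub_lt hd hc
  rw [v_k hk (sub_ne_zero.2 hne)] at h1
  exact lt_irrefl _ h1

/-- The embedding of the inertia group into the ground field. -/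
lemma WR.theta (hk : ∀ c : k, algebraMap k E c ∈ V) (hIV : ∀ σ ∈ I, ∀ x ∈ V, σ x ∈ V) {u : E}
    (h : WR V I ⊥ u) : ∃ θ : (E ≃ₐ[k] E) → k, (∀ σ ∈ I, ∀ τ ∈ I, θ (σ * τ) = θ σ + θ τ) ∧
      ∀ σ ∈ I, θ σ = 0 → σ = 1 := by
  classical
  have hb : ∀ x : E, FX (⊥ : Subgroup (E ≃ₐ[k] E)) x := by
    intro x σ hσ
    rw [Subgroup.mem_bot] at hσ
    rw [hσ]
    rfl
  have h1 : ∀ σ : E ≃ₐ[k] E, ∃ c : k, σ ∈ I → V.valuation (σ u - u - algebraMap k E c) < 1 := by
    intro σ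
    by_cases hσ : σ ∈ I
    · obtain ⟨c, z, hz, -, e⟩ := h.lp.res hk (hb _) (h.ε σ hσ)
      refine ⟨c, fun _ => ?_⟩
      rw [e, add_sub_cancel_left]
      exact v_lt_mul h.lp.inv_lt hz
    · exact ⟨0, fun h => absurd h hσ⟩
  choose θ hθ using h1
  refine ⟨θ, ?_, ?_⟩
  · intro σ hσ τ hτ
    refine res_unique hk (hθ _ (I.mul_mem hσ hτ)) ?_
    have h2 : (σ * τ) u - u - algebraMap k E (θ σ + θ τ) =
        σ (τ u - u - algebraMap k E (θ τ)) + (σ u - u - algebraMap k E (θ σ)) := by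
      rw [map_sub, map_sub, AlgEquiv.commutes, map_add]
      change σ (τ u) - _ - _ = _
      ring
    rw [h2]
    exact Valuation.map_add_lt _ (v_sigma hIV hσ (hθ τ hτ)) (hθ σ hσ)
  · intro σ hσ h0
    have h2 := hθ σ hσ
    rw [h0, map_zero, sub_zero] at h2
    exact Subgroup.mem_bot.1 (h.mem σ hσ h2)

variable {θ : (E ≃ₐ[k] E) → k} (hθ : ∀ σ ∈ I, ∀ τ ∈ I, θ (σ * τ) = θ σ + θ τ)
  (hθ0 : ∀ σ ∈ I, θ σ = 0 → σ = 1)

include hθ in
lemma theta_one : θ 1 = 0 := by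
  have h := hθ 1 I.one_mem 1 I.one_mem
  rw [one_mul] at h
  simpa using h

include hθ in
lemma theta_inv {σ : E ≃ₐ[k] E} (hσ : σ ∈ I) : θ σ⁻¹ = -θ σ := by
  have h := hθ σ hσ σ⁻¹ (I.inv_mem hσ)
  rw [mul_inv_cancel, theta_one hθ] at h
  exact (neg_eq_of_add_eq_zero_right h.symm).symm

include hθ hθ0 in
lemma theta_inj {σ τ : E ≃ₐ[k] E} (hσ : σ ∈ I) (hτ : τ ∈ I) (h : θ σ = θ τ) : σ = τ := by
  have h1 : θ (σ * τ⁻¹) = 0 := by
    rw [hθ _ hσ _ (I.inv_mem hτ), theta_inv hθ hτ, h, add_neg_cancel]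
  exact mul_inv_eq_one.1 (hθ0 _ (I.mul_mem hσ (I.inv_mem hτ)) h1)

include hθ hθ0 in
lemma theta_comm {σ τ : E ≃ₐ[k] E} (hσ : σ ∈ I) (hτ : τ ∈ I) : σ * τ = τ * σ :=
  theta_inj hθ hθ0 (I.mul_mem hσ hτ) (I.mul_mem hτ hσ) (by
    rw [hθ _ hσ _ hτ, hθ _ hτ _ hσ, add_comm])

include hθ in
lemma theta_pow {σ : E ≃ₐ[k] E} (hσ : σ ∈ I) (n : ℕ) : θ (σ ^ n) = n * θ σ := by
  induction n with
  | zero => rw [pow_zero, theta_one hθ]; simp
  | succ n ih =>
    rw [pow_succ, hθ _ (I.pow_mem hσ n) _ hσ, ih]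
    push_cast
    ring

include hθ hθ0 in
lemma theta_pow_p {σ : E ≃ₐ[k] E} (hσ : σ ∈ I) : σ ^ p = 1 :=
  hθ0 _ (I.pow_mem hσ p) (by rw [theta_pow hθ hσ, CharP.cast_eq_zero, zero_mul])

/-- Linear functionals. -/
lemma exists_functional (W : AddSubgroup k) {a : k} (ha : a ∉ W) :
    ∃ f : k →+ ZMod p, (∀ x ∈ W, f x = 0) ∧ f a = 1 := by
  let _ : Algebra (ZMod p) k := ZMod.algebra k p
  have hnot : a ∉ AddSubgroup.toZModSubmodule p W := ha
  obtain ⟨f, hf1, hf2⟩ := Submodule.exists_dual_map_eq_bot_of_notMem hnot inferInstance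
  refine ⟨((f a)⁻¹ • f).toAddMonoidHom, ?_, ?_⟩
  · intro x hx
    have h1 : f x ∈ (AddSubgroup.toZModSubmodule p W).map f := Submodule.mem_map_of_mem hx
    rw [hf2] at h1
    change (f a)⁻¹ • f x = 0
    rw [(Submodule.mem_bot _).1 h1, smul_zero]
  · change (f a)⁻¹ • f a = 1
    rw [smul_eq_mul, inv_mul_cancel₀ hf1]

include hθ hθ0 in
/-- Characters of the inertia group. -/
lemma exists_lam {N : Subgroup (E ≃ₐ[k] E)} (hN : N ≤ I) {h1 : E ≃ₐ[k] E} (h1I : h1 ∈ I)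
    (h1N : h1 ∉ N) : ∃ lam : (E ≃ₐ[k] E) → ZMod p,
      (∀ σ ∈ I, ∀ τ ∈ I, lam (σ * τ) = lam σ + lam τ) ∧ (∀ σ ∈ N, lam σ = 0) ∧ lam h1 = 1 := by
  let W : AddSubgroup k :=
    { carrier := {x | ∃ σ ∈ N, θ σ = x}
      zero_mem' := ⟨1, N.one_mem, theta_one hθ⟩
      add_mem' := by
        rintro _ _ ⟨σ, hσ, rfl⟩ ⟨τ, hτ, rfl⟩
        exact ⟨σ * τ, N.mul_mem hσ hτ, hθ _ (hN hσ) _ (hN hτ)⟩
      neg_mem' := by
        rintro _ ⟨σ, hσ, rfl⟩
        exact ⟨σ⁻¹, N.inv_mem hσ, theta_inv hθ (hN hσ)⟩ }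
  obtain ⟨f, hf1, hf2⟩ := exists_functional p W (a := θ h1) (by
    rintro ⟨σ, hσ, h⟩
    apply h1N
    rw [← theta_inj hθ hθ0 (hN hσ) h1I h]
    exact hσ)
  refine ⟨fun σ => f (θ σ), ?_, ?_, hf2⟩
  · intro σ hσ τ hτ
    change f (θ (σ * τ)) = f (θ σ) + f (θ τ)
    rw [hθ σ hσ τ hτ, map_add]
  · intro σ hσ
    exact hf1 _ ⟨σ, hσ, rfl⟩

variable [Finite I]

include p in
/-- The data for all subgroups. -/
theorem WR.all (hk : ∀ c : k, algebraMap k E c ∈ V) (hIV : ∀ σ ∈ I, ∀ x ∈ V, σ x ∈ V) {u : E}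
    (h : WR V I ⊥ u) {N : Subgroup (E ≃ₐ[k] E)} (hN : N ≤ I) : ∃ u', WR V I N u' := by
  classical
  have hcE : CharP E p := charP_of_injective_algebraMap (algebraMap k E).injective p
  obtain ⟨θ, hθ, hθ0⟩ := h.theta hk hIV
  have key : ∀ S : Finset (E ≃ₐ[k] E), (∀ s ∈ S, s ∈ I) →
      ∃ u', WR V I (Subgroup.closure (S : Set (E ≃ₐ[k] E))) u' := by
    intro S
    induction S using Finset.induction_on with
    | empty =>
      intro _
      refine ⟨u, ?_⟩
      rw [Finset.coe_empty, Subgroup.closure_empty]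
      exact h
    | insert a S ha ih =>
      intro hS
      obtain ⟨u', hu'⟩ := ih fun s hs => hS s (Finset.mem_insert_of_mem hs)
      have haI : a ∈ I := hS a (Finset.mem_insert_self a S)
      have hle : Subgroup.closure (S : Set (E ≃ₐ[k] E)) ≤ I := by
        rw [Subgroup.closure_le]
        exact fun s hs => hS s (Finset.mem_insert_of_mem hs)
      have heq : Subgroup.closure ((insert a S : Finset (E ≃ₐ[k] E)) : Set (E ≃ₐ[k] E)) =
          Subgroup.closure (S : Set (E ≃ₐ[k] E)) ⊔ Subgroup.zpowers a := by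
        rw [Finset.coe_insert, Set.insert_eq, Subgroup.closure_union, sup_comm,
          Subgroup.zpowers_eq_closure]
      rw [heq]
      by_cases haS : a ∈ Subgroup.closure (S : Set (E ≃ₐ[k] E))
      · refine ⟨u', ?_⟩
        have h2 : Subgroup.closure (S : Set (E ≃ₐ[k] E)) ⊔ Subgroup.zpowers a =
            Subgroup.closure (S : Set (E ≃ₐ[k] E)) := by
          rw [sup_eq_left, Subgroup.zpowers_le]
          exact haS
        rw [h2]
        exact hu'
      · obtain ⟨lam, hl1, hl2, hl3⟩ := exists_lam p hθ hθ0 hle haI haS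
        obtain ⟨w, hw⟩ := h90 p I lam hl1
        obtain ⟨w', -, -, h3⟩ := hu'.step p hk hIV
          (fun σ hσ τ hτ => theta_comm hθ hθ0 hσ hτ) hle haI haS
          (by
            rw [theta_pow_p p hθ hθ0 haI]
            exact Subgroup.one_mem _) ⟨w, fun σ hσ => by
              rw [hw σ (hle hσ), hl2 σ hσ, map_zero, add_zero], by
              rw [hw a haI, hl3, map_one]⟩
        exact ⟨_, h3⟩
  have hfin : (N : Set (E ≃ₐ[k] E)).Finite := by
    have h2 : Finite (I : Set (E ≃ₐ[k] E)) := by assumption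
    exact (Set.toFinite (I : Set (E ≃ₐ[k] E))).subset hN
  obtain ⟨u', hu'⟩ := key hfin.toFinset (fun s hs => hN (by simpa using hs))
  refine ⟨u', ?_⟩
  rw [hfin.coe_toFinset, Subgroup.closure_eq] at hu'
  exact hu'

/-- The Artin-Schreier generators for a weakly ramified point. -/
theorem WR.gen (hk : ∀ c : k, algebraMap k E c ∈ V) (hIV : ∀ σ ∈ I, ∀ x ∈ V, σ x ∈ V) {u : E}
    (h : WR V I ⊥ u) [CharP E p] (lam : (E ≃ₐ[k] E) → ZMod p)
    (hl : ∀ σ ∈ I, ∀ τ ∈ I, lam (σ * τ) = lam σ + lam τ) :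
    ∃ w : E, (∀ σ ∈ I, σ w = w + zc p E (lam σ)) ∧ ∀ b : E, FX I b → b ∉ V →
      (∀ x, FX I x → V.valuation x < 1 → x * b ∈ V) →
      ∃ c : k, w ^ p - w - algebraMap k E c * b ∈ V := by
  classical
  have hp : p.Prime := Fact.out
  obtain ⟨θ, hθ, hθ0⟩ := h.theta hk hIV
  by_cases h0 : ∀ σ ∈ I, lam σ = 0
  · refine ⟨0, fun σ hσ => by rw [map_zero, h0 σ hσ, map_zero, add_zero], fun b _ _ _ =>
      ⟨0, ?_⟩⟩
    rw [zero_pow hp.ne_zero, map_zero]
    simp only [sub_zero, zero_mul]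
    exact V.zero_mem
  push Not at h0
  obtain ⟨σ0, hσ0, hl0⟩ := h0
  have hl1 : lam 1 = 0 := by
    have h := hl 1 I.one_mem 1 I.one_mem
    rw [one_mul] at h
    simpa using h
  have hlinv : ∀ σ ∈ I, lam σ⁻¹ = -lam σ := by
    intro σ hσ
    have h := hl σ hσ σ⁻¹ (I.inv_mem hσ)
    rw [mul_inv_cancel, hl1] at h
    exact (neg_eq_of_add_eq_zero_right h.symm).symm
  have hlpow : ∀ σ ∈ I, ∀ n : ℕ, lam (σ ^ n) = n * lam σ := by
    intro σ hσ n
    induction n with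
    | zero => rw [pow_zero, hl1]; simp
    | succ n ih =>
      rw [pow_succ, hl _ (I.pow_mem hσ n) _ hσ, ih]
      push_cast
      ring
  let N : Subgroup (E ≃ₐ[k] E) :=
    { carrier := {σ | σ ∈ I ∧ lam σ = 0}
      one_mem' := ⟨I.one_mem, hl1⟩
      mul_mem' := by
        rintro σ τ ⟨h1, h2⟩ ⟨h3, h4⟩
        exact ⟨I.mul_mem h1 h3, by rw [hl _ h1 _ h3, h2, h4, add_zero]⟩
      inv_mem' := by
        rintro σ ⟨h1, h2⟩
        exact ⟨I.inv_mem h1, by rw [hlinv _ h1, h2, neg_zero]⟩ }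
  have hNI : N ≤ I := fun σ hσ => hσ.1
  -- an element with value 1
  let m := ((lam σ0)⁻¹).val
  let h1 := σ0 ^ m
  have h1I : h1 ∈ I := I.pow_mem hσ0 m
  have hlh1 : lam h1 = 1 := by
    change lam (σ0 ^ m) = 1
    rw [hlpow _ hσ0]
    change ((((lam σ0)⁻¹).val : ℕ) : ZMod p) * lam σ0 = 1
    rw [ZMod.natCast_zmod_val, inv_mul_cancel₀ hl0]
  have h1N : h1 ∉ N := by
    rintro ⟨-, h2⟩
    rw [hlh1] at h2
    exact one_ne_zero h2
  obtain ⟨u', hu'⟩ := h.all p hk hIV hNI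
  obtain ⟨w0, hw0⟩ := h90 p I lam hl
  obtain ⟨w, hwF, hw1, hwr⟩ := hu'.step p hk hIV (fun σ hσ τ hτ => theta_comm hθ hθ0 hσ hτ) hNI
    h1I h1N (by
      rw [theta_pow_p p hθ hθ0 h1I]
      exact N.one_mem) ⟨w0, fun σ hσ => by
        rw [hw0 σ (hNI hσ), hσ.2, map_zero, add_zero], by
        rw [hw0 h1 h1I, hlh1, map_one]⟩
  have hdec : ∀ σ ∈ I, ∃ τ ∈ N, σ = h1 ^ (lam σ).val * τ := by
    intro σ hσ
    refine ⟨(h1 ^ (lam σ).val)⁻¹ * σ, ⟨I.mul_mem (I.inv_mem (I.pow_mem h1I _)) hσ, ?_⟩, ?_⟩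
    · rw [hl _ (I.inv_mem (I.pow_mem h1I _)) _ hσ, hlinv _ (I.pow_mem h1I _), hlpow _ h1I, hlh1,
        mul_one, ZMod.natCast_zmod_val, neg_add_cancel]
    · rw [← mul_assoc, mul_inv_cancel, one_mul]
  have hpow : ∀ j : ℕ, (h1 ^ j) w = w + j := by
    intro j
    induction j with
    | zero => simp
    | succ j ih =>
      rw [pow_succ]
      change (h1 ^ j) (h1 w) = _
      rw [hw1, map_add, ih, map_one]
      push_cast
      ring
  refine ⟨w, ?_, ?_⟩
  · intro σ hσ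
    obtain ⟨τ, hτ, e⟩ := hdec σ hσ
    have h2 : σ w = (h1 ^ (lam σ).val) (τ w) := by
      conv_lhs => rw [e]
      rfl
    rw [h2, hwF τ hτ, hpow]
    congr 1
    have h3 : zc p E (lam σ) = zc p E (((lam σ).val : ℕ) : ZMod p) := by
      rw [ZMod.natCast_zmod_val]
    rw [h3, map_natCast]
  · intro b hbF hbV hb
    have hIN : I = N ⊔ Subgroup.zpowers h1 := by
      apply le_antisymm
      · intro σ hσ
        obtain ⟨τ, hτ, e⟩ := hdec σ hσ
        rw [e]
        exact Subgroup.mul_mem _ (Subgroup.mem_sup_right (Subgroup.pow_mem _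
          (Subgroup.mem_zpowers h1) _)) (Subgroup.mem_sup_left hτ)
      · rw [sup_le_iff, Subgroup.zpowers_le]
        exact ⟨hNI, h1I⟩
    rw [← hIN] at hwr
    have hlp := hwr.lp
    have hb0 : b ≠ 0 := by
      rintro rfl
      exact hbV V.zero_mem
    obtain ⟨m, a, z, ha, hz, e⟩ := hlp.lt b hbF hb0
    have hvb := hlp.v_mul hk ha hz (n := m)
    rw [← e] at hvb
    have hm1 : 0 < m := by
      by_contra hcon
      push Not at hcon
      apply hbV
      rw [← v_le, hvb]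
      exact zpow_le_one_of_nonpos₀ hlp.uV.le hcon
    have hm2 : m ≤ 1 := by
      have h2 := hb _ hlp.uF.inv hlp.inv_lt
      rw [← v_le, map_mul, hvb, map_inv₀] at h2
      have h3 : (V.valuation (w ^ p - w))⁻¹ * V.valuation (w ^ p - w) ^ m =
          V.valuation (w ^ p - w) ^ (m - 1) := by
        rw [zpow_sub_one₀ (lt_trans zero_lt_one hlp.uV).ne', mul_comm]
      rw [h3] at h2
      by_contra hcon
      push Not at hcon
      exact absurd (one_lt_zpow₀ hlp.uV (by omega : 0 < m - 1)) (not_lt.2 h2)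
    obtain rfl : m = 1 := by omega
    refine ⟨a⁻¹, ?_⟩
    have h4 : w ^ p - w - algebraMap k E a⁻¹ * b = -(algebraMap k E a⁻¹ * z) := by
      have h5 : b = algebraMap k E a * (w ^ p - w) + z := by
        conv_lhs => rw [e]
        rw [zpow_one, mul_add, ← mul_assoc, mul_inv_cancel₀ hlp.u0, one_mul, mul_comm]
      rw [h5, mul_add, ← mul_assoc, ← map_mul, inv_mul_cancel₀ ha, map_one, one_mul]
      ring
    rw [h4]
    exact V.neg_mem _ (V.mul_mem _ _ (hk _) hz)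

end theta

end Pool.Agent.Zk10.Ram
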