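import Pool.Agent.Zk10.R3

/-!
Dedekind domains and valuation rings.
-/

set_option autoImplicit false
set_option linter.unusedVariables false
set_option linter.unusedSectionVars false

universe u

namespace Pool.Agent.Zk10.Ram

open Pool.Agent.W558 Pool.Agent.W435.WT.Gal nonZeroDivisors

section ded

variable {k E : Type u} [Field k] [Field E] [Algebra k E] (D : Subalgebra k E)
  [IsDedekindDomain D] [IsFractionRing D E]

/-- Nonzero ideals are invertible. -/
lemma inv_gen (I : Ideal D) (hI : I ≠ ⊥) : ∃ (ι : Type) (_ : Fintype ι) (y z : ι → E),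
    (∀ b, ∃ h : y b ∈ D, (⟨y b, h⟩ : D) ∈ I) ∧ (∀ b, ∀ a ∈ I, (a : E) * z b ∈ D) ∧
      ∑ b, y b * z b = 1 := by
  let J : FractionalIdeal D⁰ E := (I : FractionalIdeal D⁰ E)
  have hJ : J ≠ 0 := FractionalIdeal.coeIdeal_ne_zero.2 hI
  have h1 : J * J⁻¹ = 1 := mul_inv_cancel₀ hJ
  have hmem : ∀ x ∈ ((J : Submodule D E) * ((J⁻¹ : FractionalIdeal D⁰ E) : Submodule D E)),
      ∃ (ι : Type) (_ : Fintype ι) (y z : ι → E),
      (∀ b, ∃ h : y b ∈ D, (⟨y b, h⟩ : D) ∈ I) ∧ (∀ b, ∀ a ∈ I, (a : E) * z b ∈ D) ∧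
      ∑ b, y b * z b = x := by
    intro x hx
    induction hx using Submodule.mul_induction_on' with
    | mem_mul_mem m hm n hn =>
      obtain ⟨a, ha, rfl⟩ := (FractionalIdeal.mem_coeIdeal D⁰).1 hm
      refine ⟨Unit, inferInstance, fun _ => (a : E), fun _ => n, fun _ => ⟨a.2, ha⟩, ?_, ?_⟩
      · intro _ b hb
        have h2 : (b : E) * n ∈ J * J⁻¹ :=
          FractionalIdeal.mul_mem_mul (FractionalIdeal.mem_coeIdeal_of_mem D⁰ hb) hn
        rw [h1, FractionalIdeal.mem_one_iff] at h2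
        obtain ⟨c, hc⟩ := h2
        rw [← hc]
        exact c.2
      · simp
    | add x hx y hy h2 h3 =>
      obtain ⟨ι1, f1, y1, z1, h4, h5, h6⟩ := h2
      obtain ⟨ι2, f2, y2, z2, h7, h8, h9⟩ := h3
      refine ⟨ι1 ⊕ ι2, inferInstance, Sum.elim y1 y2, Sum.elim z1 z2, ?_, ?_, ?_⟩
      · rintro (b | b)
        · exact h4 b
        · exact h7 b
      · rintro (b | b)
        · exact h5 b
        · exact h8 b
      · rw [Fintype.sum_sum_type]
        simp only [Sum.elim_inl, Sum.elim_inr]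
        rw [h6, h9]
  have h2 : (1 : E) ∈ ((J : Submodule D E) * ((J⁻¹ : FractionalIdeal D⁰ E) : Submodule D E)) := by
    rw [← FractionalIdeal.coe_mul, h1]
    exact FractionalIdeal.one_mem_one D⁰
  exact hmem 1 h2

/-- Any two elements of the field are comparable, locally. -/
lemma exists_cmp (x : E) : ∃ a ∈ D, ∃ b ∈ D, a + b = 1 ∧ a * x ∈ D ∧ b * x⁻¹ ∈ D := by
  by_cases hx : x = 0
  · refine ⟨1, D.one_mem, 0, D.zero_mem, by ring, ?_, ?_⟩
    · rw [hx, mul_zero]; exact D.zero_mem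
    · rw [zero_mul]; exact D.zero_mem
  obtain ⟨c, d, hd, hcd⟩ := IsFractionRing.div_surjective (A := D) x
  have hd0 : (d : E) ≠ 0 := by
    intro h0
    exact nonZeroDivisors.ne_zero hd (Subtype.ext h0)
  have hcd' : x = (c : E) / d := hcd.symm
  have hc0 : (c : E) ≠ 0 := by
    intro h0
    apply hx
    rw [hcd', h0, zero_div]
  have hdI : d ∈ Ideal.span {c, d} := Ideal.subset_span (by simp)
  have hcI : c ∈ Ideal.span {c, d} := Ideal.subset_span (by simp)
  obtain ⟨ι, hι, y, z, hy, hz, hsum⟩ := inv_gen D (Ideal.span {c, d}) (by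
    intro h0
    rw [h0, Ideal.mem_bot] at hdI
    exact nonZeroDivisors.ne_zero hd hdI)
  choose hyD hyI using hy
  choose α β hαβ using fun b => Ideal.mem_span_pair.1 (hyI b)
  have hyb : ∀ b, y b = (α b : E) * c + (β b : E) * d := fun b => by
    have := congrArg Subtype.val (hαβ b)
    exact this.symm
  refine ⟨∑ b, (β b : E) * (d * z b), D.sum_mem fun b _ => D.mul_mem (β b).2 (hz b d hdI),
    ∑ b, (α b : E) * (c * z b), D.sum_mem fun b _ => D.mul_mem (α b).2 (hz b c hcI), ?_, ?_, ?_⟩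
  · rw [← Finset.sum_add_distrib, ← hsum]
    refine Finset.sum_congr rfl fun b _ => ?_
    rw [hyb]
    ring
  · have h1 : (∑ b, (β b : E) * (d * z b)) * x = ∑ b, (β b : E) * (c * z b) := by
      rw [Finset.sum_mul]
      refine Finset.sum_congr rfl fun b _ => ?_
      rw [hcd']
      field_simp
    rw [h1]
    exact D.sum_mem fun b _ => D.mul_mem (β b).2 (hz b c hcI)
  · have h1 : (∑ b, (α b : E) * (c * z b)) * x⁻¹ = ∑ b, (α b : E) * (d * z b) := by
      rw [Finset.sum_mul]
      refine Finset.sum_congr rfl fun b _ => ?_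
      rw [hcd', inv_div]
      field_simp
    rw [h1]
    exact D.sum_mem fun b _ => D.mul_mem (α b).2 (hz b d hdI)

variable {D} {V : ValuationSubring E} (hDV : ∀ x ∈ D, x ∈ V)

include hDV in
/-- The valuation ring is a localization. -/
lemma exists_loc {x : E} (hx : x ∈ V) : ∃ s ∈ D, V.valuation s = 1 ∧ s * x ∈ D := by
  obtain ⟨a, ha, b, hb, hab, h1, h2⟩ := exists_cmp D x
  rcases (v_le.2 (hDV a ha)).lt_or_eq with hlt | heq
  · have hb1 : V.valuation b = 1 := by
      have h3 : b = 1 + (-a) := by rw [← hab]; ring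
      rw [h3]
      exact v_add (map_one _) (by rwa [Valuation.map_neg])
    by_cases hx0 : x = 0
    · exact ⟨1, D.one_mem, map_one _, by rw [hx0, mul_zero]; exact D.zero_mem⟩
    have h4 : V.valuation (b * x⁻¹) = 1 := by
      apply le_antisymm (v_le.2 (hDV _ h2))
      rw [map_mul, hb1, one_mul, map_inv₀]
      exact (one_le_inv₀ (zero_lt_iff.2 ((Valuation.ne_zero_iff _).2 hx0))).2 (v_le.2 hx)
    refine ⟨b * x⁻¹, h2, h4, ?_⟩
    rw [mul_assoc, inv_mul_cancel₀ hx0, mul_one]
    exact hb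
  · exact ⟨a, ha, heq, h1⟩

variable (hV : V ≠ ⊤) (hres : ∀ x ∈ D, ∃ c : k, V.valuation (x - algebraMap k E c) < 1)

include hDV hres in
/-- The residue field is the ground field. -/
lemma exists_res {x : E} (hx : x ∈ V) : ∃ c : k, V.valuation (x - algebraMap k E c) < 1 := by
  have hk : ∀ c : k, algebraMap k E c ∈ V := fun c => hDV _ (D.algebraMap_mem c)
  obtain ⟨s, hs, hs1, hsx⟩ := exists_loc hDV hx
  obtain ⟨c, hc⟩ := hres _ hsx
  obtain ⟨d, hd⟩ := hres s hs
  have hd0 : d ≠ 0 := by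
    rintro rfl
    rw [map_zero, sub_zero, hs1] at hd
    exact lt_irrefl _ hd
  refine ⟨c / d, ?_⟩
  have hs0 : s ≠ 0 := by
    rintro rfl
    rw [map_zero] at hs1
    exact zero_ne_one hs1
  have hd0' : algebraMap k E d ≠ 0 := (_root_.map_ne_zero _).2 hd0
  have h1 : x - algebraMap k E (c / d) = (s⁻¹ * (algebraMap k E d)⁻¹) *
      (algebraMap k E d * (s * x - algebraMap k E c) - algebraMap k E c * (s - algebraMap k E d)) := by
    rw [map_div₀]
    field_simp
    ring
  rw [h1, mul_comm]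
  refine v_lt_mul (v_sub_lt ?_ ?_) (V.mul_mem _ _ (v_inv_mem hs1) (v_inv_mem (v_k hk hd0)))
  · rw [mul_comm]; exact v_lt_mul hc (hk d)
  · rw [mul_comm]; exact v_lt_mul hd (hk c)

include hDV hV hres in
/-- The uniformizer. -/
theorem exists_unif : ∃ t : E, t ≠ 0 ∧ V.valuation t < 1 ∧ ∀ x : E, x ≠ 0 →
    ∃ (n : ℤ) (c : k) (z : E), c ≠ 0 ∧ z ∈ V ∧ x = t ^ n * (algebraMap k E c + t * z) := by
  have hk : ∀ c : k, algebraMap k E c ∈ V := fun c => hDV _ (D.algebraMap_mem c)
  let j : D →+* V :=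
    { toFun := fun a => ⟨a, hDV a a.2⟩
      map_one' := rfl
      map_mul' := fun a b => rfl
      map_zero' := rfl
      map_add' := fun a b => rfl }
  let _ : Algebra D V := j.toAlgebra
  let P : Ideal D := (IsLocalRing.maximalIdeal V).comap j
  have hP : ∀ x : D, x ∈ P ↔ V.valuation (x : E) < 1 := by
    intro x
    change j x ∈ IsLocalRing.maximalIdeal V ↔ _
    rw [ValuationSubring.valuation_lt_one_iff]
    rfl
  have hPp : P.IsPrime := Ideal.IsPrime.comap j
  have hP0 : P ≠ ⊥ := by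
    intro h0
    apply hV
    rw [eq_top_iff]
    intro x _
    obtain ⟨a, b, hb, rfl⟩ := IsFractionRing.div_surjective (A := D) x
    have hb0 := nonZeroDivisors.ne_zero hb
    have h1 : V.valuation (b : E) = 1 := by
      refine le_antisymm (v_le.2 (hDV b b.2)) ?_
      by_contra hcon
      have h2 : b ∈ P := (hP b).2 (not_le.1 hcon)
      rw [h0, Ideal.mem_bot] at h2
      exact hb0 h2
    change (a : E) / (b : E) ∈ V
    rw [div_eq_mul_inv]
    exact V.mul_mem _ _ (hDV a a.2) (v_inv_mem h1)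
  have hloc : IsLocalization.AtPrime V P := by
    refine (isLocalization_iff _ _).2 ⟨?_, ?_, ?_⟩
    · rintro ⟨y, hy⟩
      have h1 : V.valuation (y : E) = 1 := by
        refine le_antisymm (v_le.2 (hDV y y.2)) ?_
        by_contra hcon
        exact hy ((hP y).2 (not_le.1 hcon))
      refine IsUnit.of_mul_eq_one (⟨(y : E)⁻¹, v_inv_mem h1⟩ : V) ?_
      apply Subtype.ext
      change (y : E) * (y : E)⁻¹ = 1
      refine mul_inv_cancel₀ ?_
      intro h0
      rw [h0, map_zero] at h1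
      exact zero_ne_one h1
    · rintro ⟨x, hx⟩
      obtain ⟨s, hs, hs1, hsx⟩ := exists_loc hDV hx
      refine ⟨(⟨s * x, hsx⟩, ⟨⟨s, hs⟩, ?_⟩), ?_⟩
      · intro h0
        have h2 := (hP ⟨s, hs⟩).1 h0
        change V.valuation s < 1 at h2
        rw [hs1] at h2
        exact lt_irrefl _ h2
      · apply Subtype.ext
        change x * s = s * x
        exact mul_comm _ _
    · intro a b hab
      refine ⟨1, ?_⟩
      have h1 : (a : E) = b := congrArg (Subtype.val : V → E) hab
      rw [Subtype.ext h1]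
  have hdvr : IsDiscreteValuationRing V :=
    IsLocalization.AtPrime.isDiscreteValuationRing_of_dedekind_domain D hP0 V
  obtain ⟨t, ht⟩ := IsDiscreteValuationRing.exists_irreducible V
  have htlt : V.valuation (t : E) < 1 := by
    rw [← ValuationSubring.valuation_lt_one_iff, IsLocalRing.mem_maximalIdeal]
    exact ht.not_isUnit
  have ht0 : (t : E) ≠ 0 := fun h0 => ht.ne_zero (Subtype.ext h0)
  have hdiv : ∀ x : E, V.valuation x < 1 → ∃ z ∈ V, x = t * z := by
    intro x hx
    have hxV := v_lt_mem hx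
    have h1 : (⟨x, hxV⟩ : V) ∈ IsLocalRing.maximalIdeal V := by
      rw [ValuationSubring.valuation_lt_one_iff]
      exact hx
    rw [ht.maximalIdeal_eq, Ideal.mem_span_singleton'] at h1
    obtain ⟨z, hz⟩ := h1
    refine ⟨z, z.2, ?_⟩
    have h2 := congrArg (Subtype.val : V → E) hz
    rw [mul_comm]
    exact h2.symm
  have key : ∀ x : E, x ≠ 0 → x ∈ V → ∃ (n : ℕ) (c : k) (z : E), c ≠ 0 ∧ z ∈ V ∧
      x = (t : E) ^ n * (algebraMap k E c + t * z) := by
    intro x hx0 hxV
    obtain ⟨n, y, hy⟩ := IsDiscreteValuationRing.eq_unit_mul_pow_irreducible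
      (x := (⟨x, hxV⟩ : V)) (fun h0 => hx0 (congrArg Subtype.val h0)) ht
    have hyv : V.valuation ((y : V) : E) = 1 := (V.valuation_eq_one_iff _).1 y.isUnit
    obtain ⟨c, hc⟩ := exists_res hDV hres (y : V).2
    have hc0 : c ≠ 0 := by
      rintro rfl
      rw [map_zero, sub_zero, hyv] at hc
      exact lt_irrefl _ hc
    obtain ⟨z, hz, hze⟩ := hdiv _ hc
    refine ⟨n, c, z, hc0, hz, ?_⟩
    have h2 : x = ((y : V) : E) * (t : E) ^ n := congrArg (Subtype.val : V → E) hy
    rw [h2, mul_comm, ← hze]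
    ring
  refine ⟨t, ht0, htlt, ?_⟩
  intro x hx0
  rcases V.mem_or_inv_mem x with hx | hx
  · obtain ⟨n, c, z, hc, hz, e⟩ := key x hx0 hx
    exact ⟨n, c, z, hc, hz, by rw [zpow_natCast]; exact e⟩
  · obtain ⟨n, c, z, hc, hz, e⟩ := key x⁻¹ (inv_ne_zero hx0) hx
    have hcE : algebraMap k E c ≠ 0 := (_root_.map_ne_zero _).2 hc
    have hv1 : V.valuation (algebraMap k E c + t * z) = 1 := v_add (v_k hk hc) (v_lt_mul htlt hz)
    have hne : algebraMap k E c + t * z ≠ 0 := by
      intro h0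
      rw [h0, map_zero] at hv1
      exact zero_ne_one hv1
    refine ⟨-n, c⁻¹, -((algebraMap k E c)⁻¹ * z * (algebraMap k E c + t * z)⁻¹),
      inv_ne_zero hc, ?_, ?_⟩
    · exact V.neg_mem _ (V.mul_mem _ _ (V.mul_mem _ _ (v_inv_mem (v_k hk hc)) hz) (v_inv_mem hv1))
    · have h3 : x = ((t : E) ^ n * (algebraMap k E c + t * z))⁻¹ := by rw [← e, inv_inv]
      rw [h3, mul_inv, zpow_neg, zpow_natCast, map_inv₀]
      congr 1
      field_simp
      ring

end ded

end Pool.Agent.Zk10.Ram
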