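import Pool.Agent.Zk10.R4

/-!
The local theory at a point of a curve.
-/

set_option autoImplicit false
set_option linter.unusedVariables false
set_option linter.unusedSectionVars false

universe u

namespace Pool.Agent.Zk10.Ram

open Pool.Agent.W558 Pool.Agent.W435.WT.Gal nonZeroDivisors

section coset

/-- Transversals. -/
lemma exists_transversal {G : Type*} [Group G] [Finite G] (K : Subgroup G) :
    ∃ T : Finset G, 1 ∈ T ∧ (∀ γ ∈ T, γ ∈ K → γ = 1) ∧
      ∀ (M : Type u) [AddCommMonoid M] (φ : G → M), (∀ γ, ∀ ι ∈ K, φ (γ * ι) = φ γ) →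
        ∀ g, ∑ γ ∈ T, φ (g * γ) = ∑ γ ∈ T, φ γ := by
  classical
  have : Fintype (G ⧸ K) := Fintype.ofFinite _
  let f : G ⧸ K → G := fun q => if q = ((1 : G) : G ⧸ K) then 1 else q.out
  have hf : ∀ q, (f q : G ⧸ K) = q := by
    intro q
    change ((if q = ((1 : G) : G ⧸ K) then 1 else q.out : G) : G ⧸ K) = q
    split_ifs with h
    · exact h.symm
    · exact Quotient.out_eq q
  have hinj : Function.Injective f := fun a b h => by rw [← hf a, ← hf b, h]
  refine ⟨Finset.univ.image f, ?_, ?_, ?_⟩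
  · rw [Finset.mem_image]
    exact ⟨((1 : G) : G ⧸ K), Finset.mem_univ _, if_pos rfl⟩
  · intro γ hγ hK
    rw [Finset.mem_image] at hγ
    obtain ⟨q, -, rfl⟩ := hγ
    have h1 : q = ((1 : G) : G ⧸ K) := by
      rw [← hf q, QuotientGroup.eq, mul_one]
      exact K.inv_mem hK
    exact if_pos h1
  · intro M _ φ hφ g
    let φ' : G ⧸ K → M := fun q => Quotient.liftOn' q φ (by
      intro a b hab
      rw [QuotientGroup.leftRel_apply] at hab
      have h1 := hφ a _ hab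
      rw [mul_inv_cancel_left] at h1
      exact h1.symm)
    have hφ' : ∀ γ : G, φ' (γ : G ⧸ K) = φ γ := fun γ => rfl
    rw [Finset.sum_image (fun a _ b _ h => hinj h), Finset.sum_image (fun a _ b _ h => hinj h)]
    have h1 : ∀ q, φ (f q) = φ' q := fun q => by rw [← hφ', hf]
    have h2 : ∀ q, φ (g * f q) = φ' (g • q) := fun q => by
      rw [← hφ']
      congr 1
      have h3 : ((g * f q : G) : G ⧸ K) = g • ((f q : G) : G ⧸ K) := rfl
      rw [h3, hf]
    rw [Finset.sum_congr rfl fun q _ => h1 q, Finset.sum_congr rfl fun q _ => h2 q]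
    exact Fintype.sum_equiv (MulAction.toPerm g) _ _ fun q => rfl

end coset

section wram

variable {k E : Type u} [Field k] [Field E] [Algebra k E] {V : ValuationSubring E}
  (p : ℕ) [Fact p.Prime] [CharP k p]

/-- Weak ramification. -/
theorem WR.of_weak (hk : ∀ c : k, algebraMap k E c ∈ V) {t : E} (ht0 : t ≠ 0)
    (ht : V.valuation t < 1)
    (hlt : ∀ x : E, x ≠ 0 →
      ∃ (n : ℤ) (c : k) (z : E), c ≠ 0 ∧ z ∈ V ∧ x = t ^ n * (algebraMap k E c + t * z))
    {I : Subgroup (E ≃ₐ[k] E)} (hIV : ∀ σ ∈ I, ∀ x ∈ V, σ x ∈ V)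
    (hpI : ∀ σ ∈ I, ∃ n : ℕ, σ ^ p ^ n = 1)
    (hW : ∀ σ ∈ I, (∀ x ∈ V, ∃ z ∈ V, σ x - x = t ^ 3 * z) → σ = 1) : WR V I ⊥ t⁻¹ := by
  have hcE : CharP E p := charP_of_injective_algebraMap (algebraMap k E).injective p
  have hb : ∀ x : E, FX (⊥ : Subgroup (E ≃ₐ[k] E)) x := by
    intro x σ hσ
    rw [Subgroup.mem_bot] at hσ
    rw [hσ]
    rfl
  have hlp : LP V (⊥ : Subgroup (E ≃ₐ[k] E)) t⁻¹ := by
    refine ⟨hb _, ?_, ?_⟩
    · rw [map_inv₀]
      exact (one_lt_inv₀ (zero_lt_iff.2 ((Valuation.ne_zero_iff _).2 ht0))).2 ht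
    · intro x _ hx
      obtain ⟨n, c, z, hc, hz, e⟩ := hlt x hx
      refine ⟨-n, c, z, hc, hz, ?_⟩
      rw [inv_inv, inv_zpow, zpow_neg, inv_inv]
      exact e
  have hres : ∀ x ∈ V, ∃ (c : k) (z : E), z ∈ V ∧ x = algebraMap k E c + t * z := by
    intro x hx
    obtain ⟨c, z, hz, -, e⟩ := hlp.res hk (hb x) hx
    exact ⟨c, z, hz, by rwa [inv_inv] at e⟩
  have hdiv : ∀ x : E, V.valuation x < 1 → ∃ z ∈ V, x = t * z := by
    intro x hx
    obtain ⟨c, z, hz, e⟩ := hres x (v_lt_mem hx)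
    have hc : c = 0 := by
      by_contra hc
      rw [e, v_add (v_k hk hc) (v_lt_mul ht hz)] at hx
      exact lt_irrefl _ hx
    refine ⟨z, hz, ?_⟩
    rw [e, hc, map_zero, zero_add]
  -- the action on the uniformizer
  have hact : ∀ σ ∈ I, ∃ z ∈ V, σ t = t * (1 + t * z) := by
    intro σ hσ
    obtain ⟨y, hy, ey⟩ := hdiv _ (v_sigma hIV hσ ht)
    obtain ⟨y', hy', ey'⟩ := hdiv _ (v_sigma hIV (I.inv_mem hσ) ht)
    have h1 : y * σ y' = 1 := by
      have h2 : σ (σ⁻¹ t) = t := σ.apply_symm_apply t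
      rw [ey', map_mul, ey] at h2
      have h3 : t * (y * σ y') = t * 1 := by rw [mul_one, ← mul_assoc]; exact h2
      exact mul_left_cancel₀ ht0 h3
    have hvy : V.valuation y = 1 := by
      apply le_antisymm (v_le.2 hy)
      have h2 := congrArg V.valuation h1
      rw [map_mul, map_one] at h2
      calc (1 : V.ValueGroup) = V.valuation y * V.valuation (σ y') := h2.symm
        _ ≤ V.valuation y * 1 := mul_le_mul_right (v_le.2 (hIV σ hσ _ hy')) _
        _ = _ := mul_one _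
    obtain ⟨c, z, hz, ez⟩ := hres y hy
    have hc0 : c ≠ 0 := by
      rintro rfl
      rw [ez, map_zero, zero_add] at hvy
      have := v_lt_mul ht hz
      rw [hvy] at this
      exact lt_irrefl _ this
    have hpow : ∀ j : ℕ, ∃ z ∈ V, (σ ^ j) t = t * (algebraMap k E c ^ j + t * z) := by
      intro j
      induction j with
      | zero => exact ⟨0, V.zero_mem, by simp⟩
      | succ j ih =>
        obtain ⟨z', hz', e'⟩ := ih
        refine ⟨algebraMap k E c ^ j * z + (algebraMap k E c + t * z) * (algebraMap k E c + t * z)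
          * σ z', ?_, ?_⟩
        · have hyV : algebraMap k E c + t * z ∈ V := by rw [← ez]; exact hy
          exact V.add_mem _ _ (V.mul_mem _ _ (pow_mem (hk c) j) hz)
            (V.mul_mem _ _ (V.mul_mem _ _ hyV hyV) (hIV σ hσ _ hz'))
        · rw [pow_succ']
          change σ ((σ ^ j) t) = _
          rw [e', map_mul, map_add, map_mul, map_pow, AlgEquiv.commutes, ey, ez]
          ring
    obtain ⟨n, hn⟩ := hpI σ hσ
    obtain ⟨z', hz', e'⟩ := hpow (p ^ n)
    rw [hn] at e'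
    have h2 : (algebraMap k E c) ^ p ^ n + t * z' = 1 := by
      have h3 : t * ((algebraMap k E c) ^ p ^ n + t * z') = t * 1 := by
        rw [mul_one, ← e']
        rfl
      exact mul_left_cancel₀ ht0 h3
    have hc1 : c = 1 := by
      have h3 : c ^ p ^ n = 1 := by
        refine res_unique (V := V) (x := (1 : E)) hk ?_ ?_
        · rw [← h2, map_pow, add_sub_cancel_left]
          exact v_lt_mul ht hz'
        · rw [map_one, sub_self, map_zero]
          exact zero_lt_one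
      have h4 : (c - 1) ^ p ^ n = 0 := by
        rw [sub_pow_char_pow, h3, one_pow, sub_self]
      exact sub_eq_zero.1 ((pow_eq_zero_iff (pow_pos (Fact.out : p.Prime).pos n).ne').1 h4)
    refine ⟨z, hz, ?_⟩
    rw [ey, ez, hc1, map_one]
  have hunit : ∀ z ∈ V, V.valuation (1 + t * z) = 1 := fun z hz =>
    v_add (map_one _) (v_lt_mul ht hz)
  have hdiff : ∀ σ ∈ I, ∀ z ∈ V, σ t = t * (1 + t * z) →
      σ t⁻¹ - t⁻¹ = -(z * (1 + t * z)⁻¹) := by
    intro σ hσ z hz e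
    have h1 : (1 + t * z) ≠ 0 := by
      intro h0
      have := hunit z hz
      rw [h0, map_zero] at this
      exact zero_ne_one this
    rw [map_inv₀, e, mul_inv]
    field_simp
    ring
  refine ⟨hlp, ?_, ?_⟩
  · intro σ hσ
    obtain ⟨z, hz, e⟩ := hact σ hσ
    rw [hdiff σ hσ z hz e]
    exact V.neg_mem _ (V.mul_mem _ _ hz (v_inv_mem (hunit z hz)))
  · intro σ hσ hlt1
    obtain ⟨z, hz, e⟩ := hact σ hσ
    rw [hdiff σ hσ z hz e, Valuation.map_neg, map_mul, map_inv₀, hunit z hz, inv_one,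
      mul_one] at hlt1
    obtain ⟨z2, hz2, ez2⟩ := hdiv z hlt1
    rw [Subgroup.mem_bot]
    refine hW σ hσ ?_
    intro x hx
    obtain ⟨c0, x1, hx1, e0⟩ := hres x hx
    obtain ⟨c1, x2, hx2, e1⟩ := hres x1 hx1
    obtain ⟨y, hy, ey⟩ := hdiv _ (hlp.triv hk hIV hσ (hb x2) hx2)
    refine ⟨algebraMap k E c1 * z2 + y + z * (2 + t * z) * σ x2, ?_, ?_⟩
    · refine V.add_mem _ _ (V.add_mem _ _ (V.mul_mem _ _ (hk _) hz2) hy) ?_
      refine V.mul_mem _ _ (V.mul_mem _ _ hz (V.add_mem _ _ ?_ (V.mul_mem _ _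
        (v_lt_mem ht) hz))) (hIV σ hσ _ hx2)
      exact ofNat_mem V 2
    · have h3 : σ x = algebraMap k E c0 + σ t * (algebraMap k E c1 + σ t * σ x2) := by
        rw [e0, e1]
        simp only [map_add, map_mul, AlgEquiv.commutes]
      have h4 : σ x2 = x2 + t * y := by rw [← ey]; ring
      have h5 : t ^ 3 * (algebraMap k E c1 * z2 + y + z * (2 + t * z) * σ x2) =
          algebraMap k E c1 * (t * (t * (t * z2))) + t ^ 2 * (t * y) +
            t ^ 2 * (t * z * (2 + t * z)) * σ x2 := by ring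
      rw [h5, ← ez2, ← ey, h3, e, e0, e1]
      ring

end wram

section point

variable {k E : Type u} [Field k] [Field E] [Algebra k E] {D : Subalgebra k E}
  [IsDedekindDomain D] [IsFractionRing D E] {V : ValuationSubring E} (hDV : ∀ x ∈ D, x ∈ V)
  (hV : V ≠ ⊤) (hres : ∀ x ∈ D, ∃ c : k, V.valuation (x - algebraMap k E c) < 1)
  {Γ : Subgroup (E ≃ₐ[k] E)} [Finite Γ] (hΓD : ∀ σ ∈ Γ, ∀ x ∈ D, σ x ∈ D)

/-- The decomposition group. -/
def dec (V : ValuationSubring E) (Γ : Subgroup (E ≃ₐ[k] E)) [Finite Γ] :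
    Subgroup (E ≃ₐ[k] E) where
  carrier := {σ | σ ∈ Γ ∧ ∀ x ∈ V, σ x ∈ V}
  one_mem' := ⟨Γ.one_mem, fun x hx => hx⟩
  mul_mem' := by
    rintro σ τ ⟨h1, h2⟩ ⟨h3, h4⟩
    exact ⟨Γ.mul_mem h1 h3, fun x hx => h2 _ (h4 x hx)⟩
  inv_mem' := by
    rintro σ ⟨h1, h2⟩
    refine ⟨Γ.inv_mem h1, ?_⟩
    have h3 : ∀ n : ℕ, ∀ x ∈ V, (σ ^ n) x ∈ V := by
      intro n
      induction n with
      | zero => exact fun x hx => hx
      | succ n ih =>
        intro x hx
        rw [pow_succ']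
        exact h2 _ (ih x hx)
    obtain ⟨n, hn, h4⟩ := (isOfFinOrder_of_finite (⟨σ, h1⟩ : Γ)).exists_pow_eq_one
    have h5 : σ ^ n = 1 := congrArg Subtype.val h4
    have h6 : σ⁻¹ = σ ^ (n - 1) := by
      rw [inv_eq_iff_mul_eq_one, ← pow_succ', Nat.sub_add_cancel hn, h5]
    intro x hx
    rw [h6]
    exact h3 _ x hx

lemma mem_dec {σ : E ≃ₐ[k] E} : σ ∈ dec V Γ ↔ σ ∈ Γ ∧ ∀ x ∈ V, σ x ∈ V := Iff.rfl

include hDV hV hres hΓD

/-- Separation of the points of an orbit. -/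
theorem exists_sep (d : (E ≃ₐ[k] E) → E) (hd : ∀ σ, d σ ≠ 0) :
    ∃ e ∈ D, V.valuation e = 1 ∧ FX (dec V Γ) e ∧
      ∀ γ ∈ Γ, γ ∉ dec V Γ → V.valuation (γ e) ≤ V.valuation (d γ) := by
  classical
  have hk : ∀ c : k, algebraMap k E c ∈ V := fun c => hDV _ (D.algebraMap_mem c)
  obtain ⟨t, ht0, ht, hlt⟩ := exists_unif hDV hV hres
  have : Fintype Γ := Fintype.ofFinite Γ
  have hIV : ∀ σ ∈ dec V Γ, ∀ x ∈ V, σ x ∈ V := fun σ hσ => hσ.2
  -- elements of the maximal ideal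
  have hmax : ∀ x : E, V.valuation x < 1 → V.valuation x ≤ V.valuation t := by
    intro x hx
    by_cases hx0 : x = 0
    · rw [hx0, map_zero]; exact zero_le
    obtain ⟨n, c, z, hc, hz, e⟩ := hlt x hx0
    have h1 : V.valuation x = V.valuation t ^ n := by
      rw [e, map_mul, map_zpow₀, v_add (v_k hk hc) (v_lt_mul ht hz), mul_one]
    have hn : 1 ≤ n := by
      by_contra hcon
      have : n ≤ 0 := by omega
      rw [h1] at hx
      exact absurd hx (not_lt.2 (one_le_zpow_of_nonpos₀ (zero_lt_iff.2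
        ((Valuation.ne_zero_iff _).2 ht0)) ht.le this))
    rw [h1]
    calc V.valuation t ^ n ≤ V.valuation t ^ (1 : ℤ) :=
          zpow_le_zpow_right_of_le_one₀ (zero_lt_iff.2 ((Valuation.ne_zero_iff _).2 ht0)) ht.le hn
      _ = _ := zpow_one _
  -- the orders of the `d σ`
  have hN : ∀ σ, ∃ N : ℕ, V.valuation t ^ N ≤ V.valuation (d σ) := by
    intro σ
    obtain ⟨n, c, z, hc, hz, e⟩ := hlt (d σ) (hd σ)
    refine ⟨n.toNat, ?_⟩
    have h1 : V.valuation (d σ) = V.valuation t ^ n := by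
      rw [e, map_mul, map_zpow₀, v_add (v_k hk hc) (v_lt_mul ht hz), mul_one]
    rw [h1, ← zpow_natCast]
    exact zpow_le_zpow_right_of_le_one₀ (zero_lt_iff.2 ((Valuation.ne_zero_iff _).2 ht0)) ht.le
      (by omega)
  choose N0 hN0 using hN
  let N := ∑ γ : Γ, N0 γ.1
  have hNle : ∀ γ ∈ Γ, V.valuation t ^ N ≤ V.valuation (d γ) := by
    intro γ hγ
    refine le_trans ?_ (hN0 γ)
    exact pow_le_pow_of_le_one zero_le ht.le
      (Finset.single_le_sum (f := fun γ : Γ => N0 γ.1) (fun _ _ => Nat.zero_le _)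
        (Finset.mem_univ (⟨γ, hγ⟩ : Γ)))
  -- separation
  have hsep : ∀ γ : E ≃ₐ[k] E, ∃ a : E, γ ∈ Γ → γ ∉ dec V Γ →
      a ∈ D ∧ V.valuation a = 1 ∧ V.valuation (γ a) < 1 := by
    intro γ
    by_cases h : γ ∈ Γ ∧ γ ∉ dec V Γ
    swap
    · exact ⟨0, fun h1 h2 => absurd ⟨h1, h2⟩ h⟩
    by_contra hcon
    push Not at hcon
    apply h.2
    refine ⟨h.1, ?_⟩
    have h1 : ∀ a ∈ D, V.valuation a = 1 → V.valuation (γ a) = 1 := by
      intro a ha ha1
      obtain ⟨-, -, h3⟩ := hcon a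
      exact le_antisymm (v_le.2 (hDV _ (hΓD γ h.1 a ha))) (h3 ha ha1)
    intro x hx
    obtain ⟨s, hs, hs1, hsx⟩ := exists_loc hDV hx
    have h2 := h1 s hs hs1
    have hs0 : s ≠ 0 := by
      rintro rfl
      rw [map_zero] at hs1
      exact zero_ne_one hs1
    have h3 : γ x = (γ s)⁻¹ * γ (s * x) := by
      rw [map_mul, ← mul_assoc, inv_mul_cancel₀ ((_root_.map_ne_zero _).2 hs0), one_mul]
    rw [h3]
    exact V.mul_mem _ _ (v_inv_mem h2) (hDV _ (hΓD γ h.1 _ hsx))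
  choose a ha using hsep
  let S : Finset Γ := Finset.univ.filter fun γ => γ.1 ∉ dec V Γ
  let e' : E := ∏ γ ∈ S, a γ.1 ^ N
  have hS : ∀ γ : Γ, γ ∈ S ↔ γ.1 ∉ dec V Γ := fun γ => by simp [S]
  have he'D : e' ∈ D := D.prod_mem fun γ hγ =>
    D.pow_mem (ha γ.1 γ.2 ((hS γ).1 hγ)).1 N
  have he'1 : V.valuation e' = 1 := by
    rw [map_prod]
    refine Finset.prod_eq_one fun γ hγ => ?_
    rw [map_pow, (ha γ.1 γ.2 ((hS γ).1 hγ)).2.1, one_pow]
  have hvI : ∀ σ ∈ dec V Γ, ∀ x, V.valuation x = 1 → V.valuation (σ x) = 1 := by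
    intro σ hσ x hx
    refine le_antisymm (v_le.2 (hσ.2 x (v_le.1 hx.le))) ?_
    by_contra hcon
    have h1 := v_sigma hIV ((dec V Γ).inv_mem hσ) (not_le.1 hcon)
    have h2 : σ⁻¹ (σ x) = x := σ.symm_apply_apply x
    rw [h2, hx] at h1
    exact lt_irrefl _ h1
  have hle : dec V Γ ≤ Γ := fun σ hσ => hσ.1
  have hfinI : Finite (dec V Γ) := Finite.of_injective (Subgroup.inclusion hle)
    (Subgroup.inclusion_injective hle)
  have : Fintype (dec V Γ) := Fintype.ofFinite _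
  refine ⟨∏ ι : dec V Γ, ι.1 e', D.prod_mem fun ι _ => hΓD _ (hle ι.2) _ he'D, ?_, ?_, ?_⟩
  · rw [map_prod]
    exact Finset.prod_eq_one fun ι _ => hvI _ ι.2 _ he'1
  · intro σ hσ
    rw [map_prod]
    exact Fintype.prod_equiv (Equiv.mulLeft (⟨σ, hσ⟩ : dec V Γ)) _ _ fun ι => rfl
  · intro γ hγ hγI
    rw [map_prod, map_prod, ← Finset.mul_prod_erase _ _ (Finset.mem_univ (1 : dec V Γ))]
    have h1 : V.valuation (γ ((1 : dec V Γ).1 e')) ≤ V.valuation (d γ) := by
      change V.valuation (γ e') ≤ _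
      change V.valuation (γ (∏ γ' ∈ S, a γ'.1 ^ N)) ≤ _
      rw [map_prod, map_prod, ← Finset.mul_prod_erase _ _ ((hS ⟨γ, hγ⟩).2 hγI)]
      have h2 : V.valuation (γ (a γ ^ N)) ≤ V.valuation (d γ) := by
        rw [map_pow, map_pow]
        refine le_trans ?_ (hNle γ hγ)
        exact pow_le_pow_left₀ zero_le (hmax _ (ha γ hγ hγI).2.2) N
      calc _ ≤ V.valuation (γ (a γ ^ N)) * 1 := by
            refine mul_le_mul_right ?_ _
            rw [← map_prod]
            refine v_le.2 (hDV _ ?_)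
            refine D.prod_mem fun γ' hγ' => hΓD γ hγ _ ?_
            exact D.pow_mem (ha γ'.1 γ'.2 ((hS γ').1 (Finset.mem_of_mem_erase hγ'))).1 N
        _ ≤ _ := by rw [mul_one]; exact h2
    calc _ ≤ V.valuation (γ ((1 : dec V Γ).1 e')) * 1 := by
          refine mul_le_mul_right ?_ _
          rw [← map_prod]
          refine v_le.2 (hDV _ ?_)
          exact D.prod_mem fun ι _ => hΓD γ hγ _ (hΓD _ (hle ι.2) _ he'D)
      _ ≤ _ := by rw [mul_one]; exact h1

/-- Uniformizers of the decomposition field. -/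
theorem unif_dec {b : E} (hbV : b ∉ V)
    (hb : ∀ x, FX Γ x → V.valuation x < 1 → x * b ∈ V) (x : E) (hx : FX (dec V Γ) x)
    (hx1 : V.valuation x < 1) : x * b ∈ V := by
  classical
  by_cases hx0 : x = 0
  · rw [hx0, zero_mul]; exact V.zero_mem
  have hk : ∀ c : k, algebraMap k E c ∈ V := fun c => hDV _ (D.algebraMap_mem c)
  obtain ⟨t, ht0, ht, hlt⟩ := exists_unif hDV hV hres
  obtain ⟨e, heD, he1, heI, heγ⟩ := exists_sep hDV hV hres hΓD
    (fun γ => t * x * (γ x)⁻¹) (fun γ => mul_ne_zero (mul_ne_zero ht0 hx0)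
      (inv_ne_zero ((_root_.map_ne_zero _).2 hx0)))
  obtain ⟨T, hT1, hTK, hTs⟩ := exists_transversal.{u} ((dec V Γ).subgroupOf Γ)
  let φ : Γ → E := fun γ => γ.1 (e * x)
  have hφ : ∀ γ : Γ, ∀ ι ∈ (dec V Γ).subgroupOf Γ, φ (γ * ι) = φ γ := by
    intro γ ι hι
    rw [Subgroup.mem_subgroupOf] at hι
    change γ.1 (ι.1 (e * x)) = γ.1 (e * x)
    rw [map_mul ι.1, heI _ hι, hx _ hι]
  let f := ∑ γ ∈ T, φ γ
  have hfΓ : FX Γ f := by
    intro g hg
    have h1 := hTs E φ hφ ⟨g, hg⟩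
    change g (∑ γ ∈ T, φ γ) = ∑ γ ∈ T, φ γ
    rw [map_sum]
    exact h1
  have hvf : V.valuation f = V.valuation x := by
    change V.valuation (∑ γ ∈ T, φ γ) = _
    rw [← Finset.add_sum_erase _ _ hT1]
    have h1 : V.valuation (φ 1) = V.valuation x := by
      change V.valuation (e * x) = _
      rw [map_mul, he1, one_mul]
    have h2 : V.valuation (∑ γ ∈ T.erase 1, φ γ) < V.valuation x := by
      refine Valuation.map_sum_lt _ ((Valuation.ne_zero_iff _).2 hx0) ?_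
      intro γ hγ
      have h3 : γ.1 ∉ dec V Γ := by
        intro h4
        exact (Finset.ne_of_mem_erase hγ) (hTK γ (Finset.mem_of_mem_erase hγ)
          (Subgroup.mem_subgroupOf.2 h4))
      have h5 := heγ γ.1 γ.2 h3
      have hγx : γ.1 x ≠ 0 := (_root_.map_ne_zero _).2 hx0
      change V.valuation (γ.1 (e * x)) < _
      rw [map_mul, map_mul]
      calc V.valuation (γ.1 e) * V.valuation (γ.1 x) ≤
            V.valuation (t * x * (γ.1 x)⁻¹) * V.valuation (γ.1 x) := mul_le_mul_left h5 _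
        _ = V.valuation t * V.valuation x := by
            rw [← map_mul, ← map_mul, mul_assoc, inv_mul_cancel₀ hγx, mul_one]
        _ < 1 * V.valuation x := by
            refine mul_lt_mul_of_pos_right ht ?_
            exact zero_lt_iff.2 ((Valuation.ne_zero_iff _).2 hx0)
        _ = _ := one_mul _
    rw [Valuation.map_add_eq_of_lt_left _ (by rw [h1]; exact h2), h1]
  have h6 := hb f hfΓ (by rw [hvf]; exact hx1)
  rw [← v_le, map_mul, hvf, ← map_mul, v_le] at h6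
  exact h6

end point

end Pool.Agent.Zk10.Ram
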