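import Pool.Agent.Zk10.R5

/-!
The local theory at a point of a product of curves.
-/

set_option autoImplicit false
set_option linter.unusedVariables false
set_option linter.unusedSectionVars false

universe u

namespace Pool.Agent.Zk10.Ram

open Pool.Agent.W558 Pool.Agent.W435.WT.Gal nonZeroDivisors

section pd

variable {k E : Type u} [Field k] [Field E] [Algebra k E]

/-- The data at a point of a curve. -/
structure PD (p : ℕ) [CharP E p] (Γ : Subgroup (E ≃ₐ[k] E)) [Finite Γ] (D : Subalgebra k E)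
    (V : ValuationSubring E) (b : E) : Prop where
  DV : ∀ x ∈ D, x ∈ V
  t : ∃ t : E, t ≠ 0 ∧ V.valuation t < 1
  θ : ∃ θ : (E ≃ₐ[k] E) → k, (∀ σ ∈ dec V Γ, ∀ τ ∈ dec V Γ, θ (σ * τ) = θ σ + θ τ) ∧
    ∀ σ ∈ dec V Γ, θ σ = 0 → σ = 1
  gen : ∀ lam : (E ≃ₐ[k] E) → ZMod p,
    (∀ σ ∈ dec V Γ, ∀ τ ∈ dec V Γ, lam (σ * τ) = lam σ + lam τ) →
    ∃ (w : E) (c : k), (∀ σ ∈ dec V Γ, σ w = w + zc p E (lam σ)) ∧
      w ^ p - w - algebraMap k E c * b ∈ V
  sep : ∀ d : (E ≃ₐ[k] E) → E, (∀ σ, d σ ≠ 0) → ∃ e ∈ D, V.valuation e = 1 ∧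
    FX (dec V Γ) e ∧ ∀ γ ∈ Γ, γ ∉ dec V Γ → V.valuation (γ e) ≤ V.valuation (d γ)
  loc : ∀ x ∈ V, ∃ s ∈ D, V.valuation s = 1 ∧ s * x ∈ D

/-- The data at a point of a curve. -/
theorem PD.of (p : ℕ) [Fact p.Prime] [CharP k p] [CharP E p] {D : Subalgebra k E}
    [IsDedekindDomain D] [IsFractionRing D E] {V : ValuationSubring E} (hDV : ∀ x ∈ D, x ∈ V)
    (hV : V ≠ ⊤) (hres : ∀ x ∈ D, ∃ c : k, V.valuation (x - algebraMap k E c) < 1)
    {Γ : Subgroup (E ≃ₐ[k] E)} [Finite Γ] (hΓD : ∀ σ ∈ Γ, ∀ x ∈ D, σ x ∈ D)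
    (hpΓ : ∀ σ ∈ Γ, ∃ n : ℕ, σ ^ p ^ n = 1)
    (hW : ∀ σ ∈ dec V Γ, (∀ (x : V) (h : σ x - x ∈ V),
      (⟨σ x - x, h⟩ : V) ∈ IsLocalRing.maximalIdeal V ^ 3) → σ = 1)
    {b : E} (hbF : FX Γ b)
    (hb : (b ∉ V ∧ ∀ x, FX Γ x → V.valuation x < 1 → x * b ∈ V) ∨ ∀ σ ∈ dec V Γ, σ = 1) :
    PD p Γ D V b := by
  have hp : p.Prime := Fact.out
  have hk : ∀ c : k, algebraMap k E c ∈ V := fun c => hDV _ (D.algebraMap_mem c)
  obtain ⟨t, ht0, ht, hlt⟩ := exists_unif hDV hV hres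
  have hle : dec V Γ ≤ Γ := fun σ hσ => hσ.1
  have hfin : Finite (dec V Γ) := Finite.of_injective (Subgroup.inclusion hle)
    (Subgroup.inclusion_injective hle)
  have hIV : ∀ σ ∈ dec V Γ, ∀ x ∈ V, σ x ∈ V := fun σ hσ => hσ.2
  refine ⟨hDV, ⟨t, ht0, ht⟩, ?_, ?_, exists_sep hDV hV hres hΓD,
    fun x hx => exists_loc hDV hx⟩
  · rcases hb with ⟨hbV, hb⟩ | h1
    · have hwr : WR V (dec V Γ) ⊥ t⁻¹ := WR.of_weak p hk ht0 ht hlt hIV
        (fun σ hσ => hpΓ σ hσ.1) (fun σ hσ h => hW σ hσ (by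
          intro x hx
          obtain ⟨z, hz, e⟩ := h x x.2
          have h2 : (⟨σ x - x, hx⟩ : V) = (⟨t, v_lt_mem ht⟩ : V) ^ 3 * ⟨z, hz⟩ :=
            Subtype.ext e
          rw [h2]
          refine Ideal.mul_mem_right _ _ (Ideal.pow_mem_pow ?_ 3)
          rw [ValuationSubring.valuation_lt_one_iff]
          exact ht))
      exact hwr.theta hk hIV
    · exact ⟨fun _ => 0, fun _ _ _ _ => (add_zero 0).symm, fun σ hσ _ => h1 σ hσ⟩
  · intro lam hl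
    rcases hb with ⟨hbV, hb⟩ | h1
    · have hwr : WR V (dec V Γ) ⊥ t⁻¹ := WR.of_weak p hk ht0 ht hlt hIV
        (fun σ hσ => hpΓ σ hσ.1) (fun σ hσ h => hW σ hσ (by
          intro x hx
          obtain ⟨z, hz, e⟩ := h x x.2
          have h2 : (⟨σ x - x, hx⟩ : V) = (⟨t, v_lt_mem ht⟩ : V) ^ 3 * ⟨z, hz⟩ :=
            Subtype.ext e
          rw [h2]
          refine Ideal.mul_mem_right _ _ (Ideal.pow_mem_pow ?_ 3)
          rw [ValuationSubring.valuation_lt_one_iff]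
          exact ht))
      obtain ⟨w, hw1, hw2⟩ := hwr.gen p hk hIV lam hl
      obtain ⟨c, hc⟩ := hw2 b (fun σ hσ => hbF σ hσ.1) hbV
        (unif_dec hDV hV hres hΓD hbV hb)
      exact ⟨w, c, hw1, hc⟩
    · refine ⟨0, 0, ?_, ?_⟩
      · intro σ hσ
        have hl1 : lam 1 = 0 := by
          have h := hl 1 (dec V Γ).one_mem 1 (dec V Γ).one_mem
          rw [one_mul] at h
          simpa using h
        rw [h1 σ hσ, hl1]
        simp
      · rw [zero_pow hp.ne_zero, map_zero]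
        simp only [sub_zero, zero_mul]
        exact V.zero_mem

end pd

section lo

variable {k M : Type u} [Field k] [Field M] [Algebra k M]

/-- The local ring. -/
def locO (DM : Subalgebra k M) (𝔐 : Ideal DM) [𝔐.IsPrime] : Subalgebra k M where
  carrier := {x | ∃ s : DM, s ∉ 𝔐 ∧ (s : M) * x ∈ DM}
  mul_mem' := by
    rintro x y ⟨s, hs, h1⟩ ⟨t, ht, h2⟩
    refine ⟨s * t, fun h => (‹𝔐.IsPrime›.mem_or_mem h).elim hs ht, ?_⟩
    change (s : M) * t * (x * y) ∈ DM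
    have : (s : M) * t * (x * y) = (s * x) * (t * y) := by ring
    rw [this]
    exact DM.mul_mem h1 h2
  add_mem' := by
    rintro x y ⟨s, hs, h1⟩ ⟨t, ht, h2⟩
    refine ⟨s * t, fun h => (‹𝔐.IsPrime›.mem_or_mem h).elim hs ht, ?_⟩
    change (s : M) * t * (x + y) ∈ DM
    have : (s : M) * t * (x + y) = t * (s * x) + s * (t * y) := by ring
    rw [this]
    exact DM.add_mem (DM.mul_mem t.2 h1) (DM.mul_mem s.2 h2)
  algebraMap_mem' := by
    intro c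
    refine ⟨1, (Ideal.ne_top_iff_one _).1 ‹𝔐.IsPrime›.ne_top, ?_⟩
    rw [OneMemClass.coe_one, one_mul]
    exact DM.algebraMap_mem c

variable {DM : Subalgebra k M} {𝔐 : Ideal DM} [𝔐.IsPrime]

lemma le_locO : DM ≤ locO DM 𝔐 := by
  intro x hx
  refine ⟨1, (Ideal.ne_top_iff_one _).1 ‹𝔐.IsPrime›.ne_top, ?_⟩
  rw [OneMemClass.coe_one, one_mul]
  exact hx

lemma inv_locO {s : DM} (hs : s ∉ 𝔐) : (s : M)⁻¹ ∈ locO DM 𝔐 := by
  refine ⟨s, hs, ?_⟩
  rw [mul_inv_cancel₀]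
  · exact DM.one_mem
  · intro h0
    apply hs
    have : s = 0 := Subtype.ext h0
    rw [this]
    exact 𝔐.zero_mem

end lo

section main

variable {k M : Type u} [Field k] [Field M] [Algebra k M] {n : ℕ} {E : Fin n → Type u}
  [∀ i, Field (E i)] [∀ i, Algebra k (E i)] (e : ∀ i, E i →ₐ[k] M) {G : Type} [Group G]
  [Finite G] (τ : G →* (M ≃ₐ[k] M)) (σ : ∀ i, G →* (E i ≃ₐ[k] E i))
  (hτ : ∀ g i x, τ g (e i x) = e i (σ i g x)) (p : ℕ) [Fact p.Prime] [CharP k p] [CharP M p]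
  [∀ i, CharP (E i) p]

lemma zc_alg (c : ZMod p) : algebraMap k M (zc p k c) = zc p M c :=
  RingHom.congr_fun (RingHom.ext_zmod ((algebraMap k M).comp (zc p k)) (zc p M)) c

include hτ in
/-- The local theorem. -/
theorem local_gen {D : ∀ i, Subalgebra k (E i)} {V : ∀ i, ValuationSubring (E i)} {b : ∀ i, E i}
    (hfin : ∀ i, Finite (σ i).range)
    (hPD : ∀ i, PD p (σ i).range (D i) (V i) (b i)) (DM : Subalgebra k M) (𝔐 : Ideal DM)
    [𝔐.IsPrime] (he : ∀ i, ∀ x ∈ D i, e i x ∈ DM)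
    (h𝔐 : ∀ i x (hx : x ∈ D i), (⟨e i x, he i x hx⟩ : DM) ∈ 𝔐 ↔ (V i).valuation x < 1)
    (hσD : ∀ i g, ∀ x ∈ D i, σ i g x ∈ D i)
    (H : Subgroup G) (χ : G → ZMod p) (hχ : ∀ g ∈ H, ∀ h ∈ H, χ (g * h) = χ g + χ h)
    (hχ0 : ∀ g ∈ H, (∀ i, σ i g = 1) → χ g = 0) :
    ∃ ℓ : M, (∀ g ∈ H, τ g ℓ = ℓ + zc p M (χ g)) ∧ ∃ c : Fin n → k,
      ℓ ^ p - ℓ - ∑ i, algebraMap k M (c i) * e i (b i) ∈ locO DM 𝔐 := by
  classical
  have hp : p.Prime := Fact.out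
  -- the inertia group
  let J : ∀ i, Subgroup (E i ≃ₐ[k] E i) := fun i => dec (V i) (σ i).range
  have hmemJ : ∀ i g, σ i g ∈ J i ↔ ∀ x ∈ V i, σ i g x ∈ V i := fun i g =>
    ⟨fun h => h.2, fun h => ⟨⟨g, rfl⟩, h⟩⟩
  let HI : Subgroup G :=
    { carrier := {g | g ∈ H ∧ ∀ i, σ i g ∈ J i}
      one_mem' := ⟨H.one_mem, fun i => by rw [map_one]; exact (J i).one_mem⟩
      mul_mem' := by
        rintro a b ⟨h1, h2⟩ ⟨h3, h4⟩
        exact ⟨H.mul_mem h1 h3, fun i => by rw [map_mul]; exact (J i).mul_mem (h2 i) (h4 i)⟩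
      inv_mem' := by
        rintro a ⟨h1, h2⟩
        exact ⟨H.inv_mem h1, fun i => by rw [map_inv]; exact (J i).inv_mem (h2 i)⟩ }
  have hχ1 : χ 1 = 0 := by
    have h := hχ 1 H.one_mem 1 H.one_mem
    rw [one_mul] at h
    simpa using h
  have hχinv : ∀ g ∈ H, χ g⁻¹ = -χ g := by
    intro g hg
    have h := hχ g hg g⁻¹ (H.inv_mem hg)
    rw [mul_inv_cancel, hχ1] at h
    exact (neg_eq_of_add_eq_zero_right h.symm).symm
  choose θ hθ hθ0 using fun i => (hPD i).θ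
  let Θ : G → (Fin n → k) := fun g i => θ i (σ i g)
  have hΘ : ∀ g ∈ HI, ∀ h ∈ HI, Θ (g * h) = Θ g + Θ h := by
    intro g hg h hh
    funext i
    change θ i (σ i (g * h)) = θ i (σ i g) + θ i (σ i h)
    rw [map_mul]
    exact hθ i _ (hg.2 i) _ (hh.2 i)
  have hΘ1 : Θ 1 = 0 := by
    have h := hΘ 1 HI.one_mem 1 HI.one_mem
    rw [one_mul] at h
    simpa using h
  have hΘinv : ∀ g ∈ HI, Θ g⁻¹ = -Θ g := by
    intro g hg
    have h := hΘ g hg g⁻¹ (HI.inv_mem hg)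
    rw [mul_inv_cancel, hΘ1] at h
    exact (neg_eq_of_add_eq_zero_right h.symm).symm
  have hwd : ∀ g ∈ HI, ∀ h ∈ HI, Θ g = Θ h → χ g = χ h := by
    intro g hg h hh hgh
    have h1 : Θ (g * h⁻¹) = 0 := by
      rw [hΘ _ hg _ (HI.inv_mem hh), hΘinv _ hh, hgh, add_neg_cancel]
    have h2 : ∀ i, σ i (g * h⁻¹) = 1 := fun i =>
      hθ0 i _ ((HI.mul_mem hg (HI.inv_mem hh)).2 i) (congrFun h1 i)
    have h3 := hχ0 _ (H.mul_mem hg.1 (H.inv_mem hh.1)) h2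
    rw [hχ _ hg.1 _ (H.inv_mem hh.1), hχinv _ hh.1] at h3
    linear_combination h3
  -- extension of the character
  obtain ⟨F, hF⟩ : ∃ F : (Fin n → k) →+ ZMod p, ∀ g ∈ HI, F (Θ g) = χ g := by
    let _ : Algebra (ZMod p) k := ZMod.algebra k p
    let W0 : AddSubgroup (Fin n → k) :=
      { carrier := {x | ∃ g ∈ HI, Θ g = x}
        zero_mem' := ⟨1, HI.one_mem, hΘ1⟩
        add_mem' := by
          rintro _ _ ⟨g, hg, rfl⟩ ⟨h, hh, rfl⟩
          exact ⟨g * h, HI.mul_mem hg hh, hΘ g hg h hh⟩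
        neg_mem' := by
          rintro _ ⟨g, hg, rfl⟩
          exact ⟨g⁻¹, HI.inv_mem hg, hΘinv g hg⟩ }
    let W : Submodule (ZMod p) (Fin n → k) := AddSubgroup.toZModSubmodule p W0
    have hW : ∀ x : W, ∃ g ∈ HI, Θ g = x := fun x => x.2
    choose γ hγ1 hγ2 using hW
    let f0 : W →+ ZMod p :=
      { toFun := fun x => χ (γ x)
        map_zero' := by
          rw [← hχ1]
          exact hwd _ (hγ1 _) _ HI.one_mem (by rw [hγ2, hΘ1]; rfl)
        map_add' := fun x y => by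
          rw [← hχ _ (hγ1 x).1 _ (hγ1 y).1]
          refine hwd _ (hγ1 _) _ (HI.mul_mem (hγ1 x) (hγ1 y)) ?_
          rw [hΘ _ (hγ1 x) _ (hγ1 y), hγ2, hγ2, hγ2]
          rfl }
    let f : W →ₗ[ZMod p] ZMod p := f0.toZModLinearMap p
    obtain ⟨F, hF⟩ := LinearMap.exists_extend f
    refine ⟨F.toAddMonoidHom, ?_⟩
    intro g hg
    have hgW : Θ g ∈ W := ⟨g, hg, rfl⟩
    have h1 := LinearMap.congr_fun hF ⟨Θ g, hgW⟩
    have h2 : F (Θ g) = χ (γ ⟨Θ g, hgW⟩) := h1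
    change F (Θ g) = χ g
    rw [h2]
    exact hwd _ (hγ1 _) _ hg (hγ2 _)
  let lam : ∀ i, (E i ≃ₐ[k] E i) → ZMod p := fun i s => F (Pi.single i (θ i s))
  have hlam : ∀ i, ∀ s ∈ J i, ∀ t ∈ J i, lam i (s * t) = lam i s + lam i t := by
    intro i s hs t ht
    change F (Pi.single i (θ i (s * t))) = _
    rw [hθ i s hs t ht, Pi.single_add, map_add]
  have hχlam : ∀ g ∈ HI, χ g = ∑ i, lam i (σ i g) := by
    intro g hg
    rw [← hF g hg]
    change _ = ∑ i, F (Pi.single i (θ i (σ i g)))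
    rw [← map_sum]
    congr 1
    exact (Finset.univ_sum_single (Θ g)).symm
  -- the Artin-Schreier elements
  choose w c hw hwc using fun i => (hPD i).gen (lam i) (hlam i)
  -- the separating elements
  choose t ht0 ht using fun i => (hPD i).t
  let q : ∀ i, E i → E i := fun i x => if x ∈ V i then 1 else x⁻¹
  have hq0 : ∀ i x, q i x ≠ 0 := by
    intro i x
    change (if x ∈ V i then 1 else x⁻¹) ≠ 0
    split_ifs with h
    · exact one_ne_zero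
    · refine inv_ne_zero ?_
      rintro rfl
      exact h (V i).zero_mem
  have hqV : ∀ i x, q i x ∈ V i := by
    intro i x
    change (if x ∈ V i then 1 else x⁻¹) ∈ V i
    split_ifs with h
    · exact (V i).one_mem
    · exact ((V i).mem_or_inv_mem x).resolve_left h
  have hqx : ∀ i x, q i x * x ∈ V i := by
    intro i x
    change (if x ∈ V i then 1 else x⁻¹) * x ∈ V i
    split_ifs with h
    · rw [one_mul]; exact h
    · rw [inv_mul_cancel₀]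
      · exact (V i).one_mem
      · rintro rfl
        exact h (V i).zero_mem
  let d : ∀ i, (E i ≃ₐ[k] E i) → E i := fun i s => t i * (q i (s (w i)) * q i (w i))
  have hd0 : ∀ i s, d i s ≠ 0 := fun i s => mul_ne_zero (ht0 i) (mul_ne_zero (hq0 _ _) (hq0 _ _))
  choose f hfD hf1 hfI hfγ using fun i => (hPD i).sep (d i) (hd0 i)
  have hd1 : ∀ i s, (V i).valuation (d i s) < 1 := fun i s =>
    v_lt_mul (ht i) ((V i).mul_mem _ _ (hqV _ _) (hqV _ _))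
  have hdw : ∀ i s, (V i).valuation (d i s * (s (w i) - w i)) ≤ 1 := by
    intro i s
    rw [v_le]
    have h1 : d i s * (s (w i) - w i) = t i * (q i (w i) * (q i (s (w i)) * s (w i)) -
        q i (s (w i)) * (q i (w i) * w i)) := by
      change t i * (q i (s (w i)) * q i (w i)) * _ = _
      ring
    rw [h1]
    exact (V i).mul_mem _ _ (v_lt_mem (ht i)) ((V i).sub_mem
      ((V i).mul_mem _ _ (hqV _ _) (hqx _ _)) ((V i).mul_mem _ _ (hqV _ _) (hqx _ _)))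
  -- membership in the local ring
  have hVO : ∀ i, ∀ x ∈ V i, e i x ∈ locO DM 𝔐 := by
    intro i x hx
    obtain ⟨s, hs, hs1, hsx⟩ := (hPD i).loc x hx
    refine ⟨⟨e i s, he i s hs⟩, ?_, ?_⟩
    · rw [h𝔐 i s hs, hs1]
      exact lt_irrefl _
    · change e i s * e i x ∈ DM
      rw [← map_mul]
      exact he i _ hsx
  let f' : M := ∏ i, e i (f i)
  have hτf : ∀ g, τ g f' = ∏ i, e i (σ i g (f i)) := by
    intro g
    change τ g (∏ i, e i (f i)) = _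
    rw [map_prod]
    exact Finset.prod_congr rfl fun i _ => hτ g i _
  have hτfD : ∀ g, τ g f' ∈ DM := by
    intro g
    rw [hτf]
    exact DM.prod_mem fun i _ => he i _ (hσD i g _ (hfD i))
  have hf'D : f' ∈ DM := DM.prod_mem fun i _ => he i _ (hfD i)
  have hf'𝔐 : (⟨f', hf'D⟩ : DM) ∉ 𝔐 := by
    have h1 : (⟨f', hf'D⟩ : DM) = ∏ i, ⟨e i (f i), he i _ (hfD i)⟩ := by
      apply Subtype.ext
      rw [SubmonoidClass.coe_finsetProd]
    rw [h1, Ideal.IsPrime.prod_mem_iff]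
    rintro ⟨i, -, hi⟩
    have hi' := (h𝔐 i _ (hfD i)).1 hi
    rw [hf1] at hi'
    exact lt_irrefl _ hi'
  -- the elements outside of the decomposition group
  have hout : ∀ g, (∃ i, σ i g ∉ J i) → (⟨τ g f', hτfD g⟩ : DM) ∈ 𝔐 := by
    rintro g ⟨i, hi⟩
    have h1 : (⟨τ g f', hτfD g⟩ : DM) = ∏ i, ⟨e i (σ i g (f i)), he i _ (hσD i g _ (hfD i))⟩ := by
      apply Subtype.ext
      rw [SubmonoidClass.coe_finsetProd]
      exact hτf g
    rw [h1, Ideal.IsPrime.prod_mem_iff]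
    refine ⟨i, Finset.mem_univ i, (h𝔐 i _ (hσD i g _ (hfD i))).2 ?_⟩
    exact lt_of_le_of_lt (hfγ i _ ⟨g, rfl⟩ hi) (hd1 i _)
  obtain ⟨T, hT1, hTK, hTs⟩ := exists_transversal.{u} (HI.subgroupOf H)
  have hTout : ∀ γ ∈ T.erase 1, ∃ i, σ i γ.1 ∉ J i := by
    intro γ hγ
    by_contra hcon
    push Not at hcon
    exact (Finset.ne_of_mem_erase hγ) (hTK γ (Finset.mem_of_mem_erase hγ)
      (Subgroup.mem_subgroupOf.2 ⟨γ.2, hcon⟩))
  let u : M := ∑ γ ∈ T, τ γ.1 f'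
  have huD : u ∈ DM := DM.sum_mem fun γ _ => hτfD _
  have hu𝔐 : (⟨u, huD⟩ : DM) ∉ 𝔐 := by
    intro h1
    apply hf'𝔐
    have h2 : (⟨f', hf'D⟩ : DM) = ⟨u, huD⟩ - ∑ γ ∈ T.erase 1, ⟨τ γ.1 f', hτfD _⟩ := by
      apply Subtype.ext
      change f' = u - ((∑ γ ∈ T.erase 1, ⟨τ γ.1 f', hτfD _⟩ : DM) : M)
      rw [AddSubmonoidClass.coe_finsetSum]
      change f' = ∑ γ ∈ T, τ γ.1 f' - _
      rw [← Finset.add_sum_erase _ _ hT1, add_sub_cancel_right]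
      change f' = τ 1 f'
      rw [map_one]
      rfl
    rw [h2]
    exact 𝔐.sub_mem h1 (𝔐.sum_mem fun γ hγ => hout _ (hTout γ hγ))
  have hu0 : u ≠ 0 := by
    intro h0
    apply hu𝔐
    have : (⟨u, huD⟩ : DM) = 0 := Subtype.ext h0
    rw [this]
    exact 𝔐.zero_mem
  let ℓ0 : M := ∑ i, e i (w i)
  have hτℓ : ∀ g, τ g ℓ0 = ∑ i, e i (σ i g (w i)) := by
    intro g
    change τ g (∑ i, e i (w i)) = _
    rw [map_sum]
    exact Finset.sum_congr rfl fun i _ => hτ g i _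
  have hzce : ∀ i (c : ZMod p), e i (zc p (E i) c) = zc p M c := fun i c =>
    RingHom.congr_fun (RingHom.ext_zmod ((e i : E i →+* M).comp (zc p (E i))) (zc p M)) c
  have hℓI : ∀ g ∈ HI, τ g ℓ0 = ℓ0 + zc p M (χ g) := by
    intro g hg
    rw [hτℓ, hχlam g hg, map_sum]
    change _ = ∑ i, e i (w i) + _
    rw [← Finset.sum_add_distrib]
    refine Finset.sum_congr rfl fun i _ => ?_
    rw [hw i _ (hg.2 i), map_add, hzce]
  let φ : H → M := fun γ => τ γ.1 f' * (τ γ.1 ℓ0 - zc p M (χ γ.1))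
  have hfHI : ∀ g ∈ HI, τ g f' = f' := by
    intro g hg
    rw [hτf]
    exact Finset.prod_congr rfl fun i _ => by rw [hfI i _ (hg.2 i)]
  have hφ : ∀ γ : H, ∀ ι ∈ HI.subgroupOf H, φ (γ * ι) = φ γ := by
    intro γ ι hι
    rw [Subgroup.mem_subgroupOf] at hι
    change τ (γ.1 * ι.1) f' * (τ (γ.1 * ι.1) ℓ0 - zc p M (χ (γ.1 * ι.1))) = _
    rw [map_mul, hχ _ γ.2 _ ι.2]
    change τ γ.1 (τ ι.1 f') * (τ γ.1 (τ ι.1 ℓ0) - _) = _
    rw [hfHI _ hι, hℓI _ hι, map_add (τ γ.1), zc_fix, map_add]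
    change _ = τ γ.1 f' * (τ γ.1 ℓ0 - zc p M (χ γ.1))
    ring
  have hψ : ∀ γ : H, ∀ ι ∈ HI.subgroupOf H, τ (γ * ι : H).1 f' = τ γ.1 f' := by
    intro γ ι hι
    rw [Subgroup.mem_subgroupOf] at hι
    change τ (γ.1 * ι.1) f' = _
    rw [map_mul]
    change τ γ.1 (τ ι.1 f') = _
    rw [hfHI _ hι]
  have huH : ∀ g ∈ H, τ g u = u := by
    intro g hg
    have h1 := hTs M (fun γ : H => τ γ.1 f') hψ ⟨g, hg⟩
    change τ g (∑ γ ∈ T, τ γ.1 f') = ∑ γ ∈ T, τ γ.1 f'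
    rw [map_sum]
    refine Eq.trans (Finset.sum_congr rfl fun γ _ => ?_) h1
    change _ = τ (g * γ.1) f'
    rw [map_mul]
    rfl
  let N : M := ∑ γ ∈ T, φ γ
  have hNH : ∀ g ∈ H, τ g N = N + zc p M (χ g) * u := by
    intro g hg
    have h1 := hTs M φ hφ ⟨g, hg⟩
    have h2 : zc p M (χ g) * u = zc p M (χ g) * τ g u := by rw [huH g hg]
    have h3 : τ g (∑ γ ∈ T, φ γ) = ∑ γ ∈ T, (φ (⟨g, hg⟩ * γ) +
        zc p M (χ g) * τ g (τ γ.1 f')) := by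
      rw [map_sum (τ g)]
      refine Finset.sum_congr rfl fun γ _ => ?_
      change τ g (τ γ.1 f' * (τ γ.1 ℓ0 - zc p M (χ γ.1))) =
        τ (g * γ.1) f' * (τ (g * γ.1) ℓ0 - zc p M (χ (g * γ.1))) + zc p M (χ g) * τ g (τ γ.1 f')
      rw [map_mul (τ g), map_sub, zc_fix, hχ _ hg _ γ.2, map_mul τ, map_add]
      change _ = τ g (τ γ.1 f') * (τ g (τ γ.1 ℓ0) - _) + _
      ring
    change τ g (∑ γ ∈ T, φ γ) = ∑ γ ∈ T, φ γ + zc p M (χ g) * u
    rw [h3, Finset.sum_add_distrib, h1, h2, ← Finset.mul_sum]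
    congr 2
    change _ = τ g (∑ γ ∈ T, τ γ.1 f')
    rw [map_sum]
  -- the generator
  let ℓ : M := u⁻¹ * N
  have hℓdiff : ℓ - ℓ0 = u⁻¹ * ∑ γ ∈ T.erase 1, τ γ.1 f' *
      (∑ i, e i (σ i γ.1 (w i) - w i) - zc p M (χ γ.1)) := by
    have h1 : N - u * ℓ0 = ∑ γ ∈ T.erase 1, τ γ.1 f' *
      (∑ i, e i (σ i γ.1 (w i) - w i) - zc p M (χ γ.1)) := by
      change ∑ γ ∈ T, φ γ - (∑ γ ∈ T, τ γ.1 f') * ℓ0 = _
      rw [Finset.sum_mul, ← Finset.sum_sub_distrib, ← Finset.add_sum_erase _ _ hT1]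
      have h2 : φ 1 - τ (1 : H).1 f' * ℓ0 = 0 := by
        change τ 1 f' * (τ 1 ℓ0 - zc p M (χ 1)) - τ 1 f' * ℓ0 = 0
        rw [map_one, hχ1, map_zero]
        change f' * (ℓ0 - 0) - f' * ℓ0 = 0
        ring
      rw [h2, zero_add]
      refine Finset.sum_congr rfl fun γ _ => ?_
      change τ γ.1 f' * (τ γ.1 ℓ0 - zc p M (χ γ.1)) - τ γ.1 f' * ℓ0 = _
      have h3 : ∑ i, e i (σ i γ.1 (w i) - w i) = τ γ.1 ℓ0 - ℓ0 := by
        rw [hτℓ]
        change _ = _ - ∑ i, e i (w i)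
        rw [← Finset.sum_sub_distrib]
        exact Finset.sum_congr rfl fun i _ => map_sub _ _ _
      rw [h3]
      ring
    rw [← h1, mul_sub, ← mul_assoc, inv_mul_cancel₀ hu0, one_mul]
  have hdO : ℓ - ℓ0 ∈ locO DM 𝔐 := by
    rw [hℓdiff]
    refine (locO DM 𝔐).mul_mem (inv_locO (s := ⟨u, huD⟩) hu𝔐) ?_
    refine (locO DM 𝔐).sum_mem fun γ hγ => ?_
    rw [mul_sub, Finset.mul_sum]
    refine Subalgebra.sub_mem _ ((locO DM 𝔐).sum_mem fun i _ => ?_) ?_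
    · by_cases hi : σ i γ.1 ∈ J i
      · have h1 : σ i γ.1 (w i) - w i = algebraMap k (E i) (zc p k (lam i (σ i γ.1))) := by
          rw [hw i _ hi, add_sub_cancel_left, zc_alg]
        rw [h1, AlgHom.commutes]
        exact (locO DM 𝔐).mul_mem (le_locO (hτfD _)) ((locO DM 𝔐).algebraMap_mem _)
      · rw [hτf, ← Finset.mul_prod_erase _ _ (Finset.mem_univ i), mul_right_comm, ← map_mul]
        refine (locO DM 𝔐).mul_mem (hVO i _ ?_) (le_locO (DM.prod_mem fun l _ =>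
          he l _ (hσD l _ _ (hfD l))))
        rw [← v_le, map_mul]
        refine le_trans (mul_le_mul_left (hfγ i _ ⟨γ.1, rfl⟩ hi) _) ?_
        rw [← map_mul]
        exact hdw i _
    · rw [← zc_alg (k := k)]
      exact (locO DM 𝔐).mul_mem (le_locO (hτfD _)) ((locO DM 𝔐).algebraMap_mem _)
  refine ⟨ℓ, ?_, c, ?_⟩
  · intro g hg
    change τ g (u⁻¹ * N) = u⁻¹ * N + _
    rw [map_mul, map_inv₀, huH g hg, hNH g hg, mul_add, mul_comm (zc p M (χ g)) u, ← mul_assoc u⁻¹ u,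
      inv_mul_cancel₀ hu0, one_mul]
  · have h1 : ℓ ^ p - ℓ - ∑ i, algebraMap k M (c i) * e i (b i) =
        ((ℓ - ℓ0) ^ p - (ℓ - ℓ0)) +
          ∑ i, e i (w i ^ p - w i - algebraMap k (E i) (c i) * b i) := by
      have h2 : ∑ i, e i (w i ^ p - w i - algebraMap k (E i) (c i) * b i) =
          ℓ0 ^ p - ℓ0 - ∑ i, algebraMap k M (c i) * e i (b i) := by
        change _ = (∑ i, e i (w i)) ^ p - ∑ i, e i (w i) - _
        rw [sum_pow_char, ← Finset.sum_sub_distrib, ← Finset.sum_sub_distrib]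
        refine Finset.sum_congr rfl fun i _ => ?_
        rw [map_sub, map_sub, map_pow, map_mul, AlgHom.commutes]
      rw [h2, sub_pow_char]
      ring
    rw [h1]
    exact (locO DM 𝔐).add_mem (Subalgebra.sub_mem _ ((locO DM 𝔐).pow_mem hdO p) hdO)
      ((locO DM 𝔐).sum_mem fun i _ => hVO i _ (hwc i))

end main

end Pool.Agent.Zk10.Ram
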