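import Pool.Agent.Zk10.R6
import Pool.Agent.Zk10.K10

/-!
From the points of the product to the condition for the step of the tower.
-/

set_option autoImplicit false
set_option linter.unusedVariables false
set_option linter.unusedSectionVars false

universe u

namespace Pool.Agent.Zk10.Ram

open Pool.Agent.W558 Pool.Agent.W435.WT.Gal nonZeroDivisors Polynomial Pool.Agent.Zk10

section val

variable {K : Type u} [Field K] {V : ValuationSubring K}

lemma v_lt_iff {x : K} : V.valuation x < 1 ↔ x = 0 ∨ x⁻¹ ∉ V := by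
  by_cases h0 : x = 0
  · simp [h0]
  · rw [← v_le (V := V) (x := x⁻¹), map_inv₀, not_le,
      one_lt_inv₀ (zero_lt_iff.2 ((Valuation.ne_zero_iff _).2 h0))]
    simp [h0]

lemma v_comap_lt {L : Type u} [Field L] {W : ValuationSubring L} {f : K →+* L} {x : K} :
    (W.comap f).valuation x < 1 ↔ W.valuation (f x) < 1 := by
  rw [v_lt_iff, v_lt_iff, ValuationSubring.mem_comap, map_inv₀, _root_.map_eq_zero]

end val

section res

variable {k M : Type u} [Field k] [IsAlgClosed k] [Field M] [Algebra k M] {S DM : Subalgebra k M}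

/-- The residue fields of the maximal ideals. -/
lemma exists_residue [Algebra.FiniteType k S] (hSD : S ≤ DM)
    (hint : ∀ x ∈ DM, IsIntegral S x) (𝔐 : Ideal DM) [h𝔐 : 𝔐.IsMaximal] (x : DM) :
    ∃ c : k, x - algebraMap k DM c ∈ 𝔐 := by
  let j : S →ₐ[k] DM := Subalgebra.inclusion hSD
  let _ : Algebra S DM := j.toRingHom.toAlgebra
  have tw : IsScalarTower k S DM := IsScalarTower.of_algebraMap_eq fun _ => rfl
  have hintD : ∀ x : DM, IsIntegral S x := by
    intro x
    obtain ⟨P, hP, hP0⟩ := hint x x.2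
    refine ⟨P, hP, ?_⟩
    apply Subtype.val_injective
    have h1 : (algebraMap S M) = (DM.val : DM →+* M).comp (algebraMap S DM) := rfl
    rw [h1] at hP0
    exact (hom_eval₂ P (algebraMap S DM) (DM.val : DM →+* M) x).trans hP0
  have hI : Algebra.IsIntegral S DM := ⟨hintD⟩
  have h𝔪 : (𝔐.comap (algebraMap S DM)).IsMaximal :=
    Ideal.isMaximal_comap_of_isIntegral_of_isMaximal 𝔐
  set 𝔪 := 𝔐.comap (algebraMap S DM)
  let _ : Field (S ⧸ 𝔪) := Ideal.Quotient.field 𝔪
  have hfin : Module.Finite k (S ⧸ 𝔪) := finite_of_finite_type_of_isJacobsonRing k (S ⧸ 𝔪)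
  have hbij : Function.Bijective (algebraMap k (S ⧸ 𝔪)) :=
    IsAlgClosed.algebraMap_bijective_of_isIntegral
  have hS : ∀ a : S, ∃ c : k, j a - algebraMap k DM c ∈ 𝔐 := by
    intro a
    obtain ⟨c, hc⟩ := hbij.2 (Ideal.Quotient.mk 𝔪 a)
    refine ⟨c, ?_⟩
    have h1 : Ideal.Quotient.mk 𝔪 (a - algebraMap k S c) = 0 := by
      rw [map_sub, ← hc, sub_eq_zero]
      rfl
    rw [Ideal.Quotient.eq_zero_iff_mem] at h1
    have h2 : algebraMap S DM (a - algebraMap k S c) ∈ 𝔐 := h1
    rw [map_sub, ← IsScalarTower.algebraMap_apply] at h2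
    exact h2
  choose g hg using hS
  let _ : Field (DM ⧸ 𝔐) := Ideal.Quotient.field 𝔐
  have hintk : Algebra.IsIntegral k (DM ⧸ 𝔐) := by
    constructor
    intro y
    obtain ⟨y, rfl⟩ := Ideal.Quotient.mk_surjective y
    obtain ⟨P, hP, hP0⟩ := hintD y
    have hQ : P.map ((Ideal.Quotient.mk 𝔐).comp (algebraMap S DM)) ∈
        lifts (algebraMap k (DM ⧸ 𝔐)) := by
      rw [lifts_iff_coeff_lifts]
      intro n
      rw [coeff_map]
      refine ⟨g (P.coeff n), ?_⟩
      have h1 := (Ideal.Quotient.eq_zero_iff_mem).2 (hg (P.coeff n))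
      rw [map_sub, sub_eq_zero] at h1
      exact h1.symm
    obtain ⟨Q, hQ, -, hQm⟩ := lifts_and_natDegree_eq_and_monic hQ (hP.map _)
    refine ⟨Q, hQm, ?_⟩
    rw [← eval_map, hQ, eval_map, ← hom_eval₂, hP0, map_zero]
  have hbij' : Function.Bijective (algebraMap k (DM ⧸ 𝔐)) :=
    IsAlgClosed.algebraMap_bijective_of_isIntegral
  obtain ⟨c, hc⟩ := hbij'.2 (Ideal.Quotient.mk 𝔐 x)
  refine ⟨c, ?_⟩
  rw [← Ideal.Quotient.eq_zero_iff_mem, map_sub, ← hc, sub_eq_zero]
  rfl

end res

section kil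

variable {k M : Type u} [Field k] [Field M] [Algebra k M] {G : Type} [Group G]

/-- The field of invariants of a subgroup. -/
def fixH (τ : G →* (M ≃ₐ[k] M)) (H : Subgroup G) : IntermediateField k M where
  carrier := {y | ∀ g ∈ H, τ g y = y}
  mul_mem' := fun ha hb g hg => by rw [map_mul, ha g hg, hb g hg]
  add_mem' := fun ha hb g hg => by rw [map_add, ha g hg, hb g hg]
  algebraMap_mem' := fun c g _ => (τ g).commutes c
  inv_mem' := fun a ha g hg => by rw [map_inv₀, ha g hg]

lemma mem_fixH {τ : G →* (M ≃ₐ[k] M)} {H : Subgroup G} {y : M} :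
    y ∈ fixH τ H ↔ ∀ g ∈ H, τ g y = y := Iff.rfl

variable [IsAlgClosed k] {n : ℕ} {E : Fin n → Type u}
  [∀ i, Field (E i)] [∀ i, Algebra k (E i)] (e : ∀ i, E i →ₐ[k] M)
  [Finite G] (τ : G →* (M ≃ₐ[k] M)) (σ : ∀ i, G →* (E i ≃ₐ[k] E i))
  (hτ : ∀ g i x, τ g (e i x) = e i (σ i g x)) (p : ℕ) [Fact p.Prime] [CharP k p] [CharP M p]
  [∀ i, CharP (E i) p]

include hτ in
/-- The condition for the step. -/
theorem kil_H {L0 : Type u} [Field L0] [Algebra k L0] (H : Subgroup G)
    (ρ : L0 →ₐ[k] fixH τ H) (hρ : ∀ (g : G) x, τ g (ρ x : M) = ρ x) (S : Subalgebra k L0)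
    [Algebra.FiniteType k S] {b : ∀ i, E i} {b0 : Fin n → L0}
    (hb0 : ∀ i, (ρ (b0 i) : M) = e i (b i)) {D : ∀ i, Subalgebra k (E i)}
    (hfin : ∀ i, Finite (σ i).range)
    (hPD : ∀ i (V : ValuationSubring (E i)), (∀ x ∈ D i, x ∈ V) → V ≠ ⊤ →
      (∀ x ∈ D i, ∃ c : k, V.valuation (x - algebraMap k (E i) c) < 1) →
      PD p (σ i).range (D i) V (b i))
    (hD : ∀ i, ∀ x ∈ D i, IsInt ((fixH τ H).val.comp ρ) S (e i x))
    (hDn : ∀ i, ∃ y ∈ D i, ∀ c : k, y ≠ algebraMap k (E i) c)
    (hσD : ∀ i g, ∀ x ∈ D i, σ i g x ∈ D i)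
    (χ : G → ZMod p) (hχ : ∀ g ∈ H, ∀ h ∈ H, χ (g * h) = χ g + χ h)
    (hχ0 : ∀ g ∈ H, (∀ i, σ i g = 1) → χ g = 0) (z : M)
    (hz : ∀ g ∈ H, τ g z = z + zc p M (χ g)) (F : fixH τ H) (hF : (F : M) = z ^ p - z) :
    KIL p ρ S b0 F := by
  classical
  have hp : p.Prime := Fact.out
  let L := fixH τ H
  let ρM : L0 →ₐ[k] M := L.val.comp ρ
  have hρM : ∀ x, ρM x = (ρ x : M) := fun x => rfl
  -- the integral closure in `M`
  let f : S →+* M := (ρM : L0 →+* M).comp (algebraMap S L0)
  let DM : Subalgebra k M :=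
    { carrier := {x | f.IsIntegralElem x}
      mul_mem' := fun ha hb => RingHom.IsIntegralElem.mul f ha hb
      add_mem' := fun ha hb => RingHom.IsIntegralElem.add f ha hb
      algebraMap_mem' := fun c => by
        have h1 : algebraMap k M c = f (algebraMap k S c) := by
          change _ = ρM (algebraMap k L0 c)
          rw [AlgHom.commutes]
        rw [h1]
        exact RingHom.isIntegralElem_map f }
  have hDM : ∀ x : M, x ∈ DM ↔ IsInt ρM S x := fun x => Iff.rfl
  have hL : ∀ x : L, IsInt ρ S x ↔ (x : M) ∈ DM := fun x =>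
    (isInt_map (K := M) (ρ := ρ) (S := S) (g := x)).symm
  -- the group acts
  have hτD : ∀ g, ∀ x ∈ DM, τ g x ∈ DM := by
    rintro g x ⟨P, hP, hP0⟩
    refine ⟨P, hP, ?_⟩
    have h1 : (τ g : M →+* M).comp f = f := RingHom.ext fun s => hρ g s
    have h2 := congrArg (τ g : M →+* M) hP0
    rw [hom_eval₂, h1, map_zero] at h2
    exact h2
  let S' : Subalgebra k M := S.map ρM
  have hS'D : S' ≤ DM := by
    rintro _ ⟨s, hs, rfl⟩
    exact RingHom.isIntegralElem_map f (x := ⟨s, hs⟩)
  have hS'ft : Algebra.FiniteType k S' := by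
    have h1 := Subalgebra.fg_iff_finiteType S |>.2 inferInstance
    exact (Subalgebra.fg_iff_finiteType _).1 (h1.map ρM)
  have hint : ∀ x ∈ DM, IsIntegral S' x := by
    rintro x ⟨P, hP, hP0⟩
    let φ : S →+* S' := (f.codRestrict S' fun s => ⟨s, s.2, rfl⟩)
    refine ⟨P.map φ, hP.map φ, ?_⟩
    rw [eval₂_map]
    exact hP0
  -- the invariants
  let DH : Subalgebra k L := DM.comap L.val
  have hDH : ∀ x : L, x ∈ DH ↔ (x : M) ∈ DM := fun x => Iff.rfl
  let Q : Set DH := {s | ∃ (a : L) (c : Fin n → k),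
    (s : L) * (F - (a ^ p - a + ∑ i, algebraMap k L (c i) * ρ (b0 i))) ∈ DH}
  have hQ : Ideal.span Q = ⊤ := by
    by_contra hne
    obtain ⟨𝔪, hm, hle⟩ := Ideal.exists_le_maximal _ hne
    -- the maximal ideal of `DM`
    let j : DH →ₐ[k] DM :=
      { toFun := fun x => ⟨((x : L) : M), x.2⟩
        map_one' := rfl
        map_mul' := fun _ _ => rfl
        map_zero' := rfl
        map_add' := fun _ _ => rfl
        commutes' := fun _ => rfl }
    let _ : Algebra DH DM := j.toRingHom.toAlgebra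
    have hinjj : Function.Injective (algebraMap DH DM) := by
      intro x y hxy
      apply Subtype.ext
      apply Subtype.ext
      exact congrArg (fun t : DM => (t : M)) hxy
    have hI : Algebra.IsIntegral DH DM := by
      constructor
      intro x
      obtain ⟨P, hP, hP0⟩ := x.2
      let φ : S →+* DH :=
        { toFun := fun s => ⟨ρ s, hS'D ⟨s, s.2, rfl⟩⟩
          map_one' := Subtype.ext (map_one ρ)
          map_mul' := fun _ _ => Subtype.ext (map_mul ρ _ _)
          map_zero' := Subtype.ext (map_zero ρ)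
          map_add' := fun _ _ => Subtype.ext (map_add ρ _ _) }
      refine ⟨P.map φ, hP.map φ, ?_⟩
      rw [eval₂_map]
      apply Subtype.val_injective
      have h1 : f = (DM.val : DM →+* M).comp ((algebraMap DH DM).comp φ) := rfl
      rw [h1] at hP0
      have h2 := hom_eval₂ P ((algebraMap DH DM).comp φ) (DM.val : DM →+* M) x
      exact h2.trans hP0
    obtain ⟨𝔐, h𝔐m, h𝔐⟩ := Ideal.exists_ideal_over_maximal_of_isIntegral (S := DM) 𝔪 (by
      rw [(RingHom.injective_iff_ker_eq_bot _).1 hinjj]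
      exact bot_le)
    have h𝔐p : 𝔐.IsPrime := h𝔐m.isPrime
    have hres := exists_residue hS'D hint 𝔐
    -- the valuation
    obtain ⟨W, hW1, hW2⟩ := Ideal.image_subset_nonunits_valuationSubring
      (A := DM.toSubring) (𝔐 : Ideal DM.toSubring) h𝔐m.ne_top
    have hWD : ∀ x ∈ DM, x ∈ W := fun x hx => hW1 hx
    have hkW : ∀ c : k, algebraMap k M c ∈ W := fun c => hWD _ (DM.algebraMap_mem c)
    have hW𝔐 : ∀ x : DM, x ∈ 𝔐 → W.valuation (x : M) < 1 := fun x hx =>
      (ValuationSubring.mem_nonunits_iff W).1 (hW2 ⟨x, hx, rfl⟩)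
    have hWiff : ∀ x : DM, x ∈ 𝔐 ↔ W.valuation (x : M) < 1 := by
      intro x
      refine ⟨hW𝔐 x, fun hx => ?_⟩
      obtain ⟨c, hc⟩ := hres x
      by_cases hc0 : c = 0
      · rw [hc0, map_zero, sub_zero] at hc
        exact hc
      · exfalso
        have h1 := hW𝔐 _ hc
        have h2 : (x : M) = algebraMap k M c + ((x - algebraMap k DM c : DM) : M) := by
          change (x : M) = algebraMap k M c + ((x : M) - algebraMap k M c)
          ring
        rw [h2, v_add (v_k hkW hc0) h1] at hx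
        exact lt_irrefl _ hx
    let V : ∀ i, ValuationSubring (E i) := fun i => W.comap (e i : E i →+* M)
    have he : ∀ i, ∀ x ∈ D i, e i x ∈ DM := fun i x hx => hD i x hx
    have hVD : ∀ i, ∀ x ∈ D i, x ∈ V i := fun i x hx => hWD _ (he i x hx)
    have hVres : ∀ i, ∀ x ∈ D i, ∃ c : k, (V i).valuation (x - algebraMap k (E i) c) < 1 := by
      intro i x hx
      obtain ⟨c, hc⟩ := hres ⟨e i x, he i x hx⟩
      refine ⟨c, ?_⟩
      rw [v_comap_lt]
      change W.valuation (e i (x - algebraMap k (E i) c)) < 1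
      rw [map_sub, AlgHom.commutes]
      exact hW𝔐 _ hc
    have hVtop : ∀ i, V i ≠ ⊤ := by
      intro i htop
      obtain ⟨y, hy, hyc⟩ := hDn i
      obtain ⟨c, hc⟩ := hVres i y hy
      rw [v_lt_iff] at hc
      rcases hc with hc | hc
      · exact hyc c (sub_eq_zero.1 hc)
      · apply hc
        rw [htop]
        exact ValuationSubring.mem_top _
    have hPD' := fun i => hPD i (V i) (hVD i) (hVtop i) (hVres i)
    obtain ⟨ℓ, hℓ, c, hℓc⟩ := local_gen e τ σ hτ p hfin hPD' DM 𝔐 he (by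
      intro i x hx
      rw [hWiff, v_comap_lt]
      rfl) hσD H χ hχ hχ0
    let a : L := ⟨z - ℓ, fun g hg => by
      rw [map_sub, hz g hg, hℓ g hg]
      ring⟩
    let y : L := F - (a ^ p - a + ∑ i, algebraMap k L (c i) * ρ (b0 i))
    have hy : (y : M) = ℓ ^ p - ℓ - ∑ i, algebraMap k M (c i) * e i (b i) := by
      have h1 : (y : M) = (F : M) - ((z - ℓ) ^ p - (z - ℓ) +
          ∑ i, algebraMap k M (c i) * (ρ (b0 i) : M)) := by
        change L.val y = _
        change L.val (F - (a ^ p - a + ∑ i, algebraMap k L (c i) * ρ (b0 i))) = _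
        rw [map_sub, map_add, map_sub, map_pow, map_sum]
        congr 2
      rw [h1, hF, sub_pow_char]
      simp only [hb0]
      ring
    have hyL : ∀ g ∈ H, τ g (y : M) = y := y.2
    -- the conductor
    let 𝔠 : Ideal DM :=
      { carrier := {s | (s : M) * y ∈ DM}
        zero_mem' := by
          change (0 : M) * y ∈ DM
          rw [zero_mul]; exact DM.zero_mem
        add_mem' := fun {s t} hs ht => by
          change ((s : M) + t) * y ∈ DM
          rw [add_mul]; exact DM.add_mem hs ht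
        smul_mem' := fun s {t} ht => by
          change ((s : M) * t) * y ∈ DM
          rw [mul_assoc]; exact DM.mul_mem s.2 ht }
    have h𝔠 : ∀ s : DM, s ∈ 𝔠 ↔ (s : M) * y ∈ DM := fun s => Iff.rfl
    have hc1 : ¬ 𝔠 ≤ 𝔐 := by
      rw [← hy] at hℓc
      obtain ⟨s, hs, hsy⟩ := hℓc
      exact fun h => hs (h hsy)
    have : Fintype H := Fintype.ofFinite H
    let τD : H → DM →+* DM := fun h =>
      { toFun := fun x => ⟨τ h.1 x, hτD h.1 x x.2⟩
        map_one' := Subtype.ext (map_one (τ h.1))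
        map_mul' := fun _ _ => Subtype.ext (map_mul (τ h.1) _ _)
        map_zero' := Subtype.ext (map_zero (τ h.1))
        map_add' := fun _ _ => Subtype.ext (map_add (τ h.1) _ _) }
    have hsub : (𝔠 : Set DM) ⊆ ⋃ h ∈ ((Finset.univ : Finset H) : Set H),
        ((𝔐.comap (τD h) : Ideal DM) : Set DM) := by
      intro s hs
      by_contra hcon
      simp only [Set.mem_iUnion, not_exists] at hcon
      have hcon' : ∀ h : H, τD h s ∉ 𝔐 := fun h hh =>
        hcon h (by simp) hh
      -- the norm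
      let N : L := ⟨∏ h : H, τ h.1 (s : M), fun g hg => by
        rw [map_prod]
        exact Fintype.prod_equiv (Equiv.mulLeft (⟨g, hg⟩ : H)) _ _ fun h => by
          change τ g (τ h.1 (s : M)) = τ (g * h.1) (s : M)
          rw [map_mul]
          rfl⟩
      have hND : (N : M) ∈ DM := DM.prod_mem fun h _ => hτD _ _ s.2
      have hNc : (N : M) * y ∈ DM := by
        change (∏ h : H, τ h.1 (s : M)) * y ∈ DM
        rw [← Finset.mul_prod_erase _ _ (Finset.mem_univ (1 : H)), mul_right_comm]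
        refine DM.mul_mem ?_ (DM.prod_mem fun h _ => hτD _ _ s.2)
        have h1 : τ (1 : H).1 (s : M) = s := by
          change τ 1 (s : M) = s
          rw [map_one]
          rfl
        rw [h1]
        exact hs
      have hNm : (⟨N, hND⟩ : DH) ∈ 𝔪 := hle (Ideal.subset_span ⟨a, c, hNc⟩)
      rw [← h𝔐] at hNm
      have h2 : algebraMap DH DM (⟨N, hND⟩ : DH) = ∏ h : H, τD h s := by
        apply Subtype.ext
        change (N : M) = DM.val (∏ h : H, τD h s)
        rw [map_prod]
        rfl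
      rw [Ideal.mem_comap, h2, Ideal.IsPrime.prod_mem_iff] at hNm
      obtain ⟨h, -, hh⟩ := hNm
      exact hcon' h hh
    obtain ⟨h, -, hh⟩ := (Ideal.subset_union_prime (1 : H) 1 (fun i _ _ _ =>
      Ideal.IsPrime.comap (τD i))).1 hsub
    apply hc1
    intro s hs
    have h1 : τD h⁻¹ s ∈ 𝔠 := by
      rw [h𝔠] at hs ⊢
      change τ (h⁻¹ : H).1 (s : M) * y ∈ DM
      have h2 : (y : M) = τ (h⁻¹ : H).1 y := (hyL _ (h⁻¹ : H).2).symm
      rw [h2, ← map_mul]
      exact hτD _ _ hs
    have h3 := hh h1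
    rw [Ideal.mem_comap] at h3
    have h4 : τD h (τD h⁻¹ s) = s := by
      apply Subtype.ext
      change τ h.1 (τ (h⁻¹ : H).1 (s : M)) = s
      have h5 : τ h.1 (τ (h⁻¹ : H).1 (s : M)) = (τ h.1 * τ (h⁻¹ : H).1) (s : M) := rfl
      rw [h5, ← map_mul]
      change τ (h.1 * h.1⁻¹) (s : M) = s
      rw [mul_inv_cancel, map_one]
      rfl
    rwa [h4] at h3
  -- the partition of unity
  have h1 : (1 : DH) ∈ Ideal.span Q := by rw [hQ]; trivial
  obtain ⟨m, α, s, hsum⟩ := Submodule.mem_span_set'.1 h1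
  refine ⟨m, fun v => ((s v : DH) : L), fun v => (α v : L), fun v => (hL _).2 (s v : DH).2,
    fun v => (hL _).2 (α v).2, ?_, ?_⟩
  · have h2 := congrArg (fun x : DH => (x : L)) hsum
    change ((∑ i, α i • (s i : DH) : DH) : L) = 1 at h2
    rw [← h2, AddSubmonoidClass.coe_finsetSum]
    rfl
  · intro v
    obtain ⟨a, c, hac⟩ := (s v).2
    exact ⟨a, c, (hL _).2 hac⟩

end kil

end Pool.Agent.Zk10.Ram
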