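import Pool.Agent.Zk10.C5
import Pool.Agent.TH214.Q.Main

/-!
Actions of finite groups on tensor products and their fraction fields.
-/

set_option autoImplicit false
set_option linter.unusedVariables false
set_option linter.unusedSectionVars false

universe u

namespace Pool.Agent.Zk10.Act

open Pool.Agent.W558 Pool.Agent.W558.WT Polynomial TensorProduct

section lift

variable {k A : Type u} [Field k] [CommRing A] [IsDomain A] [Algebra k A] (K : Type u) [Field K]
  [Algebra k K] [Algebra A K] [IsScalarTower k A K] [IsFractionRing A K] {G : Type} [Group G]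
  (ρ : G →* (A ≃ₐ[k] A))

/-- The action on the fraction field. -/
noncomputable def lf : G →* (K ≃ₐ[k] K) :=
  MonoidHom.mk' (fun g => IsFractionRing.algEquivOfAlgEquiv (ρ g)) (by
    intro g h
    apply AlgEquiv.ext
    intro y
    obtain ⟨a, b, hb, rfl⟩ := IsFractionRing.div_surjective (A := A) y
    rw [AlgEquiv.mul_apply, map_div₀, map_div₀, map_div₀]
    simp only [IsFractionRing.algEquivOfAlgEquiv_algebraMap, map_mul, AlgEquiv.mul_apply])

lemma lf_app (g : G) (a : A) : lf K ρ g (algebraMap A K a) = algebraMap A K (ρ g a) :=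
  IsFractionRing.algEquivOfAlgEquiv_algebraMap _ _

lemma lf_one {g : G} (h : lf K ρ g = 1) : ρ g = 1 := by
  apply AlgEquiv.ext
  intro a
  apply IsFractionRing.injective A K
  rw [← lf_app, h]
  rfl

variable {K ρ}

/-- Fractions of invariants. -/
lemma lf_fri [Finite G] {y : K} (hy : ∀ g, lf K ρ g y = y) :
    ∃ a b : A, (∀ g, ρ g a = a) ∧ (∀ g, ρ g b = b) ∧ b ≠ 0 ∧
      y * algebraMap A K b = algebraMap A K a := by
  classical
  have := Fintype.ofFinite G
  have hinj : Function.Injective (algebraMap A K) := IsFractionRing.injective A K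
  obtain ⟨a₀, b₀, hb₀, rfl⟩ := IsFractionRing.div_surjective (A := A) y
  have hb0 : b₀ ≠ 0 := nonZeroDivisors.ne_zero hb₀
  have hb' : algebraMap A K b₀ ≠ 0 := by
    intro h
    exact hb0 (hinj (by rw [h, map_zero]))
  set N : A := ∏ g, ρ g b₀ with hN
  set b' : A := ∏ g ∈ Finset.univ.erase (1 : G), ρ g b₀ with hb''
  have hNb : N = b₀ * b' := by
    rw [hN, hb'', ← Finset.mul_prod_erase Finset.univ _ (Finset.mem_univ (1 : G)), map_one]
    rfl
  have hNi : ∀ g, ρ g N = N := by
    intro g
    rw [hN, map_prod]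
    refine Fintype.prod_equiv (Equiv.mulLeft g) _ _ fun g' => ?_
    rw [Equiv.coe_mulLeft, map_mul]
    rfl
  have hyN : algebraMap A K a₀ / algebraMap A K b₀ * algebraMap A K N =
      algebraMap A K (a₀ * b') := by
    rw [hNb, map_mul, map_mul]
    field_simp
  refine ⟨a₀ * b', N, fun g => ?_, hNi, ?_, hyN⟩
  · apply hinj
    rw [← lf_app, ← hyN, map_mul, hy, lf_app, hNi]
  · rw [hN]
    exact Finset.prod_ne_zero_iff.2 fun g _ => by
      rw [Ne, EmbeddingLike.map_eq_zero_iff]
      exact hb0

end lift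

section tp

variable {k : Type u} [Field k] {n : ℕ} {A : Fin n → Type u} [∀ i, CommRing (A i)]
  [∀ i, Algebra k (A i)] {B : Type u} [CommRing B] [Algebra k B] {j : ∀ i, A i →ₐ[k] B}
  (hj : IsTP j)

include hj in
/-- The action on the tensor product. -/
lemma exists_act {Γ : Type} [Group Γ] (r : ∀ i, Γ →* (A i ≃ₐ[k] A i)) :
    ∃ s : Γ →* (B ≃ₐ[k] B), ∀ g i a, s g (j i a) = j i (r i g a) := by
  choose f hf using fun g => hj.lift B fun i => (j i).comp (r i g : A i →ₐ[k] A i)
  have h1 : f 1 = 1 := by
    apply hj.ext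
    intro i a
    rw [hf, map_one]
    rfl
  have h2 : ∀ g h, f (g * h) = f g * f h := by
    intro g h
    apply hj.ext
    intro i a
    rw [hf, map_mul]
    change _ = f g (f h (j i a))
    rw [hf]
    change _ = f g (j i (r i h a))
    rw [hf]
    rfl
  let F : Γ →* (B →ₐ[k] B) := { toFun := f, map_one' := h1, map_mul' := h2 }
  refine ⟨(AlgEquiv.algHomUnitsEquiv k B).toMonoidHom.comp F.toHomUnits, fun g i a => ?_⟩
  exact hf g i a

end tp

end Pool.Agent.Zk10.Act
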