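import Pool.Agent.Zk10.S1

/-!
The invariants of a product of groups on a compositum.
-/

set_option autoImplicit false
set_option linter.unusedVariables false
set_option linter.unusedSectionVars false

universe u

namespace Pool.Agent.Zk10.Act

open Pool.Agent.W558 Pool.Agent.W558.WT Polynomial TensorProduct Pool.Agent.Zk10.Ram

section tr

variable {k E : Type u} [Field k] [Field E] [Algebra k E] {P : Type} [Group P] [Fintype P]
  (r : P →* (E ≃ₐ[k] E))

/-- An element with the trace `1`. -/
lemma exists_tr (hr : Function.Injective r) : ∃ c : E, ∑ g, r g c = 1 := by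
  classical
  obtain ⟨z, hz⟩ : ∃ z : E, ∑ g, r g z ≠ 0 := by
    by_contra hcon
    push Not at hcon
    let f : P → (E →* E) := fun g => ((r g : E ≃ₐ[k] E) : E →* E)
    have hf : Function.Injective f := by
      intro g h hgh
      apply hr
      apply AlgEquiv.ext
      intro x
      exact DFunLike.congr_fun hgh x
    have h1 := (linearIndependent_monoidHom E E).comp f hf
    rw [Fintype.linearIndependent_iff] at h1
    have h2 := h1 (fun _ => 1) (by
      funext z
      simp only [Function.comp_apply, one_smul, Finset.sum_apply, Pi.zero_apply]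
      exact hcon z) 1
    exact one_ne_zero h2
  refine ⟨z / ∑ g, r g z, ?_⟩
  have h3 : ∀ h, r h (∑ g, r g z) = ∑ g, r g z := by
    intro h
    rw [map_sum]
    refine Fintype.sum_equiv (Equiv.mulLeft h) _ _ fun g => ?_
    rw [Equiv.coe_mulLeft, map_mul]
    rfl
  have h4 : ∀ g, r g (z / ∑ g, r g z) = r g z / ∑ g, r g z := by
    intro g
    rw [map_div₀, h3]
  rw [Finset.sum_congr rfl fun g _ => h4 g, ← Finset.sum_div, div_self hz]

end tr

section comp

variable {k M : Type u} [Field k] [Field M] [Algebra k M] {n : ℕ} {K : Fin n → Type u}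
  [∀ i, Field (K i)] [∀ i, Algebra k (K i)] (e : ∀ i, K i →ₐ[k] M) {P : Fin n → Type}
  [∀ i, Group (P i)] [∀ i, Fintype (P i)] (r : ∀ i, P i →* (K i ≃ₐ[k] K i))
  (hr : ∀ i, Function.Injective (r i)) (τ : (∀ i, P i) →* (M ≃ₐ[k] M))
  (hτ : ∀ g i x, τ g (e i x) = e i (r i (g i) x))
  (hgen : ∀ M' : IntermediateField k M, (∀ i y, e i y ∈ M') → M' = ⊤)
  (F : ∀ i, IntermediateField k (K i)) (hF : ∀ i x, x ∈ F i ↔ ∀ g, r i g x = x)

include hr hτ hgen hF in
/-- The fixed field is the compositum of the fixed fields. -/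
theorem fix_comp : fixH τ ⊤ = IntermediateField.adjoin k {y | ∃ i, ∃ x ∈ F i, y = e i x} := by
  classical
  set L1 := IntermediateField.adjoin k {y | ∃ i, ∃ x ∈ F i, y = e i x} with hL1
  have hmem : ∀ i, ∀ x ∈ F i, e i x ∈ L1 := fun i x hx =>
    IntermediateField.subset_adjoin k _ ⟨i, x, hx, rfl⟩
  have hle : L1 ≤ fixH τ ⊤ := by
    rw [hL1, IntermediateField.adjoin_le_iff]
    rintro _ ⟨i, x, hx, rfl⟩
    intro g _
    rw [hτ, (hF i x).1 hx]
  refine le_antisymm (fun x hx => ?_) hle
  -- the products
  let φ : (∀ i, K i) →* M := ∏ i, ((e i : K i →* M).comp (Pi.evalMonoidHom K i))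
  have hφ : ∀ z, φ z = ∏ i, e i (z i) := by
    intro z
    rw [MonoidHom.finsetProd_apply]
    rfl
  have hφ1 : ∀ i y, e i y = φ (Function.update 1 i y) := by
    intro i y
    rw [hφ, Finset.prod_eq_single i]
    · rw [Function.update_self]
    · intro j _ hj
      rw [Function.update_of_ne hj, Pi.one_apply, map_one]
    · intro h
      exact absurd (Finset.mem_univ i) h
  -- the traces
  let T : M → M := fun y => ∑ g, τ g y
  have hTφ : ∀ z, T (φ z) ∈ L1 := by
    intro z
    have h1 : T (φ z) = ∏ i, e i (∑ g, r i g (z i)) := by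
      change ∑ g, τ g (φ z) = _
      have h2 : ∀ i, e i (∑ g, r i g (z i)) = ∑ g, e i (r i g (z i)) := fun i => map_sum _ _ _
      rw [Finset.prod_congr rfl fun i _ => h2 i, Finset.prod_univ_sum, Fintype.piFinset_univ]
      refine Finset.sum_congr rfl fun g _ => ?_
      rw [hφ, map_prod]
      exact Finset.prod_congr rfl fun i _ => hτ g i _
    rw [h1]
    refine prod_mem fun i _ => hmem i _ ((hF i _).2 fun h => ?_)
    rw [map_sum]
    refine Fintype.sum_equiv (Equiv.mulLeft h) _ _ fun g => ?_
    rw [Equiv.coe_mulLeft, map_mul]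
    rfl
  have hTadd : ∀ y z, T (y + z) = T y + T z := by
    intro y z
    change ∑ g, τ g (y + z) = ∑ g, τ g y + ∑ g, τ g z
    rw [← Finset.sum_add_distrib]
    exact Finset.sum_congr rfl fun g _ => map_add _ _ _
  have hTmul : ∀ c ∈ fixH τ ⊤, ∀ y, T (c * y) = c * T y := by
    intro c hc y
    change ∑ g, τ g (c * y) = c * ∑ g, τ g y
    rw [Finset.mul_sum]
    refine Finset.sum_congr rfl fun g _ => ?_
    rw [map_mul, hc g trivial]
  -- the algebra generated by the products
  have halg : ∀ i y, IsAlgebraic L1 (e i y) := by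
    intro i y
    let Q : (K i)[X] := ∏ g, (X - C (r i g y))
    have hQm : Q.Monic := monic_prod_of_monic _ _ fun g _ => monic_X_sub_C _
    have hQfix : ∀ h, Q.map ((r i h : K i ≃ₐ[k] K i) : K i →+* K i) = Q := by
      intro h
      change (∏ g, (X - C (r i g y))).map _ = _
      rw [Polynomial.map_prod]
      refine Fintype.prod_equiv (Equiv.mulLeft h) _ _ fun g => ?_
      rw [Polynomial.map_sub, map_X, map_C, Equiv.coe_mulLeft, map_mul]
      rfl
    have hc : ∀ l, Q.coeff l ∈ F i := by
      intro l
      rw [hF]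
      intro h
      conv_rhs => rw [← hQfix h, coeff_map]
      rfl
    have hQ0 : Q.eval y = 0 := by
      change (∏ g, (X - C (r i g y))).eval y = 0
      rw [eval_prod]
      refine Finset.prod_eq_zero (Finset.mem_univ 1) ?_
      rw [map_one, eval_sub, eval_X, eval_C]
      exact sub_self y
    have hl : Q.map (e i : K i →+* M) ∈ Polynomial.lifts (algebraMap L1 M) := by
      rw [Polynomial.lifts_iff_coeff_lifts]
      intro l
      rw [coeff_map]
      exact ⟨⟨_, hmem i _ (hc l)⟩, rfl⟩
    obtain ⟨q, hq, -, hqm⟩ := Polynomial.lifts_and_natDegree_eq_and_monic hl (hQm.map _)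
    refine IsIntegral.isAlgebraic ⟨q, hqm, ?_⟩
    rw [← Polynomial.eval_map, hq, Polynomial.eval_map]
    change eval₂ (e i : K i →+* M) ((e i : K i →+* M) y) Q = 0
    rw [Polynomial.eval₂_at_apply, hQ0, map_zero]
  let S0 : Set M := {y | ∃ i z, y = e i z}
  have hS0 : Algebra.adjoin L1 S0 = ⊤ := by
    have h1 : IntermediateField.adjoin L1 S0 = ⊤ := by
      have h2 := hgen ((IntermediateField.adjoin L1 S0).restrictScalars k) fun i y =>
        IntermediateField.subset_adjoin L1 S0 ⟨i, y, rfl⟩
      rw [eq_top_iff]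
      intro y _
      have h3 : y ∈ (IntermediateField.adjoin L1 S0).restrictScalars k := by
        rw [h2]; trivial
      exact h3
    rw [← IntermediateField.adjoin_toSubalgebra_of_isAlgebraic (by
      rintro _ ⟨i, z, rfl⟩
      exact halg i z), h1]
    rfl
  have hspan : ∀ y : M, y ∈ Submodule.span L1 (Set.range φ) := by
    intro y
    have h1 : Algebra.adjoin L1 (Set.range φ) = ⊤ := by
      rw [eq_top_iff, ← hS0]
      refine Algebra.adjoin_mono ?_
      rintro _ ⟨i, z, rfl⟩
      exact ⟨_, (hφ1 i z).symm⟩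
    have h2 := Algebra.adjoin_eq_span (R := L1) (s := Set.range φ)
    have h3 : Submonoid.closure (Set.range φ) = MonoidHom.mrange φ := by
      rw [← MonoidHom.coe_mrange, Submonoid.closure_eq]
    rw [h1, h3] at h2
    have h4 : y ∈ Subalgebra.toSubmodule (⊤ : Subalgebra L1 M) := trivial
    rw [h2] at h4
    exact h4
  have hT : ∀ y : M, T y ∈ L1 := by
    intro y
    refine Submodule.span_induction (p := fun y _ => T y ∈ L1) ?_ ?_ ?_ ?_ (hspan y)
    · rintro _ ⟨z, rfl⟩
      exact hTφ z
    · have : T 0 = 0 := by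
        change ∑ g, τ g 0 = 0
        exact Finset.sum_eq_zero fun g _ => map_zero _
      rw [this]
      exact L1.zero_mem
    · intro y z _ _ hy hz
      rw [hTadd]
      exact L1.add_mem hy hz
    · intro c y _ hy
      rw [Algebra.smul_def]
      change T ((c : M) * y) ∈ L1
      rw [hTmul _ (hle c.2)]
      exact L1.mul_mem c.2 hy
  -- the element with trace one
  choose c hc using fun i => exists_tr (r i) (hr i)
  have hTc : T (φ c) = 1 := by
    have h1 : T (φ c) = ∏ i, e i (∑ g, r i g (c i)) := by
      change ∑ g, τ g (φ c) = _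
      have h2 : ∀ i, e i (∑ g, r i g (c i)) = ∑ g, e i (r i g (c i)) := fun i => map_sum _ _ _
      rw [Finset.prod_congr rfl fun i _ => h2 i, Finset.prod_univ_sum, Fintype.piFinset_univ]
      refine Finset.sum_congr rfl fun g _ => ?_
      rw [hφ, map_prod]
      exact Finset.prod_congr rfl fun i _ => hτ g i _
    rw [h1]
    exact Finset.prod_eq_one fun i _ => by rw [hc, map_one]
  have h5 := hT (x * φ c)
  rw [hTmul x hx, hTc, mul_one] at h5
  exact h5

end comp

end Pool.Agent.Zk10.Act
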