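import Pool.Agent.Zk10.P1

/-!
Products of models with families of local functions and a family of functions.
-/

set_option autoImplicit false
set_option linter.unusedVariables false
set_option linter.unusedSectionVars false

universe u

open TensorProduct

namespace Pool.Agent.Zk10

open Pool.Agent.W558 Pool.Agent.W558.WT Pool.Agent.W135.WT.Fam Pool.Agent.W191.WD.Prod

section fam

variable {k : Type u} [Field k]

/-- A model of the field `L`, with local functions and a family of functions, over given models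
of subfields. -/
def FModG {L : Type u} [Field L] [Algebra k L] {ι : Type} {E : ι → Type u} [∀ i, Field (E i)]
    [∀ i, Algebra k (E i)] (e : ∀ i, E i →ₐ[k] L) {Ti : ι → Type}
    (A : ∀ i, Ti i → Subalgebra k (E i)) (b : ∀ i, Ti i → E i) {B : Type} (c : ∀ i, B → E i) :
    Prop :=
  ∃ (T I : Type) (_ : Finite T) (_ : Fintype I) (M : LM (⊥ : Subalgebra k L) ⊤ T I)
    (n : T → ι → I → ℤ) (h : T → ι → L) (s : T → ∀ i, Ti i) (Λ : ι × B → I → ℤ),
    KC M n h ∧ Fn M (fun q => e q.1 (c q.1 q.2)) Λ ∧ Frc M ∧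
      (∀ t i, ∀ a ∈ A i (s t i), e i a ∈ M.A t) ∧ ∀ t i, bf M n h t i = e i (b i (s t i))

theorem fmodg_step (B : Type) (n : ℕ)
    (ih : ∀ (L : Type u) [Field L] [Algebra k L]
      (E : Fin n → Type u) [∀ i, Field (E i)] [∀ i, Algebra k (E i)] (e : ∀ i, E i →ₐ[k] L)
      (φ : (⨂[k] i, E i) →ₐ[k] L),
      (∀ i a, φ (PiTensorProduct.singleAlgHom (R := k) (A := E) i a) = e i a) →
      Function.Injective φ → (∀ x : L, ∃ a b, φ b ≠ 0 ∧ x * φ b = φ a) →
      ∀ (Ti Ii : Fin n → Type) [∀ i, Finite (Ti i)] [∀ i, Fintype (Ii i)]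
        (M : ∀ i, LM (⊥ : Subalgebra k (E i)) ⊤ (Ti i) (Ii i)) (nn : ∀ i, Ti i → Unit → Ii i → ℤ)
        (h : ∀ i, Ti i → Unit → E i) (c : ∀ i, B → E i) (Λi : ∀ i, B → Ii i → ℤ),
        (∀ i, KC (M i) (nn i) (h i)) → (∀ i, Fn (M i) (c i) (Λi i)) → (∀ i, Frc (M i)) →
      FModG e (fun i => (M i).A) (fun i t => bf (M i) (nn i) (h i) t ()) c)
    (L : Type u) [Field L] [Algebra k L]
    (E : Fin (n + 1) → Type u) [∀ i, Field (E i)] [∀ i, Algebra k (E i)] (e : ∀ i, E i →ₐ[k] L)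
    (φ : (⨂[k] i, E i) →ₐ[k] L)
    (hφ : ∀ i a, φ (sg (k := k) (A := E) i a) = e i a)
    (hinj : Function.Injective φ) (hfr : ∀ x : L, ∃ a b, φ b ≠ 0 ∧ x * φ b = φ a)
    (Ti Ii : Fin (n + 1) → Type) [∀ i, Finite (Ti i)] [∀ i, Fintype (Ii i)]
    (M : ∀ i, LM (⊥ : Subalgebra k (E i)) ⊤ (Ti i) (Ii i)) (nn : ∀ i, Ti i → Unit → Ii i → ℤ)
    (h : ∀ i, Ti i → Unit → E i) (c : ∀ i, B → E i) (Λi : ∀ i, B → Ii i → ℤ)
    (hK : ∀ i, KC (M i) (nn i) (h i)) (hFc : ∀ i, Fn (M i) (c i) (Λi i))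
    (hRM : ∀ i, Frc (M i)) :
    FModG e (fun i => (M i).A) (fun i t => bf (M i) (nn i) (h i) t ()) c := by
  obtain ⟨ψ, hψ⟩ := exists_psi (k := k) (E := E)
  obtain ⟨θ, hθ1, hθ2⟩ := exists_theta (k := k) (E := E)
  -- the subfield
  let S : Set L := ⋃ i : Fin n, Set.range (e i.castSucc)
  let L' : IntermediateField k L := IntermediateField.adjoin k S
  have hmem : ∀ (i : Fin n) (a : E i.castSucc), e i.castSucc a ∈ L' := fun i a =>
    IntermediateField.subset_adjoin k S (Set.mem_iUnion.2 ⟨i, a, rfl⟩)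
  let e' : ∀ i : Fin n, E i.castSucc →ₐ[k] L' := fun i =>
    (e i.castSucc).codRestrict L'.toSubalgebra (hmem i)
  have he' : ∀ (i : Fin n) (a : E i.castSucc), L'.val (e' i a) = e i.castSucc a := fun i a => rfl
  obtain ⟨φ', hφ'⟩ := pi_lift (k := k) (A := fun i : Fin n => E i.castSucc) L' e'
  -- comparison
  have hcmp : L'.val.comp φ' = φ.comp ψ := by
    apply pi_ext
    intro i a
    rw [AlgHom.comp_apply, AlgHom.comp_apply, hφ', hψ, hφ, he']
  have hcmp' : ∀ r, L'.val (φ' r) = φ (ψ r) := fun r => DFunLike.congr_fun hcmp r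
  have hθψ : ∀ r, θ (ψ r) = r ⊗ₜ[k] (1 : E (Fin.last n)) := by
    have h1 : θ.comp ψ = (Algebra.TensorProduct.includeLeft :
        A1 k E →ₐ[k] (A1 k E ⊗[k] E (Fin.last n))) := by
      apply pi_ext
      intro i a
      rw [AlgHom.comp_apply, hψ, hθ1]
      rfl
    exact fun r => DFunLike.congr_fun h1 r
  have hψinj : Function.Injective ψ := by
    intro r r' h
    have h1 : r ⊗ₜ[k] (1 : E (Fin.last n)) = r' ⊗ₜ[k] (1 : E (Fin.last n)) := by
      rw [← hθψ, ← hθψ, h]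
    exact Algebra.TensorProduct.includeLeft_injective (S := k)
      (algebraMap k (E (Fin.last n))).injective h1
  have hφ'inj : Function.Injective φ' := by
    intro r r' h
    apply hψinj
    apply hinj
    rw [← hcmp', ← hcmp', h]
  -- fractions in the subfield
  have hrange : ∀ x ∈ Algebra.adjoin k S, ∃ r, L'.val (φ' r) = x := by
    intro x hx
    have h1 : Algebra.adjoin k S ≤ (L'.val.comp φ').range := by
      rw [Algebra.adjoin_le_iff]
      intro y hy
      obtain ⟨i, a, rfl⟩ := Set.mem_iUnion.1 hy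
      refine ⟨sg (k := k) (A := fun i : Fin n => E i.castSucc) i a, ?_⟩
      change L'.val (φ' _) = _
      rw [hφ', he']
    obtain ⟨r, hr⟩ := h1 hx
    exact ⟨r, hr⟩
  have hfr' : ∀ x : L', ∃ a b, φ' b ≠ 0 ∧ x * φ' b = φ' a := by
    intro x
    obtain ⟨r, hr, s, hs, hx⟩ := (IntermediateField.mem_adjoin_iff_div).1 x.2
    obtain ⟨r', hr'⟩ := hrange r hr
    obtain ⟨s', hs'⟩ := hrange s hs
    by_cases h0 : s = 0
    · refine ⟨0, 1, ?_, ?_⟩
      · rw [map_one]; exact one_ne_zero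
      · apply Subtype.ext
        change (x : L) * L'.val (φ' 1) = L'.val (φ' 0)
        rw [hx, h0, div_zero, zero_mul, map_zero, map_zero]
    · refine ⟨r', s', ?_, ?_⟩
      · intro h
        apply h0
        rw [← hs', h, map_zero]
      · apply Subtype.ext
        change (x : L) * L'.val (φ' s') = L'.val (φ' r')
        rw [hx, hs', hr', div_mul_cancel₀ _ h0]
  have h1 := ih L' (fun i : Fin n => E i.castSucc) e' φ' hφ' hφ'inj hfr'
    (fun i => Ti i.castSucc) (fun i => Ii i.castSucc) (fun i => M i.castSucc)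
    (fun i => nn i.castSucc) (fun i => h i.castSucc) (fun i => c i.castSucc)
    (fun i => Λi i.castSucc) (fun i => hK i.castSucc) (fun i => hFc i.castSucc)
    (fun i => hRM i.castSucc)
  -- the product
  let Pm : (L' ⊗[k] E (Fin.last n)) →ₐ[k] L :=
    Algebra.TensorProduct.productMap L'.val (e (Fin.last n))
  have hPm : ∀ (x : L') (a : E (Fin.last n)), Pm (x ⊗ₜ[k] a) = (x : L) * e (Fin.last n) a :=
    fun x a => Algebra.TensorProduct.productMap_apply_tmul _ _ _ _
  let Q : (A1 k E ⊗[k] E (Fin.last n)) →ₐ[k] (L' ⊗[k] E (Fin.last n)) :=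
    Algebra.TensorProduct.map φ' (AlgHom.id k _)
  have hQ : ∀ (r : A1 k E) (a : E (Fin.last n)), Q (r ⊗ₜ[k] a) = φ' r ⊗ₜ[k] a := fun r a => rfl
  let R : (A1 k E ⊗[k] E (Fin.last n)) →ₐ[k] (⨂[k] i, E i) :=
    Algebra.TensorProduct.productMap ψ (sg (k := k) (A := E) (Fin.last n))
  have hR : ∀ (r : A1 k E) (a : E (Fin.last n)),
      R (r ⊗ₜ[k] a) = ψ r * sg (k := k) (A := E) (Fin.last n) a :=
    fun x a => Algebra.TensorProduct.productMap_apply_tmul _ _ _ _
  have hRinj : Function.Injective R := by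
    have h2 : θ.comp R = AlgHom.id k _ := by
      apply Algebra.TensorProduct.ext'
      intro r a
      rw [AlgHom.comp_apply, hR, map_mul, hθψ, hθ2, Algebra.TensorProduct.tmul_mul_tmul, one_mul,
        mul_one]
      rfl
    intro x y hxy
    have h3 : ∀ z, θ (R z) = z := fun z => DFunLike.congr_fun h2 z
    rw [← h3 x, ← h3 y, hxy]
  have hPQ : ∀ s, Pm (Q s) = φ (R s) := by
    have h2 : Pm.comp Q = φ.comp R := by
      apply Algebra.TensorProduct.ext'
      intro r a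
      rw [AlgHom.comp_apply, AlgHom.comp_apply, hQ, hPm, hR, map_mul, hφ, ← hcmp']
      rfl
    exact fun s => DFunLike.congr_fun h2 s
  have hPQθ : ∀ z, Pm (Q (θ z)) = φ z := by
    have h2 : (Pm.comp Q).comp θ = φ := by
      apply pi_ext
      intro i
      refine Fin.lastCases ?_ (fun i => ?_) i
      · intro a
        rw [AlgHom.comp_apply, AlgHom.comp_apply, hθ2, hQ, map_one, hPm, hφ]
        rw [OneMemClass.coe_one, one_mul]
      · intro a
        rw [AlgHom.comp_apply, AlgHom.comp_apply, hθ1, hQ, hPm, map_one, mul_one, hφ, hφ']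
        rfl
    exact fun z => DFunLike.congr_fun h2 z
  -- common denominators
  have hden : ∀ t : L' ⊗[k] E (Fin.last n), ∃ (d : A1 k E) (s : A1 k E ⊗[k] E (Fin.last n)),
      φ' d ≠ 0 ∧ (φ' d ⊗ₜ[k] (1 : E (Fin.last n))) * t = Q s := by
    intro t
    induction t using TensorProduct.induction_on with
    | zero => exact ⟨1, 0, by rw [map_one]; exact one_ne_zero, by rw [mul_zero, map_zero]⟩
    | tmul l a =>
      obtain ⟨r, d, hd, h⟩ := hfr' l
      refine ⟨d, r ⊗ₜ[k] a, hd, ?_⟩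
      rw [Algebra.TensorProduct.tmul_mul_tmul, one_mul, mul_comm, h, hQ]
    | add x y hx hy =>
      obtain ⟨d1, s1, h1, h1'⟩ := hx
      obtain ⟨d2, s2, h2, h2'⟩ := hy
      refine ⟨d1 * d2, (d2 ⊗ₜ[k] 1) * s1 + (d1 ⊗ₜ[k] 1) * s2, ?_, ?_⟩
      · rw [map_mul]; exact mul_ne_zero h1 h2
      · rw [map_add, map_mul Q, map_mul Q, ← h1', ← h2', hQ, hQ, map_mul φ']
        have h3 : (φ' d1 * φ' d2) ⊗ₜ[k] (1 : E (Fin.last n)) =
            (φ' d1 ⊗ₜ[k] (1 : E (Fin.last n))) * (φ' d2 ⊗ₜ[k] (1 : E (Fin.last n))) := by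
          rw [Algebra.TensorProduct.tmul_mul_tmul, one_mul]
        rw [h3]
        ring
  have hPinj : Function.Injective Pm := by
    rw [injective_iff_map_eq_zero]
    intro t ht
    obtain ⟨d, s, hd, hds⟩ := hden t
    have h2 : φ (R s) = 0 := by
      rw [← hPQ, ← hds, map_mul, ht, mul_zero]
    have h3 : R s = 0 := hinj (by rw [h2, map_zero])
    have h4 : s = 0 := hRinj (by rw [h3, map_zero])
    rw [h4, map_zero] at hds
    have h5 : ((φ' d)⁻¹ ⊗ₜ[k] (1 : E (Fin.last n))) * (φ' d ⊗ₜ[k] (1 : E (Fin.last n))) =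
        (1 : L' ⊗[k] E (Fin.last n)) := by
      rw [Algebra.TensorProduct.tmul_mul_tmul, one_mul, inv_mul_cancel₀ hd]
      rfl
    calc t = 1 * t := (one_mul t).symm
      _ = 0 := by rw [← h5, mul_assoc, hds, mul_zero]
  have hPfr : ∀ x : L, ∃ a b : L' ⊗[k] E (Fin.last n), b ≠ 0 ∧ x * Pm b = Pm a := by
    intro x
    obtain ⟨a, b, hb, h⟩ := hfr x
    refine ⟨Q (θ a), Q (θ b), ?_, ?_⟩
    · intro h0
      apply hb
      rw [← hPQθ, h0, map_zero]
    · rw [hPQθ, hPQθ, h]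
  obtain ⟨T1, I1, hT1, hI1, M1, n1, h1', s1, Λ1, hK1, hF1, hR1, hD1, hb1⟩ := h1
  let M2 := M (Fin.last n)
  let j2 := e (Fin.last n)
  let _ : Algebra L' L := L'.val.toRingHom.toAlgebra
  let _ : Algebra (E (Fin.last n)) L := j2.toRingHom.toAlgebra
  have t1 : IsScalarTower k L' L := IsScalarTower.of_algebraMap_eq fun x => rfl
  have t2 : IsScalarTower k (E (Fin.last n)) L :=
    IsScalarTower.of_algebraMap_eq fun x => (j2.commutes x).symm
  have e1 : IsScalarTower.toAlgHom k L' L = L'.val := AlgHom.ext fun x => rfl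
  have e2 : IsScalarTower.toAlgHom k (E (Fin.last n)) L = j2 := AlgHom.ext fun x => rfl
  have hI : Inj L k L' (E (Fin.last n)) := by
    unfold Inj
    rw [e1, e2]
    exact hPinj
  have hK2 := KC.prod hI hK1 (hK (Fin.last n))
  let f : Fin (n + 1) → Fin n ⊕ Unit :=
    fun i => Fin.lastCases (motive := fun _ => Fin n ⊕ Unit) (Sum.inr ()) (fun i => Sum.inl i) i
  have hf : Function.Injective f := by
    intro i j
    refine Fin.lastCases ?_ (fun i => ?_) i <;> refine Fin.lastCases ?_ (fun j => ?_) j <;>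
      simp [f]
  have hfl : f (Fin.last n) = Sum.inr () := by simp [f]
  have hfc : ∀ i : Fin n, f i.castSucc = Sum.inl i := fun i => by simp [f]
  let ss : T1 × Ti (Fin.last n) → ∀ i, Ti i := fun t i =>
    Fin.lastCases (motive := fun i => Ti i) t.2 (fun i => s1 t.1 i) i
  have hsl : ∀ t, ss t (Fin.last n) = t.2 := fun t => by simp [ss]
  have hsc : ∀ t (i : Fin n), ss t i.castSucc = s1 t.1 i := fun t i => by simp [ss]
  refine ⟨T1 × Ti (Fin.last n), I1 ⊕ Ii (Fin.last n), inferInstance, inferInstance,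
    prodLM hI M1 M2, _, _, ss, fun q => Fin.lastCases
      (motive := fun _ => I1 ⊕ Ii (Fin.last n) → ℤ)
      (Sum.elim 0 (Λi (Fin.last n) q.2)) (fun i => Sum.elim (Λ1 (i, q.2)) 0) q.1, hK2.re f hf,
    ?_, Pool.Agent.W191.WD.Prod.frc hI (by
      rw [e1, e2]; exact hPfr) M1 M2 hR1 (hRM _), ?_, ?_⟩
  · rintro ⟨i, b⟩
    refine Fin.lastCases ?_ (fun i => ?_) i
    · intro t
      obtain ⟨w, hw0, hw, hw', e'⟩ := hFc (Fin.last n) b t.2
      refine ⟨algebraMap (E (Fin.last n)) L w, (map_ne_zero _).2 hw0, memr hw, ?_, ?_⟩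
      · rw [← map_inv₀]
        exact memr hw'
      · simp only [Fin.lastCases_last]
        rw [prod_monr, ← map_mul, ← e']
        rfl
    · intro t
      obtain ⟨w, hw0, hw, hw', e'⟩ := hF1 (i, b) t.1
      refine ⟨algebraMap L' L w, (map_ne_zero _).2 hw0, meml hw, ?_, ?_⟩
      · rw [← map_inv₀]
        exact meml hw'
      · simp only [Fin.lastCases_castSucc]
        rw [prod_monl, ← map_mul, ← e']
        rfl
  · intro t i
    refine Fin.lastCases ?_ (fun i => ?_) i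
    · intro a ha
      rw [hsl] at ha
      exact memr ha
    · intro a ha
      rw [hsc] at ha
      have h5 := hD1 t.1 i a ha
      have h6 : e i.castSucc a = algebraMap L' L (e' i a) := rfl
      rw [h6]
      exact meml h5
  · intro t i
    refine Fin.lastCases ?_ (fun i => ?_) i
    · rw [hsl]
      unfold bf
      simp only [hfl, Sum.elim_inr]
      rw [prod_monr, ← map_mul]
      rfl
    · rw [hsc]
      have h6 := congrArg (algebraMap L' L) (hb1 t.1 i)
      refine Eq.trans ?_ h6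
      unfold bf
      simp only [hfc, Sum.elim_inl]
      rw [prod_monl, ← map_mul]

theorem fmodg_zero (B : Type) (L : Type u) [Field L] [Algebra k L]
    (E : Fin 0 → Type u) [∀ i, Field (E i)] [∀ i, Algebra k (E i)] (e : ∀ i, E i →ₐ[k] L)
    (φ : (⨂[k] i, E i) →ₐ[k] L)
    (hfr : ∀ x : L, ∃ a b, φ b ≠ 0 ∧ x * φ b = φ a) (Ti : Fin 0 → Type)
    (A : ∀ i, Ti i → Subalgebra k (E i)) (b : ∀ i, Ti i → E i) (c : ∀ i, B → E i) :
    FModG e A b c := by
  have hall : ∀ z : (⨂[k] i, E i), ∃ c : k, φ z = algebraMap k L c := by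
    intro z
    have h1 : z ∈ (⊤ : Subalgebra k (⨂[k] i, E i)) := trivial
    rw [← pi_adjoin, Set.iUnion_of_empty, Algebra.adjoin_empty, Algebra.mem_bot] at h1
    obtain ⟨c, hc⟩ := h1
    exact ⟨c, by rw [← hc, AlgHom.commutes]⟩
  have hL : ∀ x : L, ∃ c : k, algebraMap k L c = x := by
    intro x
    obtain ⟨a, b, hb, h⟩ := hfr x
    obtain ⟨ca, hca⟩ := hall a
    obtain ⟨cb, hcb⟩ := hall b
    rw [hca, hcb] at h
    rw [hcb] at hb
    refine ⟨ca / cb, ?_⟩
    rw [map_div₀, div_eq_iff hb, h]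
  have : Fact (Nat.Prime 2) := ⟨Nat.prime_two⟩
  obtain ⟨T, I, hT, hI, M, n, a, h, Γ, hN, hF, hR⟩ := gm_point (p := 2) hL
    (fun i : Fin 0 => (0 : L)) (fun i : Fin 0 => (0 : L))
  exact ⟨T, I, hT, hI, M, fun _ i => i.elim0, fun _ i => i.elim0, fun _ i => i.elim0,
    fun q => q.1.elim0,
    ⟨fun _ i => i.elim0, fun _ i => i.elim0, fun t κ _ _ φ i => i.elim0⟩, fun q => q.1.elim0, hR,
    fun t i => i.elim0, fun t i => i.elim0⟩

/-- Models of products. -/
theorem fmodg_family (B : Type) (n : ℕ) (L : Type u) [Field L] [Algebra k L]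
    (E : Fin n → Type u) [∀ i, Field (E i)] [∀ i, Algebra k (E i)] (e : ∀ i, E i →ₐ[k] L)
    (φ : (⨂[k] i, E i) →ₐ[k] L)
    (hφ : ∀ i a, φ (sg (k := k) (A := E) i a) = e i a)
    (hinj : Function.Injective φ) (hfr : ∀ x : L, ∃ a b, φ b ≠ 0 ∧ x * φ b = φ a)
    (Ti Ii : Fin n → Type) [∀ i, Finite (Ti i)] [∀ i, Fintype (Ii i)]
    (M : ∀ i, LM (⊥ : Subalgebra k (E i)) ⊤ (Ti i) (Ii i)) (nn : ∀ i, Ti i → Unit → Ii i → ℤ)
    (h : ∀ i, Ti i → Unit → E i) (c : ∀ i, B → E i) (Λi : ∀ i, B → Ii i → ℤ)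
    (hK : ∀ i, KC (M i) (nn i) (h i)) (hFc : ∀ i, Fn (M i) (c i) (Λi i))
    (hR : ∀ i, Frc (M i)) :
    FModG e (fun i => (M i).A) (fun i t => bf (M i) (nn i) (h i) t ()) c := by
  induction n generalizing L with
  | zero => exact fmodg_zero B L E e φ hfr Ti _ _ c
  | succ n ih =>
    exact fmodg_step B n (fun L _ _ E _ _ e φ hφ hinj hfr Ti Ii _ _ M nn h c Λi hK hFc hR =>
      ih L E e φ hφ hinj hfr Ti Ii M nn h c Λi hK hFc hR) L E e φ hφ hinj hfr Ti Ii M nn h c Λi
        hK hFc hR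

end fam

end Pool.Agent.Zk10
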