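import Pool.Agent.Zk10.P1
import Pool.Agent.TH214.V.KumM

/-!
Tame Kummer extensions of fields with a model with local functions.
-/

set_option autoImplicit false
set_option linter.unusedVariables false
set_option linter.unusedSectionVars false

universe u

namespace Pool.Agent.Zk10

open Pool.Agent.W558 Pool.Agent.W177.WD Pool.Agent.W973.CUT Pool.Agent.W973.CUT2
  Pool.Agent.TH214.V Pool.Agent.TH214 TensorProduct

section dual

variable {k K : Type u} [Field k] [Field K] [Algebra k K] {R0 R R0' R' : Subalgebra k K}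
  {T I T' I' : Type} [Fintype I] [Fintype I']

/-- Logarithmic vectors with arbitrary logarithmic values on the functions `z j` with `vt j`. -/
def DualT {ι J : Type} (M : LM R0 R T I) (n : T → ι → I → ℤ) (h : T → ι → K)
    (z : J → K) (Z : J → I → ℤ) (vt : J → Prop) : Prop :=
  ∀ t (κ : Type u) [Field κ] [Algebra k κ] (φ : M.A t →ₐ[k] κ) (c : J → κ),
    (∀ j, ¬ vt j → c j = 0) →
    ∃ v : LT φ (M.x t), (∀ l (hh : h t l ∈ M.A t), om v (n t l) hh = 0) ∧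
      ∀ j, LGF v (Z j) (z j) (c j)

lemma DualT.ov {M : LM R0 R T I} {M' : LM R0' R' T' I'}
    {π : T' → T} {Θ : I' → I → ℤ} (hOv : Ov M M' π Θ) {ι J : Type} {n : T → ι → I → ℤ}
    {h : T → ι → K} (hA : ∀ t l, h t l ∈ M.A t) {z : J → K} {Z : J → I → ℤ} {vt : J → Prop}
    (hD : DualT M n h z Z vt) :
    DualT M' (fun t' l => tr Θ (n (π t') l)) (fun t' => h (π t')) z (fun j => tr Θ (Z j)) vt := by
  intro t' κ _ _ φ' c hc
  obtain ⟨v, hv1, hv3⟩ := hD (π t') κ (φ'.comp (Subalgebra.inclusion (hOv.le t'))) c hc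
  obtain ⟨v', h1, h2⟩ := hOv.lt t' κ φ' v
  refine ⟨v', ?_, ?_⟩
  · intro l hh
    rw [om_tr hOv v v' h1 h2 (n _ l) (hA _ l)]
    exact hv1 l _
  · intro j
    exact lgf_tr hOv v v' h1 h2 (hv3 j)

lemma DualT.dualV {ι J : Type} {M : LM R0 R T I} {n : T → ι → I → ℤ}
    {h : T → ι → K} {z : J → K} {Z : J → I → ℤ} {vt : J → Prop}
    (hD : DualT M n h z Z vt) :
    DualV M (fun l : Empty => l.elim) (fun _ (l : Empty) => l.elim) z Z vt := by
  intro t κ _ _ φ c hc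
  obtain ⟨v, -, h2⟩ := hD t κ φ c hc
  exact ⟨v, fun l => l.elim, h2⟩

end dual

section cut

variable {k K L : Type u} [Field k] [Field K] [Algebra k K] [Field L] [Algebra k L]
  {Q : Subalgebra k K} {π : Q →ₐ[k] L} {T I : Type} [Finite T] [Fintype I] {c d : ℕ}
  {M : LM (⊥ : Subalgebra k K) ⊤ T I} {ι J σ : Type} [Fintype J] [Finite σ]
  {n : T → ι → I → ℤ} {h : T → ι → K} {z : J → K} {Z : J → I → ℤ} {vt : J → Prop}

/-- Local functions on the subvariety. -/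
theorem cut_kc (hloc : S2_loc.{u}) (hK : KC M n h) (hZ : Fn M z Z) (hD : DualT M n h z Z vt)
    (hin : CutIn π c d M) (G : σ → (J → ℤ) →₀ k) (hG : ∀ s, pq π (lv (G s) z) = 0)
    (hND : NDV G (fun t : Empty => t.elim) vt (fun t : Empty => t.elim) c) :
    ∃ (T' I' : Type) (_ : Finite T') (_ : Fintype I') (M' : LM (⊥ : Subalgebra k L) ⊤ T' I')
      (n' : T' → ι → I' → ℤ) (h' : T' → ι → L) (Z' : J → I' → ℤ) (ρ : T' → T),
      KC M' n' h' ∧ Fn M' (fun j => pq π (z j)) Z' ∧ Frc M' ∧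
      (∀ t, ∀ a ∈ M.A (ρ t), pq π a ∈ M'.A t) ∧
      ∀ t l, bf M' n' h' t l = pq π (bf M n h (ρ t) l) := by
  classical
  have : Fintype σ := Fintype.ofFinite σ
  let X : Type := Option (Σ s : σ, {m // m ∈ (G s).support})
  let Γ' : X → I → ℤ := fun o => o.elim 0 (fun q => gm Z 0 q.2.1)
  obtain ⟨T', I', iT, iI, M', ρ, Θ, hOv, hΘ, hS, hC⟩ := ovp_uq M Γ'
  let Z1 : J → I' → ℤ := fun j => tr Θ (Z j)
  have hK0 := hK.ov hOv hΘ
  have hD1 := hD.ov hOv hK.hA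
  have hZ1 : Fn M' z Z1 := hZ.ov hOv
  have hin1 : CutIn π c d M' := hin.ov hOv hS
  have hCG : ∀ s t', CC (M'.A t') (M'.x t') Z1 (G s) := by
    intro t t' m hm m' hm'
    have h1 := hC (some ⟨t, m, hm⟩) (some ⟨t, m', hm'⟩) t'
    change (∀ i', (∑ i, Θ i' i * gm Z 0 m i ≤ ∑ i, Θ i' i * gm Z 0 m' i ∨ _)) ∨
      (∀ i', (∑ i, Θ i' i * gm Z 0 m' i ≤ ∑ i, Θ i' i * gm Z 0 m i ∨ _)) at h1
    simp only [tr_gm0] at h1
    exact h1
  choose w w0 wA wi hw using fun (t' : T') (j : J) => hZ1 j t'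
  have hpl := fun t' (κ : Type u) [Field κ] [Algebra k κ] (φ : M'.A t' →ₐ[k] κ) hφ =>
    place π hZ1 hD1.dualV hin1 G (fun t : Empty => t.elim) (fun t : Empty => t.elim) hG hND hCG
      t' κ φ hφ (w0 t') (wA t') (wi t') (hw t')
  have hpt : CutPt π c M' := by
    intro t' κ _ _ φ hφ
    obtain ⟨-, s, a, γ, v, -, -, h1, h2, -⟩ := hpl t' κ φ hφ
    exact ⟨γ, v, h1, h2⟩
  have hok : CutOk π c d M' := hin1.ok hpt
  have hzQ : ∀ j, z j ≠ 0 ∧ z j ∈ Q ∧ (z j)⁻¹ ∈ Q := fn_memQ (nonempty_T M') hin1.uq hZ1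
  have hxQ : ∀ t i, M'.x t i ∈ Q := fun t i => hok.AQ t (M'.xA t i)
  have hprodQ : ∀ t (e : I' → ℤ), ∏ i, M'.x t i ^ e i ∈ Q := fun t e =>
    Q.prod_mem fun i _ => zpow_mem_of (hxQ t i) (Or.inr (hok.xQ t i))
  have hpqprod : ∀ t (e : I' → ℤ), pq π (∏ i, M'.x t i ^ e i) =
      ∏ i, pq π (M'.x t i) ^ e i := by
    intro t e
    rw [pq_prod π _ _ fun i _ => zpow_mem_of (hxQ t i) (Or.inr (hok.xQ t i))]
    exact Finset.prod_congr rfl fun i _ => pq_zpow π (M'.x0 t i) (hxQ t i) (hok.xQ t i) _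
  have hhA : ∀ t' l, h (ρ t') l ∈ M'.A t' := fun t' l => hK0.hA t' l
  refine ⟨T', I', iT, iI, cutLM π hok hloc, fun t' l => tr Θ (n (ρ t') l),
    fun t' l => pq π (h (ρ t') l), Z1, ρ, ⟨?_, ?_, ?_⟩, ?_, ?_, ?_, ?_⟩
  · exact fun t' l i => hK0.n0 t' l i
  · exact fun t' l => pq_mem π _ (hhA t' l)
  · intro t' κ _ _ φ'
    let φ : M'.A t' →ₐ[k] κ := φ'.comp (qm π (M'.A t') (hok.AQ t'))
    have hφ : ∀ a (ha : a ∈ M'.A t'), pq π a = 0 → φ ⟨a, ha⟩ = 0 := fun a ha h0 =>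
      below_zero π (hok.AQ t') φ' a ha h0
    obtain ⟨hvl, s, av, γ, v, ha0, ha, hγ, hv, hV⟩ := hpl t' κ φ hφ
    let x := M'.x t'
    have hxA := M'.xA t'
    have hx0 := M'.x0 t'
    let ζ := zp φ hxA (wA t') Z1
    let l := ls φ hxA Z1
    rintro j0 ⟨i0, hi0, hi0'⟩
    have hPol : ∀ j, Pol (cutLM π hok hloc) (tr Θ (n (ρ t') j)) φ' →
        Pol M' (tr Θ (n (ρ t') j)) φ := by
      rintro j ⟨i, hi, hi'⟩
      exact ⟨i, hi, (below π (hok.AQ t') φ' (M'.x t' i) (hxA i)).trans hi'⟩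
    obtain ⟨v0, hv0, hv0'⟩ := hK0.ln t' κ φ j0 (hPol j0 ⟨i0, hi0, hi0'⟩)
    choose α hα using fun j => LGF.exists v0 (w0 t' j) (wA t' j) (wi t' j) (hw t' j)
    obtain ⟨cc, hcc1, hcc2, -⟩ := correct2 G (fun t : Empty => t.elim) l ζ vt
      (fun t : Empty => t.elim) (fun t : Empty => t.elim) s av ha0 ha
      (fun (t : Empty) => t.elim) (fun t => t.elim) (fun t => t.elim) (fun t => t.elim) α
    obtain ⟨vD, hvD1, hvD2⟩ := hD1 t' κ φ (fun j => cc j - α j)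
      (fun j hj => by rw [hcc1 j hj, sub_self])
    have hvD1' : ∀ l (hh : h (ρ t') l ∈ M'.A t'), om vD (tr Θ (n (ρ t') l)) hh = 0 :=
      fun l hh => hvD1 l hh
    have hz' : ∀ j, LGF (ltAdd v0 vD 1) (Z1 j) (z j) (cc j) := by
      intro j
      have h1 := LGF.add 1 hx0 (hα j) (hvD2 j)
      have h2 : α j + 1 * (cc j - α j) = cc j := by ring
      rw [h2] at h1
      exact h1
    obtain ⟨V', hV'1, hV'2⟩ := desc_lt π hok hloc φ' hγ hv (ltAdd v0 vD 1)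
      (hV (ltAdd v0 vD 1) cc hz' hcc2)
    have hom := fun (e : I' → ℤ) {y : K} (hy : y ∈ M'.A t')
      (hy' : pq π y ∈ im π (M'.A t') (hok.AQ t')) =>
      om_desc π (hok.AQ t') φ' (ltAdd v0 vD 1) V' hV'1 hV'2 e hy hy'
    refine ⟨V', ?_, ?_⟩
    · refine Eq.trans_ne (hom (tr Θ (n (ρ t') j0)) (hhA t' j0) _) ?_
      change om (ltAdd v0 vD 1) (tr Θ (n (ρ t') j0)) (hhA t' j0) ≠ 0
      rw [om_ltAdd, hvD1' j0, mul_zero, add_zero]
      exact hv0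
    · intro l' hne hP
      refine (hom (tr Θ (n (ρ t') l')) (hhA t' l') _).trans ?_
      change om (ltAdd v0 vD 1) (tr Θ (n (ρ t') l')) (hhA t' l') = 0
      rw [om_ltAdd, hvD1' l', mul_zero, add_zero]
      exact hv0' l' hne (hPol l' hP)
  · intro j t'
    refine ⟨pq π (w t' j), pq_ne π (w0 t' j) (hok.AQ t' (wA t' j)) (hok.AQ t' (wi t' j)),
      pq_mem π _ (wA t' j), ?_, ?_⟩
    · rw [← pq_inv π (w0 t' j) (hok.AQ t' (wA t' j)) (hok.AQ t' (wi t' j))]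
      exact pq_mem π _ (wi t' j)
    · change pq π (z j) = pq π (w t' j) * ∏ i, pq π (M'.x t' i) ^ Z1 j i
      rw [← hpqprod, ← pq_mul π (hok.AQ t' (wA t' j)) (hprodQ t' _), ← hw t' j]
  · intro t' y
    exact im_frac π hok t' y
  · intro t' a ha
    exact pq_mem π (hok.AQ t') (hOv.le t' ha)
  · intro t' l
    rw [← bf_ov hOv (n := n) (h := h) t' l]
    change (∏ i, pq π (M'.x t' i) ^ tr Θ (n (ρ t') l) i) * pq π (h (ρ t') l) =
      pq π ((∏ i, M'.x t' i ^ tr Θ (n (ρ t') l) i) * h (ρ t') l)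
    rw [pq_mul π (hprodQ t' _) (hok.AQ t' (hhA t' l)), hpqprod]

end cut

end Pool.Agent.Zk10
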