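import Pool.Agent.Zk10.U12

/-!
Tame Kummer extensions of fields with a model with local functions.
-/

set_option autoImplicit false
set_option linter.unusedVariables false
set_option linter.unusedSectionVars false

universe u

namespace Pool.Agent.Zk10

open Pool.Agent.W558 Pool.Agent.W177.WD Pool.Agent.W973.CUT Pool.Agent.W973.CUT2
  Pool.Agent.TH214.V Pool.Agent.TH214 TensorProduct

section prodT

variable {k : Type u} [Field k]

open Pool.Agent.W191.WD.Prod in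
/-- The product with a compactified torus. -/
theorem kc_prodT {E1 E2 L : Type u} [Field E1] [Field E2] [Field L] [Algebra k E1] [Algebra k E2]
    [Algebra k L] (j1 : E1 →ₐ[k] L) (j2 : E2 →ₐ[k] L)
    (hinj0 : Function.Injective (Algebra.TensorProduct.productMap j1 j2))
    (hfr : ∀ x : L, ∃ a b : E1 ⊗[k] E2, b ≠ 0 ∧
      x * Algebra.TensorProduct.productMap j1 j2 b = Algebra.TensorProduct.productMap j1 j2 a)
    {ι G : Type} {r : ℕ} {y : Fin r → E2} {T1 I1 : Type} [Finite T1] [Fintype I1]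
    {M1 : LM (⊥ : Subalgebra k E1) ⊤ T1 I1} {n1 : T1 → ι → I1 → ℤ} {h1 : T1 → ι → E1}
    (hN1 : KC M1 n1 h1) {g : G → E1} {Γ1 : G → I1 → ℤ} (hF1 : Fn M1 g Γ1) (hR1 : Frc M1)
    (hy : Rat (k := k) y) :
    ∃ (T I : Type) (_ : Finite T) (_ : Fintype I) (M : LM (⊥ : Subalgebra k L) ⊤ T I)
      (n : T → ι → I → ℤ) (h : T → ι → L) (Γ : G → I → ℤ) (Y : Fin r → I → ℤ) (ρ : T → T1),
      KC M n h ∧ Fn M (fun b => j1 (g b)) Γ ∧ Fn M (fun j => j2 (y j)) Y ∧
      DualT M n h (Sum.elim (fun b => j1 (g b)) (fun j => j2 (y j))) (Sum.elim Γ Y)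
        (fun q => q.isRight = true) ∧ PQ j1 M (fun j => j2 (y j)) ∧
      (∀ t, ∀ a ∈ M1.A (ρ t), j1 a ∈ M.A t) ∧
      (∀ t l, bf M n h t l = j1 (bf M1 n1 h1 (ρ t) l)) := by
  obtain ⟨T2, I2, hT2, hI2, M2, Y, hY, hD2, hR2, hU2⟩ := exists_torusQ hy
  let _ : Algebra E1 L := j1.toRingHom.toAlgebra
  let _ : Algebra E2 L := j2.toRingHom.toAlgebra
  have t1 : IsScalarTower k E1 L := IsScalarTower.of_algebraMap_eq fun x => (j1.commutes x).symm
  have t2 : IsScalarTower k E2 L := IsScalarTower.of_algebraMap_eq fun x => (j2.commutes x).symm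
  have e1 : IsScalarTower.toAlgHom k E1 L = j1 := AlgHom.ext fun x => rfl
  have e2 : IsScalarTower.toAlgHom k E2 L = j2 := AlgHom.ext fun x => rfl
  have hinj : Inj L k E1 E2 := by
    unfold Inj
    rw [e1, e2]
    exact hinj0
  have hA : ∀ (t : T1 × T2) (j : ι), algebraMap E1 L (h1 t.1 j) ∈ (prodLM hinj M1 M2).A t :=
    fun t j => meml (hN1.hA _ _)
  have hFg : Fn (prodLM hinj M1 M2) (fun b => algebraMap E1 L (g b))
      (fun b => Sum.elim (Γ1 b) 0) := by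
    intro b t
    obtain ⟨w, hw0, hw, hw', e⟩ := hF1 b t.1
    refine ⟨algebraMap E1 L w, (_root_.map_ne_zero _).2 hw0, meml hw, ?_, ?_⟩
    · rw [← map_inv₀]
      exact meml hw'
    · rw [prod_monl, ← map_mul, ← e]
  have hFy : Fn (prodLM hinj M1 M2) (fun j => algebraMap E2 L (y j))
      (fun j => Sum.elim 0 (Y j)) := by
    intro b t
    obtain ⟨w, hw0, hw, hw', e⟩ := hY b t.2
    refine ⟨algebraMap E2 L w, (_root_.map_ne_zero _).2 hw0, memr hw, ?_, ?_⟩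
    · rw [← map_inv₀]
      exact memr hw'
    · rw [prod_monr, ← map_mul, ← e]
  refine ⟨T1 × T2, I1 ⊕ I2, inferInstance, inferInstance, prodLM hinj M1 M2,
    fun t j => Sum.elim (n1 t.1 j) 0,
    fun t j => algebraMap E1 L (h1 t.1 j), fun b => Sum.elim (Γ1 b) 0, fun j => Sum.elim 0 (Y j),
    Prod.fst, ?_, hFg, hFy, ?_, ?_, fun t a ha => meml ha, ?_⟩
  · refine ⟨?_, hA, ?_⟩
    · rintro t j (i | i)
      · exact hN1.n0 t.1 j i
      · exact le_rfl
    · rintro t κ _ _ φ j ⟨i, hi, hφ⟩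
      obtain ⟨i', hi', hφ'⟩ : ∃ i', n1 t.1 j i' < 0 ∧
          (φ.comp (i1 (M1.A t.1) (M2.A t.2))) ⟨M1.x t.1 i', M1.xA t.1 i'⟩ = 0 := by
        rcases i with i | i
        · exact ⟨i, hi, hφ⟩
        · exact absurd hi (lt_irrefl _)
      obtain ⟨v1, hv1, hv1'⟩ := hN1.ln t.1 κ (φ.comp (i1 (M1.A t.1) (M2.A t.2))) j
        ⟨i', hi', hφ'⟩
      obtain ⟨v, hv, hv'⟩ := ext_lt hinj M1 M2 t κ φ v1 (zeroLT _ _)
      refine ⟨v, ?_, ?_⟩
      · rw [hv (n1 t.1 j) (h1 t.1 j) (hN1.hA _ _) (hA t j)]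
        exact hv1
      · rintro l hl ⟨i2, hi2, hφ2⟩
        rw [hv (n1 t.1 l) (h1 t.1 l) (hN1.hA _ _) (hA t l)]
        refine hv1' l hl ?_
        rcases i2 with i2 | i2
        · exact ⟨i2, hi2, hφ2⟩
        · exact absurd hi2 (lt_irrefl _)
  · intro t κ _ _ φ c hc
    obtain ⟨v2, hv2⟩ := hD2 t.2 κ (φ.comp (i2 (M1.A t.1) (M2.A t.2))) (fun j => c (Sum.inr j))
    obtain ⟨v, hv, hv'⟩ := ext_lt hinj M1 M2 t κ φ (zeroLT _ _) v2
    refine ⟨v, ?_, ?_⟩
    · intro l hh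
      rw [hv (n1 t.1 l) (h1 t.1 l) (hN1.hA _ _) hh]
      exact om_zero _ _ _ _
    · rintro (b | j)
      · have hcb : c (Sum.inl b) = 0 := hc (Sum.inl b) (by simp)
        rw [hcb]
        obtain ⟨w, hw0, hw, hw', e⟩ := hF1 b t.1
        refine lgf_of_om (w := algebraMap E1 L w) ((_root_.map_ne_zero _).2 hw0) (meml hw) ?_ ?_ ?_
        · rw [← map_inv₀]
          exact meml hw'
        · change j1 (g b) = algebraMap E1 L w *
            ∏ i, (prodLM hinj M1 M2).x t i ^ (Sum.elim (Γ1 b) 0 : I1 ⊕ I2 → ℤ) i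
          rw [prod_monl, ← map_mul, ← e]
          rfl
        · change om v (Sum.elim (Γ1 b) 0) (meml hw) = _
          rw [hv (Γ1 b) w hw (meml hw), mul_zero]
          exact om_zero _ _ _ _
      · obtain ⟨w, hw0, hw, hw', e⟩ := hY j t.2
        refine lgf_of_om (w := algebraMap E2 L w) ((_root_.map_ne_zero _).2 hw0) (memr hw) ?_ ?_ ?_
        · rw [← map_inv₀]
          exact memr hw'
        · change j2 (y j) = algebraMap E2 L w *
            ∏ i, (prodLM hinj M1 M2).x t i ^ (Sum.elim 0 (Y j) : I1 ⊕ I2 → ℤ) i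
          rw [prod_monr, ← map_mul, ← e]
          rfl
        · change om v (Sum.elim 0 (Y j)) (memr hw) = _
          rw [hv' (Y j) w hw (memr hw)]
          exact om_of_lgf (M2.x0 t.2) hw e (hv2 j)
  · have h5 := pq_prodLM hinj M1 M2 hR1 hU2
    rw [e1] at h5
    exact h5
  · intro t l
    change (∏ i, (prodLM hinj M1 M2).x t i ^ (Sum.elim (n1 t.1 l) 0 : I1 ⊕ I2 → ℤ) i) *
      algebraMap E1 L (h1 t.1 l) = algebraMap E1 L _
    rw [prod_monl, ← map_mul]
    rfl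

end prodT

section kummer

variable {k E1 K0 : Type u} [Field k] [Field E1] [Field K0] [Algebra k E1]
  [Algebra k K0] [Algebra E1 K0] [IsScalarTower k E1 K0] {r : ℕ} {ι B : Type} [Fintype B]

/-- Local functions in a tame Kummer extension. -/
theorem kummer_kc {d0 : ℕ} (htr : Algebra.trdeg k E1 = d0)
    {m : ℕ} (hm : (m : k) ≠ 0) {w : Fin r → K0} (hw0 : ∀ j, w j ≠ 0)
    {T1 I1 : Type} [Finite T1] [Fintype I1]
    {M1 : LM (⊥ : Subalgebra k E1) ⊤ T1 I1} {n1 : T1 → ι → I1 → ℤ} {h1 : T1 → ι → E1}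
    (hN1 : KC M1 n1 h1) {g : B → E1} {Γ1 : B → I1 → ℤ} (hF1 : Fn M1 g Γ1) (hR1 : Frc M1)
    (lam : Fin r → B → ℤ)
    (hw : ∀ j, w j ^ m = algebraMap E1 K0 (∏ b, g b ^ lam j b))
    (hgen : IntermediateField.adjoin E1 (Set.range w) = ⊤) :
    ∃ (T I : Type) (_ : Finite T) (_ : Fintype I) (M : LM (⊥ : Subalgebra k K0) ⊤ T I)
      (n : T → ι → I → ℤ) (h : T → ι → K0) (Γ : B ⊕ Fin r → I → ℤ) (ρ : T → T1),
      KC M n h ∧ Fn M (Sum.elim (fun b => algebraMap E1 K0 (g b)) w) Γ ∧ Frc M ∧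
      (∀ t, ∀ a ∈ M1.A (ρ t), algebraMap E1 K0 a ∈ M.A t) ∧
      ∀ t l, bf M n h t l = algebraMap E1 K0 (bf M1 n1 h1 (ρ t) l) := by
  classical
  have hm0 : m ≠ 0 := by
    rintro rfl
    exact hm Nat.cast_zero
  let j1 : E1 →ₐ[k] RF E1 (Fin r) := IsScalarTower.toAlgHom k E1 (RF E1 (Fin r))
  let j1' : E1 →ₐ[k] K0 := IsScalarTower.toAlgHom k E1 K0
  obtain ⟨T, I, hT, hI, M, n, h, Γ, Y, ρ, hK, hFg, hFy, hD, hPQ, hA, hbf⟩ := kc_prodT j1
    (rsub (ly_ind (k := k) (E1 := E1) (r := r))) pm_inj pm_frac hN1 hF1 hR1 (rat_RF (Fin r))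
  have h2 : (fun j => rsub (ly_ind (k := k) (E1 := E1) (r := r))
      (algebraMap (MvPolynomial (Fin r) k) (RF k (Fin r)) (MvPolynomial.X j))) = ly E1 r :=
    funext fun j => rsub_X _ j
  rw [h2] at hFy hD hPQ
  obtain ⟨Q, π, hQ1, hQ2, hQ3⟩ := cutIn_rel (j1 := j1) (y1 := ly E1 r) ly_evm_inj (j1' := j1')
    (y' := w) hw0 (evm_gen hgen) (c := r) (d := d0)
    (fun b => up_RF htr (by omega) b) (exists_dn htr)
  have hin := hQ3 M Y hFy hPQ
  have hZ : Fn M (Sum.elim (fun b => j1 (g b)) (ly E1 r)) (Sum.elim Γ Y) := by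
    rintro (b | j)
    · exact hFg b
    · exact hFy j
  have hpz : (fun j => pq π (Sum.elim (fun b => j1 (g b)) (ly E1 r) j)) =
      Sum.elim (fun b => j1' (g b)) w := by
    funext j
    rcases j with b | j
    · exact (hQ1 _).2
    · exact (hQ2 _).2
  have hzQ := fn_memQ (nonempty_T M) hin.uq hZ
  obtain ⟨T', I', iT, iI, M', n', h', Z', ρ', hK', hF', hR', hA', hbf'⟩ :=
    cut_kc loc_main hK hZ hD hin (kumG k m lam) (fun j => by
      rw [pq_lv π (fun j => (hzQ j).1) (fun j => (hzQ j).2.1) (fun j => (hzQ j).2.2), hpz]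
      unfold kumG
      rw [bin_lv (kum_ne hm0 lam j)]
      simp only [Fintype.prod_sum_type, Sum.elim_inl, Sum.elim_inr, Pi.zero_apply, zpow_zero,
        Finset.prod_const_one, one_mul, mul_one]
      rw [Finset.prod_eq_single j]
      · rw [Pi.single_eq_same, zpow_natCast, hw, map_prod, sub_eq_zero]
        refine Finset.prod_congr rfl fun b _ => ?_
        exact map_zpow₀ _ _ _
      · intro b _ hb
        rw [Pi.single_eq_of_ne hb, zpow_zero]
      · intro h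
        exact absurd (Finset.mem_univ _) h)
    (kum_ndv hm lam _)
  rw [hpz] at hF'
  refine ⟨T', I', iT, iI, M', n', h', Z', fun t => ρ (ρ' t), hK', hF', hR', ?_, ?_⟩
  · intro t a ha
    have h3 := hA' t (j1 a) (hA _ a ha)
    rw [(hQ1 a).2] at h3
    exact h3
  · intro t l
    rw [hbf', hbf, (hQ1 _).2]
    rfl

end kummer

end Pool.Agent.Zk10
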