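import Pool.Agent.Zk10.S2

/-!
The tame part of the fixed field of a product of a product of groups and a commutative group.
-/

set_option autoImplicit false
set_option linter.unusedVariables false
set_option linter.unusedSectionVars false

universe u

namespace Pool.Agent.Zk10.Act

open Pool.Agent.W558 Pool.Agent.W558.WT Polynomial TensorProduct Pool.Agent.Zk10.Ram
  Pool.Agent.TH214.Q

section rs

variable {k M : Type u} [Field k] [Field M] [Algebra k M] {G : Type} [Group G]

/-- The restriction of the action to an invariant subfield. -/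
def rsA (τ : G →* (M ≃ₐ[k] M)) (L : IntermediateField k M) (hL : ∀ g, ∀ x ∈ L, τ g x ∈ L) :
    G →* (L ≃ₐ[k] L) where
  toFun := fun g =>
    { toFun := fun x => ⟨τ g x, hL g x x.2⟩
      invFun := fun x => ⟨τ g⁻¹ x, hL g⁻¹ x x.2⟩
      left_inv := fun x => Subtype.ext (by
        change τ g⁻¹ (τ g x) = x
        rw [← AlgEquiv.mul_apply, ← map_mul, inv_mul_cancel, map_one]
        rfl)
      right_inv := fun x => Subtype.ext (by
        change τ g (τ g⁻¹ x) = x
        rw [← AlgEquiv.mul_apply, ← map_mul, mul_inv_cancel, map_one]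
        rfl)
      map_mul' := fun x y => Subtype.ext (map_mul (τ g) _ _)
      map_add' := fun x y => Subtype.ext (map_add (τ g) _ _)
      commutes' := fun c => Subtype.ext ((τ g).commutes c) }
  map_one' := AlgEquiv.ext fun x => Subtype.ext (by
    change τ 1 x = x
    rw [map_one]
    rfl)
  map_mul' := fun g h => AlgEquiv.ext fun x => Subtype.ext (by
    change τ (g * h) x = τ g (τ h x)
    rw [map_mul]
    rfl)

@[simp] lemma rsA_coe (τ : G →* (M ≃ₐ[k] M)) (L : IntermediateField k M)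
    (hL : ∀ g, ∀ x ∈ L, τ g x ∈ L) (g : G) (x : L) : (rsA τ L hL g x : M) = τ g x := rfl

end rs

section alg

variable {k K : Type u} [Field k] [Field K] [Algebra k K] {C : Type} [Group C] [Finite C]
  (γ : C →* (K ≃ₐ[k] K))

/-- Elements are roots of polynomials with invariant coefficients. -/
lemma exists_inv_poly (y : K) : ∃ Q : K[X], Q.Monic ∧ (∀ l g, γ g (Q.coeff l) = Q.coeff l) ∧
    Q.eval y = 0 := by
  classical
  have hf : Fintype C := Fintype.ofFinite C
  refine ⟨cpg γ y, cpg_monic γ y, fun l g => cpg_coeff γ g y l, cpg_root γ y⟩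

end alg

section gen

variable {k E : Type u} [Field k] [Field E] [Algebra k E] {n : ℕ} {K : Fin n → Type u}
  [∀ i, Field (K i)] [∀ i, Algebra k (K i)] (e : ∀ i, K i →ₐ[k] E) {P : Fin n → Type}
  [∀ i, Group (P i)] [∀ i, Fintype (P i)] {C : Type} [CommGroup C] [Finite C]
  (r : ∀ i, P i →* (K i ≃ₐ[k] K i)) (hr : ∀ i, Function.Injective (r i))
  (γ : ∀ i, C →* (K i ≃ₐ[k] K i)) (hcomm : ∀ i g c x, r i g (γ i c x) = γ i c (r i g x))
  (τ : (∀ i, P i) × C →* (E ≃ₐ[k] E))
  (hτ : ∀ g i x, τ g (e i x) = e i (r i (g.1 i) (γ i g.2 x)))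
  (hgen : ∀ M' : IntermediateField k E, (∀ i y, e i y ∈ M') → M' = ⊤)
  (F : ∀ i, IntermediateField k (K i))
  (hF : ∀ i x, x ∈ F i ↔ (∀ g, r i g x = x) ∧ ∀ c, γ i c x = x)
  (m : ℕ) {ζ : k} (hζ : IsPrimitiveRoot ζ m) (hm : (m : k) ≠ 0) (hC : ∀ c : C, c ^ m = 1)

include hr hcomm hτ hgen hF hζ hm hC in
/-- The generators of the tame part. -/
theorem tame_gen (p : ℕ) [Fact p.Prime] [CharP k p] :
    ∃ (NX r1 : ℕ) (c : ∀ i, Fin NX → F i) (lam : Fin r1 → Fin n × Fin NX → ℤ) (w : Fin r1 → E),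
      (∀ i a, c i a ≠ 0) ∧ (∀ l, w l ≠ 0) ∧ (∀ l, w l ∈ fixH τ ⊤) ∧
      (∀ l, w l ^ m = ∏ q : Fin n × Fin NX, e q.1 (c q.1 q.2) ^ lam l q) ∧
      ∀ M : IntermediateField k E, (∀ i, ∀ x ∈ F i, e i x ∈ M) → (∀ l, w l ∈ M) →
        fixH τ ⊤ ≤ M := by
  classical
  have hp : p.Prime := Fact.out
  have hm0 : 0 < m := by
    rcases Nat.eq_zero_or_pos m with h | h
    · exact absurd (by rw [h, Nat.cast_zero]) hm
    · exact h
  have hpm : Nat.Coprime p m := by
    rw [Nat.Prime.coprime_iff_not_dvd hp]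
    intro h
    exact hm ((CharP.cast_eq_zero_iff k p m).2 h)
  -- the invariants of the first group
  let τP : (∀ i, P i) →* (E ≃ₐ[k] E) := τ.comp (MonoidHom.inl _ _)
  let τC : C →* (E ≃ₐ[k] E) := τ.comp (MonoidHom.inr _ _)
  have hτP : ∀ g i x, τP g (e i x) = e i (r i (g i) x) := by
    intro g i x
    change τ (g, 1) (e i x) = _
    rw [hτ]
    change e i (r i (g i) (γ i 1 x)) = _
    rw [map_one]
    rfl
  have hτC : ∀ c i x, τC c (e i x) = e i (γ i c x) := by
    intro c i x
    change τ (1, c) (e i x) = _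
    rw [hτ]
    change e i (r i 1 (γ i c x)) = _
    rw [map_one]
    rfl
  have hτPC : ∀ g c x, τ (g, c) x = τP g (τC c x) := by
    intro g c x
    change _ = τ (g, 1) (τ (1, c) x)
    rw [← AlgEquiv.mul_apply, ← map_mul, Prod.mk_mul_mk, mul_one, one_mul]
  have hτCP : ∀ g c x, τP g (τC c x) = τC c (τP g x) := by
    intro g c x
    rw [← hτPC]
    change _ = τ (1, c) (τ (g, 1) x)
    rw [← AlgEquiv.mul_apply, ← map_mul, Prod.mk_mul_mk, mul_one, one_mul]
  let K' : ∀ i, IntermediateField k (K i) := fun i => fixH (r i) ⊤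
  let E' : IntermediateField k E := fixH τP ⊤
  have hK' : ∀ i x, x ∈ K' i ↔ ∀ g, r i g x = x := fun i x =>
    ⟨fun h g => h g trivial, fun h g _ => h g⟩
  have hE' : ∀ x, x ∈ E' ↔ ∀ g, τP g x = x := fun x =>
    ⟨fun h g => h g trivial, fun h g _ => h g⟩
  have hfix : E' = IntermediateField.adjoin k {y | ∃ i, ∃ x ∈ K' i, y = e i x} :=
    fix_comp e r hr τP hτP hgen K' hK'
  have hγK : ∀ i c, ∀ x ∈ K' i, γ i c x ∈ K' i := by
    intro i c x hx
    rw [hK'] at hx ⊢
    intro g
    rw [hcomm, hx]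
  have hCE : ∀ c, ∀ x ∈ E', τC c x ∈ E' := by
    intro c x hx
    rw [hE'] at hx ⊢
    intro g
    rw [hτCP, hx]
  let γ' : ∀ i, C →* (K' i ≃ₐ[k] K' i) := fun i => rsA (γ i) (K' i) (hγK i)
  let τ' : C →* (E' ≃ₐ[k] E') := rsA τC E' hCE
  have heE : ∀ i, ∀ x ∈ K' i, e i x ∈ E' := by
    intro i x hx
    rw [hfix]
    exact IntermediateField.subset_adjoin k _ ⟨i, x, hx, rfl⟩
  let e' : ∀ i, K' i →ₐ[k] E' := fun i =>
    ((e i).comp (K' i).val).codRestrict E'.toSubalgebra fun x => heE i x x.2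
  have he' : ∀ i x, ((e' i x : E') : E) = e i (x : K i) := fun i x => rfl
  have hτ' : ∀ g i (y : K' i), τ' g (e' i y) = e' i (γ' i g y) := by
    intro g i y
    apply Subtype.ext
    change τC g (e i (y : K i)) = e i (γ i g y)
    rw [hτC]
  have hgen' : ∀ M' : IntermediateField k E', (∀ i y, e' i y ∈ M') → M' = ⊤ := by
    intro M' hM'
    rw [eq_top_iff]
    intro x _
    have h1 : IntermediateField.adjoin k {y | ∃ i, ∃ x ∈ K' i, y = e i x} ≤ M'.map E'.val := by
      rw [IntermediateField.adjoin_le_iff]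
      rintro _ ⟨i, x, hx, rfl⟩
      exact ⟨e' i ⟨x, hx⟩, hM' i _, rfl⟩
    obtain ⟨y, hy, hyx⟩ := h1 (hfix.le x.2)
    have h2 : y = x := Subtype.ext hyx
    rw [← h2]
    exact hy
  let L0' : IntermediateField k E' := IntermediateField.adjoin k
    {y | ∃ i, ∃ x : K' i, (∀ c, γ' i c x = x) ∧ y = e' i x}
  have hL1 : ∀ i (y : K' i), (∀ c, γ' i c y = y) → e' i y ∈ L0' := fun i y hy =>
    IntermediateField.subset_adjoin k _ ⟨i, y, hy, rfl⟩
  have hL2 : ∀ x ∈ L0', ∀ g, τ' g x = x := by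
    intro x hx g
    have h1 : L0' ≤ fixF {τ' g} := by
      rw [IntermediateField.adjoin_le_iff]
      rintro _ ⟨i, y, hy, rfl⟩
      rintro _ rfl
      rw [hτ', hy]
    exact h1 hx _ rfl
  have halg : ∀ x : E', IsAlgebraic L0' x := by
    let N : IntermediateField k E' := (algebraicClosure L0' E').restrictScalars k
    have hN : N = ⊤ := by
      apply hgen'
      intro i y
      change e' i y ∈ algebraicClosure L0' E'
      rw [mem_algebraicClosure_iff]
      obtain ⟨Q, hQm, hQi, hQ0⟩ := exists_inv_poly (γ' i) y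
      have hl : Q.map (e' i : K' i →+* E') ∈ Polynomial.lifts (algebraMap L0' E') := by
        rw [Polynomial.lifts_iff_coeff_lifts]
        intro l
        rw [coeff_map]
        exact ⟨⟨_, hL1 i _ (hQi l)⟩, rfl⟩
      obtain ⟨q, hq, -, hqm⟩ := Polynomial.lifts_and_natDegree_eq_and_monic hl (hQm.map _)
      refine IsIntegral.isAlgebraic ⟨q, hqm, ?_⟩
      rw [← Polynomial.eval_map, hq, Polynomial.eval_map]
      change eval₂ (e' i : K' i →+* E') ((e' i : K' i →+* E') y) Q = 0
      rw [Polynomial.eval₂_at_apply, hQ0, map_zero]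
    intro x
    have h1 : x ∈ N := by rw [hN]; trivial
    exact mem_algebraicClosure_iff.1 h1
  have hcE : CharP E' p := charP_of_injective_algebraMap (algebraMap k E').injective p
  have hcK : ∀ i, CharP (K' i) p := fun i =>
    charP_of_injective_algebraMap (algebraMap k (K' i)).injective p
  have hCp : ∀ c : C, c ^ p = 1 → c = 1 := by
    intro c hc
    have h1 : orderOf c ∣ Nat.gcd p m :=
      Nat.dvd_gcd (orderOf_dvd_of_pow_eq_one hc) (orderOf_dvd_of_pow_eq_one (hC c))
    rw [hpm.gcd_eq_one, Nat.dvd_one, orderOf_eq_one_iff] at h1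
    exact h1
  have hCpm : ∀ c : C, c ^ (p * m) = 1 := by
    intro c
    rw [mul_comm, pow_mul, hC, one_pow]
  have hfg := fun (M : IntermediateField k E') => fixed_gen (ρ := γ') (τ := τ') (e := e') (p := p)
    (m := m) hζ hm hτ' hCpm L0' hL1 hL2 halg hgen' (fun i => 0) (fun i _ => 0)
    (fun i g => by rw [map_zero, map_zero, add_zero])
    (fun i M _ hM y => hM y fun g hg => by
      rw [hCp g hg, map_one]
      rfl) M
  -- the representatives
  have hfR : Finite {x : k // x ^ m = 1} := finite_roots k hm0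
  have hfX : Finite (XX k C m) := Pi.finite
  obtain ⟨NX, ⟨eX⟩⟩ := Finite.exists_equiv_fin (XX k C m)
  have hrF : ∀ i (χ : XX k C m), ((rep (γ' i) p m χ ^ m : K' i) : K i) ∈ F i := by
    intro i χ
    rw [hF]
    refine ⟨(hK' i _).1 (rep (γ' i) p m χ ^ m : K' i).2, fun c => ?_⟩
    have h1 := rep_pow (ρ := γ' i) hpm hCpm χ c
    exact congrArg Subtype.val h1
  let Y := {χ : Fin n → XX k C m // ∀ g, τ' g (ww γ' e' p m χ) = ww γ' e' p m χ}
  have hfY : Finite Y := Subtype.finite
  obtain ⟨r1, ⟨eY⟩⟩ := Finite.exists_equiv_fin Y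
  refine ⟨NX, r1, fun i a => ⟨((rep (γ' i) p m (eX.symm a) ^ m : K' i) : K i), hrF i _⟩,
    fun l q => if q.2 = eX ((eY.symm l).1 q.1) then 1 else 0,
    fun l => ((ww γ' e' p m (eY.symm l).1 : E') : E), ?_, ?_, ?_, ?_, ?_⟩
  · intro i a h
    have h1 : ((rep (γ' i) p m (eX.symm a) ^ m : K' i) : K i) = 0 := congrArg Subtype.val h
    have h2 : rep (γ' i) p m (eX.symm a) ^ m = 0 := Subtype.ext h1
    exact pow_ne_zero m (rep_ne (γ' i) p m _) h2
  · intro l h
    have h1 : ww γ' e' p m (eY.symm l).1 = 0 := Subtype.ext h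
    exact Finset.prod_ne_zero_iff.2 (fun i _ =>
      (_root_.map_ne_zero (e' i)).2 (rep_ne (γ' i) p m _)) h1
  · intro l g _
    obtain ⟨g, c⟩ := g
    rw [hτPC]
    have h1 := congrArg Subtype.val ((eY.symm l).2 c)
    change τC c ((ww γ' e' p m (eY.symm l).1 : E') : E) = _ at h1
    rw [h1]
    exact (hE' _).1 (ww γ' e' p m (eY.symm l).1).2 g
  · intro l
    have h2 : ((ww γ' e' p m (eY.symm l).1 : E') : E) =
        ∏ i, e i ((rep (γ' i) p m ((eY.symm l).1 i) : K' i) : K i) := by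
      change E'.val (∏ i, e' i (rep (γ' i) p m ((eY.symm l).1 i))) = _
      rw [map_prod]
      rfl
    change ((ww γ' e' p m (eY.symm l).1 : E') : E) ^ m = _
    rw [h2, Fintype.prod_prod_type, ← Finset.prod_pow]
    refine Finset.prod_congr rfl fun i _ => ?_
    rw [Finset.prod_eq_single (eX ((eY.symm l).1 i))]
    · simp only [if_true, zpow_one, Equiv.symm_apply_apply]
      change _ = e i ((K' i).val (rep (γ' i) p m ((eY.symm l).1 i) ^ m))
      rw [map_pow, map_pow]
      rfl
    · intro a _ ha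
      simp only [if_neg ha, zpow_zero]
    · intro h
      exact absurd (Finset.mem_univ _) h
  · intro M hM hMw y hy
    have hyE : y ∈ E' := by
      rw [hE']
      intro g
      exact hy (g, 1) trivial
    have h1 := hfg (M.comap E'.val) (by
      rw [IntermediateField.adjoin_le_iff]
      rintro _ ⟨i, x, hx, rfl⟩
      change e i (x : K i) ∈ M
      refine hM i _ ((hF i _).2 ⟨(hK' i _).1 x.2, fun c => ?_⟩)
      exact congrArg Subtype.val (hx c)) (by
      intro χ hχ
      have h3 : ((ww γ' e' p m (eY.symm (eY ⟨χ, hχ⟩)).1 : E') : E) ∈ M := hMw (eY ⟨χ, hχ⟩)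
      rw [Equiv.symm_apply_apply] at h3
      exact h3) (by
      intro c _
      change ((∑ i, zc p E' (c i) * e' i 0 : E') : E) ∈ M
      have h4 : (∑ i, zc p E' (c i) * e' i 0 : E') = 0 :=
        Finset.sum_eq_zero fun i _ => by rw [map_zero, mul_zero]
      rw [h4]
      exact M.zero_mem) ⟨y, hyE⟩ (by
      intro g
      apply Subtype.ext
      change τC g y = y
      exact hy (1, g) trivial)
    exact h1

end gen

end Pool.Agent.Zk10.Act
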