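import Mathlib

/-!
Morphisms to affine open subschemes, generic points, and the valuative criterion.
-/

set_option autoImplicit false
set_option linter.unusedVariables false
set_option linter.unusedSectionVars false

universe u

open AlgebraicGeometry CategoryTheory Limits

namespace Pool.Agent.Zk10.Sch

section aff

variable {k : Type u} [Field k] {Y : Scheme.{u}} (y : Y ⟶ Spec (.of k))

/-- The constants on an open subset. -/
noncomputable def kU (U : Y.Opens) : k →+* Γ(Y, U) :=
  ((Scheme.ΓSpecIso (.of k)).inv ≫ y.appLE ⊤ U le_top).hom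

lemma kU_res {U V : Y.Opens} (h : V ≤ U) (c : k) :
    Y.presheaf.map (homOfLE h).op (kU y U c) = kU y V c := by
  have h1 : (Scheme.ΓSpecIso (.of k)).inv ≫ y.appLE ⊤ U le_top ≫ Y.presheaf.map (homOfLE h).op =
      (Scheme.ΓSpecIso (.of k)).inv ≫ y.appLE ⊤ V le_top := by
    rw [Scheme.Hom.appLE_map]
  exact congrArg (fun f => f.hom c) h1

lemma fromSpec_str {U : Y.Opens} (hU : IsAffineOpen U) :
    hU.fromSpec ≫ y = Spec.map (CommRingCat.ofHom (kU y U)) := by
  have h := IsAffineOpen.SpecMap_appLE_fromSpec y (isAffineOpen_top (Spec (.of k))) hU le_top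
  rw [← h, IsAffineOpen.fromSpec_top, Scheme.isoSpec_Spec_inv, ← Spec.map_comp]
  rfl

variable {U : Y.Opens} (hU : IsAffineOpen U) {S : CommRingCat.{u}}

include hU

/-- Morphisms from affine schemes which factor through an affine open subscheme. -/
lemma exists_hom (θ : Spec S ⟶ Y) (h : ∀ x, θ x ∈ U) :
    ∃ φ : Γ(Y, U) ⟶ S, Spec.map φ ≫ hU.fromSpec = θ := by
  have h1 : Set.range θ ⊆ Set.range hU.fromSpec := by
    rw [hU.range_fromSpec]
    rintro _ ⟨x, rfl⟩
    exact h x
  refine ⟨Spec.preimage (IsOpenImmersion.lift hU.fromSpec θ h1), ?_⟩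
  rw [Spec.map_preimage, IsOpenImmersion.lift_fac]

lemma hom_unique {φ ψ : Γ(Y, U) ⟶ S} (h : Spec.map φ ≫ hU.fromSpec = Spec.map ψ ≫ hU.fromSpec) :
    φ = ψ :=
  Spec.map_injective ((cancel_mono _).1 h)

lemma mem_of_hom (φ : Γ(Y, U) ⟶ S) (x : Spec S) : (Spec.map φ ≫ hU.fromSpec) x ∈ U := by
  have h1 : (hU.fromSpec (Spec.map φ x)) ∈ Set.range hU.fromSpec := ⟨_, rfl⟩
  rw [hU.range_fromSpec] at h1
  exact h1

end aff

section gen

variable {Y : Scheme.{u}} [IsIntegral Y]

/-- The generic point. -/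
noncomputable def gen (Y : Scheme.{u}) [IsIntegral Y] : Spec Y.functionField ⟶ Y :=
  Y.fromSpecStalk (genericPoint Y)

lemma gen_eq {U : Y.Opens} (hU : IsAffineOpen U) [Nonempty U] :
    Spec.map (Y.germToFunctionField U) ≫ hU.fromSpec = gen Y := by
  exact hU.fromSpecStalk_eq_fromSpecStalk _

lemma generic_mem (U : Y.Opens) (h : (U : Set Y).Nonempty) : genericPoint Y ∈ U :=
  ((genericPoint_spec Y).mem_open_set_iff U.isOpen).mpr (by simpa using h)

lemma gen_apply (x : Spec Y.functionField) : gen Y x = genericPoint Y := by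
  have h1 : x = IsLocalRing.closedPoint (Y.presheaf.stalk (genericPoint Y)) := by
    have h2 : Subsingleton (Spec Y.functionField) :=
      inferInstanceAs (Subsingleton (PrimeSpectrum Y.functionField))
    exact Subsingleton.elim _ _
  rw [h1]
  exact Scheme.fromSpecStalk_closedPoint

instance : IsDominant (gen Y) := by
  refine ⟨?_⟩
  have h1 : Set.range (gen Y) = {genericPoint Y} := by
    ext z
    constructor
    · rintro ⟨x, rfl⟩
      exact gen_apply x
    · rintro rfl
      exact ⟨IsLocalRing.closedPoint (Y.presheaf.stalk (genericPoint Y)), gen_apply _⟩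
  rw [DenseRange, h1]
  intro z
  have h2 := (genericPoint_spec Y)
  rw [isGenericPoint_def] at h2
  rw [h2]
  trivial

end gen

section val

variable {k : Type u} [Field k] {Y : Scheme.{u}} [IsIntegral Y] (y : Y ⟶ Spec (.of k))

/-- The constants in the function field. -/
noncomputable def kK : k →+* Y.functionField :=
  ((Scheme.ΓSpecIso (.of k)).inv ≫ y.appTop ≫ Y.presheaf.germ ⊤ (genericPoint Y) trivial).hom

lemma germ_kU (U : Y.Opens) [Nonempty U] (c : k) :
    Y.germToFunctionField U (kU y U c) = kK y c := by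
  have hne : Nonempty (⊤ : Y.Opens) := ⟨⟨genericPoint Y, trivial⟩⟩
  have h1 : kK y c = Y.germToFunctionField ⊤ (kU y ⊤ c) := by
    unfold kK kU
    rw [Scheme.Hom.appTop, Scheme.Hom.app_eq_appLE]
    rfl
  rw [h1, ← kU_res y (le_top : U ≤ ⊤)]
  exact TopCat.Presheaf.germ_res_apply _ _ _ _ _

lemma gen_str : gen Y ≫ y = Spec.map (CommRingCat.ofHom (kK y)) := by
  obtain ⟨U, hU, hx, -⟩ := exists_isAffineOpen_mem_and_subset (x := genericPoint Y) (U := ⊤) trivial
  have hne : Nonempty U := ⟨⟨_, hx⟩⟩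
  rw [← gen_eq hU, Category.assoc, fromSpec_str, ← Spec.map_comp]
  congr 1
  ext c
  exact germ_kU y U c

/-- Open subsets are stable under generization. -/
lemma mem_of_closed {R : CommRingCat.{u}} [IsLocalRing R] (θ : Spec R ⟶ Y) (U : Y.Opens)
    (h : θ (IsLocalRing.closedPoint R) ∈ U) (x : Spec R) : θ x ∈ U :=
  ((IsLocalRing.specializes_closedPoint x).map θ.continuous).mem_open U.isOpen h

/-- The center of a valuation on a proper scheme. -/
theorem exists_center [IsProper y] {α : Type*} (V : α → Y.Opens) (hV : ∀ a, IsAffineOpen (V a))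
    (hne : ∀ a, Nonempty (V a))
    (hcov : ∀ x, ∃ a, x ∈ V a) (v : ValuationSubring Y.functionField)
    (hv : ∀ c, kK y c ∈ v) : ∃ a, ∀ f : Γ(Y, V a), Y.germToFunctionField (V a) f ∈ v := by
  classical
  have h1 : ValuativeCriterion y := by
    have h2 : @IsProper _ _ y := inferInstance
    rw [IsProper.eq_valuativeCriterion] at h2
    exact h2.1.1.1
  let i2 : Spec (.of v) ⟶ Spec (.of k) :=
    Spec.map (CommRingCat.ofHom ((kK y).codRestrict v.toSubring hv))
  have hsq : CommSq (gen Y) (Spec.map (CommRingCat.ofHom (algebraMap v Y.functionField))) y i2 := by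
    refine ⟨?_⟩
    rw [gen_str, ← Spec.map_comp]
    rfl
  obtain ⟨ℓ⟩ := (h1.existence ⟨v, Y.functionField, gen Y, i2, hsq⟩).exists_lift
  have hl : Spec.map (CommRingCat.ofHom (algebraMap v Y.functionField)) ≫ ℓ.l = gen Y := ℓ.fac_left
  obtain ⟨a, ha⟩ := hcov (ℓ.l (IsLocalRing.closedPoint (CommRingCat.of v)))
  have := hne a
  refine ⟨a, fun f => ?_⟩
  obtain ⟨φ, hφ⟩ := exists_hom (hV a) ℓ.l (mem_of_closed ℓ.l (V a) ha)
  have h3 : φ ≫ CommRingCat.ofHom (algebraMap v Y.functionField) = Y.germToFunctionField (V a) := by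
    apply hom_unique (hV a)
    rw [gen_eq, Spec.map_comp, Category.assoc, hφ, hl]
  rw [← h3]
  exact (φ f : v).2

end val

end Pool.Agent.Zk10.Sch
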