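import Pool.Agent.Zk10.V9

/-!
The local condition for quotients of products.
-/

set_option autoImplicit false
set_option linter.unusedVariables false
set_option linter.unusedSectionVars false

open AlgebraicGeometry CategoryTheory Limits

namespace Pool.Agent.Zk10.Sch

section loc

variable {k E : Type} [Field k] [Field E] [Algebra k E] {KG : IntermediateField k E}
  (B : Subalgebra k KG) (q : PrimeSpectrum B)

/-- The homomorphism to the field. -/
noncomputable def bE : B →+* E := (algebraMap KG E).comp (algebraMap B KG)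

lemma bE_apply (b : B) : bE B b = ((b : KG) : E) := rfl

lemma bE_inj : Function.Injective (bE B) := fun a b h => Subtype.ext (Subtype.ext h)

lemma bE_unit (v : q.asIdeal.primeCompl) : IsUnit (bE B v) := by
  refine IsUnit.mk0 _ fun h => v.2 ?_
  have h1 : (v : B) = 0 := bE_inj B (h.trans (map_zero _).symm)
  rw [h1]
  exact q.asIdeal.zero_mem

/-- The local ring in the field. -/
noncomputable def locE : Localization.AtPrime q.asIdeal →+* E :=
  IsLocalization.lift (M := q.asIdeal.primeCompl) (S := Localization.AtPrime q.asIdeal)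
    (bE_unit B q)

lemma locE_algebraMap (b : B) : locE B q (algebraMap B _ b) = bE B b :=
  IsLocalization.lift_eq (M := q.asIdeal.primeCompl) (S := Localization.AtPrime q.asIdeal)
    (bE_unit B q) b

lemma mem_locE {z : E} : z ∈ (locE B q).range ↔ ∃ u v : B, v ∉ q.asIdeal ∧ z * bE B v = bE B u := by
  constructor
  · rintro ⟨w, rfl⟩
    obtain ⟨u, v, rfl⟩ := IsLocalization.exists_mk'_eq q.asIdeal.primeCompl w
    refine ⟨u, v, v.2, ?_⟩
    rw [← locE_algebraMap B q v, ← map_mul, IsLocalization.mk'_spec, locE_algebraMap]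
  · rintro ⟨u, v, hv, h⟩
    refine ⟨IsLocalization.mk' _ u (⟨v, hv⟩ : q.asIdeal.primeCompl), ?_⟩
    have h1 : bE B v ≠ 0 := (bE_unit B q ⟨v, hv⟩).ne_zero
    apply mul_right_cancel₀ h1
    rw [h, ← locE_algebraMap B q v, ← map_mul,
      IsLocalization.mk'_spec (Localization.AtPrime q.asIdeal) u ⟨v, hv⟩, locE_algebraMap]

/-- The local ring, a subalgebra of the field. -/
noncomputable def OE : Subalgebra k E :=
  { (locE B q).range.toSubsemiring with
    algebraMap_mem' := fun c => ⟨algebraMap B _ (algebraMap k B c), locE_algebraMap B q _⟩ }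

lemma mem_OE {z : E} : z ∈ OE B q ↔ ∃ u v : B, v ∉ q.asIdeal ∧ z * bE B v = bE B u :=
  mem_locE B q

instance : IsLocalRing (OE B q) := by
  let f : Localization.AtPrime q.asIdeal →+* OE B q :=
    (locE B q).codRestrict (OE B q) fun w => ⟨w, rfl⟩
  refine IsLocalRing.of_surjective' f ?_
  rintro ⟨_, w, rfl⟩
  exact ⟨w, rfl⟩

lemma OE_le {z : E} (hz : z ∈ OE B q) : z ∈ KG := by
  obtain ⟨u, v, hv, h⟩ := (mem_OE B q).1 hz
  have h1 : bE B v ≠ 0 := (bE_unit B q ⟨v, hv⟩).ne_zero
  have h2 : z = bE B u / bE B v := by rw [← h, mul_div_cancel_right₀ _ h1]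
  rw [h2]
  exact KG.div_mem (u : KG).2 (v : KG).2

lemma B_le_OE (b : B) : bE B b ∈ OE B q := ⟨algebraMap B _ b, locE_algebraMap B q b⟩

lemma OE_normal (hB : IsIntegrallyClosed B)
    (hfr : ∀ z : KG, ∃ u v : B, (v : KG) ≠ 0 ∧ z * v = u) {z : E} (hz : z ∈ KG)
    (hint : IsIntegral (OE B q) z) : z ∈ OE B q := by
  let _ : Algebra (Localization.AtPrime q.asIdeal) E := (locE B q).toAlgebra
  have h1 : IsScalarTower B (Localization.AtPrime q.asIdeal) E :=
    IsScalarTower.of_algebraMap_eq fun b => (locE_algebraMap B q b).symm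
  have h2 : IsScalarTower B KG E := IsScalarTower.of_algebraMap_eq fun b => rfl
  have hfr' : IsFractionRing B KG := by
    refine IsFractionRing.of_field _ _ fun z => ?_
    obtain ⟨u, v, hv, h⟩ := hfr z
    exact ⟨u, v, by
      change z = (u : KG) / (v : KG)
      rw [← h, mul_div_cancel_right₀ _ hv]⟩
  have hz1 : IsIntegral (Localization.AtPrime q.asIdeal) z := by
    obtain ⟨Q, hQ, hQ0⟩ := hint
    let f : Localization.AtPrime q.asIdeal →+* OE B q :=
      (locE B q).codRestrict (OE B q) fun w => ⟨w, rfl⟩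
    have hf : Function.Surjective f := by
      rintro ⟨_, w, rfl⟩
      exact ⟨w, rfl⟩
    have hl : Q ∈ Polynomial.lifts f := by
      rw [Polynomial.lifts_iff_coeff_lifts]
      intro n
      exact hf _
    obtain ⟨Q', hQ', -, hQm⟩ := Polynomial.lifts_and_natDegree_eq_and_monic hl hQ
    refine ⟨Q', hQm, ?_⟩
    rw [← hQ', Polynomial.eval₂_map] at hQ0
    exact hQ0
  obtain ⟨m, hm⟩ := hz1.exists_multiple_integral_of_isLocalization q.asIdeal.primeCompl z
  have hmz : m • z = z * bE B m := by
    rw [mul_comm]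
    exact Algebra.smul_def (m : B) z
  have h3 : IsIntegral B (m • (⟨z, hz⟩ : KG)) := by
    have h4 : algebraMap KG E (m • (⟨z, hz⟩ : KG)) = m • z := by
      rw [hmz, mul_comm]
      exact congrArg (fun w : KG => (w : E)) (Algebra.smul_def (m : B) (⟨z, hz⟩ : KG))
    rw [← h4] at hm
    exact (isIntegral_algebraMap_iff (algebraMap KG E).injective).1 hm
  obtain ⟨u, hu⟩ := IsIntegrallyClosed.isIntegral_iff.1 h3
  refine (mem_OE B q).2 ⟨u, m, m.2, ?_⟩
  have h5 := congrArg (fun w : KG => (w : E)) (hu.trans (Algebra.smul_def (m : B) (⟨z, hz⟩ : KG)))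
  rw [mul_comm]
  exact h5.symm

end loc

end Pool.Agent.Zk10.Sch
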