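import Pool.Agent.Zk10.V10

/-!
The resolution of quotients of products, from a model of the function field.
-/

set_option autoImplicit false
set_option linter.unusedVariables false
set_option linter.unusedSectionVars false

open AlgebraicGeometry CategoryTheory Limits

namespace Pool.Agent.Zk10.Sch

open Pool.Agent.N98.PJ

/-- The resolution of quotients of products, from a model of the function field. -/
theorem res_of_model {k : Type} [Field k] {n : ℕ} {Y : Fin n → Scheme.{0}}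
    [∀ i, IsIntegral (Y i)] (y : ∀ i, Y i ⟶ Spec (.of k)) {Z : Scheme.{0}}
    (z : Z ⟶ Spec (.of k)) (pr : ∀ i, Z ⟶ Y i) (hZ : IsProd y z pr)
    {G : Type} [Group G] [Finite G] {E : Type} [Field E] [Algebra k E]
    (τ : G →* (E ≃ₐ[k] E)) (e : ∀ i, Fun (y i) →ₐ[k] E)
    (η : Spec (.of E) ⟶ Z) (hηz : η ≫ z = Spec.map (CommRingCat.ofHom (algebraMap k E)))
    (hη : ∀ i, η ≫ pr i =
      Spec.map (CommRingCat.ofHom ((e i : Fun (y i) →ₐ[k] E) : Fun (y i) →+* E)) ≫ genF (y i))
    (KG : IntermediateField k E) (hKG : ∀ u, u ∈ KG ↔ ∀ g, τ g u = u)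
    (P : SPM k KG) (hnorm : ∀ j, IsIntegrallyClosed (P.B j))
    (hfr : ∀ j, ∀ u : KG, ∃ a b : P.B j, (b : KG) ≠ 0 ∧ u * b = a)
    (α : Fin n → Type) (V : ∀ i, α i → (Y i).Opens) (hne : ∀ i a, Nonempty (V i a))
    (c : ∀ i, α i → Finset (Fun (y i))) (hVa : ∀ i a, IsAffineOpen (V i a))
    (hcP : ∀ i a, ∀ u ∈ c i a, ∀ j, ∃ w : KG, (w : E) = e i u ∧ (w ∈ P.B j ∨ w⁻¹ ∈ P.B j))
    (hint : ∀ i a, ∀ f : Sec (y i) (V i a), IsIntegral
      (Algebra.adjoin k (c i a : Set (Fun (y i)))) (algebraMap (Sec (y i) (V i a)) (Fun (y i)) f))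
    (hcV : ∀ i a, ∀ u ∈ c i a, ∃ f : Sec (y i) (V i a),
      algebraMap (Sec (y i) (V i a)) (Fun (y i)) f = u)
    (hval : ∀ i (v : ValuationSubring (Fun (y i))), (∀ c : k, algebraMap k (Fun (y i)) c ∈ v) →
      ∃ a, ∀ f : Sec (y i) (V i a), algebraMap (Sec (y i) (V i a)) (Fun (y i)) f ∈ v)
    {X : Scheme.{0}} [IsIntegral X] (x : X ⟶ Spec (.of k)) [IsSeparated x]
    [LocallyOfFiniteType x] (γ : Fun x ≃ₐ[k] KG) (q : Z ⟶ X) (hqx : q ≫ x = z)
    (hθ : η ≫ q = Spec.map (CommRingCat.ofHom (algebraMap KG E)) ≫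
      Spec.map (CommRingCat.ofHom ((γ : Fun x ≃ₐ[k] KG) : Fun x →+* KG)) ≫ genF x) :
    ∃ (Y' : Scheme.{0}) (π : Y' ⟶ X), IsIntegral Y' ∧ IsProper π ∧
      AlgebraicGeometry.Smooth (π ≫ x) ∧
      ∃ U : X.Opens, (U : Set X).Nonempty ∧ IsIso (π ∣_ U) := by
  classical
  refine exists_res_pt x γ P fun j q' => ?_
  let B := P.B j
  -- the chart
  obtain ⟨A, hA, hloc⟩ := IsLocalRing.exists_factor_valuationRing (locE B q')
  have hBA : ∀ b : B, bE B b ∈ A := fun b => by
    rw [← locE_algebraMap B q' b]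
    exact hA _
  have hkA : ∀ c : k, algebraMap k E c ∈ A := fun c => hBA (algebraMap k B c)
  have hchart : ∀ i, ∃ a, ∀ f : Sec (y i) (V i a),
      e i (algebraMap (Sec (y i) (V i a)) (Fun (y i)) f) ∈ A := by
    intro i
    obtain ⟨a, ha⟩ := hval i (A.comap (e i : Fun (y i) →+* E)) (fun c => by
      rw [ValuationSubring.mem_comap]
      change e i (algebraMap k (Fun (y i)) c) ∈ A
      rw [AlgHom.commutes]
      exact hkA c)
    exact ⟨a, fun f => ha f⟩
  choose a ha using hchart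
  have hcO : ∀ i, ∀ u ∈ c i (a i), e i u ∈ OE B q' := by
    intro i u hu
    obtain ⟨w, hw, hw' | hw'⟩ := hcP i (a i) u hu j
    · rw [← hw]
      exact B_le_OE B q' ⟨w, hw'⟩
    · obtain ⟨f, hf⟩ := hcV i (a i) u hu
      have hwA : (w : E) ∈ A := by
        rw [hw, ← hf]
        exact ha i f
      by_cases hw0 : w = 0
      · rw [← hw, hw0]
        exact (OE B q').zero_mem
      have hwE : (w : E) ≠ 0 := fun h => hw0 (Subtype.ext h)
      by_cases hmem : (⟨w⁻¹, hw'⟩ : B) ∈ q'.asIdeal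
      · exfalso
        have h1 : ¬ IsUnit (algebraMap B (Localization.AtPrime q'.asIdeal) ⟨w⁻¹, hw'⟩) := by
          have h2 := (IsLocalization.AtPrime.to_map_mem_maximal_iff
            (Localization.AtPrime q'.asIdeal) q'.asIdeal (⟨w⁻¹, hw'⟩ : B)).2 hmem
          exact (IsLocalRing.mem_maximalIdeal _).1 h2
        apply h1
        apply hloc.1
        refine IsUnit.of_mul_eq_one ⟨(w : E), hwA⟩ ?_
        apply Subtype.ext
        change locE B q' (algebraMap B _ ⟨w⁻¹, hw'⟩) * (w : E) = 1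
        rw [locE_algebraMap, bE_apply]
        change ((w⁻¹ : KG) : E) * (w : E) = 1
        rw [IntermediateField.coe_inv, inv_mul_cancel₀ hwE]
      · refine (mem_OE B q').2 ⟨1, ⟨w⁻¹, hw'⟩, hmem, ?_⟩
        rw [← hw, bE_apply, map_one]
        change (w : E) * ((w⁻¹ : KG) : E) = 1
        rw [IntermediateField.coe_inv, mul_inv_cancel₀ hwE]
  -- the integral closure
  let O := OE B q'
  let D := integralClosure O E
  have hD : ∀ i (f : Sec (y i) (V i (a i))),
      IsIntegral O (e i (algebraMap (Sec (y i) (V i (a i))) (Fun (y i)) f)) := by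
    intro i f
    have hle : Algebra.adjoin k (c i (a i) : Set (Fun (y i))) ≤ O.comap (e i) := by
      rw [Algebra.adjoin_le_iff]
      intro u hu
      exact hcO i u hu
    let φ : Algebra.adjoin k (c i (a i) : Set (Fun (y i))) →+* O :=
      ((e i : Fun (y i) →+* E).comp (Algebra.adjoin k (c i (a i) : Set (Fun (y i)))).val.toRingHom
        ).codRestrict O fun u => hle u.2
    exact IsIntegral.map_of_comp_eq φ (e i : Fun (y i) →+* E) (RingHom.ext fun u => rfl)
      (hint i (a i) f)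
  let δ : ∀ i, Sec (y i) (V i (a i)) →+* D := fun i =>
    ((e i : Fun (y i) →+* E).comp (algebraMap (Sec (y i) (V i (a i))) (Fun (y i)))).codRestrict D
      fun f => hD i f
  obtain ⟨χ, hχz, hχ⟩ := hZ.lift (Spec (.of D)) (Spec.map (CommRingCat.ofHom (algebraMap k D)))
    (fun i => Spec.map (CommRingCat.ofHom (δ i)) ≫ secSpec (y i) (hVa i (a i))) (fun i => by
      rw [Category.assoc, secSpec_str, spec_comp]
      congr 2
      apply RingHom.ext
      intro c
      apply Subtype.ext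
      change e i (algebraMap (Sec (y i) (V i (a i))) (Fun (y i))
        (algebraMap k (Sec (y i) (V i (a i))) c)) = algebraMap k E c
      rw [← IsScalarTower.algebraMap_apply, AlgHom.commutes])
  have hχη : Spec.map (CommRingCat.ofHom (algebraMap D E)) ≫ χ = η := by
    apply hZ.ext
    · rw [Category.assoc, hχz, spec_comp, hηz]
      rfl
    · intro i
      rw [Category.assoc, hχ, ← Category.assoc, spec_comp, hη, ← genF_eq (y i) (hVa i (a i)),
        ← Category.assoc, spec_comp]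
      rfl
  have hτθ : ∀ g, Spec.map (CommRingCat.ofHom ((τ g : E ≃ₐ[k] E) : E →+* E)) ≫ η ≫ q =
      η ≫ q := by
    intro g
    rw [hθ, ← Category.assoc, spec_comp]
    congr 3
    apply RingHom.ext
    intro u
    exact (hKG _).1 u.2 g
  obtain ⟨U, hU, φ, hφ, hφO⟩ := exists_local τ O
    (fun g u hu => (hKG u).1 (OE_le B q' hu) g)
    (fun u hu hui => OE_normal B q' (hnorm j) (hfr j) ((hKG u).2 hu) hui) x (η ≫ q) hτθ (χ ≫ q)
    (by rw [Category.assoc, hqx, hχz]) (by rw [← Category.assoc, hχη])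
  have hUne : Nonempty U := by
    have h1 : Nonempty (Spec (.of E)) := inferInstanceAs (Nonempty (PrimeSpectrum E))
    obtain ⟨w⟩ := h1
    exact ⟨⟨_, mem_sec x hU φ w⟩⟩
  have hφ' : φ = (algebraMap KG E).comp (((γ : Fun x ≃ₐ[k] KG) : Fun x →+* KG).comp
      (algebraMap (Sec x U) (Fun x))) := by
    apply sec_unique x hU
    rw [hφ, hθ, ← genF_eq x hU, ← spec_comp (((γ : Fun x ≃ₐ[k] KG) : Fun x →+* KG).comp
      (algebraMap (Sec x U) (Fun x))) (algebraMap KG E),
      ← spec_comp (algebraMap (Sec x U) (Fun x)) ((γ : Fun x ≃ₐ[k] KG) : Fun x →+* KG),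
      Category.assoc, Category.assoc]
  refine ⟨U, hU, ((γ : Fun x ≃ₐ[k] KG) : Fun x →+* KG).comp (algebraMap (Sec x U) (Fun x)),
    ?_, fun f => ?_⟩
  · rw [← spec_comp, Category.assoc, genF_eq]
  · obtain ⟨u, v, hv, h⟩ := (mem_OE B q').1 (hφO f)
    refine ⟨u, v, hv, ?_⟩
    rw [hφ'] at h
    exact Subtype.ext h

end Pool.Agent.Zk10.Sch
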