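import Pool.Agent.Zk10.V11

/-!
The function field of a quotient.
-/

set_option autoImplicit false
set_option linter.unusedVariables false
set_option linter.unusedSectionVars false

open AlgebraicGeometry CategoryTheory Limits

namespace Pool.Agent.Zk10.Sch

lemma secAct_inv {k : Type} [Field k] {Y : Scheme.{0}} (y : Y ⟶ Spec (.of k)) {G : Type} [Group G]
    (ρ : G →* Aut Y) (hρ : ∀ g, (ρ g).hom ≫ y = y) (U : Y.Opens)
    (hU : ∀ g, (ρ g).hom ⁻¹ᵁ U = U) (g : G) (h : U ≤ (ρ g).hom ⁻¹ᵁ U) (a : Sec y U) :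
    (ρ g).hom.appLE U U h a = secAct y ρ hρ U hU g⁻¹ a := by
  rw [secAct_apply]
  have h1 : ∀ (g' : G) (hg' : g' = g) (h' : U ≤ (ρ g').hom ⁻¹ᵁ U),
      (ρ g).hom.appLE U U h a = (ρ g').hom.appLE U U h' a := by
    rintro _ rfl _
    rfl
  exact h1 _ (inv_inv g) _

/-- The function field of a quotient. -/
theorem exists_gamma {k : Type} [Field k] {Z : Scheme.{0}} [IsIntegral Z]
    (z : Z ⟶ Spec (.of k)) {G : Type} [Group G] [Finite G] (σ : G →* Aut Z)
    (hσ : ∀ g, (σ g).hom ≫ z = z) {E : Type} [Field E] [Algebra k E] (δ : Fun z ≃ₐ[k] E)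
    (τ : G →* (E ≃ₐ[k] E)) (η : Spec (.of E) ⟶ Z)
    (hη : Spec.map (CommRingCat.ofHom ((δ : Fun z ≃ₐ[k] E) : Fun z →+* E)) ≫ genF z = η)
    (hτ : ∀ g, Spec.map (CommRingCat.ofHom ((τ g : E ≃ₐ[k] E) : E →+* E)) ≫ η =
      η ≫ (σ g⁻¹).hom)
    (KG : IntermediateField k E) (hKG : ∀ u, u ∈ KG ↔ ∀ g, τ g u = u)
    {X : Scheme.{0}} [IsIntegral X] (x : X ⟶ Spec (.of k)) (q : Z ⟶ X) (hqx : q ≫ x = z)
    (hq1 : ∀ g, (σ g).hom ≫ q = q) (U : X.Opens) (hne : Nonempty U) (hU : IsAffineOpen U)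
    (hV : IsAffineOpen (q ⁻¹ᵁ U)) (hinj : Function.Injective (q.app U))
    (hinv : ∀ a : Γ(Z, q ⁻¹ᵁ U), (∀ g (h : q ⁻¹ᵁ U ≤ (σ g).hom ⁻¹ᵁ (q ⁻¹ᵁ U)),
      (σ g).hom.appLE (q ⁻¹ᵁ U) (q ⁻¹ᵁ U) h a = a) → ∃ w : Γ(X, U), q.app U w = a) :
    ∃ γ : Fun x ≃ₐ[k] KG, η ≫ q = Spec.map (CommRingCat.ofHom (algebraMap KG E)) ≫
      Spec.map (CommRingCat.ofHom ((γ : Fun x ≃ₐ[k] KG) : Fun x →+* KG)) ≫ genF x := by
  classical
  have hfG : Fintype G := Fintype.ofFinite G
  let V := q ⁻¹ᵁ U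
  have hVG : ∀ g, (σ g).hom ⁻¹ᵁ V = V := by
    intro g
    change ((σ g).hom ≫ q) ⁻¹ᵁ U = q ⁻¹ᵁ U
    rw [hq1]
  have hdomX : IsDomain (Sec x U) := inferInstance
  have hVne : Nonempty V := by
    by_contra hcon
    have h1 : V = ⊥ := by
      ext w
      constructor
      · intro hw
        exact absurd ⟨⟨w, hw⟩⟩ hcon
      · intro hw
        exact absurd hw (by simp)
    have h2 : Subsingleton Γ(Z, q ⁻¹ᵁ U) := by
      change Subsingleton Γ(Z, V)
      rw [h1]
      infer_instance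
    have h3 : (1 : Γ(X, U)) = 0 := hinj (Subsingleton.elim _ _)
    have h4 : Nontrivial Γ(X, U) := inferInstance
    exact one_ne_zero h3
  have hfrV : IsFractionRing (Sec z V) (Fun z) := isFractionRing_sec z hV
  have hfrX : IsFractionRing (Sec x U) (Fun x) := isFractionRing_sec x hU
  let qs : Sec x U →ₐ[k] Sec z V := secPull z x q hqx U V le_rfl
  have hqs : ∀ w, qs w = q.app U w := by
    intro w
    change q.appLE U V le_rfl w = q.app U w
    rw [Scheme.Hom.app_eq_appLE]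
  have hqsi : Function.Injective qs := by
    intro a b h
    rw [hqs, hqs] at h
    exact hinj h
  let ζ : Sec z V →ₐ[k] E :=
    ((δ : Fun z ≃ₐ[k] E) : Fun z →ₐ[k] E).comp (IsScalarTower.toAlgHom k (Sec z V) (Fun z))
  have hζi : Function.Injective ζ :=
    δ.injective.comp (IsFractionRing.injective (Sec z V) (Fun z))
  have hζ : Spec.map (CommRingCat.ofHom (ζ : Sec z V →+* E)) ≫ secSpec z hV = η := by
    rw [← hη, ← genF_eq z hV, ← Category.assoc, spec_comp]
    rfl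
  -- the action
  have hζτ : ∀ g a, τ g (ζ a) = ζ (secAct z σ hσ V hVG g a) := by
    intro g
    have h1 : ((τ g : E ≃ₐ[k] E) : E →+* E).comp (ζ : Sec z V →+* E) =
        (ζ : Sec z V →+* E).comp ((secAct z σ hσ V hVG g : Sec z V ≃ₐ[k] Sec z V) :
          Sec z V →+* Sec z V) := by
      apply sec_unique z hV
      rw [← spec_comp, ← spec_comp, Category.assoc, Category.assoc, hζ, hτ,
        spec_secAct z σ hσ V hVG hV, ← Category.assoc, hζ]
    exact fun a => congrArg (fun f => f a) h1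
  let φ0 : Sec x U →ₐ[k] E := ζ.comp qs
  have hφi : Function.Injective φ0 := hζi.comp hqsi
  have hφ0 : Spec.map (CommRingCat.ofHom (φ0 : Sec x U →+* E)) ≫ secSpec x hU = η ≫ q := by
    have h1 : (φ0 : Sec x U →+* E) = (ζ : Sec z V →+* E).comp (qs : Sec x U →+* Sec z V) := rfl
    rw [h1, ← spec_comp, Category.assoc, spec_secPull z x q hqx U V le_rfl hU hV,
      ← Category.assoc, hζ]
  have hφτ : ∀ g a, τ g (φ0 a) = φ0 a := by
    intro g
    have h1 : ((τ g : E ≃ₐ[k] E) : E →+* E).comp (φ0 : Sec x U →+* E) =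
        (φ0 : Sec x U →+* E) := by
      apply sec_unique x hU
      rw [← spec_comp, Category.assoc, hφ0, ← Category.assoc, hτ, Category.assoc, hq1]
    exact fun a => congrArg (fun f => f a) h1
  let γ0 : Fun x →ₐ[k] E := IsFractionRing.liftAlgHom (K := Fun x) hφi
  have hγ0 : ∀ a, γ0 (algebraMap (Sec x U) (Fun x) a) = φ0 a := fun a =>
    IsFractionRing.lift_algebraMap hφi a
  have hγmem : ∀ u, γ0 u ∈ KG := by
    intro u
    obtain ⟨a, b, hb, rfl⟩ := IsFractionRing.div_surjective (A := Sec x U) u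
    rw [map_div₀, hγ0, hγ0]
    exact KG.div_mem ((hKG _).2 fun g => hφτ g a) ((hKG _).2 fun g => hφτ g b)
  have hsurj : ∀ u ∈ KG, ∃ v, γ0 v = u := by
    intro u hu
    obtain ⟨a, b, hb, hab⟩ := IsFractionRing.div_surjective (A := Sec z V) (δ.symm u)
    have hb0 : b ≠ 0 := nonZeroDivisors.ne_zero hb
    have hu1 : u = ζ a / ζ b := by
      have h2 := congrArg δ hab
      rw [AlgEquiv.apply_symm_apply, map_div₀] at h2
      exact h2.symm
    let N : Sec z V := ∏ g, secAct z σ hσ V hVG g b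
    have hNinv : ∀ h, secAct z σ hσ V hVG h N = N := by
      intro h
      change secAct z σ hσ V hVG h (∏ g, secAct z σ hσ V hVG g b) = ∏ g, secAct z σ hσ V hVG g b
      rw [map_prod]
      refine Fintype.prod_equiv (Equiv.mulLeft h) _ _ fun g => ?_
      change secAct z σ hσ V hVG h (secAct z σ hσ V hVG g b) = secAct z σ hσ V hVG (h * g) b
      rw [map_mul]
      rfl
    have hζb : ζ b ≠ 0 := fun h => hb0 (hζi (h.trans (map_zero ζ).symm))
    have hsb : ∀ g, secAct z σ hσ V hVG g b ≠ 0 := by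
      intro g h
      apply hb0
      exact (secAct z σ hσ V hVG g).injective (h.trans (map_zero _).symm)
    have hN0 : N ≠ 0 := Finset.prod_ne_zero_iff.2 fun g _ => hsb g
    have hζN : ζ N ≠ 0 := fun h => hN0 (hζi (h.trans (map_zero ζ).symm))
    let N1 : Sec z V := ∏ g ∈ Finset.univ.erase 1, secAct z σ hσ V hVG g b
    have hNN : N = b * N1 := by
      change ∏ g, secAct z σ hσ V hVG g b = _
      rw [← Finset.mul_prod_erase _ _ (Finset.mem_univ (1 : G)), map_one]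
      rfl
    have huN : u * ζ N = ζ (a * N1) := by
      rw [hNN, map_mul, map_mul, hu1]
      field_simp
    have haN : ∀ h, secAct z σ hσ V hVG h (a * N1) = a * N1 := by
      intro h
      apply hζi
      rw [← hζτ, ← huN, map_mul, (hKG u).1 hu h, hζτ, hNinv]
    have hget : ∀ a' : Sec z V, (∀ h, secAct z σ hσ V hVG h a' = a') → ∃ w : Sec x U, qs w = a' := by
      intro a' ha'
      obtain ⟨w, hw⟩ := hinv a' (fun g h => by
        rw [secAct_inv z σ hσ V hVG g h a', ha'])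
      exact ⟨w, (hqs w).trans hw⟩
    obtain ⟨w, hw⟩ := hget _ haN
    obtain ⟨w', hw'⟩ := hget _ hNinv
    refine ⟨algebraMap (Sec x U) (Fun x) w / algebraMap (Sec x U) (Fun x) w', ?_⟩
    rw [map_div₀, hγ0, hγ0]
    change ζ (qs w) / ζ (qs w') = u
    rw [hw, hw', ← huN, mul_div_cancel_right₀ _ hζN]
  let γ1 : Fun x →ₐ[k] KG.toSubalgebra := γ0.codRestrict KG.toSubalgebra hγmem
  have hγ1 : Function.Bijective γ1 := by
    constructor
    · intro a b h
      exact γ0.toRingHom.injective (congrArg Subtype.val h)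
    · rintro ⟨u, hu⟩
      obtain ⟨v, hv⟩ := hsurj u hu
      exact ⟨v, Subtype.ext hv⟩
  let γ : Fun x ≃ₐ[k] KG := AlgEquiv.ofBijective γ1 hγ1
  refine ⟨γ, ?_⟩
  rw [← hφ0, ← genF_eq x hU, ← Category.assoc, ← Category.assoc, spec_comp, spec_comp]
  congr 3
  apply RingHom.ext
  intro a
  exact (hγ0 a).symm

end Pool.Agent.Zk10.Sch
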