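import Pool.Agent.Zk10.V1

/-!
Invariants over which a finitely generated algebra is integral.
-/

set_option autoImplicit false
set_option linter.unusedVariables false
set_option linter.unusedSectionVars false

universe u

open Polynomial

namespace Pool.Agent.Zk10.Sch

/-- Finitely many invariants over which a finitely generated algebra is integral. -/
theorem exists_invs {k K : Type u} [Field k] [Field K] [Algebra k K] {G : Type} [Group G]
    [Finite G] (τ : G →* (K ≃ₐ[k] K)) (R : Subalgebra k K) (hR : R.FG)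
    (hτ : ∀ g, ∀ x ∈ R, τ g x ∈ R) :
    ∃ c : Finset K, (∀ x ∈ c, x ≠ 0 ∧ x ∈ R ∧ ∀ g, τ g x = x) ∧
      ∀ x ∈ R, IsIntegral (Algebra.adjoin k (c : Set K)) x := by
  classical
  have hfG : Fintype G := Fintype.ofFinite G
  obtain ⟨S, hS⟩ := hR
  let P : K → K[X] := fun b => ∏ g : G, (X - C (τ g b))
  have hSR : ∀ b ∈ S, b ∈ R := fun b hb => by
    rw [← hS]
    exact Algebra.subset_adjoin hb
  have hcR : ∀ b ∈ S, ∀ n, (P b).coeff n ∈ R := by
    intro b hb n
    let Q : R[X] := ∏ g : G, (X - C (⟨τ g b, hτ g b (hSR b hb)⟩ : R))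
    have h1 : Q.map (R.val : R →+* K) = P b := by
      rw [Polynomial.map_prod]
      refine Finset.prod_congr rfl fun g _ => ?_
      rw [Polynomial.map_sub, map_X, map_C]
      rfl
    rw [← h1, coeff_map]
    exact (Q.coeff n).2
  have hinv : ∀ b n h, τ h ((P b).coeff n) = (P b).coeff n := by
    intro b n h
    have h1 : (P b).map ((τ h : K ≃ₐ[k] K) : K →+* K) = P b := by
      rw [Polynomial.map_prod]
      refine Fintype.prod_equiv (Equiv.mulLeft h) _ _ fun g => ?_
      rw [Polynomial.map_sub, map_X, map_C]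
      change X - C (τ h (τ g b)) = X - C (τ (h * g) b)
      rw [map_mul]
      rfl
    conv_rhs => rw [← h1]
    rw [coeff_map]
    rfl
  refine ⟨S.biUnion fun b => (P b).coeffs, ?_, ?_⟩
  · intro x hx
    obtain ⟨b, hb, hx⟩ := Finset.mem_biUnion.1 hx
    obtain ⟨n, hn, rfl⟩ := Polynomial.mem_coeffs_iff.1 hx
    exact ⟨Polynomial.mem_support_iff.1 hn, hcR b hb n, hinv b n⟩
  · set A0 := Algebra.adjoin k ((S.biUnion fun b => (P b).coeffs : Finset K) : Set K) with hA0
    have hmem : ∀ b ∈ S, ∀ n, (P b).coeff n ∈ A0 := by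
      intro b hb n
      by_cases h0 : (P b).coeff n = 0
      · rw [h0]
        exact A0.zero_mem
      · refine Algebra.subset_adjoin ?_
        rw [Finset.mem_coe, Finset.mem_biUnion]
        exact ⟨b, hb, Polynomial.mem_coeffs_iff.2 ⟨n, Polynomial.mem_support_iff.2 h0, rfl⟩⟩
    have hint : ∀ b ∈ S, IsIntegral A0 b := by
      intro b hb
      have hmon : (P b).Monic := monic_prod_of_monic _ _ fun g _ => monic_X_sub_C _
      have hl : P b ∈ Polynomial.lifts (algebraMap A0 K) := by
        rw [Polynomial.lifts_iff_coeff_lifts]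
        intro n
        exact ⟨⟨_, hmem b hb n⟩, rfl⟩
      obtain ⟨Q, hQ, -, hQm⟩ := Polynomial.lifts_and_natDegree_eq_and_monic hl hmon
      refine ⟨Q, hQm, ?_⟩
      rw [← eval_map, hQ]
      change eval b (∏ g : G, (X - C (τ g b))) = 0
      rw [eval_prod]
      refine Finset.prod_eq_zero (Finset.mem_univ 1) ?_
      rw [eval_sub, eval_X, eval_C, map_one]
      exact sub_self b
    have hle : R ≤ (integralClosure A0 K).restrictScalars k := by
      rw [← hS, Algebra.adjoin_le_iff]
      intro b hb
      exact hint b hb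
    intro x hx
    exact hle hx

end Pool.Agent.Zk10.Sch
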