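import Pool.Agent.Zk10.V2
import Pool.Agent.Zk10.S1

/-!
Group actions on schemes, rings of sections and function fields.
-/

set_option autoImplicit false
set_option linter.unusedVariables false
set_option linter.unusedSectionVars false

universe u

open AlgebraicGeometry CategoryTheory Limits

namespace Pool.Agent.Zk10.Sch

open Pool.Agent.Zk10.Act

section defs

variable {k : Type u} [Field k] {Y : Scheme.{u}} (y : Y ⟶ Spec (.of k))

/-- The function field, an algebra over `k`. -/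
def Fun [IsIntegral Y] (y : Y ⟶ Spec (.of k)) : Type u := Y.functionField

noncomputable instance [IsIntegral Y] : Field (Fun y) := inferInstanceAs (Field Y.functionField)

noncomputable instance [IsIntegral Y] : Algebra k (Fun y) := (kK y).toAlgebra

/-- The ring of sections, an algebra over `k`. -/
def Sec (y : Y ⟶ Spec (.of k)) (U : Y.Opens) : Type u := Γ(Y, U)

variable (U : Y.Opens)

noncomputable instance : CommRing (Sec y U) := inferInstanceAs (CommRing Γ(Y, U))

noncomputable instance : Algebra k (Sec y U) := (kU y U).toAlgebra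

noncomputable instance [IsIntegral Y] [Nonempty U] : Algebra (Sec y U) (Fun y) :=
  inferInstanceAs (Algebra Γ(Y, U) Y.functionField)

instance [IsIntegral Y] [Nonempty U] : IsScalarTower k (Sec y U) (Fun y) :=
  IsScalarTower.of_algebraMap_eq fun c => (germ_kU y U c).symm

instance [IsIntegral Y] [Nonempty U] : IsDomain (Sec y U) := inferInstanceAs (IsDomain Γ(Y, U))

variable {U}

lemma isFractionRing_sec [IsIntegral Y] [Nonempty U] (hU : IsAffineOpen U) :
    IsFractionRing (Sec y U) (Fun y) :=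
  functionField_isFractionRing_of_isAffineOpen Y U hU

lemma finiteType_sec [LocallyOfFiniteType y] (hU : IsAffineOpen U) :
    Algebra.FiniteType k (Sec y U) := by
  have h1 : (y.appLE ⊤ U le_top).hom.FiniteType :=
    y.finiteType_appLE (isAffineOpen_top (Spec (.of k))) hU le_top
  have h2 : ((Scheme.ΓSpecIso (.of k)).inv.hom).FiniteType :=
    RingHom.FiniteType.of_surjective _ (Scheme.ΓSpecIso (.of k)).symm.commRingCatIsoToRingEquiv.surjective
  exact RingHom.FiniteType.comp h1 h2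

/-- The open immersion of an affine open subscheme. -/
noncomputable def secSpec (hU : IsAffineOpen U) : Spec (.of (Sec y U)) ⟶ Y := hU.fromSpec

instance (hU : IsAffineOpen U) : IsOpenImmersion (secSpec y hU) :=
  inferInstanceAs (IsOpenImmersion hU.fromSpec)

lemma secSpec_range (hU : IsAffineOpen U) : Set.range (secSpec y hU) = U := hU.range_fromSpec

lemma secSpec_str (hU : IsAffineOpen U) :
    secSpec y hU ≫ y = Spec.map (CommRingCat.ofHom (algebraMap k (Sec y U))) :=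
  fromSpec_str y hU

/-- Morphisms from affine schemes which factor through an affine open subscheme. -/
lemma exists_sec (hU : IsAffineOpen U) {S : Type u} [CommRing S] (θ : Spec (.of S) ⟶ Y)
    (h : ∀ x, θ x ∈ U) :
    ∃ φ : Sec y U →+* S, Spec.map (CommRingCat.ofHom φ) ≫ secSpec y hU = θ := by
  obtain ⟨φ, hφ⟩ := exists_hom hU θ h
  exact ⟨φ.hom, hφ⟩

lemma sec_unique (hU : IsAffineOpen U) {S : Type u} [CommRing S] {φ ψ : Sec y U →+* S}
    (h : Spec.map (CommRingCat.ofHom φ) ≫ secSpec y hU =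
      Spec.map (CommRingCat.ofHom ψ) ≫ secSpec y hU) : φ = ψ := by
  have h1 := Spec.map_injective ((cancel_mono _).1 h)
  exact congrArg (fun f => f.hom) h1

lemma mem_sec (hU : IsAffineOpen U) {S : Type u} [CommRing S] (φ : Sec y U →+* S)
    (x : Spec (.of S)) : (Spec.map (CommRingCat.ofHom φ) ≫ secSpec y hU) x ∈ U :=
  mem_of_hom hU (S := .of S) (CommRingCat.ofHom φ) x

end defs

section act

variable {k : Type u} [Field k] {Y : Scheme.{u}} (y : Y ⟶ Spec (.of k))

lemma appLE_id {f : Y ⟶ Y} {U : Y.Opens} (hf : f = 𝟙 Y) (e : U ≤ f ⁻¹ᵁ U) (x : Γ(Y, U)) :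
    f.appLE U U e x = x := by
  subst hf
  have h1 : (𝟙 Y : Y ⟶ Y).appLE U U e = 𝟙 _ := by
    rw [Scheme.Hom.appLE]
    simp only [Scheme.Hom.id_app]
    refine (Category.id_comp _).trans ?_
    exact Y.presheaf.map_id _
  rw [h1]
  rfl

lemma appLE_comp' {f a b : Y ⟶ Y} {U : Y.Opens} (hf : f = a ≫ b) (e : U ≤ f ⁻¹ᵁ U)
    (ea : U ≤ a ⁻¹ᵁ U) (eb : U ≤ b ⁻¹ᵁ U) (x : Γ(Y, U)) :
    f.appLE U U e x = a.appLE U U ea (b.appLE U U eb x) := by
  subst hf
  have h1 := Scheme.Hom.appLE_comp_appLE a b U U U eb ea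
  exact (congrArg (fun φ => φ.hom x) h1).symm

lemma appLE_kU {f : Y ⟶ Y} (hf : f ≫ y = y) {U : Y.Opens} (e : U ≤ f ⁻¹ᵁ U) (c : k) :
    f.appLE U U e (kU y U c) = kU y U c := by
  have h1 := Scheme.Hom.appLE_comp_appLE f y ⊤ U U le_top e
  have h2 : ∀ (z : Y ⟶ Spec (.of k)) (hz : z = y) (e' : U ≤ z ⁻¹ᵁ ⊤),
      z.appLE ⊤ U e' = y.appLE ⊤ U le_top := by
    rintro z rfl e'
    rfl
  rw [h2 _ hf] at h1
  have h3 : (Scheme.ΓSpecIso (.of k)).inv ≫ y.appLE ⊤ U le_top ≫ f.appLE U U e =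
      (Scheme.ΓSpecIso (.of k)).inv ≫ y.appLE ⊤ U le_top := by
    rw [h1]
  exact congrArg (fun φ => φ.hom c) h3

/-- The action of an endomorphism on sections. -/
noncomputable def secMap (f : Y ⟶ Y) (hf : f ≫ y = y) (U : Y.Opens) (e : U ≤ f ⁻¹ᵁ U) :
    Sec y U →ₐ[k] Sec y U :=
  { (f.appLE U U e).hom with
    commutes' := fun c => appLE_kU y hf e c }

lemma secMap_apply (f : Y ⟶ Y) (hf : f ≫ y = y) (U : Y.Opens) (e : U ≤ f ⁻¹ᵁ U)
    (x : Sec y U) : secMap y f hf U e x = f.appLE U U e x := rfl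

lemma spec_secMap (f : Y ⟶ Y) (hf : f ≫ y = y) (U : Y.Opens) (e : U ≤ f ⁻¹ᵁ U)
    (hU : IsAffineOpen U) : Spec.map (CommRingCat.ofHom (secMap y f hf U e : Sec y U →+* Sec y U)) ≫
      secSpec y hU = secSpec y hU ≫ f :=
  IsAffineOpen.SpecMap_appLE_fromSpec f hU hU e

variable {G : Type} [Group G] (ρ : G →* Aut Y) (hρ : ∀ g, (ρ g).hom ≫ y = y) (U : Y.Opens)
  (hU : ∀ g, (ρ g).hom ⁻¹ᵁ U = U)

lemma hom_one' : (ρ 1).hom = 𝟙 Y := by
  rw [map_one]
  rfl

lemma hom_mul' (g h : G) : (ρ (g * h)).hom = (ρ h).hom ≫ (ρ g).hom := by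
  rw [map_mul]
  rfl

/-- The action on sections. -/
noncomputable def secAct : G →* (Sec y U ≃ₐ[k] Sec y U) :=
  MonoidHom.mk' (fun g => AlgEquiv.ofAlgHom (secMap y (ρ g⁻¹).hom (hρ _) U (hU _).ge)
    (secMap y (ρ g).hom (hρ _) U (hU _).ge)
    (by
      apply AlgHom.ext
      intro x
      refine (appLE_comp' (f := 𝟙 Y) (a := (ρ g⁻¹).hom) (b := (ρ g).hom) ?_ le_rfl _ _ x).symm.trans
        (appLE_id rfl _ x)
      rw [← hom_mul', mul_inv_cancel, hom_one'])
    (by
      apply AlgHom.ext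
      intro x
      refine (appLE_comp' (f := 𝟙 Y) (a := (ρ g).hom) (b := (ρ g⁻¹).hom) ?_ le_rfl _ _ x).symm.trans
        (appLE_id rfl _ x)
      rw [← hom_mul', inv_mul_cancel, hom_one'])) (by
    intro g h
    apply AlgEquiv.ext
    intro x
    refine appLE_comp' (f := (ρ (g * h)⁻¹).hom) (a := (ρ g⁻¹).hom) (b := (ρ h⁻¹).hom) ?_ _ _ _ x
    rw [mul_inv_rev, hom_mul'])

lemma secAct_apply (g : G) (x : Sec y U) :
    secAct y ρ hρ U hU g x = (ρ g⁻¹).hom.appLE U U (hU _).ge x := rfl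

lemma spec_secAct (hUa : IsAffineOpen U) (g : G) :
    Spec.map (CommRingCat.ofHom ((secAct y ρ hρ U hU g : Sec y U ≃ₐ[k] Sec y U) :
      Sec y U →+* Sec y U)) ≫ secSpec y hUa = secSpec y hUa ≫ (ρ g⁻¹).hom :=
  spec_secMap y (ρ g⁻¹).hom (hρ _) U (hU _).ge hUa

end act

section fld

variable {k : Type u} [Field k] {Y : Scheme.{u}} [IsIntegral Y] (y : Y ⟶ Spec (.of k))
  {G : Type} [Group G] (ρ : G →* Aut Y) (hρ : ∀ g, (ρ g).hom ≫ y = y)

/-- The generic point. -/
noncomputable def genF : Spec (.of (Fun y)) ⟶ Y := gen Y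

lemma genF_eq {U : Y.Opens} (hU : IsAffineOpen U) [Nonempty U] :
    Spec.map (CommRingCat.ofHom (algebraMap (Sec y U) (Fun y))) ≫ secSpec y hU = genF y :=
  gen_eq hU

lemma genF_str : genF y ≫ y = Spec.map (CommRingCat.ofHom (algebraMap k (Fun y))) :=
  gen_str y

instance : IsDominant (genF y) := inferInstanceAs (IsDominant (gen Y))

/-- Composition of homomorphisms. -/
lemma spec_comp {A B C : Type u} [CommRing A] [CommRing B] [CommRing C] (f : A →+* B)
    (g : B →+* C) : Spec.map (CommRingCat.ofHom g) ≫ Spec.map (CommRingCat.ofHom f) =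
      Spec.map (CommRingCat.ofHom (g.comp f)) := by
  rw [← Spec.map_comp, ← CommRingCat.ofHom_comp]

/-- The action on the function field. -/
lemma spec_lf {U : Y.Opens} (hU : ∀ g, (ρ g).hom ⁻¹ᵁ U = U) (hUa : IsAffineOpen U) [Nonempty U]
    [IsFractionRing (Sec y U) (Fun y)] (g : G) :
    Spec.map (CommRingCat.ofHom ((lf (Fun y) (secAct y ρ hρ U hU) g : Fun y ≃ₐ[k] Fun y) :
      Fun y →+* Fun y)) ≫ genF y = genF y ≫ (ρ g⁻¹).hom := by
  rw [← genF_eq y hUa, ← Category.assoc, spec_comp, Category.assoc,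
    ← spec_secAct y ρ hρ U hU hUa g, ← Category.assoc, spec_comp]
  congr 3
  apply RingHom.ext
  intro a
  exact lf_app (Fun y) (secAct y ρ hρ U hU) g a

/-- The action on other affine open subschemes. -/
lemma lf_sec {τ : G →* (Fun y ≃ₐ[k] Fun y)} (hτ : ∀ g, Spec.map (CommRingCat.ofHom
      ((τ g : Fun y ≃ₐ[k] Fun y) : Fun y →+* Fun y)) ≫ genF y = genF y ≫ (ρ g⁻¹).hom)
    {V : Y.Opens} (hV : ∀ g, (ρ g).hom ⁻¹ᵁ V = V) (hVa : IsAffineOpen V) [Nonempty V] (g : G)
    (f : Sec y V) : τ g (algebraMap (Sec y V) (Fun y) f) =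
      algebraMap (Sec y V) (Fun y) (secAct y ρ hρ V hV g f) := by
  have h1 : ((τ g : Fun y ≃ₐ[k] Fun y) : Fun y →+* Fun y).comp (algebraMap (Sec y V) (Fun y)) =
      (algebraMap (Sec y V) (Fun y)).comp
        ((secAct y ρ hρ V hV g : Sec y V ≃ₐ[k] Sec y V) : Sec y V →+* Sec y V) := by
    apply sec_unique y hVa
    rw [← spec_comp, ← spec_comp, Category.assoc, Category.assoc, genF_eq y hVa, hτ,
      spec_secAct y ρ hρ V hV hVa, ← Category.assoc, genF_eq y hVa]
  exact congrArg (fun φ => φ f) h1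

end fld

end Pool.Agent.Zk10.Sch
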