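import Pool.Agent.Zk10.V3

/-!
Affine charts of proper schemes with group actions.
-/

set_option autoImplicit false
set_option linter.unusedVariables false
set_option linter.unusedSectionVars false

open AlgebraicGeometry CategoryTheory Limits

namespace Pool.Agent.Zk10.Sch

open Pool.Agent.Zk10.Act

/-- Invariant charts, with invariants over which the rings of sections are integral. -/
theorem exists_charts {k : Type} [Field k] {Y : Scheme.{0}} [IsIntegral Y]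
    (y : Y ⟶ Spec (.of k)) [IsProper y] {G : Type} [Group G] [Finite G] (ρ : G →* Aut Y)
    (hρ : ∀ g, (ρ g).hom ≫ y = y)
    (hadm : ∀ x : Y, ∃ V : Y.Opens, x ∈ V ∧ IsAffineOpen V ∧ ∀ g, (ρ g).hom ⁻¹ᵁ V = V)
    {τ : G →* (Fun y ≃ₐ[k] Fun y)} (hτ : ∀ g, Spec.map (CommRingCat.ofHom
      ((τ g : Fun y ≃ₐ[k] Fun y) : Fun y →+* Fun y)) ≫ genF y = genF y ≫ (ρ g⁻¹).hom) :
    ∃ (α : Type) (_ : Finite α) (V : α → Y.Opens) (_ : ∀ a, Nonempty (V a))
      (c : α → Finset (Fun y)),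
      (∀ a, IsAffineOpen (V a)) ∧
      (∀ a, ∀ x ∈ c a, x ≠ 0 ∧ (∃ f : Sec y (V a), algebraMap (Sec y (V a)) (Fun y) f = x) ∧
        ∀ g, τ g x = x) ∧
      (∀ a, ∀ f : Sec y (V a), IsIntegral (Algebra.adjoin k (c a : Set (Fun y)))
        (algebraMap (Sec y (V a)) (Fun y) f)) ∧
      ∀ v : ValuationSubring (Fun y), (∀ c : k, algebraMap k (Fun y) c ∈ v) →
        ∃ a, ∀ f : Sec y (V a), algebraMap (Sec y (V a)) (Fun y) f ∈ v := by
  classical
  have hcomp : CompactSpace Y := by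
    have h1 : QuasiCompact y := inferInstance
    exact (quasiCompact_iff_compactSpace (f := y)).1 h1
  choose V hxV hVa hVG using hadm
  obtain ⟨t, ht⟩ := isCompact_univ.elim_nhds_subcover (fun x : Y => (V x : Set Y))
    (fun x _ => (V x).isOpen.mem_nhds (hxV x))
  have hcov : ∀ x : Y, ∃ a : {a // a ∈ t}, x ∈ V a.1 := by
    intro x
    have h1 := ht.2 (Set.mem_univ x)
    obtain ⟨a, ha, hxa⟩ := Set.mem_iUnion₂.1 h1
    exact ⟨⟨a, ha⟩, hxa⟩
  have hne : ∀ a : {a // a ∈ t}, Nonempty (V a.1) := fun a => ⟨⟨a.1, hxV a.1⟩⟩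
  let R : {a // a ∈ t} → Subalgebra k (Fun y) := fun a =>
    (IsScalarTower.toAlgHom k (Sec y (V a.1)) (Fun y)).range
  have hR : ∀ a, (R a).FG := by
    intro a
    have h1 : Algebra.FiniteType k (Sec y (V a.1)) := finiteType_sec y (hVa a.1)
    have h2 := h1.out.map (IsScalarTower.toAlgHom k (Sec y (V a.1)) (Fun y))
    rw [Algebra.map_top] at h2
    exact h2
  have hRτ : ∀ a g, ∀ x ∈ R a, τ g x ∈ R a := by
    rintro a g _ ⟨f, rfl⟩
    exact ⟨secAct y ρ hρ (V a.1) (hVG a.1) g f,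
      (lf_sec y ρ hρ hτ (hVG a.1) (hVa a.1) g f).symm⟩
  choose c hc1 hc2 using fun a => exists_invs τ (R a) (hR a) (hRτ a)
  refine ⟨{a // a ∈ t}, inferInstance, fun a => V a.1, hne, c, fun a => hVa a.1, ?_, ?_, ?_⟩
  · intro a x hx
    obtain ⟨h1, ⟨f, hf⟩, h3⟩ := hc1 a x hx
    exact ⟨h1, ⟨f, hf⟩, h3⟩
  · intro a f
    exact hc2 a _ ⟨f, rfl⟩
  · intro v hv
    exact exists_center y (fun a : {a // a ∈ t} => V a.1) (fun a => hVa a.1) hne hcov v hv

end Pool.Agent.Zk10.Sch
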