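import Pool.Agent.Zk10.V4

/-!
Affine open subschemes of products.
-/

set_option autoImplicit false
set_option linter.unusedVariables false
set_option linter.unusedSectionVars false

open AlgebraicGeometry CategoryTheory Limits TensorProduct

namespace Pool.Agent.Zk10.Sch

open Pool.Agent.Zk10.Act Pool.Agent.W558.WT

/-- `Z` is the product of the schemes `Y i` over `k`. -/
structure IsProd {k : Type} [Field k] {n : ℕ} {Y : Fin n → Scheme.{0}}
    (y : ∀ i, Y i ⟶ Spec (.of k)) {Z : Scheme.{0}} (z : Z ⟶ Spec (.of k)) (pr : ∀ i, Z ⟶ Y i) :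
    Prop where
  w : ∀ i, pr i ≫ y i = z
  lift : ∀ (T : Scheme.{0}) (t : T ⟶ Spec (.of k)) (f : ∀ i, T ⟶ Y i), (∀ i, f i ≫ y i = t) →
    ∃ g : T ⟶ Z, g ≫ z = t ∧ ∀ i, g ≫ pr i = f i
  ext : ∀ (T : Scheme.{0}) (g g' : T ⟶ Z), g ≫ z = g' ≫ z →
    (∀ i, g ≫ pr i = g' ≫ pr i) → g = g'

lemma toSpec_sec {k : Type} [Field k] {Z Y : Scheme.{0}} (y : Y ⟶ Spec (.of k)) (f : Z ⟶ Y)
    {U : Y.Opens} (hU : IsAffineOpen U) (V : Z.Opens) (e : V ≤ f ⁻¹ᵁ U) :
    V.toSpecΓ ≫ Spec.map (f.appLE U V e) ≫ hU.fromSpec = V.ι ≫ f := by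
  rw [← Category.assoc, Scheme.Opens.toSpecΓ_SpecMap_appLE, Category.assoc,
    IsAffineOpen.toSpecΓ_fromSpec, Scheme.Hom.resLE_comp_ι]

lemma toSpec_str {k : Type} [Field k] {Z : Scheme.{0}} (z : Z ⟶ Spec (.of k)) (V : Z.Opens) :
    V.toSpecΓ ≫ Spec.map (CommRingCat.ofHom (kU z V)) = V.ι ≫ z := by
  have h1 := toSpec_sec (𝟙 (Spec (.of k))) z (isAffineOpen_top (Spec (.of k))) V le_top
  rw [← h1, IsAffineOpen.fromSpec_top, Scheme.isoSpec_Spec_inv, ← Spec.map_comp]
  rfl

/-- The pullback of sections. -/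
noncomputable def secPull {k : Type} [Field k] {Z Y : Scheme.{0}} (z : Z ⟶ Spec (.of k))
    (y : Y ⟶ Spec (.of k)) (f : Z ⟶ Y) (hf : f ≫ y = z) (U : Y.Opens) (V : Z.Opens)
    (e : V ≤ f ⁻¹ᵁ U) : Sec y U →ₐ[k] Sec z V :=
  { (f.appLE U V e).hom with
    commutes' := fun c => by
      have h1 := Scheme.Hom.appLE_comp_appLE f y ⊤ U V le_top e
      have h2 : ∀ (z' : Z ⟶ Spec (.of k)) (hz : z' = z) (e' : V ≤ z' ⁻¹ᵁ ⊤),
          z'.appLE ⊤ V e' = z.appLE ⊤ V le_top := by
        rintro z' rfl e'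
        rfl
      rw [h2 _ hf] at h1
      have h3 : (Scheme.ΓSpecIso (.of k)).inv ≫ y.appLE ⊤ U le_top ≫ f.appLE U V e =
          (Scheme.ΓSpecIso (.of k)).inv ≫ z.appLE ⊤ V le_top := by
        rw [h1]
      exact congrArg (fun φ => φ.hom c) h3 }

lemma spec_secPull {k : Type} [Field k] {Z Y : Scheme.{0}} (z : Z ⟶ Spec (.of k))
    (y : Y ⟶ Spec (.of k)) (f : Z ⟶ Y) (hf : f ≫ y = z) (U : Y.Opens) (V : Z.Opens)
    (e : V ≤ f ⁻¹ᵁ U) (hU : IsAffineOpen U) (hV : IsAffineOpen V) :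
    Spec.map (CommRingCat.ofHom (secPull z y f hf U V e : Sec y U →+* Sec z V)) ≫
      secSpec y hU = secSpec z hV ≫ f :=
  IsAffineOpen.SpecMap_appLE_fromSpec f hU hV e

/-- The canonical morphism. -/
noncomputable def toSec {k : Type} [Field k] {Z : Scheme.{0}} (z : Z ⟶ Spec (.of k))
    (V : Z.Opens) : V.toScheme ⟶ Spec (.of (Sec z V)) := V.toSpecΓ

lemma toSec_str {k : Type} [Field k] {Z : Scheme.{0}} (z : Z ⟶ Spec (.of k)) (V : Z.Opens) :
    toSec z V ≫ Spec.map (CommRingCat.ofHom (algebraMap k (Sec z V))) = V.ι ≫ z :=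
  toSpec_str z V

lemma toSec_pull {k : Type} [Field k] {Z Y : Scheme.{0}} (z : Z ⟶ Spec (.of k))
    (y : Y ⟶ Spec (.of k)) (f : Z ⟶ Y) (hf : f ≫ y = z) (U : Y.Opens) (V : Z.Opens)
    (e : V ≤ f ⁻¹ᵁ U) (hU : IsAffineOpen U) :
    toSec z V ≫ Spec.map (CommRingCat.ofHom (secPull z y f hf U V e : Sec y U →+* Sec z V)) ≫
      secSpec y hU = V.ι ≫ f :=
  toSpec_sec y f hU V e

lemma isIso_toSec {k : Type} [Field k] {Z : Scheme.{0}} (z : Z ⟶ Spec (.of k))
    (V : Z.Opens) (hV : IsAffineOpen V) : IsIso (toSec z V) := by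
  change IsIso V.toSpecΓ
  rw [← IsAffineOpen.isoSpec_hom hV]
  infer_instance

/-- Affine open subschemes of products. -/
theorem exists_prod {k : Type} [Field k] {n : ℕ} {Y : Fin n → Scheme.{0}}
    [∀ i, IsIntegral (Y i)] {y : ∀ i, Y i ⟶ Spec (.of k)} {Z : Scheme.{0}}
    {z : Z ⟶ Spec (.of k)} {pr : ∀ i, Z ⟶ Y i} (hZ : IsProd y z pr) (W : ∀ i, (Y i).Opens)
    (hW : ∀ i, IsAffineOpen (W i)) (hne : ∀ i, Nonempty (W i)) :
    ∃ (U : Z.Opens) (hU : IsAffineOpen U) (_ : Nonempty U)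
      (j : ∀ i, Sec (y i) (W i) →ₐ[k] Sec z U), IsTP j ∧
      ∀ i, Spec.map (CommRingCat.ofHom (j i : Sec (y i) (W i) →+* Sec z U)) ≫
        secSpec (y i) (hW i) = secSpec z hU ≫ pr i := by
  classical
  let V : Z.Opens := ⟨⋂ i, (pr i ⁻¹ᵁ W i : Set Z),
    isOpen_iInter_of_finite fun i => (pr i ⁻¹ᵁ W i).isOpen⟩
  have hVle : ∀ i, V ≤ pr i ⁻¹ᵁ W i := fun i x hx => Set.mem_iInter.1 hx i
  let B := ⨂[k] i, Sec (y i) (W i)
  obtain ⟨β, hβz, hβ⟩ := hZ.lift (Spec (.of B)) (Spec.map (CommRingCat.ofHom (algebraMap k B)))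
    (fun i => Spec.map (CommRingCat.ofHom (sg (k := k) (A := fun i => Sec (y i) (W i)) i :
      Sec (y i) (W i) →+* B)) ≫ secSpec (y i) (hW i)) (fun i => by
      rw [Category.assoc, secSpec_str, spec_comp]
      congr 2
      exact (sg (k := k) (A := fun i => Sec (y i) (W i)) i).comp_algebraMap)
  have hβV : ∀ x, β x ∈ V := by
    intro x
    refine Set.mem_iInter.2 fun i => ?_
    change pr i (β x) ∈ W i
    rw [← Scheme.Hom.comp_apply, hβ]
    exact mem_sec (y i) (hW i) _ x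
  have hr : Set.range β ⊆ Set.range V.ι := by
    rw [Scheme.Opens.range_ι]
    rintro _ ⟨x, rfl⟩
    exact hβV x
  let β' : Spec (.of B) ⟶ V.toScheme := IsOpenImmersion.lift V.ι β hr
  have hβ' : β' ≫ V.ι = β := IsOpenImmersion.lift_fac V.ι β hr
  obtain ⟨g, hg⟩ := pi_lift (A := fun i => Sec (y i) (W i)) (Sec z V)
    fun i => secPull z (y i) (pr i) (hZ.w i) (W i) V (hVle i)
  let α : V.toScheme ⟶ Spec (.of B) := toSec z V ≫ Spec.map (CommRingCat.ofHom (g : B →+* Sec z V))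
  have hαk : α ≫ Spec.map (CommRingCat.ofHom (algebraMap k B)) = V.ι ≫ z := by
    rw [← toSec_str z V]
    change (toSec z V ≫ Spec.map (CommRingCat.ofHom (g : B →+* Sec z V))) ≫ _ = _
    rw [Category.assoc]
    congr 1
    rw [spec_comp]
    congr 2
    exact g.comp_algebraMap
  have hαβ : α ≫ β' = 𝟙 _ := by
    rw [← cancel_mono V.ι, Category.assoc, hβ', Category.id_comp]
    apply hZ.ext
    · rw [Category.assoc, hβz, hαk]
    · intro i
      rw [Category.assoc, hβ, ← toSec_pull z (y i) (pr i) (hZ.w i) (W i) V (hVle i) (hW i)]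
      change (toSec z V ≫ Spec.map (CommRingCat.ofHom (g : B →+* Sec z V))) ≫ _ = _
      rw [Category.assoc]
      congr 1
      rw [← Category.assoc, spec_comp]
      congr 3
      exact RingHom.ext fun a => hg i a
  have hβα : β' ≫ α = 𝟙 _ := by
    let h : B →+* B := (Spec.preimage (β' ≫ α)).hom
    have hh : Spec.map (CommRingCat.ofHom h) = β' ≫ α := Spec.map_preimage (β' ≫ α)
    have hk : ∀ c, h (algebraMap k B c) = algebraMap k B c := by
      have h1 : h.comp (algebraMap k B) = algebraMap k B := by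
        have h2 : CommRingCat.ofHom (h.comp (algebraMap k B)) =
            CommRingCat.ofHom (algebraMap k B) := by
          apply Spec.map_injective
          rw [← spec_comp, hh, Category.assoc, hαk, ← Category.assoc, hβ', hβz]
        exact congrArg (fun f => f.hom) h2
      exact fun c => congrArg (fun f => f c) h1
    let h' : B →ₐ[k] B := { h with commutes' := hk }
    have hid : h' = AlgHom.id k B := by
      apply pi_ext
      intro i a
      have h1 : h.comp (sg (k := k) (A := fun i => Sec (y i) (W i)) i :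
          Sec (y i) (W i) →+* B) = (sg (k := k) (A := fun i => Sec (y i) (W i)) i :
          Sec (y i) (W i) →+* B) := by
        apply sec_unique (y i) (hW i)
        rw [← hβ i, ← spec_comp, Category.assoc, ← hβ i, hh]
        have h2 : (β' ≫ α) ≫ β = β := by
          rw [← hβ', Category.assoc, ← Category.assoc α, hαβ, Category.id_comp]
        rw [← Category.assoc, h2]
      exact congrArg (fun f => f a) h1
    have h3 : h = RingHom.id B := RingHom.ext fun b => congrArg (fun f : B →ₐ[k] B => f b) hid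
    rw [← hh, h3]
    exact Spec.map_id _
  have hiso : IsIso α := ⟨β', hαβ, hβα⟩
  have hVa : IsAffineOpen V := by
    have : IsAffine V.toScheme := IsAffine.of_isIso α
    exact this
  have hnt : Nontrivial B := by
    rcases n with _ | n
    · obtain ⟨f, -⟩ := pi_lift (k := k) (A := fun i => Sec (y i) (W i)) k fun i => i.elim0
      exact (f : B →+* k).domain_nontrivial
    · exact (sg_injective (k := k) (A := fun i => Sec (y i) (W i)) 0).nontrivial
  have hVne : Nonempty V := by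
    have h1 : Nonempty (Spec (.of B)) := inferInstanceAs (Nonempty (PrimeSpectrum B))
    obtain ⟨x⟩ := h1
    exact ⟨⟨β x, hβV x⟩⟩
  have hgb : Function.Bijective g := by
    have h1 : IsIso (toSec z V) := isIso_toSec z V hVa
    have h2 : IsIso (Spec.map (CommRingCat.ofHom (g : B →+* Sec z V))) := by
      have h3 : Spec.map (CommRingCat.ofHom (g : B →+* Sec z V)) = inv (toSec z V) ≫ α := by
        rw [IsIso.eq_inv_comp]
      rw [h3]
      infer_instance
    exact isIso_SpecMap_iff.1 h2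
  let e : B ≃ₐ[k] Sec z V := AlgEquiv.ofBijective g hgb
  refine ⟨V, hVa, hVne, fun i => secPull z (y i) (pr i) (hZ.w i) (W i) V (hVle i), ?_,
    fun i => spec_secPull z (y i) (pr i) (hZ.w i) (W i) V (hVle i) (hW i) hVa⟩
  refine ⟨fun S _ _ f => ?_, fun S _ _ f f' h => ?_⟩
  · obtain ⟨u, hu⟩ := pi_lift (A := fun i => Sec (y i) (W i)) S f
    refine ⟨u.comp (e.symm : Sec z V →ₐ[k] B), fun i a => ?_⟩
    change u (e.symm _) = _
    rw [← hg i a]
    have h1 : e.symm (g (sg i a)) = sg i a := e.symm_apply_apply _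
    rw [h1, hu]
  · have h1 : f.comp g = f'.comp g := by
      apply pi_ext
      intro i a
      rw [AlgHom.comp_apply, AlgHom.comp_apply, hg]
      exact h i a
    apply AlgHom.ext
    intro b
    obtain ⟨a, rfl⟩ := hgb.2 b
    exact congrArg (fun f : B →ₐ[k] S => f a) h1

end Pool.Agent.Zk10.Sch
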