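import Pool.Agent.Zk10.V5
import Pool.Agent.N98.PJ.Open

/-!
Local factorization of the generic point of a quotient.
-/

set_option autoImplicit false
set_option linter.unusedVariables false
set_option linter.unusedSectionVars false

open AlgebraicGeometry CategoryTheory Limits
open scoped Pointwise

namespace Pool.Agent.Zk10.Sch

open Pool.Agent.Zk10.Act

/-- The morphisms from the spectra of local rings to a quotient. -/
theorem exists_local {k E : Type} [Field k] [Field E] [Algebra k E] {G : Type} [Group G]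
    [Finite G] (τ : G →* (E ≃ₐ[k] E)) (O : Subalgebra k E) [IsLocalRing O]
    (hO1 : ∀ g, ∀ x ∈ O, τ g x = x) (hO2 : ∀ x, (∀ g, τ g x = x) → IsIntegral O x → x ∈ O)
    {X : Scheme.{0}} (x : X ⟶ Spec (.of k)) [IsSeparated x] (θ : Spec (.of E) ⟶ X)
    (hθ : ∀ g, Spec.map (CommRingCat.ofHom ((τ g : E ≃ₐ[k] E) : E →+* E)) ≫ θ = θ)
    (ψ : Spec (.of (integralClosure O E)) ⟶ X)
    (hψx : ψ ≫ x = Spec.map (CommRingCat.ofHom (algebraMap k (integralClosure O E))))
    (hψ : Spec.map (CommRingCat.ofHom (algebraMap (integralClosure O E) E)) ≫ ψ = θ) :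
    ∃ (U : X.Opens) (hU : IsAffineOpen U) (φ : Sec x U →+* E),
      Spec.map (CommRingCat.ofHom φ) ≫ secSpec x hU = θ ∧ ∀ a, φ a ∈ O := by
  classical
  let D := integralClosure O E
  have hint : ∀ g (a : D), IsIntegral O (τ g a) := by
    intro g a
    refine IsIntegral.map_of_comp_eq (RingHom.id O) ((τ g : E ≃ₐ[k] E) : E →+* E) ?_ a.2
    apply RingHom.ext
    intro b
    exact (hO1 g b b.2).symm
  let act : MulSemiringAction G D :=
    { smul := fun g a => ⟨τ g a, hint g a⟩
      one_smul := fun a => Subtype.ext (by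
        change τ 1 (a : E) = a
        rw [map_one]
        rfl)
      mul_smul := fun g h a => Subtype.ext (by
        change τ (g * h) (a : E) = τ g (τ h a)
        rw [map_mul]
        rfl)
      smul_zero := fun g => Subtype.ext (map_zero (τ g))
      smul_add := fun g a b => Subtype.ext (map_add (τ g) _ _)
      smul_one := fun g => Subtype.ext (map_one (τ g))
      smul_mul := fun g a b => Subtype.ext (map_mul (τ g) _ _) }
  have hsm : ∀ (g : G) (a : D), ((g • a : D) : E) = τ g a := fun g a => rfl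
  have hcomm : SMulCommClass G O D := ⟨fun g a b => Subtype.ext (by
    change τ g ((a : E) * (b : E)) = (a : E) * τ g (b : E)
    rw [map_mul, hO1 g a a.2])⟩
  have hinv : Algebra.IsInvariant O D G := ⟨fun b hb => by
    refine ⟨⟨(b : E), hO2 b (fun g => ?_) b.2⟩, rfl⟩
    rw [← hsm, hb]⟩
  let τD : G → D →+* D := fun g => MulSemiringAction.toRingHom G D g
  have hdom : IsDominant (Spec.map (CommRingCat.ofHom (algebraMap D E))) :=
    Pool.Agent.N98.PJ.isDominant_spec _ Subtype.val_injective
  have hψG : ∀ g, Spec.map (CommRingCat.ofHom (τD g)) ≫ ψ = ψ := by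
    intro g
    refine ext_of_isDominant_of_isSeparated x ?_
      (Spec.map (CommRingCat.ofHom (algebraMap D E))) ?_
    · rw [Category.assoc, hψx, spec_comp]
      congr 2
      apply RingHom.ext
      intro c
      apply Subtype.ext
      change τ g (algebraMap k E c) = algebraMap k E c
      rw [AlgEquiv.commutes]
    · rw [← Category.assoc, spec_comp]
      have h1 : (algebraMap D E).comp (τD g) =
          ((τ g : E ≃ₐ[k] E) : E →+* E).comp (algebraMap D E) := RingHom.ext fun a => rfl
      rw [h1, ← spec_comp, Category.assoc, hψ, hθ]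
  -- the closed points
  obtain ⟨M1, hM1⟩ := Ideal.exists_maximal D
  let x1 : Spec (.of D) := (⟨M1, hM1.isPrime⟩ : PrimeSpectrum D)
  obtain ⟨U, hU, hxU, -⟩ := exists_isAffineOpen_mem_and_subset (x := ψ x1) (U := ⊤) trivial
  have hmax : ∀ M2 : Ideal D, (hM2 : M2.IsMaximal) →
      ψ (⟨M2, hM2.isPrime⟩ : PrimeSpectrum D) ∈ U := by
    intro M2 hM2
    have h1 := hM1.isPrime
    have h2 := hM2.isPrime
    have h3 : (M1.under O).IsMaximal := Ideal.isMaximal_comap_of_isIntegral_of_isMaximal M1
    have h4 : (M2.under O).IsMaximal := Ideal.isMaximal_comap_of_isIntegral_of_isMaximal M2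
    have h5 : M1.under O = M2.under O :=
      (IsLocalRing.eq_maximalIdeal h3).trans (IsLocalRing.eq_maximalIdeal h4).symm
    obtain ⟨g, hg⟩ := Algebra.IsInvariant.exists_smul_of_under_eq O D G M1 M2 h5
    have h6 : Spec.map (CommRingCat.ofHom (τD g)) (⟨M2, hM2.isPrime⟩ : PrimeSpectrum D) = x1 := by
      apply PrimeSpectrum.ext
      ext a
      change g • a ∈ M2 ↔ a ∈ M1
      rw [hg]
      exact Ideal.smul_mem_pointwise_smul_iff
    have h7 : ψ (⟨M2, hM2.isPrime⟩ : PrimeSpectrum D) = ψ x1 := by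
      conv_lhs => rw [← hψG g]
      rw [Scheme.Hom.comp_apply, h6]
    rw [h7]
    exact hxU
  have hall : ∀ q, ψ q ∈ U := by
    intro q
    let q' : PrimeSpectrum D := q
    obtain ⟨M2, hM2, hle⟩ := Ideal.exists_le_maximal q'.asIdeal q'.2.ne_top
    have h1 : q' ⤳ (⟨M2, hM2.isPrime⟩ : PrimeSpectrum D) :=
      (PrimeSpectrum.le_iff_specializes _ _).1 hle
    have h2 : ψ q ⤳ ψ (⟨M2, hM2.isPrime⟩ : PrimeSpectrum D) := h1.map ψ.continuous
    exact h2.mem_open U.isOpen (hmax M2 hM2)
  obtain ⟨φ, hφ⟩ := exists_sec x hU ψ hall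
  refine ⟨U, hU, (algebraMap D E).comp φ, ?_, ?_⟩
  · rw [← spec_comp, Category.assoc, hφ, hψ]
  · intro a
    have h1 : ∀ g, ((τ g : E ≃ₐ[k] E) : E →+* E).comp ((algebraMap D E).comp φ) =
        (algebraMap D E).comp φ := by
      intro g
      apply sec_unique x hU
      rw [← spec_comp, Category.assoc, ← spec_comp, Category.assoc, hφ, hψ, hθ]
    exact hO2 _ (fun g => congrArg (fun f => f a) (h1 g)) (φ a).2

end Pool.Agent.Zk10.Sch
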