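import Pool.Agent.Zk10.V6
import Pool.Agent.N98.PJ.RelP

/-!
Resolutions of schemes from smooth proper models of the function field.
-/

set_option autoImplicit false
set_option linter.unusedVariables false
set_option linter.unusedSectionVars false

open AlgebraicGeometry CategoryTheory Limits

namespace Pool.Agent.Zk10.Sch

open Pool.Agent.N98.PJ

section main

variable {k L : Type} [Field k] [Field L] [Algebra k L] {X : Scheme.{0}} [IsIntegral X]
  (x : X ⟶ Spec (.of k)) [IsSeparated x] (γ : Fun x ≃ₐ[k] L)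

lemma hom_eq_of_gen {U : X.Opens} (hU : IsAffineOpen U) [Nonempty U] {φ : Sec x U →+* L}
    (h : Spec.map (CommRingCat.ofHom φ) ≫ secSpec x hU =
      Spec.map (CommRingCat.ofHom ((γ : Fun x ≃ₐ[k] L) : Fun x →+* L)) ≫ genF x) :
    φ = ((γ : Fun x ≃ₐ[k] L) : Fun x →+* L).comp (algebraMap (Sec x U) (Fun x)) := by
  apply sec_unique x hU
  rw [h, ← spec_comp, Category.assoc, genF_eq]

set_option maxHeartbeats 1000000 in
/-- **The resolution**. -/
theorem exists_resS (P : SPM k L)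
    (hP : ∀ j, ∃ (U : X.Opens) (hU : IsAffineOpen U) (ψ : Sec x U →+* P.B j),
      Spec.map (CommRingCat.ofHom (P.B j).val.toRingHom) ≫ Spec.map (CommRingCat.ofHom ψ) ≫
        secSpec x hU =
      Spec.map (CommRingCat.ofHom ((γ : Fun x ≃ₐ[k] L) : Fun x →+* L)) ≫ genF x) :
    ∃ π : P.Y ⟶ X, IsProper π ∧ AlgebraicGeometry.Smooth (π ≫ x) ∧
      ∃ U : X.Opens, (U : Set X).Nonempty ∧ IsIso (π ∣_ U) := by
  classical
  choose U hU ψ hψ using hP
  have hint := P.int
  have hpr := P.pr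
  have hsm := P.sm
  have hoi := P.oi
  let ι : ∀ j, P.B j →+* L := fun j => (P.B j).val.toRingHom
  have hι : ∀ j, Function.Injective (ι j) := fun j => Subtype.val_injective
  have hUne : ∀ j, Nonempty (U j) := by
    intro j
    have h1 : Nonempty (Spec (.of L)) := inferInstanceAs (Nonempty (PrimeSpectrum L))
    obtain ⟨z⟩ := h1
    refine ⟨⟨(Spec.map (CommRingCat.ofHom ((ι j).comp (ψ j))) ≫ secSpec x (hU j)) z, ?_⟩⟩
    exact mem_sec x (hU j) _ z
  have hιψ : ∀ j, (ι j).comp (ψ j) =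
      ((γ : Fun x ≃ₐ[k] L) : Fun x →+* L).comp (algebraMap (Sec x (U j)) (Fun x)) := by
    intro j
    apply hom_eq_of_gen x γ (hU j)
    rw [← spec_comp, Category.assoc]
    exact hψ j
  let φ : ∀ j, Spec (.of (P.B j)) ⟶ X := fun j =>
    Spec.map (CommRingCat.ofHom (ψ j)) ≫ secSpec x (hU j)
  let 𝒰 : P.Y.OpenCover := Scheme.Cover.mkOfCovers P.J (fun j => Spec (.of (P.B j))) P.c
    (fun y => by
      obtain ⟨j, x, hx⟩ := P.cov y
      exact ⟨j, x, hx⟩) P.oi
  have hYne : Nonempty P.Y := inferInstance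
  obtain ⟨j0, x0, -⟩ := P.cov hYne.some
  let χ : Spec (.of L) ⟶ P.Y := P.χ
  have hζ : ∀ j, Spec.map (CommRingCat.ofHom (ι j)) ≫ P.c j = χ := fun j => P.hχ j
  have hχ : IsDominant χ := by
    rw [← hζ j0]
    have h1 : IsDominant (Spec.map (CommRingCat.ofHom (ι j0))) := isDominant_spec _ (hι j0)
    have h2 : IsDominant (P.c j0) := by
      refine ⟨?_⟩
      refine IsOpen.dense (P.c j0).isOpenEmbedding.isOpen_range ?_
      exact ⟨_, x0, rfl⟩
    infer_instance
  have hφ : ∀ j, φ j ≫ x = P.c j ≫ P.g := by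
    intro j
    change (Spec.map (CommRingCat.ofHom (ψ j)) ≫ secSpec x (hU j)) ≫ x = P.c j ≫ P.g
    rw [P.hg j, Category.assoc, secSpec_str, spec_comp]
    congr 2
    apply RingHom.ext
    intro c
    apply hι j
    have h1 := congrArg (fun f : Sec x (U j) →+* L => f (algebraMap k (Sec x (U j)) c)) (hιψ j)
    refine h1.trans ?_
    change γ (algebraMap (Sec x (U j)) (Fun x) (algebraMap k (Sec x (U j)) c)) = algebraMap k L c
    rw [← IsScalarTower.algebraMap_apply, AlgEquiv.commutes]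
  obtain ⟨π, hπ, hπ'⟩ := exists_glue (S := Spec (.of k)) P.g x 𝒰 φ hφ χ
    (fun j => Spec.map (CommRingCat.ofHom (ι j))) hζ
    (Spec.map (CommRingCat.ofHom ((γ : Fun x ≃ₐ[k] L) : Fun x →+* L)) ≫ genF x) (fun j => hψ j)
  have hprop : IsProper π := by
    have h1 : IsProper (π ≫ x) := by rw [hπ]; exact hpr
    exact IsProper.of_comp π x
  refine ⟨π, hprop, by rw [hπ]; exact hsm, ?_⟩
  -- the open subset
  let h0 : Sec x (U j0) →ₐ[k] L :=
    ((γ : Fun x ≃ₐ[k] L) : Fun x →ₐ[k] L).comp (IsScalarTower.toAlgHom k (Sec x (U j0)) (Fun x))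
  have hfr : IsFractionRing (Sec x (U j0)) (Fun x) := isFractionRing_sec x (hU j0)
  have h0inj : Function.Injective h0 :=
    γ.injective.comp (IsFractionRing.injective (Sec x (U j0)) (Fun x))
  let C0 : Subalgebra k L := h0.range
  have hψ0 : ∀ a, ι j0 (ψ j0 a) = h0 a := fun a =>
    congrArg (fun f : Sec x (U j0) →+* L => f a) (hιψ j0)
  have hC0B : ∀ y ∈ C0, ∃ z : P.B j0, ι j0 z = y := by
    rintro _ ⟨a, rfl⟩
    exact ⟨ψ j0 a, hψ0 a⟩
  obtain ⟨G, hG⟩ := P.ft j0
  have hnum : ∀ z : L, ∃ b ∈ C0, b ≠ 0 ∧ z * b ∈ C0 := by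
    intro z
    obtain ⟨a, b, hb, hab⟩ := IsFractionRing.div_surjective (A := Sec x (U j0)) (γ.symm z)
    have hb0 : b ≠ 0 := nonZeroDivisors.ne_zero hb
    refine ⟨h0 b, ⟨b, rfl⟩, fun h => hb0 (h0inj (h.trans (map_zero h0).symm)), a, ?_⟩
    have h1 : z = h0 a / h0 b := by
      have h2 := congrArg γ hab
      rw [AlgEquiv.apply_symm_apply, map_div₀] at h2
      exact h2.symm
    have h3 : h0 b ≠ 0 := fun h => hb0 (h0inj (h.trans (map_zero h0).symm))
    rw [h1, div_mul_cancel₀ _ h3]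
    rfl
  choose den hden hden0 hnum using hnum
  let b : L := ∏ z ∈ G, den z
  have hb : b ∈ C0 := Subalgebra.prod_mem _ fun z _ => hden z
  have hb0 : b ≠ 0 := Finset.prod_ne_zero_iff.2 fun z _ => hden0 z
  let C := locAt C0 b hb
  have hBC : ∀ z : P.B j0, ι j0 z ∈ C := by
    intro z
    have h1 : Algebra.adjoin k (G : Set L) ≤ C := by
      rw [Algebra.adjoin_le_iff]
      intro y hy
      refine ⟨1, ?_⟩
      rw [pow_one]
      change y * ∏ z ∈ G, den z ∈ _
      rw [← Finset.mul_prod_erase _ _ hy, ← mul_assoc]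
      exact Subalgebra.mul_mem _ (hnum y) (Subalgebra.prod_mem _ fun z _ => hden z)
    rw [hG] at h1
    exact h1 z.2
  let ιC : C →+* L := C.val.toRingHom
  have hιC : Function.Injective ιC := Subtype.val_injective
  obtain ⟨f1, hf1'⟩ := exists_factor ιC hιC (h0 : Sec x (U j0) →+* L) fun z =>
    ⟨⟨_, le_locAt _ b hb ⟨z, rfl⟩⟩, rfl⟩
  obtain ⟨f2, hf2'⟩ := exists_factor ιC hιC (ι j0) fun z => ⟨⟨_, hBC z⟩, rfl⟩
  have h12 : f2.comp (ψ j0) = f1 := by
    apply RingHom.ext
    intro z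
    apply hιC
    have h1 := congrArg (fun F => F (ψ j0 z)) hf2'
    have h2 := congrArg (fun F => F z) hf1'
    exact h1.trans ((hψ0 z).trans h2.symm)
  have hinvC : b⁻¹ ∈ C := inv_mem_locAt _ b hb hb0
  have hunit : ∀ c : C, ιC c = b → IsUnit c := by
    intro c hc
    refine IsUnit.of_mul_eq_one ⟨b⁻¹, hinvC⟩ ?_
    apply hιC
    rw [map_mul, hc, map_one]
    exact mul_inv_cancel₀ hb0
  obtain ⟨b1, hb1⟩ := hb
  have hb1' : ιC (f1 b1) = b := by
    have h2 := congrArg (fun F => F b1) hf1'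
    exact h2.trans hb1
  obtain ⟨b2, hb2⟩ := hC0B b ⟨b1, hb1⟩
  have hb2' : ιC (f2 b2) = b := by
    have h2 := congrArg (fun F => F b2) hf2'
    exact h2.trans hb2
  have ho1 : IsOpenImmersion (Spec.map (CommRingCat.ofHom f1)) := by
    refine isOpenImmersion_of_loc f1 ?_ b1 (hunit _ hb1') fun c => ?_
    · intro y z hyz
      apply h0inj
      have h2 := congrArg (fun F => F y) hf1'
      have h3 := congrArg (fun F => F z) hf1'
      exact h2.symm.trans ((congrArg ιC hyz).trans h3)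
    · obtain ⟨n, a, hn⟩ := c.2
      refine ⟨n, a, ?_⟩
      apply hιC
      rw [map_mul, map_pow, hb1']
      have h2 := congrArg (fun F => F a) hf1'
      exact (h2.trans hn).symm
  have ho2 : IsOpenImmersion (Spec.map (CommRingCat.ofHom f2)) := by
    refine isOpenImmersion_of_loc f2 ?_ b2 (hunit _ hb2') fun c => ?_
    · intro y z hyz
      apply hι j0
      rw [← hf2']
      exact congrArg ιC hyz
    · obtain ⟨n, hn⟩ := c.2
      obtain ⟨a, ha⟩ := hC0B _ hn
      refine ⟨n, a, ?_⟩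
      apply hιC
      rw [map_mul, map_pow, hb2']
      have h2 := congrArg (fun F => F a) hf2'
      exact (h2.trans ha).symm
  let a : Spec (.of C) ⟶ X := Spec.map (CommRingCat.ofHom f1) ≫ secSpec x (hU j0)
  let b' : Spec (.of C) ⟶ P.Y := Spec.map (CommRingCat.ofHom f2) ≫ P.c j0
  have hab : b' ≫ π = a := by
    change (Spec.map (CommRingCat.ofHom f2) ≫ P.c j0) ≫ π = _
    have h1 : P.c j0 ≫ π = φ j0 := hπ' j0
    rw [Category.assoc, h1]
    change Spec.map (CommRingCat.ofHom f2) ≫ Spec.map (CommRingCat.ofHom (ψ j0)) ≫ _ = _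
    rw [← Category.assoc, ← Spec.map_comp, ← CommRingCat.ofHom_comp, h12]
  have hiso : IsIso (pullback.snd π a) := isIso_snd π a b' hab
  refine ⟨a.opensRange, ?_, isIso_restrict π a⟩
  exact ⟨_, Classical.arbitrary (Spec (.of C)), rfl⟩

end main

end Pool.Agent.Zk10.Sch
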