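import Pool.Agent.Zk10.V7

/-!
Refinements of the charts of a model.
-/

set_option autoImplicit false
set_option linter.unusedVariables false
set_option linter.unusedSectionVars false

open AlgebraicGeometry CategoryTheory Limits

namespace Pool.Agent.Zk10.Sch

open Pool.Agent.N98.PJ

section refine

variable {k L : Type} [Field k] [Field L] [Algebra k L]

/-- The inclusion of a localization. -/
noncomputable def incl (R : Subalgebra k L) (b : L) (hb : b ∈ R) : R →+* locAt R b hb :=
  (Subalgebra.inclusion (le_locAt R b hb) : R →ₐ[k] locAt R b hb)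

lemma isLoc_incl (R : Subalgebra k L) (b : R) (hb0 : (b : L) ≠ 0) :
    letI := (incl R b b.2).toAlgebra
    IsLocalization.Away b (locAt R b b.2) := by
  let _ := (incl R b b.2).toAlgebra
  refine (isLocalization_iff (M := Submonoid.powers b) (S := locAt R b b.2)).2
    ⟨fun y => ?_, fun z => ?_, fun {y z} hyz => ?_⟩
  · obtain ⟨_, n, rfl⟩ := y
    change IsUnit (incl R b b.2 (b ^ n))
    rw [map_pow]
    refine IsUnit.pow n ?_
    refine IsUnit.of_mul_eq_one ⟨(b : L)⁻¹, inv_mem_locAt R b b.2 hb0⟩ ?_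
    apply Subtype.ext
    exact mul_inv_cancel₀ hb0
  · obtain ⟨n, h2⟩ := z.2
    refine ⟨⟨⟨_, h2⟩, ⟨b ^ n, n, rfl⟩⟩, ?_⟩
    exact Subtype.ext rfl
  · refine ⟨1, ?_⟩
    have h1 : incl R b b.2 y = incl R b b.2 z := hyz
    have h2 : y = z := Subtype.ext (congrArg
      (fun c : locAt R b b.2 => (c : L)) h1)
    rw [h2]

lemma locAt_fg (R : Subalgebra k L) (b : R) (hb0 : (b : L) ≠ 0) (hR : R.FG) :
    (locAt R b b.2).FG := by
  classical
  obtain ⟨G, hG⟩ := hR
  refine ⟨insert (b : L)⁻¹ G, ?_⟩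
  have hGR : Algebra.adjoin k (G : Set L) ≤
      Algebra.adjoin k ((insert (b : L)⁻¹ G : Finset L) : Set L) := by
    apply Algebra.adjoin_mono
    rw [Finset.coe_insert]
    exact Set.subset_insert _ _
  apply le_antisymm
  · rw [Algebra.adjoin_le_iff, Finset.coe_insert]
    rintro y (rfl | hy)
    · exact inv_mem_locAt R b b.2 hb0
    · refine le_locAt R b b.2 ?_
      rw [← hG]
      exact Algebra.subset_adjoin hy
  · rintro z ⟨n, hn⟩
    have h1 : z = (z * (b : L) ^ n) * ((b : L)⁻¹) ^ n := by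
      rw [mul_assoc, ← mul_pow, mul_inv_cancel₀ hb0, one_pow, mul_one]
    rw [h1]
    refine Subalgebra.mul_mem _ (hGR ?_) (Subalgebra.pow_mem _ (Algebra.subset_adjoin ?_) n)
    · rw [hG]
      exact hn
    · rw [Finset.coe_insert]
      exact Set.mem_insert _ _

/-- Refinement of the charts. -/
theorem exists_refine (P : SPM k L) (s : ∀ j, PrimeSpectrum (P.B j) → P.B j)
    (hs : ∀ j q, s j q ∉ q.asIdeal) :
    ∃ P' : SPM k L, ∀ j', ∃ j q, P'.B j' = locAt (P.B j) (s j q) (s j q).2 := by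
  classical
  have hs0 : ∀ j q, ((s j q : P.B j) : L) ≠ 0 := by
    intro j q h
    apply hs j q
    have h1 : s j q = 0 := Subtype.ext h
    rw [h1]
    exact q.asIdeal.zero_mem
  have hoi := P.oi
  let J := Σ j, PrimeSpectrum (P.B j)
  let f : ∀ a : J, P.B a.1 →+* locAt (P.B a.1) (s a.1 a.2) (s a.1 a.2).2 := fun a =>
    incl (P.B a.1) (s a.1 a.2) (s a.1 a.2).2
  have hopen : ∀ a : J, IsOpenImmersion (Spec.map (CommRingCat.ofHom (f a))) := by
    intro a
    let _ := (f a).toAlgebra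
    have h1 : IsLocalization.Away (s a.1 a.2) (locAt (P.B a.1) (s a.1 a.2) (s a.1 a.2).2) :=
      isLoc_incl (P.B a.1) (s a.1 a.2) (hs0 a.1 a.2)
    exact IsOpenImmersion.of_isLocalization (s a.1 a.2)
  refine ⟨{ Y := P.Y
            int := P.int
            g := P.g
            pr := P.pr
            sm := P.sm
            J := J
            B := fun a => locAt (P.B a.1) (s a.1 a.2) (s a.1 a.2).2
            c := fun a => Spec.map (CommRingCat.ofHom (f a)) ≫ P.c a.1
            oi := fun a => IsOpenImmersion.comp _ _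
            cov := fun y => ?_
            χ := P.χ
            hχ := fun a => ?_
            hg := fun a => ?_
            ft := fun a => locAt_fg (P.B a.1) (s a.1 a.2) (hs0 a.1 a.2) (P.ft a.1) },
    fun a => ⟨a.1, a.2, rfl⟩⟩
  · obtain ⟨j, q, rfl⟩ := P.cov y
    let q' : PrimeSpectrum (P.B j) := q
    refine ⟨⟨j, q'⟩, ?_⟩
    let _ := (f ⟨j, q'⟩).toAlgebra
    have h1 : IsLocalization.Away (s j q') (locAt (P.B j) (s j q') (s j q').2) :=
      isLoc_incl (P.B j) (s j q') (hs0 j q')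
    have h2 : q' ∈ Set.range (PrimeSpectrum.comap (algebraMap (P.B j)
        (locAt (P.B j) (s j q') (s j q').2))) := by
      rw [PrimeSpectrum.localization_away_comap_range _ (s j q')]
      exact hs j q'
    obtain ⟨z, hz⟩ := h2
    refine ⟨z, ?_⟩
    rw [Scheme.Hom.comp_apply]
    congr 1
  · rw [← P.hχ a.1, ← Category.assoc, ← Spec.map_comp]
    rfl
  · rw [Category.assoc, P.hg a.1, ← Spec.map_comp]
    rfl

end refine

section pt

variable {k L : Type} [Field k] [Field L] [Algebra k L] {X : Scheme.{0}} [IsIntegral X]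
  (x : X ⟶ Spec (.of k)) [IsSeparated x] [LocallyOfFiniteType x] (γ : Fun x ≃ₐ[k] L)

/-- **The resolution**, with a local condition. -/
theorem exists_res_pt (P : SPM k L)
    (hP : ∀ j (q : PrimeSpectrum (P.B j)), ∃ (U : X.Opens) (hU : IsAffineOpen U)
      (φ : Sec x U →+* L), Spec.map (CommRingCat.ofHom φ) ≫ secSpec x hU =
        Spec.map (CommRingCat.ofHom ((γ : Fun x ≃ₐ[k] L) : Fun x →+* L)) ≫ genF x ∧
      ∀ a, ∃ u v : P.B j, v ∉ q.asIdeal ∧ φ a * v = u) :
    ∃ (Y : Scheme.{0}) (π : Y ⟶ X), IsIntegral Y ∧ IsProper π ∧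
      AlgebraicGeometry.Smooth (π ≫ x) ∧
      ∃ U : X.Opens, (U : Set X).Nonempty ∧ IsIso (π ∣_ U) := by
  classical
  have h1 : ∀ j (q : PrimeSpectrum (P.B j)), ∃ (s : P.B j) (U : X.Opens) (hU : IsAffineOpen U)
      (φ : Sec x U →+* L), s ∉ q.asIdeal ∧ Spec.map (CommRingCat.ofHom φ) ≫ secSpec x hU =
        Spec.map (CommRingCat.ofHom ((γ : Fun x ≃ₐ[k] L) : Fun x →+* L)) ≫ genF x ∧
      ∀ a, φ a ∈ locAt (P.B j) s s.2 := by
    intro j q
    obtain ⟨U, hU, φ, hφ, hloc⟩ := hP j q
    have hUne : Nonempty U := by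
      have h1 : Nonempty (Spec (.of L)) := inferInstanceAs (Nonempty (PrimeSpectrum L))
      obtain ⟨z⟩ := h1
      exact ⟨⟨_, mem_sec x hU φ z⟩⟩
    have hφγ := hom_eq_of_gen x γ hU hφ
    have hφk : ∀ c, φ (algebraMap k (Sec x U) c) = algebraMap k L c := by
      intro c
      rw [hφγ]
      change γ (algebraMap (Sec x U) (Fun x) (algebraMap k (Sec x U) c)) = algebraMap k L c
      rw [← IsScalarTower.algebraMap_apply, AlgEquiv.commutes]
    let φ' : Sec x U →ₐ[k] L := { φ with commutes' := hφk }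
    have hft : Algebra.FiniteType k (Sec x U) := finiteType_sec x hU
    obtain ⟨F, hF⟩ := hft.out
    choose u v hv huv using hloc
    let s : P.B j := ∏ f ∈ F, v f
    have hsq : s ∉ q.asIdeal := by
      intro h
      obtain ⟨f, -, hf⟩ := (q.2.prod_mem_iff).1 h
      exact hv f hf
    refine ⟨s, U, hU, φ, hsq, hφ, ?_⟩
    have hle : Algebra.adjoin k (F : Set (Sec x U)) ≤ (locAt (P.B j) s s.2).comap φ' := by
      rw [Algebra.adjoin_le_iff]
      intro f hf
      refine ⟨1, ?_⟩
      change φ f * (s : L) ^ 1 ∈ P.B j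
      rw [pow_one]
      have h2 : s = v f * ∏ g ∈ F.erase f, v g := (Finset.mul_prod_erase F v hf).symm
      rw [h2]
      change φ f * ((v f : L) * ((∏ g ∈ F.erase f, v g : P.B j) : L)) ∈ P.B j
      rw [← mul_assoc, huv]
      exact (u f * ∏ g ∈ F.erase f, v g : P.B j).2
    intro a
    rw [hF] at hle
    exact hle (x := a) trivial
  choose s U hU φ hs hφ hmem using h1
  obtain ⟨P', hP'⟩ := exists_refine P s hs
  obtain ⟨π, h2, h3, h4⟩ := exists_resS x γ P' (fun j' => by
    obtain ⟨j, q, hjq⟩ := hP' j'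
    refine ⟨U j q, hU j q, (φ j q).codRestrict (P'.B j') (fun a => ?_), ?_⟩
    · rw [hjq]
      exact hmem j q a
    · rw [← hφ j q, ← Category.assoc, spec_comp]
      rfl)
  exact ⟨P'.Y, π, P'.int, h2, h3, h4⟩

end pt

end Pool.Agent.Zk10.Sch
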