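import Pool.Agent.Zk10.V8
import Pool.Agent.N762.FP.Itg

/-!
Normal models on which given functions or their inverses are regular.
-/

set_option autoImplicit false
set_option linter.unusedVariables false
set_option linter.unusedSectionVars false

open AlgebraicGeometry CategoryTheory Limits

namespace Pool.Agent.Zk10.Sch

open Pool.Agent.N98.PJ Pool.Agent.N98 Pool.Agent.W558

/-- The charts of a smooth model are normal. -/
lemma spm_normal {k K : Type} [Field k] [Field K] [Algebra k K] (P : SPM k K) (j : P.J) :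
    IsIntegrallyClosed (P.B j) := by
  have h1 := P.sm
  have h2 := P.oi j
  have h3 : AlgebraicGeometry.Smooth (P.c j ≫ P.g) := inferInstance
  rw [P.hg j, HasRingHomProperty.Spec_iff (P := @AlgebraicGeometry.Smooth.{0})] at h3
  have h4 : Algebra.Smooth k (P.B j) := RingHom.smooth_algebraMap.1 h3
  exact wd_norm k (P.B j)

/-- Normal models on which given functions or their inverses are regular. -/
theorem exists_model {k K : Type} [Field k] [Field K] [Algebra k K] {T I : Type} [Finite T]
    [Fintype I] (M : LM (⊥ : Subalgebra k K) ⊤ T I) (hFr : Frc M) {X : Type} [Finite X]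
    (g : X → K) (Γ : X → I → ℤ) (hF : Fn M g Γ) :
    ∃ P : SPM k K, ∀ j, IsIntegrallyClosed (P.B j) ∧
      (∀ z : K, ∃ u v : P.B j, (v : K) ≠ 0 ∧ z * v = u) ∧
      ∀ a, g a ∈ P.B j ∨ (g a)⁻¹ ∈ P.B j := by
  classical
  let y : Option X → K := fun o => o.elim 1 g
  have hB : ∀ o, IsB M (y o) := by
    rintro (_ | a)
    · exact ⟨0, fun t => IsM.one⟩
    · exact ⟨Γ a, fun t => hF a t⟩
  obtain ⟨T', I', hT', hI', M', q, hq, hpr⟩ := exists_princ M y hB
  have hFr' := hq.frc hFr
  obtain ⟨P, hP⟩ := exists_spm M'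
  refine ⟨P, fun j => ⟨spm_normal P j, fun z => ?_, fun a => ?_⟩⟩
  · obtain ⟨t, ht⟩ := hP j
    obtain ⟨u, hu, v, hv, hv0, h⟩ := hFr' t z
    refine ⟨⟨u, ht hu⟩, ⟨v, ht hv⟩, hv0, ?_⟩
    rw [h]
    exact inv_mul_cancel_right₀ hv0 u
  · obtain ⟨t, ht⟩ := hP j
    rcases hpr t none (some a) with h | h
    · left
      apply ht
      have h1 : g a / 1 ∈ M'.A t := h
      rwa [div_one] at h1
    · right
      apply ht
      have h1 : 1 / g a ∈ M'.A t := h
      rwa [one_div] at h1

end Pool.Agent.Zk10.Sch
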