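import Mathlib

/-!
Curves with a group of automorphisms: the fixed points, the breaks and the filtration of the
coordinate ring.
-/

set_option autoImplicit false
set_option linter.unusedVariables false
set_option linter.unusedSectionVars false

namespace Pool.Agent.Zk10.PG

section defs

variable {k B : Type} [Field k] [CommRing B] [Algebra k B] (H : Set (B ≃ₐ[k] B))

/-- The fixed points of `H`. -/
def Fx : Set (Ideal B) := {P | P.IsMaximal ∧ ∀ s ∈ H, ∀ x, s x - x ∈ P}

/-- The break: the largest `l` such that `H` acts trivially modulo `P ^ (l + 1)`. -/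
noncomputable def br (P : Ideal B) : ℕ := sSup {l | ∀ s ∈ H, ∀ x, s x - x ∈ P ^ (l + 1)}

open Classical in
/-- The filtration: the point `P` of `Fx H` has the weight `D / br H P`. -/
noncomputable def Fil (D n : ℕ) : Ideal B :=
  if ∀ s ∈ H, s = 1 then (if n = 0 then ⊤ else ⊥)
  else ⨅ P ∈ Fx H, P ^ ((n * br H P + (D - 1)) / D)

end defs

end Pool.Agent.Zk10.PG
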