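import Pool.Agent.Zk10.W1
import Pool.Agent.Y563.G.Wch
import Pool.Agent.Zk52.Tens10

/-!
The graded algebra of a product with filtrations of the factors.
-/

set_option autoImplicit false
set_option linter.unusedVariables false
set_option linter.unusedSectionVars false

namespace Pool.Agent.Zk10.PG

open Pool.Agent.Y223.G

/-- The graded algebra generated by `T⁻¹` and `x T ^ m` for `x` in `Φ l m`. -/
noncomputable def RR (k : Type) {K : Type} [CommRing k] [Field K] [Algebra k K] {n : ℕ}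
    {B : Fin n → Type} [∀ l, CommRing (B l)] (f : ∀ l, B l →+* K)
    (Φ : ∀ l, ℕ → Ideal (B l)) : Subalgebra k (LP K) :=
  Algebra.adjoin k ({hm (-1) 1} ∪ {g | ∃ (l : Fin n) (m : ℕ) (x : B l), x ∈ Φ l m ∧
    g = hm (m : ℤ) (f l x)})

/-- The graded algebra of the product `C` of the `B l`. -/
noncomputable abbrev RC (k K : Type) {C : Type} [CommRing k] [Field K] [Algebra k K] [CommRing C]
    [Algebra k C] [Algebra C K] {n : ℕ} {B : Fin n → Type} [∀ l, CommRing (B l)]
    [∀ l, Algebra k (B l)] (j : ∀ l, B l →ₐ[k] C) (Φ : ∀ l, ℕ → Ideal (B l)) :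
    Subalgebra k (LP K) := RR k (fun l => (algebraMap C K).comp (j l : B l →+* C)) Φ

/-- The local structure of a filtration: at a prime in the centre the filtration is trivial, or
the prime is a point and the filtration is generated by a uniformizer `y` of the weight `a`. -/
def LocF {B : Type} [CommRing B] (Φ : ℕ → Ideal B) : Prop :=
  ∀ P : Ideal B, P.IsPrime → (∀ m, 0 < m → Φ m ≤ P) → (∀ m, 0 < m → Φ m = ⊥) ∨
    ∃ (y : B) (a : ℕ), P.IsMaximal ∧ 0 < a ∧ y ∈ P ∧ y ∉ P ^ 2 ∧ y ∈ Φ a ∧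
      ∀ m, ∀ x ∈ Φ m, ∃ s, s ∉ P ∧ ∃ (c : ℕ) (b : B), m ≤ a * c ∧ s * x = y ^ c * b

/-- A periodic filtration. -/
structure Flt {B : Type} [CommRing B] (Φ : ℕ → Ideal B) (D : ℕ) : Prop where
  zero : Φ 0 = ⊤
  anti : ∀ m n, m ≤ n → Φ n ≤ Φ m
  mul : ∀ m n, Φ m * Φ n ≤ Φ (m + n)
  per : ∀ m, Φ (m + D) = Φ D * Φ m

open Classical in
/-- The weight of an element. -/
noncomputable def wgt {B : Type} [CommRing B] (Φ : ℕ → Ideal B) (D : ℕ) (x : B) : ℕ :=
  Nat.findGreatest (fun m => x ∈ Φ m) D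

/-- The powers of `𝔓`, of the weight `e`. -/
def PF {B : Type} [CommRing B] (𝔓 : Ideal B) (e m : ℕ) : Ideal B := 𝔓 ^ ((m + (e - 1)) / e)

end Pool.Agent.Zk10.PG
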