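import Pool.Agent.Zk10.W2
import Pool.Agent.Y223.G.WBase
import Pool.Agent.Y86.G5.Rgin1

/-!
The action on the graded algebra of a product with filtrations of the factors.
-/

set_option autoImplicit false
set_option linter.unusedVariables false
set_option linter.unusedSectionVars false

namespace Pool.Agent.Zk10.PG

open Pool.Agent.Y223.G
open Pool.Agent.Y86.G5 (im mem_im im_sub im_mul im_prime im_one im_pow)

section stab

variable {k K : Type} [CommRing k] [Field K] [Algebra k K] {n : ℕ} {B : Fin n → Type}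
  [∀ l, CommRing (B l)] {f : ∀ l, B l →+* K} {Φ Φ' : ∀ l, ℕ → Ideal (B l)}

lemma RR_T : hm (-1) 1 ∈ RR k f Φ := Algebra.subset_adjoin (Or.inl rfl)

lemma RR_g {l : Fin n} {m : ℕ} {x : B l} (hx : x ∈ Φ l m) : hm (m : ℤ) (f l x) ∈ RR k f Φ :=
  Algebra.subset_adjoin (Or.inr ⟨l, m, x, hx, rfl⟩)

lemma RR_low {d e : ℤ} {x : K} (h : hm d x ∈ RR k f Φ) (he : e ≤ d) : hm e x ∈ RR k f Φ := by
  have h1 := (RR k f Φ).mul_mem ((RR k f Φ).pow_mem RR_T (d - e).toNat) h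
  rw [hm_pow, one_pow, hm_mul, one_mul] at h1
  have h2 : ((d - e).toNat : ℤ) * -1 + d = e := by
    rw [Int.toNat_of_nonneg (by omega)]
    ring
  rwa [h2] at h1

lemma im_low' {R : Subalgebra k (LP K)} {Q : Ideal R} (hT : hm (-1) 1 ∈ R) {d e : ℤ} {x : K}
    (h : hm d x ∈ im R Q) (he : e ≤ d) : hm e x ∈ im R Q := by
  have h1 := im_mul (R.pow_mem hT (d - e).toNat) h
  rw [hm_pow, one_pow, hm_mul, one_mul] at h1
  have h2 : ((d - e).toNat : ℤ) * -1 + d = e := by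
    rw [Int.toNat_of_nonneg (by omega)]
    ring
  rwa [h2] at h1

lemma RR_gr : Gr (RR k f Φ) := by
  apply gr_adjoin
  rintro g (hg | ⟨l, m, x, -, rfl⟩)
  · exact ⟨-1, 1, hg⟩
  · exact ⟨_, _, rfl⟩

theorem RR_tl (σ : K ≃ₐ[k] K) (τ : ∀ l, B l → B l) (hσ : ∀ l x, σ (f l x) = f l (τ l x))
    (h : ∀ l m x, x ∈ Φ l m → τ l x ∈ Φ' l m) : ∀ g ∈ RR k f Φ, tl σ g ∈ RR k f Φ' := by
  intro g hg
  unfold RR at hg
  induction hg using Algebra.adjoin_induction with
  | mem x hx =>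
    rcases hx with hx | ⟨l, m, x, hx, rfl⟩
    · rw [Set.mem_singleton_iff] at hx
      rw [hx, tl_hm, map_one]
      exact RR_T
    · rw [tl_hm, hσ]
      exact RR_g (h l m x hx)
  | algebraMap r => rw [AlgEquiv.commutes]; exact Subalgebra.algebraMap_mem _ r
  | add x y _ _ hx hy => rw [map_add]; exact Subalgebra.add_mem _ hx hy
  | mul x y _ _ hx hy => rw [map_mul]; exact Subalgebra.mul_mem _ hx hy

theorem RR_delta (σ : K ≃ₐ[k] K) (τ : ∀ l, B l → B l) (hσ : ∀ l x, σ (f l x) = f l (τ l x))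
    (h : ∀ l m x, x ∈ Φ l m → τ l x ∈ Φ l m) (D : ℕ)
    (hδ : ∀ l m x, x ∈ Φ l m → τ l x - x ∈ Φ l (m + D)) :
    ∀ g ∈ RR k f Φ, hm D 1 * (tl σ g - g) ∈ RR k f Φ := by
  intro g hg
  have hst := RR_tl σ τ hσ h
  suffices h1 : g ∈ RR k f Φ ∧ hm D 1 * (tl σ g - g) ∈ RR k f Φ from h1.2
  have hg' : g ∈ RR k f Φ := hg
  unfold RR at hg'
  induction hg' using Algebra.adjoin_induction with
  | mem x hx =>
    refine ⟨Algebra.subset_adjoin hx, ?_⟩
    rcases hx with hx | ⟨l, m, x, hx, rfl⟩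
    · rw [Set.mem_singleton_iff] at hx
      rw [hx, tl_hm, map_one, sub_self, mul_zero]
      exact Subalgebra.zero_mem _
    · rw [tl_hm, hσ, ← hm_sub, ← map_sub, hm_mul, one_mul]
      have h1 := RR_g (k := k) (f := f) (hδ l m x hx)
      have e1 : ((m + D : ℕ) : ℤ) = (D : ℤ) + m := by push_cast; ring
      rwa [e1] at h1
  | algebraMap r =>
    refine ⟨Subalgebra.algebraMap_mem _ r, ?_⟩
    rw [AlgEquiv.commutes, sub_self, mul_zero]
    exact Subalgebra.zero_mem _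
  | add x y hx' hy' hx hy =>
    obtain ⟨hx1, hx2⟩ := hx hx'
    obtain ⟨hy1, hy2⟩ := hy hy'
    refine ⟨Subalgebra.add_mem _ hx1 hy1, ?_⟩
    have e1 : hm D 1 * (tl σ (x + y) - (x + y)) =
        hm D 1 * (tl σ x - x) + hm D 1 * (tl σ y - y) := by
      rw [map_add]
      ring
    rw [e1]
    exact Subalgebra.add_mem _ hx2 hy2
  | mul x y hx' hy' hx hy =>
    obtain ⟨hx1, hx2⟩ := hx hx'
    obtain ⟨hy1, hy2⟩ := hy hy'
    refine ⟨Subalgebra.mul_mem _ hx1 hy1, ?_⟩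
    have e1 : hm D 1 * (tl σ (x * y) - (x * y)) =
        hm D 1 * (tl σ x - x) * tl σ y + x * (hm D 1 * (tl σ y - y)) := by
      rw [map_mul]
      ring
    rw [e1]
    exact Subalgebra.add_mem _ (Subalgebra.mul_mem _ hx2 (hst y hy1))
      (Subalgebra.mul_mem _ hx1 hy2)

/-- The elements of positive degree are in the ideal if the generators are. -/
theorem RR_pos (Q : Ideal (RR k f Φ))
    (hQ : ∀ l m, 0 < m → ∀ x ∈ Φ l m, hm (m : ℤ) (f l x) ∈ im (RR k f Φ) Q) :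
    ∀ g ∈ RR k f Φ, ∀ d : ℤ, 0 < d → hm d (g.coeff d) ∈ im (RR k f Φ) Q := by
  intro g hg
  suffices h1 : g ∈ RR k f Φ ∧ ∀ d : ℤ, 0 < d → hm d (g.coeff d) ∈ im (RR k f Φ) Q from h1.2
  have hg' : g ∈ RR k f Φ := hg
  unfold RR at hg'
  induction hg' using Algebra.adjoin_induction with
  | mem x hx =>
    refine ⟨Algebra.subset_adjoin hx, fun d hd => ?_⟩
    rcases hx with hx | ⟨l, m, x, hx, rfl⟩
    · rw [Set.mem_singleton_iff] at hx
      rw [hx, coeff_hm, if_neg (by omega), hm_zero]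
      exact (im (RR k f Φ) Q).zero_mem
    · rw [coeff_hm]
      split_ifs with h
      · rw [← h]
        exact hQ l m (by omega) x hx
      · rw [hm_zero]
        exact (im (RR k f Φ) Q).zero_mem
  | algebraMap r =>
    refine ⟨Subalgebra.algebraMap_mem _ r, fun d hd => ?_⟩
    rw [algebraMap_LP, coeff_hm, if_neg (by omega), hm_zero]
    exact (im (RR k f Φ) Q).zero_mem
  | add x y hx' hy' hx hy =>
    obtain ⟨hx1, hx2⟩ := hx hx'
    obtain ⟨hy1, hy2⟩ := hy hy'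
    refine ⟨Subalgebra.add_mem _ hx1 hy1, fun d hd => ?_⟩
    rw [AddMonoidAlgebra.coeff_add, Finsupp.add_apply, hm_add]
    exact (im (RR k f Φ) Q).add_mem (hx2 d hd) (hy2 d hd)
  | mul x y hx' hy' hx hy =>
    obtain ⟨hx1, hx2⟩ := hx hx'
    obtain ⟨hy1, hy2⟩ := hy hy'
    refine ⟨Subalgebra.mul_mem _ hx1 hy1, fun d hd => ?_⟩
    have e1 : hm d ((x * y).coeff d) =
        ∑ a ∈ x.coeff.support, hm a (x.coeff a) * hm (d - a) (y.coeff (d - a)) := by
      have e2 : x * y = ∑ a ∈ x.coeff.support, hm a (x.coeff a) * y := by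
        conv_lhs => rw [eq_sum_hm x, Finset.sum_mul]
      rw [e2, AddMonoidAlgebra.coeff_sum, Finsupp.finsetSum_apply]
      simp_rw [coeff_hm_mul]
      have e3 : ∀ (s : Finset ℤ) (u : ℤ → K), hm d (∑ a ∈ s, u a) = ∑ a ∈ s, hm d (u a) := by
        intro s u
        classical
        induction s using Finset.induction_on with
        | empty => rw [Finset.sum_empty, Finset.sum_empty, hm_zero]
        | insert i s hi ih => rw [Finset.sum_insert hi, Finset.sum_insert hi, hm_add, ih]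
      rw [e3]
      refine Finset.sum_congr rfl fun a _ => ?_
      rw [hm_mul]
      congr 1
      ring
    rw [e1]
    refine (im (RR k f Φ) Q).sum_mem fun a _ => ?_
    rcases lt_or_ge 0 a with ha | ha
    · rw [mul_comm]
      exact im_mul (RR_gr y hy1 _) (hx2 a ha)
    · exact im_mul (RR_gr x hx1 _) (hy2 _ (by omega))

end stab

section nd

variable {k K B : Type} [CommRing k] [Field K] [Algebra k K] [CommRing B]
  {R : Subalgebra k (LP K)} {Q : Ideal R}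

lemma im_span (F : B →+* K) (h0 : ∀ x, hm 0 (F x) ∈ R) {d : ℤ} {S : Set B}
    (h : ∀ x ∈ S, hm d (F x) ∈ im R Q) {x : B} (hx : x ∈ Ideal.span S) :
    hm d (F x) ∈ im R Q := by
  induction hx using Submodule.span_induction with
  | mem x hx => exact h x hx
  | zero => rw [map_zero, hm_zero]; exact (im R Q).zero_mem
  | add x y _ _ hx hy => rw [map_add, hm_add]; exact (im R Q).add_mem hx hy
  | smul a x _ hx =>
    have e1 : hm d (F (a • x)) = hm 0 (F a) * hm d (F x) := by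
      rw [smul_eq_mul, map_mul, hm_mul, zero_add]
    rw [e1]
    exact im_mul (h0 a) hx

lemma im_mulI (F : B →+* K) {d e : ℤ} {I J : Ideal B} (hI : ∀ x ∈ I, hm d (F x) ∈ im R Q)
    (hJ : ∀ x ∈ J, hm e (F x) ∈ R) {x : B} (hx : x ∈ I * J) : hm (d + e) (F x) ∈ im R Q := by
  refine Submodule.mul_induction_on hx ?_ ?_
  · intro a ha b hb
    have e1 : hm (d + e) (F (a * b)) = hm e (F b) * hm d (F a) := by
      rw [map_mul, hm_mul]
      congr 1
      · ring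
      · ring
    rw [e1]
    exact im_mul (hJ b hb) (hI a ha)
  · intro a b ha hb
    rw [map_add, hm_add]
    exact (im R Q).add_mem ha hb

theorem nd_fil [hQ : Q.IsPrime] (F : B →+* K) {Φ : ℕ → Ideal B} {D : ℕ} (hΦ : Flt Φ D)
    (hD : 0 < D) (hR : ∀ m, ∀ x ∈ Φ m, hm (m : ℤ) (F x) ∈ R) (τ : B → B)
    (hnd : Φ (2 * D) ≤ ⨆ m ∈ Finset.range (D + 1),
      Ideal.span {y | ∃ x ∈ Φ m, y = τ x - x} * Φ (D - m))
    (hδ : ∀ m, ∀ x ∈ Φ m, hm ((m + D : ℕ) : ℤ) (F (τ x - x)) ∈ im R Q) :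
    ∀ m, 0 < m → ∀ x ∈ Φ m, hm (m : ℤ) (F x) ∈ im R Q := by
  have h0 : ∀ x, hm 0 (F x) ∈ R := by
    intro x
    have h1 := hR 0 x (by rw [hΦ.zero]; trivial)
    exact_mod_cast h1
  -- degree 2D
  have h2 : ∀ x ∈ Φ (2 * D), hm ((2 * D : ℕ) : ℤ) (F x) ∈ im R Q := by
    intro x hx
    have h3 := hnd hx
    clear hx
    induction h3 using Submodule.iSup_induction' with
    | mem m x hx =>
      induction hx using Submodule.iSup_induction' with
      | mem hm' x hx =>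
        have h4 := im_mulI F (fun y hy => im_span F h0 (S := {y | ∃ x ∈ Φ m, y = τ x - x})
          (d := ((m + D : ℕ) : ℤ)) (by
            rintro _ ⟨x, hx, rfl⟩
            exact hδ m x hx) hy) (fun y hy => hR (D - m) y hy) hx
        have e1 : ((m + D : ℕ) : ℤ) + ((D - m : ℕ) : ℤ) = ((2 * D : ℕ) : ℤ) := by
          rw [Finset.mem_range] at hm'
          rw [Nat.cast_sub (by omega)]
          push_cast
          ring
        rwa [e1] at h4
      | zero => rw [map_zero, hm_zero]; exact (im R Q).zero_mem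
      | add x y _ _ hx hy => rw [map_add, hm_add]; exact (im R Q).add_mem hx hy
    | zero => rw [map_zero, hm_zero]; exact (im R Q).zero_mem
    | add x y _ _ hx hy => rw [map_add, hm_add]; exact (im R Q).add_mem hx hy
  have hper : ∀ m, Φ (2 * D + m) = Φ (2 * D) * Φ m := by
    intro m
    have e1 : Φ (2 * D) = Φ D * Φ D := by
      rw [two_mul]
      exact hΦ.per D
    have e2 : 2 * D + m = (m + D) + D := by ring
    rw [e2, hΦ.per, hΦ.per, e1, mul_assoc]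
  have hpow : ∀ (m c : ℕ) (x : B), x ∈ Φ m → x ^ c ∈ Φ (m * c) := by
    intro m c x hx
    induction c with
    | zero => rw [Nat.mul_zero, hΦ.zero]; trivial
    | succ c ih =>
      rw [pow_succ, Nat.mul_succ]
      exact hΦ.mul _ _ (Ideal.mul_mem_mul ih hx)
  intro m hm0 x hx
  have h3 := hpow m (2 * D) x hx
  obtain ⟨m', rfl⟩ : ∃ m', m = m' + 1 := ⟨m - 1, by omega⟩
  have e1 : (m' + 1) * (2 * D) = 2 * D + m' * (2 * D) := by ring
  rw [e1, hper] at h3
  have h4 := im_mulI F h2 (fun y hy => hR (m' * (2 * D)) y hy) h3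
  have e2 : hm (((2 * D : ℕ) : ℤ) + ((m' * (2 * D) : ℕ) : ℤ)) (F (x ^ (2 * D))) =
      hm ((m' + 1 : ℕ) : ℤ) (F x) ^ (2 * D) := by
    rw [hm_pow, map_pow]
    congr 1
    push_cast
    ring
  rw [e2] at h4
  by_contra hcon
  exact im_pow hQ (hR _ x hx) hcon _ h4

theorem nd_pow [hQ : Q.IsPrime] [IsDedekindDomain B] (F : B →+* K) (𝔓 : Ideal B)
    [h𝔓 : 𝔓.IsMaximal] (h𝔓0 : 𝔓 ≠ ⊥) (e b : ℕ) (he : 0 < e) (hT : hm (-1) 1 ∈ R)
    (hR : ∀ m, ∀ x ∈ PF 𝔓 e m, hm (m : ℤ) (F x) ∈ R)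
    (h𝔓Q : ∀ x ∈ 𝔓, hm 0 (F x) ∈ im R Q) (π w : B)
    (hw : w ∈ 𝔓 ^ (b + 1)) (hw2 : w ∉ 𝔓 ^ (b + 2))
    (hδ : hm ((e * (b + 1) : ℕ) : ℤ) (F w) ∈ im R Q) :
    ∀ m, 0 < m → ∀ x ∈ PF 𝔓 e m, hm (m : ℤ) (F x) ∈ im R Q := by
  have h0 : ∀ x, hm 0 (F x) ∈ R := by
    intro x
    have h1 := hR 0 x (by
      unfold PF
      rw [Nat.zero_add, Nat.div_eq_of_lt (by omega), pow_zero, Ideal.one_eq_top]
      trivial)
    exact_mod_cast h1
  have hPF : ∀ c, PF 𝔓 e (e * c) = 𝔓 ^ c := by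
    intro c
    unfold PF
    congr 1
    rw [Nat.mul_add_div he, Nat.div_eq_of_lt (by omega), add_zero]
  have hRp : ∀ c, ∀ x ∈ 𝔓 ^ c, hm ((e * c : ℕ) : ℤ) (F x) ∈ R := fun c x hx =>
    hR _ x (by rw [hPF]; exact hx)
  -- the factorization
  obtain ⟨J, hJ⟩ : 𝔓 ^ (b + 1) ∣ Ideal.span {w} := by
    rw [Ideal.dvd_span_singleton]
    exact hw
  have hJ𝔓 : ¬ J ≤ 𝔓 := by
    intro hle
    apply hw2
    have h1 : w ∈ Ideal.span {w} := Ideal.mem_span_singleton_self w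
    rw [hJ] at h1
    rw [pow_succ]
    exact Ideal.mul_mono_right hle h1
  obtain ⟨s, hsJ, hs𝔓⟩ := Set.not_subset.1 hJ𝔓
  have hsQ : hm 0 (F s) ∉ im R Q := by
    intro h
    obtain ⟨r, i, hi, hri⟩ := h𝔓.exists_inv hs𝔓
    apply im_one hQ
    have e1 : (1 : LP K) = hm 0 (F r) * hm 0 (F s) + hm 0 (F i) := by
      rw [hm_mul, add_zero, ← map_mul, ← hm_add, ← map_add, hri, map_one, hm_one]
    rw [e1]
    exact (im R Q).add_mem (im_mul (h0 r) h) (h𝔓Q i hi)
  have h1 : ∀ a ∈ 𝔓, hm (e : ℤ) (F a) ∈ im R Q := by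
    intro a ha
    have h2 : s * a ^ (b + 1) ∈ Ideal.span {w} := by
      rw [hJ, mul_comm s]
      exact Ideal.mul_mem_mul (Ideal.pow_mem_pow ha _) hsJ
    obtain ⟨c, hc⟩ := Ideal.mem_span_singleton'.1 h2
    have h3 : hm 0 (F s) * hm (e : ℤ) (F a) ^ (b + 1) ∈ im R Q := by
      have e1 : hm 0 (F s) * hm (e : ℤ) (F a) ^ (b + 1) =
          hm 0 (F c) * hm ((e * (b + 1) : ℕ) : ℤ) (F w) := by
        rw [hm_pow, hm_mul, hm_mul, ← map_pow, ← map_mul, ← map_mul, hc]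
        congr 1
        push_cast
        ring
      rw [e1]
      exact im_mul (h0 c) hδ
    have hRa : hm (e : ℤ) (F a) ∈ R := by
      have h4 := hRp 1 a (by rwa [pow_one])
      rwa [mul_one] at h4
    by_contra hcon
    rcases im_prime hQ (h0 s) (R.pow_mem hRa _) h3 with h4 | h4
    · exact hsQ h4
    · exact im_pow hQ hRa hcon _ h4
  intro m hm0 x hx
  obtain ⟨c, hc, hmc⟩ : ∃ c, (m + (e - 1)) / e = c + 1 ∧ m ≤ e * (c + 1) := by
    have h2 : 1 ≤ (m + (e - 1)) / e := by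
      rw [Nat.one_le_div_iff he]
      omega
    refine ⟨(m + (e - 1)) / e - 1, by omega, ?_⟩
    rw [Nat.sub_add_cancel h2]
    have h3 := Nat.div_add_mod (m + (e - 1)) e
    have h4 := Nat.mod_lt (m + (e - 1)) he
    omega
  unfold PF at hx
  rw [hc, pow_succ'] at hx
  have h5 := im_mulI F h1 (hRp c) hx
  refine im_low' hT h5 ?_
  have : (m : ℤ) ≤ ((e * (c + 1) : ℕ) : ℤ) := by exact_mod_cast hmc
  push_cast at this ⊢
  linarith

end nd

end Pool.Agent.Zk10.PG
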