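import Pool.Agent.Zk10.W3
import Pool.Agent.Zk50.GenC
import Pool.Agent.R383.TM.Chart

/-!
The weighted blowup of the product.
-/

set_option autoImplicit false
set_option linter.unusedVariables false
set_option linter.unusedSectionVars false

namespace Pool.Agent.Zk10.PG

open Pool.Agent.Y223.G
open Pool.Agent.R383.TM (WR WR_s WR_e WR_o WR_z)

section wr

variable {k k' K : Type} [Field k] [CommRing k'] [Field K] [Algebra k K] [Algebra k' K] {n : ℕ}
  {B : Fin (n + 1) → Type} [∀ l, CommRing (B l)] [∀ l, Algebra k (B l)] [Algebra (B 0) K]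
  (f : ∀ l, B l →ₐ[k] K)

theorem RR_base (hk : ∀ c : k, ∃ c' : k', algebraMap k' K c' = algebraMap k K c)
    (hk' : ∀ c : k', ∃ o : B 0, f 0 o = algebraMap k' K c) (Φ : ∀ l, ℕ → Ideal (B l))
    (h0 : Φ 0 0 = ⊤) (g : LP K) :
    g ∈ RR k' (fun l => (f l : B l →+* K)) Φ ↔ g ∈ RR k (fun l => (f l : B l →+* K)) Φ := by
  constructor
  · intro hg
    unfold RR at hg
    induction hg using Algebra.adjoin_induction with
    | mem x hx => exact Algebra.subset_adjoin hx
    | algebraMap r =>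
      obtain ⟨o, ho⟩ := hk' r
      rw [algebraMap_LP, ← ho]
      have h1 := RR_g (k := k) (f := fun l => (f l : B l →+* K)) (Φ := Φ) (l := 0) (m := 0)
        (x := o) (by rw [h0]; trivial)
      exact_mod_cast h1
    | add x y _ _ hx hy => exact Subalgebra.add_mem _ hx hy
    | mul x y _ _ hx hy => exact Subalgebra.mul_mem _ hx hy
  · intro hg
    unfold RR at hg
    induction hg using Algebra.adjoin_induction with
    | mem x hx => exact Algebra.subset_adjoin hx
    | algebraMap r =>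
      obtain ⟨c, hc⟩ := hk r
      rw [algebraMap_LP, ← hc, ← algebraMap_LP]
      exact Subalgebra.algebraMap_mem _ c
    | add x y _ _ hx hy => exact Subalgebra.add_mem _ hx hy
    | mul x y _ _ hx hy => exact Subalgebra.mul_mem _ hx hy

theorem PF_self {O : Type} [CommRing O] (𝔓 : Ideal O) {e : ℕ} (he : 0 < e) : PF 𝔓 e e = 𝔓 := by
  unfold PF
  have h1 : (e + (e - 1)) / e = 1 := by
    rw [Nat.add_div_left _ he, Nat.div_eq_of_lt (by omega)]
  rw [h1, pow_one]

theorem WR_eq (hf0 : ∀ o, algebraMap (B 0) K o = f 0 o)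
    (hk : ∀ c : k, ∃ c' : k', algebraMap k' K c' = algebraMap k K c)
    (hk' : ∀ c : k', ∃ o : B 0, f 0 o = algebraMap k' K c) (𝔓 : Ideal (B 0)) (e : ℕ)
    (he : 0 < e) (Φ : ∀ l, ℕ → Ideal (B l)) (hΦ0 : Φ 0 = PF 𝔓 e) (D : ℕ) (hD : 0 < D)
    (hΦ : ∀ l, Flt (Φ l) D) (Z : ∀ l, Set (B l)) (h1 : ∀ l, (1 : B l) ∈ Z l)
    (hZ : ∀ l, Algebra.adjoin k (Z l) = ⊤)
    (hZ2 : ∀ l, ∀ m, m ≤ D → Φ l m = Ideal.span (Z l ∩ (Φ l m : Set (B l)))) (m : ℕ)
    (E : (∀ l, Z l) ≃ Fin (m + 1)) (hE : E (fun l => ⟨1, h1 l⟩) = 0) :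
    WR k' 𝔓 e (fun i => ∑ l, wgt (Φ l) D (E.symm i l : B l))
      (fun i => ∏ l, f l (E.symm i l : B l)) 0 = RR k' (fun l => (f l : B l →+* K)) Φ := by
  have hz0 : ∏ l, f l (E.symm 0 l : B l) = 1 := by
    rw [← hE, Equiv.symm_apply_apply]
    simp only [map_one, Finset.prod_const_one]
  have hRZ := RZ_eq f Φ D hD hΦ Z h1 hZ hZ2
  have h00 : Φ 0 0 = ⊤ := (hΦ 0).zero
  apply le_antisymm
  · unfold WR
    rw [Algebra.adjoin_le_iff]
    rintro g (((hg | ⟨a, ha, rfl⟩) | ⟨o, rfl⟩) | ⟨i, rfl⟩)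
    · rw [hg]
      exact RR_T
    · rw [hf0]
      exact RR_g (k := k') (f := fun l => (f l : B l →+* K)) (Φ := Φ) (l := 0) (m := e) (x := a)
        (by rw [hΦ0, PF_self 𝔓 he]; exact ha)
    · rw [hf0]
      have h2 := RR_g (k := k') (f := fun l => (f l : B l →+* K)) (Φ := Φ) (l := 0) (m := 0)
        (x := o) (by rw [h00]; trivial)
      exact_mod_cast h2
    · change hm ((∑ l, wgt (Φ l) D (E.symm i l : B l) : ℕ) : ℤ)
        ((∏ l, f l (E.symm i l : B l)) / (∏ l, f l (E.symm 0 l : B l))) ∈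
        RR k' (fun l => (f l : B l →+* K)) Φ
      rw [hz0, div_one]
      rw [RR_base f hk hk' Φ h00, ← hRZ]
      exact Algebra.subset_adjoin (Or.inr ⟨E.symm i, rfl⟩)
  · intro g hg
    rw [RR_base f hk hk' Φ h00, ← hRZ] at hg
    induction hg using Algebra.adjoin_induction with
    | mem x hx =>
      rcases hx with hx | ⟨a, rfl⟩
      · rw [Set.mem_singleton_iff] at hx
        rw [hx]
        exact WR_s
      · have h2 := WR_z (k := k') (𝔓 := 𝔓) (e := e)
          (W := fun i => ∑ l, wgt (Φ l) D (E.symm i l : B l))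
          (z := fun i => ∏ l, f l (E.symm i l : B l)) (j := 0) (E a)
        have h3 : hm ((∑ l, wgt (Φ l) D (E.symm (E a) l : B l) : ℕ) : ℤ)
          ((∏ l, f l (E.symm (E a) l : B l)) / (∏ l, f l (E.symm 0 l : B l))) ∈
          WR k' 𝔓 e (fun i => ∑ l, wgt (Φ l) D (E.symm i l : B l))
            (fun i => ∏ l, f l (E.symm i l : B l)) 0 := h2
        rw [hz0, div_one, Equiv.symm_apply_apply] at h3
        exact h3
    | algebraMap r =>
      obtain ⟨c, hc⟩ := hk r
      rw [algebraMap_LP, ← hc, ← algebraMap_LP]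
      exact Subalgebra.algebraMap_mem _ c
    | add x y _ _ hx hy => exact Subalgebra.add_mem _ hx hy
    | mul x y _ _ hx hy => exact Subalgebra.mul_mem _ hx hy

end wr

end Pool.Agent.Zk10.PG
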